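import Pool.Agent.H80.NV.Pb
import Pool.Agent.H87.GEN.Shr

/-!
# The plane of a ball, two coordinates and the target

`bal_two`: for the chain `c 0, c 1` and the target `c 2`.
-/

set_option autoImplicit false

namespace Pool.NVX

open Finset Real MvPolynomial
open Pool.Agent.H49.Ent Pool.Agent.H32.Dense Pool.STK Pool.KA Pool.KSAT Pool.K2S Pool.PB Pool.S6C
open Pool.GEN Pool.CHT
open Pool.D2R (dd hs dd_add dd_smul dd_congr)
open Pool.SHR (dir mvp dvc meanv mvp_none mvp_some dir_deg dir_dep)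
open Pool.PB.Trl (rt rt_mem t_rt)

variable {m J : ℕ}

/-- **The lines through one exact point stay in the natural box**, labels `c l`, `l < i`. -/
def Pth (F : Fam m J) (c : ℕ → Fin m) (i a n : ℕ) (g : ℕ → ℕ) (B : F.Ω → Prop)
    (G : PtT F → ℕ → MvPolynomial (Option (Fin m)) ℝ) : Prop :=
  ∀ ω ν, B ω → B ν → ptr F J ω = ptr F J ν → ∀ s : ℝ, -rt F a ν ≤ s → s ≤ 1 - rt F a ν →
    ∀ l < i, |(bt F ω + s • vl F a ν) (some (c l)) -
      eval (bt F ω + s • vl F a ν) (G (ptr F J ω) l)| ≤ 2 ^ n / 2 ^ g l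

/-- **Separated lines** through the point of `ω`. -/
def Sep (F : Fam m J) (c : ℕ → Fin m) (B : F.Ω → Prop) (σ : ℝ) (N : ℕ) (ω : F.Ω) : Prop :=
  ∃ ν : Fin N → F.Ω, (∀ i, B (ν i) ∧ ptr F J (ν i) = ptr F J ω) ∧
    (∀ i, σ ≤ |bd F ω (some (c 0)) - bd F (ν i) (some (c 0))|) ∧
    ∀ i j, i ≠ j → σ ≤ |bd F (ν i) (some (c 0)) - bd F (ν j) (some (c 0))|

/-- **The direction of the plane** and a line through the point, as functions of the point. -/
theorem x_ex (F : Fam m J) (c : ℕ → Fin m) (a : ℕ) (g : ℕ → ℕ) (B : F.Ω → Prop) {σ : ℝ}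
    (hσ : 0 < σ) : ∃ (X : PtT F → Option (Fin m) → ℝ) (ν₀ : PtT F → F.Ω → F.Ω), ∀ ω, B ω →
      (∃ ν, B ν ∧ ptr F J ν = ptr F J ω ∧ σ ≤ |bd F ω (some (c 0)) - bd F ν (some (c 0))|) →
      X (ptr F J ω) none = 0 ∧ X (ptr F J ω) (some (c 0)) = 1 ∧
      ∃ ν₁ ν₂, B ν₁ ∧ ptr F J ν₁ = ptr F J ω ∧ B ν₂ ∧ ptr F J ν₂ = ptr F J ω ∧
        (∀ ω₀, ν₀ (ptr F J ω) ω₀ = ν₁) ∧ ∃ δ : ℝ, |δ| ≤ 2 ^ a / 2 ^ g 0 / σ ∧
        (1 / 2 ^ g 0 : ℝ) • X (ptr F J ω) = δ • (vl F a ν₁ - vl F a ν₂) := by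
  classical
  obtain ⟨Q, hQ⟩ : ∃ Q : PtT F → F.Ω × F.Ω → Prop, Q = fun y p => B p.1 ∧ B p.2 ∧
      ptr F J p.1 = y ∧ ptr F J p.2 = y ∧
      σ ≤ |bd F p.1 (some (c 0)) - bd F p.2 (some (c 0))| := ⟨_, rfl⟩
  refine ⟨fun y => if h : ∃ p, Q y p then
      (bd F h.choose.1 (some (c 0)) - bd F h.choose.2 (some (c 0)))⁻¹ •
        (bd F h.choose.1 - bd F h.choose.2) else 0,
    fun y ω₀ => if h : ∃ p, Q y p then h.choose.1 else ω₀, ?_⟩
  rintro ω hω ⟨ν, hν, hpt, hs⟩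
  have hex : ∃ p, Q (ptr F J ω) p := ⟨(ω, ν), by
    rw [hQ]
    exact ⟨hω, hν, rfl, hpt, hs⟩⟩
  have hch := hex.choose_spec
  obtain ⟨p, hp⟩ : ∃ p, p = hex.choose := ⟨_, rfl⟩
  rw [← hp, hQ] at hch
  obtain ⟨h1, h2, h3, h4, h5⟩ := hch
  obtain ⟨E, hE⟩ : ∃ E, E = bd F p.1 (some (c 0)) - bd F p.2 (some (c 0)) := ⟨_, rfl⟩
  rw [← hE] at h5
  have hE0 : 0 < |E| := hσ.trans_le h5
  have hE1 : E ≠ 0 := abs_pos.1 hE0
  have eX : (if h : ∃ p, Q (ptr F J ω) p then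
      (bd F h.choose.1 (some (c 0)) - bd F h.choose.2 (some (c 0)))⁻¹ •
        (bd F h.choose.1 - bd F h.choose.2) else 0) = E⁻¹ • (bd F p.1 - bd F p.2) := by
    rw [dif_pos hex, ← hp, ← hE]
  show (if h : ∃ p, Q (ptr F J ω) p then
      (bd F h.choose.1 (some (c 0)) - bd F h.choose.2 (some (c 0)))⁻¹ •
        (bd F h.choose.1 - bd F h.choose.2) else 0) none = 0 ∧
    (if h : ∃ p, Q (ptr F J ω) p then
      (bd F h.choose.1 (some (c 0)) - bd F h.choose.2 (some (c 0)))⁻¹ •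
        (bd F h.choose.1 - bd F h.choose.2) else 0) (some (c 0)) = 1 ∧ _
  rw [eX]
  refine ⟨?_, ?_, p.1, p.2, h1, h3, h2, h4, fun ω₀ => ?_, 2 ^ a * (1 / 2 ^ g 0) * E⁻¹, ?_, ?_⟩
  · rw [Pi.smul_apply, Pi.sub_apply]
    show E⁻¹ • ((1 : ℝ) - 1) = 0
    rw [sub_self, smul_zero]
  · rw [Pi.smul_apply, Pi.sub_apply, smul_eq_mul, ← hE, inv_mul_cancel₀ hE1]
  · show (if h : ∃ p, Q (ptr F J ω) p then h.choose.1 else ω₀) = p.1
    rw [dif_pos hex, hp]
  · rw [abs_mul, abs_inv, abs_of_pos (show (0 : ℝ) < 2 ^ a * (1 / 2 ^ g 0) by positivity),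
      ← div_eq_mul_inv, mul_one_div]
    exact div_le_div_of_nonneg_left (by positivity) hσ h5
  · show (1 / 2 ^ g 0 : ℝ) • (if h : ∃ p, Q (ptr F J ω) p then
      (bd F h.choose.1 (some (c 0)) - bd F h.choose.2 (some (c 0)))⁻¹ •
        (bd F h.choose.1 - bd F h.choose.2) else 0) = _
    rw [eX]
    unfold vl
    rw [← smul_sub, smul_smul, smul_smul]
    congr 1
    field_simp

/-- The direction `e_k`. -/
noncomputable def ek (k : Fin m) : Fin m → ℝ := Function.update 0 k 1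

theorem ek_self (k : Fin m) : ek k k = 1 := Function.update_self _ _ _

theorem ek_ne {k k' : Fin m} (h : k' ≠ k) : ek k k' = 0 := by
  unfold ek
  rw [Function.update_of_ne h]
  rfl

theorem dd_sub_right (R : MvPolynomial (Option (Fin m)) ℝ) (x W V : Option (Fin m) → ℝ) :
    dd R x (W - V) = dd R x W - dd R x V := by
  rw [sub_eq_add_neg, dd_add, ← neg_one_smul ℝ V, dd_smul]
  ring

/-- **The plane of a ball**, for the chain `c 0, c 1` and the target `c 2`. -/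
theorem bal_two (D : ℕ) (hD : 1 ≤ D) : ∃ C : ℕ, ∀ {m J : ℕ} {F : Fam m J} {c : ℕ → Fin m}
    {a n h : ℕ} {g : ℕ → ℕ} {B : F.Ω → Prop}
    {G : PtT F → ℕ → MvPolynomial (Option (Fin m)) ℝ} {al : PtT F → ℝ} {ζ E : ℝ},
    Set.InjOn c (Set.Iio 3) → a ≤ J → (∀ y l, (G y l).totalDegree ≤ D) →
    (∀ y l, DepC c l (G y l)) → Pth F c 3 a n g B G →
    (∀ ω, B ω → ∃ p q : ℝ, ∀ ν, B ν → ptr F J ν = ptr F J ω →
      |bd F ν (some (c 1)) - (p + q * bd F ν (some (c 0)))| ≤ ζ) → ζ ≤ 2 ^ a / 2 ^ g 1 →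
    (∀ ω, B ω → ∀ b, NBx c (G (ptr F J ω)) g a (F.t ω) 2 b →
      |eval b (dir (ek (c 1)) (G (ptr F J ω) 2)) - al (ptr F J ω)| ≤ E) →
    ∃ (X : PtT F → Option (Fin m) → ℝ) (ν₀ : PtT F → F.Ω → F.Ω), ∀ ω, B ω →
      Sep F c B (2 ^ a / 2 ^ (g 0 + h + 3)) (D + 1) ω →
      X (ptr F J ω) none = 0 ∧ X (ptr F J ω) (some (c 0)) = 1 ∧
      (∀ k, |X (ptr F J ω) (some k)| ≤ 2 ^ (g 0 + h + 4) / 2 ^ a) ∧
      (∃ ν₁, B ν₁ ∧ ptr F J ν₁ = ptr F J ω ∧ (∀ ω₀, ν₀ (ptr F J ω) ω₀ = ν₁) ∧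
        (∃ (ν₂ : F.Ω) (δ : ℝ), B ν₂ ∧ ptr F J ν₂ = ptr F J ω ∧ |δ| ≤ 2 ^ (h + 3) ∧
          (1 / 2 ^ g 0 : ℝ) • X (ptr F J ω) = δ • (vl F a ν₁ - vl F a ν₂)) ∧
        |(bd F ω (some (c 1)) - bd F ν₁ (some (c 1))) - X (ptr F J ω) (some (c 1)) *
          (bd F ω (some (c 0)) - bd F ν₁ (some (c 0)))| ≤ 2 ^ (C * (n + h + 1)) * ζ) ∧
      (∀ l < 3, |((1 / 2 ^ g 0 : ℝ) • X (ptr F J ω)) (some (c l)) -
        dd (G (ptr F J ω) l) (bt F ω) ((1 / 2 ^ g 0 : ℝ) • X (ptr F J ω))| ≤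
          2 ^ (C * (n + h + 1)) / 2 ^ g l) ∧
      ∀ α β : ℝ, |α| ≤ 2 → |β| ≤ 2 →
        (∀ l < 2, |(bt F ω + α • vl F a ω + β • ((1 / 2 ^ g 0 : ℝ) • X (ptr F J ω)))
            (some (c l)) -
          eval (bt F ω + α • vl F a ω + β • ((1 / 2 ^ g 0 : ℝ) • X (ptr F J ω)))
            (G (ptr F J ω) l)| ≤ 2 ^ (C * (n + h + 1)) / 2 ^ g l) ∧
        |(bt F ω + α • vl F a ω + β • ((1 / 2 ^ g 0 : ℝ) • X (ptr F J ω))) (some (c 2)) -
          eval (bt F ω + α • vl F a ω + β • ((1 / 2 ^ g 0 : ℝ) • X (ptr F J ω)))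
            (G (ptr F J ω) 2)| ≤ 2 ^ (C * (n + h + 1)) * (1 / 2 ^ g 2 + ζ / 2 ^ a * E) := by
  obtain ⟨C₁, hC₁, N, hpb⟩ := pb_one D hD
  obtain ⟨C₂, hC₂, hvel⟩ := vel_one D
  obtain ⟨c₀, D₁, hD₁, hdil⟩ := nbx_dil 3 (fun _ => D)
  obtain ⟨c₁, hc₁⟩ := pow_unbounded_of_one_lt C₁ (one_lt_two (α := ℝ))
  obtain ⟨c₂, hc₂⟩ := pow_unbounded_of_one_lt C₂ (one_lt_two (α := ℝ))
  have pw : ∀ {x y : ℕ}, x ≤ y → (2 : ℝ) ^ x ≤ 2 ^ y := fun h => pow_le_pow_right₀ (by norm_num) h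
  refine ⟨c₁ + (c₂ + 5) * N + 2 * c₂ + 12 + c₀ + (c₂ + 9) * D₁ + c₂ + 8, ?_⟩
  intro m J F c a n h g B G al ζ E hc haJ hdG hdep hpth hdeep hζ hal
  obtain ⟨T, hT⟩ : ∃ T, T = n + h + 1 := ⟨_, rfl⟩
  have hT1 : 1 ≤ T := by omega
  have hC0 : c₂ + 20 ≤ c₁ + (c₂ + 5) * N + 2 * c₂ + 12 + c₀ + (c₂ + 9) * D₁ + c₂ + 8 := by
    omega
  have hσ : (0 : ℝ) < 2 ^ a / 2 ^ (g 0 + h + 3) := by positivity
  obtain ⟨X, ν₀, hX⟩ := x_ex F c a g B hσ
  refine ⟨X, ν₀, fun ω hω hsep => ?_⟩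
  obtain ⟨ν, hν1, hν2, hν3⟩ := hsep
  obtain ⟨hX0, hX1, ν₁, ν₂, hB₁, hp₁, hB₂, hp₂, hν₀, δ, hδ, hXd⟩ := hX ω hω
    ⟨ν 0, (hν1 0).1, (hν1 0).2, hν2 0⟩
  have hδ' : |δ| ≤ 2 ^ (h + 3) := by
    refine hδ.trans (le_of_eq ?_)
    rw [show g 0 + h + 3 = g 0 + (h + 3) by omega, pow_add]
    field_simp
  obtain ⟨x, hx⟩ : ∃ x, x = bt F ω := ⟨_, rfl⟩
  obtain ⟨U₀, hU₀⟩ : ∃ U, U = vl F a ω := ⟨_, rfl⟩
  obtain ⟨U₁, hU₁⟩ : ∃ U, U = (1 / 2 ^ g 0 : ℝ) • X (ptr F J ω) := ⟨_, rfl⟩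
  obtain ⟨Gw, hGw⟩ : ∃ Gw, Gw = G (ptr F J ω) := ⟨_, rfl⟩
  have hGd : ∀ l, (Gw l).totalDegree ≤ D := fun l => by rw [hGw]; exact hdG _ l
  have hGp : ∀ l, DepC c l (Gw l) := fun l => by rw [hGw]; exact hdep _ l
  have hU0n : U₀ none = 1 / 2 ^ a := by rw [hU₀]; exact vl_none F a ω
  have hU1n : U₁ none = 0 := by rw [hU₁, Pi.smul_apply, hX0, smul_zero]
  have hU1c : U₁ (some (c 0)) = 1 / 2 ^ g 0 := by
    rw [hU₁, Pi.smul_apply, hX1, smul_eq_mul, mul_one]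
  -- the lines
  have hpath : ∀ μ, B μ → ptr F J μ = ptr F J ω → ∀ s : ℝ, -rt F a μ ≤ s → s ≤ 1 - rt F a μ →
      ∀ l < 3, |(x + s • vl F a μ) (some (c l)) - eval (x + s • vl F a μ) (Gw l)| ≤
        2 ^ n / 2 ^ g l := by
    intro μ hμ hpt s h0 h1 l hl
    rw [hx, hGw]
    exact hpth ω μ hω hμ hpt.symm s h0 h1 l hl
  have hvl : ∀ μ, B μ → ptr F J μ = ptr F J ω → ∀ l < 3,
      |vl F a μ (some (c l)) - dd (Gw l) x (vl F a μ)| ≤ 2 ^ (c₂ + n) / 2 ^ g l := by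
    intro μ hμ hpt l hl
    have hrt := rt_mem F a μ
    refine (hvel (Gw l) x (vl F a μ) (some (c l)) (rt F a μ) (2 ^ n / 2 ^ g l) (hGd l) hrt.1 hrt.2
      fun s h0 h1 => hpath μ hμ hpt s h0 h1 l hl).trans ?_
    rw [pow_add, mul_div_assoc]
    exact mul_le_mul_of_nonneg_right hc₂.le (by positivity)
  have hc1 : (c 0 : Fin m) ≠ c 1 := fun h => by
    have := hc (show (0 : ℕ) ∈ Set.Iio 3 by norm_num) (show (1 : ℕ) ∈ Set.Iio 3 by norm_num) h
    omega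
  -- the natural size of the velocities
  have hη : ∀ μ, B μ → ptr F J μ = ptr F J ω →
      |2 ^ g 0 * (vl F a μ (some (c 0)) - vl F a ω (some (c 0)))| ≤ 2 ^ (c₂ + n + 1) := by
    intro μ hμ hpt
    have h1 := hvl μ hμ hpt 0 (by norm_num)
    have h2 := hvl ω hω rfl 0 (by norm_num)
    have h3 : dd (Gw 0) x (vl F a μ) = dd (Gw 0) x (vl F a ω) :=
      dd_congr (hGp 0) x (by rw [vl_none, vl_none]) fun l hl => absurd hl (Nat.not_lt_zero l)
    rw [abs_mul, abs_of_pos (show (0 : ℝ) < 2 ^ g 0 by positivity)]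
    have h4 : |vl F a μ (some (c 0)) - vl F a ω (some (c 0))| ≤
        2 ^ (c₂ + n) / 2 ^ g 0 + 2 ^ (c₂ + n) / 2 ^ g 0 := by
      have e1 : vl F a μ (some (c 0)) - vl F a ω (some (c 0)) =
          (vl F a μ (some (c 0)) - dd (Gw 0) x (vl F a μ)) -
          (vl F a ω (some (c 0)) - dd (Gw 0) x (vl F a ω)) := by rw [h3]; ring
      rw [e1]
      exact (abs_sub _ _).trans (add_le_add h1 h2)
    calc 2 ^ g 0 * |vl F a μ (some (c 0)) - vl F a ω (some (c 0))| ≤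
        2 ^ g 0 * (2 ^ (c₂ + n) / 2 ^ g 0 + 2 ^ (c₂ + n) / 2 ^ g 0) :=
          mul_le_mul_of_nonneg_left h4 (by positivity)
      _ = 2 ^ (c₂ + n + 1) := by rw [pow_succ]; field_simp; ring
  -- the deep velocities
  obtain ⟨p, q, hpq⟩ := hdeep ω hω
  obtain ⟨f, hf⟩ : ∃ f : F.Ω → ℝ, f = fun μ => bd F μ (some (c 1)) - q * bd F μ (some (c 0)) :=
    ⟨_, rfl⟩
  have hff : ∀ μ μ', B μ → ptr F J μ = ptr F J ω → B μ' → ptr F J μ' = ptr F J ω →
      |f μ - f μ'| ≤ 2 * ζ := by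
    intro μ μ' h1 h2 h3 h4
    have e1 : f μ - f μ' = (bd F μ (some (c 1)) - (p + q * bd F μ (some (c 0)))) -
        (bd F μ' (some (c 1)) - (p + q * bd F μ' (some (c 0)))) := by rw [hf]; ring
    rw [e1]
    refine (abs_sub _ _).trans ?_
    linarith [hpq μ h1 h2, hpq μ' h3 h4]
  have hζ0 : 0 ≤ ζ := (abs_nonneg _).trans (hpq ω hω rfl)
  have hU1f : |U₁ (some (c 1)) - q * U₁ (some (c 0))| ≤ 2 ^ (h + 4) * (ζ / 2 ^ a) := by
    have e1 : U₁ (some (c 1)) - q * U₁ (some (c 0)) = δ * (1 / 2 ^ a * (f ν₁ - f ν₂)) := by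
      rw [hU₁, hXd, hf]
      simp only [Pi.smul_apply, Pi.sub_apply, smul_eq_mul, vl]
      ring
    rw [e1, abs_mul, abs_mul, abs_of_pos (show (0 : ℝ) < 1 / 2 ^ a by positivity)]
    have h1 := hff ν₁ ν₂ hB₁ hp₁ hB₂ hp₂
    calc |δ| * (1 / 2 ^ a * |f ν₁ - f ν₂|) ≤ 2 ^ (h + 3) * (1 / 2 ^ a * (2 * ζ)) :=
          mul_le_mul hδ' (mul_le_mul_of_nonneg_left h1 (by positivity)) (by positivity)
            (by positivity)
      _ = _ := by rw [pow_succ 2 (h + 3)]; ring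
  obtain ⟨R, hR⟩ : ∃ R : ℝ, R = 2 ^ (c₂ + n + 2) := ⟨_, rfl⟩
  have hR4 : 4 ≤ R := by
    rw [hR]
    calc (4 : ℝ) = 2 ^ 2 := by norm_num
      _ ≤ _ := pw (by omega)
  have hηR : ∀ μ, B μ → ptr F J μ = ptr F J ω →
      |2 ^ g 0 * (vl F a μ (some (c 0)) - vl F a ω (some (c 0)))| ≤ R := fun μ h1 h2 =>
    (hη μ h1 h2).trans (by rw [hR]; exact pw (by omega))
  obtain ⟨z, hz⟩ : ∃ z, z = n + h + c₂ + 7 := ⟨_, rfl⟩
  have hzR : 2 + R * 2 ^ (h + 4) ≤ 2 ^ z := by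
    rw [hR, ← pow_add, hz]
    have e1 : (2 : ℝ) ^ (n + h + c₂ + 7) = 2 * 2 ^ (c₂ + n + 2 + (h + 4)) := by
      rw [← pow_succ']
      congr 1
      omega
    have e2 : (2 : ℝ) ≤ 2 ^ (c₂ + n + 2 + (h + 4)) := by
      calc (2 : ℝ) = 2 ^ 1 := (pow_one 2).symm
        _ ≤ _ := pw (by omega)
    rw [e1]
    linarith
  -- the deviation of a line from the plane
  have hzj : ∀ μ, B μ → ptr F J μ = ptr F J ω → |vl F a μ (some (c 1)) - U₀ (some (c 1)) -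
      2 ^ g 0 * (vl F a μ (some (c 0)) - vl F a ω (some (c 0))) * U₁ (some (c 1))| ≤
        2 ^ z * (ζ / 2 ^ a) := by
    intro μ hμ hpt
    obtain ⟨y, hy⟩ : ∃ y, y = 2 ^ g 0 * (vl F a μ (some (c 0)) - vl F a ω (some (c 0))) :=
      ⟨_, rfl⟩
    have hyR := hηR μ hμ hpt
    rw [← hy] at hyR ⊢
    have e0 : vl F a μ (some (c 0)) - U₀ (some (c 0)) - y * U₁ (some (c 0)) = 0 := by
      rw [hU1c, hy, hU₀]
      field_simp
      ring
    have e1 : vl F a μ (some (c 1)) - U₀ (some (c 1)) - y * U₁ (some (c 1)) =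
        1 / 2 ^ a * (f μ - f ω) - y * (U₁ (some (c 1)) - q * U₁ (some (c 0))) +
        q * (vl F a μ (some (c 0)) - U₀ (some (c 0)) - y * U₁ (some (c 0))) := by
      rw [hU₀, hf]
      simp only [vl, Pi.smul_apply, smul_eq_mul]
      ring
    rw [e1, e0, mul_zero, add_zero]
    refine (abs_sub _ _).trans ?_
    rw [abs_mul, abs_mul, abs_of_pos (show (0 : ℝ) < 1 / 2 ^ a by positivity)]
    have h1 := hff μ ω hμ hpt hω rfl
    have h2 : |y| * |U₁ (some (c 1)) - q * U₁ (some (c 0))| ≤ R * (2 ^ (h + 4) * (ζ / 2 ^ a)) :=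
      mul_le_mul hyR hU1f (abs_nonneg _) (by linarith)
    have h3 : 1 / 2 ^ a * |f μ - f ω| ≤ 1 / 2 ^ a * (2 * ζ) :=
      mul_le_mul_of_nonneg_left h1 (by positivity)
    have h4 : (2 + R * 2 ^ (h + 4)) * (ζ / 2 ^ a) ≤ 2 ^ z * (ζ / 2 ^ a) :=
      mul_le_mul_of_nonneg_right hzR (by positivity)
    have h5 : 1 / 2 ^ a * (2 * ζ) + R * (2 ^ (h + 4) * (ζ / 2 ^ a)) =
        (2 + R * 2 ^ (h + 4)) * (ζ / 2 ^ a) := by ring
    linarith
  have hU1d : ∀ l < 3, |U₁ (some (c l)) - dd (Gw l) x U₁| ≤ 2 ^ (h + 4 + c₂ + n) / 2 ^ g l := by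
    intro l hl
    have e1 : U₁ (some (c l)) - dd (Gw l) x U₁ =
        δ * ((vl F a ν₁ (some (c l)) - dd (Gw l) x (vl F a ν₁)) -
          (vl F a ν₂ (some (c l)) - dd (Gw l) x (vl F a ν₂))) := by
      rw [hU₁, hXd, dd_smul, dd_sub_right, Pi.smul_apply, Pi.sub_apply, smul_eq_mul]
      ring
    rw [e1, abs_mul]
    have h1 := hvl ν₁ hB₁ hp₁ l hl
    have h2 := hvl ν₂ hB₂ hp₂ l hl
    have h3 := (abs_sub (vl F a ν₁ (some (c l)) - dd (Gw l) x (vl F a ν₁))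
      (vl F a ν₂ (some (c l)) - dd (Gw l) x (vl F a ν₂))).trans (add_le_add h1 h2)
    calc |δ| * _ ≤ 2 ^ (h + 3) * (2 ^ (c₂ + n) / 2 ^ g l + 2 ^ (c₂ + n) / 2 ^ g l) :=
          mul_le_mul hδ' h3 (abs_nonneg _) (by positivity)
      _ = _ := by
          rw [show h + 4 + c₂ + n = (h + 3) + (c₂ + n) + 1 by omega, pow_succ, pow_add]
          ring
  have hXk : ∀ k, |X (ptr F J ω) (some k)| ≤ 2 ^ (g 0 + h + 4) / 2 ^ a := by
    intro k
    have h1 := congrFun hXd (some k)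
    simp only [Pi.smul_apply, Pi.sub_apply, smul_eq_mul, vl] at h1
    have h2 : |bd F ν₁ (some k) - bd F ν₂ (some k)| ≤ 2 := by
      refine (abs_sub _ _).trans ?_
      have g1 : |bd F ν₁ (some k)| ≤ 1 := F.dir ν₁ k
      have g2 : |bd F ν₂ (some k)| ≤ 1 := F.dir ν₂ k
      linarith
    have e1 : X (ptr F J ω) (some k) = 2 ^ g 0 / 2 ^ a *
        (δ * (bd F ν₁ (some k) - bd F ν₂ (some k))) := by
      have h3 : X (ptr F J ω) (some k) = 2 ^ g 0 * (1 / 2 ^ g 0 * X (ptr F J ω) (some k)) := by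
        field_simp
      rw [h3, h1]
      ring
    rw [e1, abs_mul, abs_mul, abs_of_pos (show (0 : ℝ) < 2 ^ g 0 / 2 ^ a by positivity)]
    calc (2 : ℝ) ^ g 0 / 2 ^ a * (|δ| * |bd F ν₁ (some k) - bd F ν₂ (some k)|) ≤
        2 ^ g 0 / 2 ^ a * (2 ^ (h + 3) * 2) :=
          mul_le_mul_of_nonneg_left (mul_le_mul hδ' h2 (abs_nonneg _) (by positivity))
            (by positivity)
      _ = _ := by
          rw [show g 0 + h + 4 = g 0 + ((h + 3) + 1) by omega, pow_add 2 (g 0), pow_succ 2 (h + 3)]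
          ring
  refine ⟨hX0, hX1, hXk, ⟨ν₁, hB₁, hp₁, hν₀, ⟨ν₂, δ, hB₂, hp₂, hδ', hXd⟩, ?_⟩, fun l hl => ?_,
    fun α β hα hβ => ?_⟩
  · have e1 : (bd F ω (some (c 1)) - bd F ν₁ (some (c 1))) - X (ptr F J ω) (some (c 1)) *
          (bd F ω (some (c 0)) - bd F ν₁ (some (c 0))) =
        -(2 ^ a * (vl F a ν₁ (some (c 1)) - U₀ (some (c 1)) -
      2 ^ g 0 * (vl F a ν₁ (some (c 0)) - vl F a ω (some (c 0))) * U₁ (some (c 1)))) := by
      rw [hU₀, hU₁]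
      simp only [vl, Pi.smul_apply, smul_eq_mul]
      field_simp
      ring
    rw [e1, abs_neg, abs_mul, abs_of_pos (show (0 : ℝ) < 2 ^ a by positivity)]
    calc 2 ^ a * _ ≤ 2 ^ a * (2 ^ z * (ζ / 2 ^ a)) :=
          mul_le_mul_of_nonneg_left (hzj ν₁ hB₁ hp₁) (by positivity)
      _ = 2 ^ z * ζ := by field_simp
      _ ≤ _ := by
          refine mul_le_mul_of_nonneg_right (pw ?_) hζ0
          refine le_trans ?_ (Nat.mul_le_mul_right _ hC0)
          rw [hz, ← hT, Nat.add_mul]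
          have : c₂ ≤ c₂ * T := Nat.le_mul_of_pos_right _ hT1
          omega
  · rw [← hU₁, ← hx, ← hGw]
    refine (hU1d l hl).trans (div_le_div_of_nonneg_right (pw ?_) (by positivity))
    refine le_trans ?_ (Nat.mul_le_mul_right _ hC0)
    rw [← hT, Nat.add_mul]
    have : c₂ ≤ c₂ * T := Nat.le_mul_of_pos_right _ hT1
    omega
  -- the plane
  rw [← hx, ← hU₀, ← hU₁, ← hGw]
  have hmu : (0 : ℝ) < 1 / 2 ^ (h + 3) := by positivity
  have hmu1 : (1 : ℝ) / 2 ^ (h + 3) ≤ 1 := by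
    rw [div_le_one (by positivity)]
    exact one_le_pow₀ (by norm_num)
  have hRmu : R / (1 / 2 ^ (h + 3)) = 2 ^ (c₂ + n + h + 5) := by
    rw [hR, div_div_eq_mul_div, div_one, ← pow_add]
    congr 1
    omega
  obtain ⟨V, hV⟩ : ∃ V : Fin (D + 1) → Option (Fin m) → ℝ, V = fun j => vl F a (ν j) := ⟨_, rfl⟩
  obtain ⟨η, hη'⟩ : ∃ η : Fin (D + 1) → ℝ, η = fun j =>
      2 ^ g 0 * (vl F a (ν j) (some (c 0)) - vl F a ω (some (c 0))) := ⟨_, rfl⟩
  have hsepη : ∀ j j', j ≠ j' → 1 / 2 ^ (h + 3) ≤ |η j - η j'| := by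
    intro j j' hjj
    have h1 := hν3 j j' hjj
    have e1 : η j - η j' = 2 ^ g 0 / 2 ^ a * (bd F (ν j) (some (c 0)) - bd F (ν j') (some (c 0))) := by
      rw [hη']
      simp only [vl, Pi.smul_apply, smul_eq_mul]
      ring
    rw [e1, abs_mul, abs_of_pos (show (0 : ℝ) < 2 ^ g 0 / 2 ^ a by positivity)]
    calc (1 : ℝ) / 2 ^ (h + 3) = 2 ^ g 0 / 2 ^ a * (2 ^ a / 2 ^ (g 0 + h + 3)) := by
          rw [show g 0 + h + 3 = g 0 + (h + 3) by omega, pow_add 2 (g 0) (h + 3)]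
          field_simp
      _ ≤ _ := mul_le_mul_of_nonneg_left h1 (by positivity)
  -- the points on the plane and on the lines
  have hpt0 : ∀ (j : Fin (D + 1)) (t : ℝ), (x + t • (U₀ + η j • U₁)) none = (x + t • V j) none := by
    intro j t
    simp only [Pi.add_apply, Pi.smul_apply, smul_eq_mul]
    rw [hU1n, hU0n, hV]
    show x none + t * (1 / 2 ^ a + η j * 0) = x none + t * vl F a (ν j) none
    rw [vl_none]
    ring
  have hpt1 : ∀ (j : Fin (D + 1)) (t : ℝ),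
      (x + t • (U₀ + η j • U₁)) (some (c 0)) = (x + t • V j) (some (c 0)) := by
    intro j t
    simp only [Pi.add_apply, Pi.smul_apply, smul_eq_mul]
    rw [hU1c, hU₀, hV, hη']
    field_simp
    ring
  have hdepl : ∀ l < 2, ∀ (j : Fin (D + 1)) (t : ℝ), eval (x + t • (U₀ + η j • U₁)) (Gw l) =
      eval (x + t • V j) (Gw l) := by
    intro l hl j t
    refine hGp l _ _ (hpt0 j t) fun k hk => ?_
    have : k = 0 := by omega
    subst this
    exact hpt1 j t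
  have hrtw := rt_mem F a ω
  have key : ∀ l < 3, ∀ (L : Fin (D + 1) → ℝ) (e₂ : ℝ), (∀ j, ∀ t : ℝ, -rt F a (ν j) ≤ t →
      t ≤ 1 - rt F a (ν j) →
      |eval (x + t • (U₀ + η j • U₁)) (Gw l) - eval (x + t • V j) (Gw l) - t * L j| ≤ e₂) →
      |(x + α • U₀ + β • U₁) (some (c l)) - eval (x + α • U₀ + β • U₁) (Gw l)| ≤
        2 ^ (c₁ + (c₂ + 5) * N * T) * (2 ^ n / 2 ^ g l + e₂) +
          2 ^ (2 * c₂ + 2 * n + h + 6) / 2 ^ g l := by
    intro l hl L e₂ hL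
    have h1 := hpb (Gw l) x U₀ U₁ V (some (c l)) η (fun j => rt F a (ν j)) L (rt F a ω) R
      (1 / 2 ^ (h + 3)) (2 ^ n / 2 ^ g l) e₂ (2 ^ (h + 4 + c₂ + n) / 2 ^ g l) (hGd l)
      (by linarith) hmu hmu1 (fun j => by
        rw [hη']
        exact hηR (ν j) (hν1 j).1 (hν1 j).2) hsepη (fun j => rt_mem F a (ν j)) hrtw.1 hrtw.2
      (fun t h0 h1 => by
        rw [hU₀]
        exact hpath ω hω rfl t h0 h1 l hl)
      (fun j t h0 h1 => by
        rw [hV]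
        exact hpath (ν j) (hν1 j).1 (hν1 j).2 t h0 h1 l hl) hL (hU1d l hl) α β
      (hα.trans (by linarith)) (hβ.trans (by linarith))
    have he₂ : 0 ≤ e₂ := (abs_nonneg _).trans (hL 0 0 (by
      have := (rt_mem F a (ν 0)).1
      linarith) (by
      have := (rt_mem F a (ν 0)).2
      linarith))
    refine h1.trans (add_le_add ?_ ?_)
    · refine mul_le_mul_of_nonneg_right ?_ (by positivity)
      rw [hRmu, ← pow_mul, pow_add]
      refine mul_le_mul hc₁.le (pw ?_) (by positivity) (by positivity)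
      calc (c₂ + n + h + 5) * N ≤ ((c₂ + 5) * T) * N := by
            refine Nat.mul_le_mul_right _ ?_
            rw [hT]
            nlinarith
        _ = _ := by ring
    · rw [hR, ← mul_div_assoc, ← pow_add]
      refine div_le_div_of_nonneg_right (pw ?_) (by positivity)
      omega
  have hNT : (c₂ + 5) * N * T ≤ (c₂ + 5) * N * T := le_rfl
  constructor
  · intro l hl
    refine (key l (by omega) (fun _ => 0) 0 (fun j t _ _ => by
      rw [hdepl l hl, mul_zero, sub_self, sub_zero, abs_zero])).trans ?_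
    rw [add_zero, ← mul_div_assoc, ← pow_add, ← add_div]
    refine div_le_div_of_nonneg_right ?_ (by positivity)
    have h1 : (2 : ℝ) ^ (c₁ + (c₂ + 5) * N * T + n) + 2 ^ (2 * c₂ + 2 * n + h + 6) ≤
        2 ^ (c₁ + (c₂ + 5) * N * T + n + (2 * c₂ + 2 * n + h + 6) + 1) := by
      have g1 : (2 : ℝ) ^ (c₁ + (c₂ + 5) * N * T + n) ≤
          2 ^ (c₁ + (c₂ + 5) * N * T + n + (2 * c₂ + 2 * n + h + 6)) := pw (by omega)
      have g2 : (2 : ℝ) ^ (2 * c₂ + 2 * n + h + 6) ≤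
          2 ^ (c₁ + (c₂ + 5) * N * T + n + (2 * c₂ + 2 * n + h + 6)) := pw (by omega)
      have g3 : (2 : ℝ) ^ (c₁ + (c₂ + 5) * N * T + n + (2 * c₂ + 2 * n + h + 6) + 1) =
          2 ^ (c₁ + (c₂ + 5) * N * T + n + (2 * c₂ + 2 * n + h + 6)) * 2 := pow_succ _ _
      rw [g3]
      linarith
    refine h1.trans (pw ?_)
    rw [← hT]
    have g3 : c₁ ≤ c₁ * T := Nat.le_mul_of_pos_right _ hT1
    have g4 : 2 * c₂ ≤ 2 * c₂ * T := Nat.le_mul_of_pos_right _ hT1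
    have g5 : (c₁ + (c₂ + 5) * N + 2 * c₂ + 12 + c₀ + (c₂ + 9) * D₁ + c₂ + 8) * T =
        c₁ * T + (c₂ + 5) * N * T + 2 * c₂ * T + 12 * T + (c₀ + (c₂ + 9) * D₁ + c₂ + 8) * T := by
      ring
    rw [g5]
    have g6 : 0 ≤ (c₀ + (c₂ + 9) * D₁ + c₂ + 8) * T := Nat.zero_le _
    omega
  · -- the target
    obtain ⟨al₀, hal₀⟩ : ∃ y, y = al (ptr F J ω) := ⟨_, rfl⟩
    have hE0 : 0 ≤ E := by
      have h1 := hpath ω hω rfl 0 (by linarith [hrtw.1]) (by linarith [hrtw.2])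
      obtain ⟨b, -, hb0, hb⟩ : ∃ b : Option (Fin m) → ℝ, True ∧ b none = F.t ω ∧
          ∀ l < 2, b (some (c l)) - eval b (Gw l) = 0 := by
        obtain ⟨b, h2, h3⟩ := pt_adapt (hc.mono (by
          intro y hy
          rw [Set.mem_Iio] at hy ⊢
          omega : Set.Iio 2 ⊆ Set.Iio 3)) hGp (F.t ω) (fun _ => 0) 2 le_rfl
        exact ⟨b, trivial, h2, fun l hl => by rw [h3 l hl, add_zero, sub_self]⟩
      refine (abs_nonneg _).trans (hal ω hω b ⟨by rw [hb0, sub_self, abs_zero]; positivity,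
        fun l hl => ?_⟩)
      rw [← hGw, hb l hl, abs_zero]
      positivity
    obtain ⟨zj, hzj'⟩ : ∃ zj : Fin (D + 1) → ℝ, zj = fun j => V j (some (c 1)) -
        U₀ (some (c 1)) - η j * U₁ (some (c 1)) := ⟨_, rfl⟩
    have hzjb : ∀ j, |zj j| ≤ 2 ^ z * (ζ / 2 ^ a) := by
      intro j
      rw [hzj', hV, hη']
      exact hzj (ν j) (hν1 j).1 (hν1 j).2
    obtain ⟨n', hn'⟩ : ∃ n', n' = n + z + 1 := ⟨_, rfl⟩
    obtain ⟨E', hE'⟩ : ∃ E' : ℝ, E' = 2 ^ (c₀ + n' * D₁) * E := ⟨_, rfl⟩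
    have hE'0 : 0 ≤ E' := by rw [hE']; positivity
    have hzζ : 2 ^ z * (ζ / 2 ^ a) ≤ 2 ^ z / 2 ^ g 1 := by
      rw [div_eq_mul_one_div ((2 : ℝ) ^ z)]
      refine mul_le_mul_of_nonneg_left ?_ (by positivity)
      rw [div_le_div_iff₀ (by positivity) (by positivity), one_mul]
      rw [le_div_iff₀ (by positivity)] at hζ
      exact hζ
    have hmain := key 2 (by norm_num) (fun j => -(zj j) * al₀) (E' * (2 ^ z * (ζ / 2 ^ a)))
      (fun j t h0 h1 => by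
        obtain ⟨b, hb⟩ : ∃ b, b = x + t • V j := ⟨_, rfl⟩
        obtain ⟨sv, hsv⟩ : ∃ sv, sv = -(t * zj j) := ⟨_, rfl⟩
        have ht1 : |t| ≤ 1 := by
          have := rt_mem F a (ν j)
          exact abs_le.2 ⟨by linarith [this.2], by linarith [this.1]⟩
        have hsv1 : |sv| ≤ 2 ^ z * (ζ / 2 ^ a) := by
          rw [hsv, abs_neg, abs_mul]
          calc |t| * |zj j| ≤ 1 * |zj j| := mul_le_mul_of_nonneg_right ht1 (abs_nonneg _)
            _ ≤ _ := by rw [one_mul]; exact hzjb j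
        have e1 : eval (x + t • (U₀ + η j • U₁)) (Gw 2) = eval (mvp (ek (c 1)) sv b) (Gw 2) := by
          refine hGp 2 _ _ ?_ fun k hk => ?_
          · rw [hpt0, mvp_none, hb]
          · rcases Nat.lt_or_ge k 1 with h2 | h2
            · have : k = 0 := by omega
              subst this
              rw [hpt1, mvp_some, ek_ne hc1, mul_zero, add_zero, hb]
            · have : k = 1 := by omega
              subst this
              rw [mvp_some, ek_self, mul_one, hb, hsv, hzj']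
              simp only [Pi.add_apply, Pi.smul_apply, smul_eq_mul]
              ring
        have hbn : b none - F.t ω = t * (1 / 2 ^ a) := by
          rw [hb, Pi.add_apply, Pi.smul_apply, hV, smul_eq_mul]
          show x none + t * vl F a (ν j) none - F.t ω = _
          rw [vl_none, hx]
          show F.t ω + t * (1 / 2 ^ a) - F.t ω = _
          ring
        have hbl : ∀ l < 3, |b (some (c l)) - eval b (Gw l)| ≤ 2 ^ n / 2 ^ g l := by
          intro l hl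
          rw [hb, hV]
          exact hpath (ν j) (hν1 j).1 (hν1 j).2 t h0 h1 l hl
        have h2 := meanv (ek (c 1)) b (Gw 2) (x := al₀) (Y := E') (s := sv) (fun s' hs' => by
          have hs'1 : |s'| ≤ 2 ^ z / 2 ^ g 1 := (hs'.trans hsv1).trans hzζ
          have h3 := hdil (c := c) (i := 2) (G := Gw)
            (Q := dir (ek (c 1)) (Gw 2) - C al₀) (g := g) (a := a) (t := F.t ω) (M := E) n'
            (by norm_num) (hc.mono (by
              intro y hy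
              rw [Set.mem_Iio] at hy ⊢
              omega)) hGd hGp (fun b b' hn hb => by
              rw [map_sub, map_sub, eval_C, eval_C, dir_dep _ (hGp 2) b b' hn hb])
            ((totalDegree_sub _ _).trans (max_le (dir_deg _ (hGd 2)) (by
              rw [totalDegree_C]; exact Nat.zero_le _))) hE0 (fun b hb => by
              rw [map_sub, eval_C, hal₀, hGw]
              rw [hGw] at hb
              exact hal ω hω b hb) (mvp (ek (c 1)) s' b) (by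
              rw [mvp_none, hbn, abs_mul, abs_of_pos (show (0 : ℝ) < 1 / 2 ^ a by positivity)]
              calc |t| * (1 / 2 ^ a) ≤ 1 * (1 / 2 ^ a) :=
                    mul_le_mul_of_nonneg_right ht1 (by positivity)
                _ = _ := one_mul _) (fun l hl => by
              rcases Nat.lt_or_ge l 1 with h4 | h4
              · have : l = 0 := by omega
                subst this
                have e3 : eval (mvp (ek (c 1)) s' b) (Gw 0) = eval b (Gw 0) :=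
                  hGp 0 _ _ (mvp_none _ _ _) fun k hk => absurd hk (Nat.not_lt_zero k)
                rw [e3, mvp_some, ek_ne hc1, mul_zero, add_zero]
                refine (hbl 0 (by norm_num)).trans (div_le_div_of_nonneg_right (pw ?_)
                  (by positivity))
                omega
              · have : l = 1 := by omega
                subst this
                have e3 : eval (mvp (ek (c 1)) s' b) (Gw 1) = eval b (Gw 1) :=
                  hGp 1 _ _ (mvp_none _ _ _) fun k hk => by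
                    have : k = 0 := by omega
                    subst this
                    rw [mvp_some, ek_ne hc1, mul_zero, add_zero]
                rw [e3, mvp_some, ek_self, mul_one]
                have e4 : b (some (c 1)) + s' - eval b (Gw 1) =
                    (b (some (c 1)) - eval b (Gw 1)) + s' := by ring
                rw [e4]
                refine (abs_add_le _ _).trans ((add_le_add (hbl 1 (by norm_num)) hs'1).trans ?_)
                rw [← add_div]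
                refine div_le_div_of_nonneg_right ?_ (by positivity)
                have g1 : (2 : ℝ) ^ n ≤ 2 ^ (n + z) := pw (by omega)
                have g2 : (2 : ℝ) ^ z ≤ 2 ^ (n + z) := pw (by omega)
                rw [hn', pow_succ]
                linarith)
          rw [map_sub, eval_C, ← hE'] at h3
          exact h3)
        rw [e1, ← hb]
        have e5 : eval (mvp (ek (c 1)) sv b) (Gw 2) - eval b (Gw 2) - t * (-(zj j) * al₀) =
            eval (mvp (ek (c 1)) sv b) (Gw 2) - eval b (Gw 2) - al₀ * sv := by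
          rw [hsv]
          ring
        rw [e5]
        exact h2.trans (mul_le_mul_of_nonneg_left hsv1 hE'0))
    refine hmain.trans ?_
    obtain ⟨Ct, hCt⟩ : ∃ Ct, Ct = (c₁ + (c₂ + 5) * N + 2 * c₂ + 12 + c₀ + (c₂ + 9) * D₁ + c₂ + 8) :=
      ⟨_, rfl⟩
    have hCT : c₁ + (c₂ + 5) * N * T + (2 * c₂ + 2 * n + h + 6) + n + 1 +
        (c₀ + n' * D₁ + z) ≤ Ct * T := by
      have g5 : Ct * T = c₁ * T + (c₂ + 5) * N * T + 2 * c₂ * T + 12 * T + c₀ * T +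
          (c₂ + 9) * T * D₁ + (c₂ + 8) * T := by rw [hCt]; ring
      have g3 : c₁ ≤ c₁ * T := Nat.le_mul_of_pos_right _ hT1
      have g4 : 2 * c₂ ≤ 2 * c₂ * T := Nat.le_mul_of_pos_right _ hT1
      have g6 : c₀ ≤ c₀ * T := Nat.le_mul_of_pos_right _ hT1
      have g9 : c₂ ≤ c₂ * T := Nat.le_mul_of_pos_right _ hT1
      have g7 : n' ≤ (c₂ + 9) * T := by
        have : (c₂ + 9) * T = c₂ * T + 9 * T := by ring
        omega
      have g8 : n' * D₁ ≤ (c₂ + 9) * T * D₁ := Nat.mul_le_mul_right _ g7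
      have g10 : (c₂ + 8) * T = c₂ * T + 8 * T := by ring
      rw [g5, g10]
      omega
    rw [← hT, ← hCt]
    have hP1 : (2 : ℝ) ^ (c₁ + (c₂ + 5) * N * T) * (2 ^ n / 2 ^ g 2) +
        2 ^ (2 * c₂ + 2 * n + h + 6) / 2 ^ g 2 ≤ 2 ^ (Ct * T) * (1 / 2 ^ g 2) := by
      rw [← mul_div_assoc, ← pow_add, ← add_div, mul_one_div]
      refine div_le_div_of_nonneg_right ?_ (by positivity)
      have g1 : (2 : ℝ) ^ (c₁ + (c₂ + 5) * N * T + n) ≤
          2 ^ (c₁ + (c₂ + 5) * N * T + n + (2 * c₂ + 2 * n + h + 6)) := pw (by omega)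
      have g2 : (2 : ℝ) ^ (2 * c₂ + 2 * n + h + 6) ≤
          2 ^ (c₁ + (c₂ + 5) * N * T + n + (2 * c₂ + 2 * n + h + 6)) := pw (by omega)
      have g3 : (2 : ℝ) ^ (c₁ + (c₂ + 5) * N * T + n + (2 * c₂ + 2 * n + h + 6) + 1) ≤
          2 ^ (Ct * T) := pw (by omega)
      rw [pow_succ] at g3
      linarith
    have hP2 : (2 : ℝ) ^ (c₁ + (c₂ + 5) * N * T) * (E' * (2 ^ z * (ζ / 2 ^ a))) ≤
        2 ^ (Ct * T) * (ζ / 2 ^ a * E) := by
      have e6 : (2 : ℝ) ^ (c₁ + (c₂ + 5) * N * T) * (E' * (2 ^ z * (ζ / 2 ^ a))) =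
          2 ^ (c₁ + (c₂ + 5) * N * T + (c₀ + n' * D₁ + z)) * (ζ / 2 ^ a * E) := by
        rw [hE', pow_add 2 (c₁ + (c₂ + 5) * N * T), pow_add 2 (c₀ + n' * D₁)]
        ring
      rw [e6]
      exact mul_le_mul_of_nonneg_right (pw (by omega)) (by positivity)
    have e7 : (2 : ℝ) ^ (c₁ + (c₂ + 5) * N * T) * (2 ^ n / 2 ^ g 2 + E' * (2 ^ z * (ζ / 2 ^ a))) +
        2 ^ (2 * c₂ + 2 * n + h + 6) / 2 ^ g 2 =
        (2 ^ (c₁ + (c₂ + 5) * N * T) * (2 ^ n / 2 ^ g 2) +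
          2 ^ (2 * c₂ + 2 * n + h + 6) / 2 ^ g 2) +
        2 ^ (c₁ + (c₂ + 5) * N * T) * (E' * (2 ^ z * (ζ / 2 ^ a))) := by ring
    rw [e7, mul_add]
    exact add_le_add hP1 hP2

end Pool.NVX
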