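import Pool.Agent.H80.NV.Hcl
import Pool.Agent.H23.D2.Cnu
import Pool.Agent.H77.Z3.Join
import Pool.Agent.H87.GEN.Cbr

/-!
# Auxiliary facts for the family theorem of the variation

The derivative along the line and its variation; the own line and the label of `c 0`; the absence of
relations for a joined chain.
-/

set_option autoImplicit false

namespace Pool.NVX

open Finset Real MvPolynomial
open Pool.Agent.H49.Ent Pool.Agent.H32.Dense Pool.STK Pool.KA Pool.KSAT Pool.K2S Pool.PB Pool.S6C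
open Pool.GEN Pool.CHT
open Pool.D2R (dd hs dd_add dd_smul dd_congr pol_ext)
open Pool.F5 (lp gp der_lp dd_gp deg_gp deg_lp eo bdS bdS_slam eval_lp eval_gp)
open Pool.SHR (dir RelvH)
open Pool.PB.Trl (rt rt_mem t_rt)
open Pool.Z3 (jn nbx_jn)

variable {m J : ℕ}

theorem dd_eo (P : MvPolynomial (Option (Fin m)) ℝ) (x : Option (Fin m) → ℝ) (o : Option (Fin m)) :
    dd P x (eo o) = eval x (pderiv o P) := by
  unfold dd
  rw [Finset.sum_eq_single o]
  · unfold eo
    rw [if_pos rfl, mul_one]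
  · intro o' _ h
    unfold eo
    rw [if_neg h, mul_zero]
  · intro h
    exact absurd (Finset.mem_univ o) h

theorem dir_ek (k : Fin m) (P : MvPolynomial (Option (Fin m)) ℝ) :
    dir (ek k) P = pderiv (some k) P := by
  unfold Pool.SHR.dir
  rw [Finset.sum_eq_single k]
  · rw [ek_self, C_1, one_mul]
  · intro k' _ h
    rw [ek_ne h, C_0, zero_mul]
  · intro h
    exact absurd (Finset.mem_univ k) h

/-- **The variation along the line**, from a bound for the second derivative. -/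
theorem vary {F : Fam m J} {w a : ℕ} (hwa : w ≤ a) (haJ : a ≤ J) {ω ω' : F.Ω}
    (h : slam F a ω = slam F a ω') (P : MvPolynomial (Option (Fin m)) ℝ) (k : Fin m) {K₀ : ℝ}
    (hK : ∀ t : ℝ, F.t ω - rt F w ω / 2 ^ w ≤ t → t ≤ F.t ω + (1 - rt F w ω) / 2 ^ w →
      |(hcl k P (slam F w ω)).eval t| ≤ K₀) :
    |eval (bt F ω) (pderiv (some k) P) - eval (bt F ω') (pderiv (some k) P)| ≤ K₀ / 2 ^ a := by
  have hwJ : w ≤ J := hwa.trans haJ
  have hs' : slam F w ω = slam F w ω' := by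
    rw [slam_coarse F hwa haJ ω, slam_coarse F hwa haJ ω', h]
  obtain ⟨s, hs⟩ : ∃ s, s = slam F w ω := ⟨_, rfl⟩
  obtain ⟨p, hp⟩ : ∃ p, p = lp (gp P (eo (some k))) (x0S s) (bdS s) := ⟨_, rfl⟩
  have hpe : ∀ ν, slam F w ν = s → p.eval (F.t ν) = eval (bt F ν) (pderiv (some k) P) := by
    intro ν hν
    rw [hp, eval_lp, ← hν, pt_slam, sub_self, zero_smul, add_zero, eval_gp, dd_eo]
  rw [← hpe ω hs.symm, ← hpe ω' (by rw [hs, hs'])]
  have t0 := t_rt F hwJ ω
  have t1 := t_rt F hwJ ω'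
  have a0 := t_rt F haJ ω
  have a1 := t_rt F haJ ω'
  have r0 := rt_mem F w ω
  have r1 := rt_mem F w ω'
  have q0 := rt_mem F a ω
  have q1 := rt_mem F a ω'
  have e1 : ((slam F w ω).2.2 : ℝ) = (slam F w ω').2.2 := by rw [hs']
  have e2 : ((slam F a ω).2.2 : ℝ) = (slam F a ω').2.2 := by rw [h]
  have h2w : (0 : ℝ) < 2 ^ w := by positivity
  have h2a : (0 : ℝ) < 2 ^ a := by positivity
  have hint : ∀ t ∈ Set.uIcc (F.t ω') (F.t ω), |p.derivative.eval t| ≤ K₀ := by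
    intro t ht
    have h3 := hK t
    rw [← hs] at h3
    have e3 : hcl k P s = p.derivative := by rw [hp]; rfl
    rw [e3] at h3
    have hl : F.t ω - rt F w ω / 2 ^ w ≤ F.t ω' := by
      rw [t0, t1, e1, div_sub_div_same]
      exact div_le_div_of_nonneg_right (by linarith [r1.1]) h2w.le
    have hr : F.t ω' ≤ F.t ω + (1 - rt F w ω) / 2 ^ w := by
      rw [t0, t1, e1, ← add_div]
      exact div_le_div_of_nonneg_right (by linarith [r1.2]) h2w.le
    have hl' : F.t ω - rt F w ω / 2 ^ w ≤ F.t ω := by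
      have : 0 ≤ rt F w ω / 2 ^ w := div_nonneg r0.1 h2w.le
      linarith
    have hr' : F.t ω ≤ F.t ω + (1 - rt F w ω) / 2 ^ w := by
      have : 0 ≤ (1 - rt F w ω) / 2 ^ w := div_nonneg (by linarith [r0.2]) h2w.le
      linarith
    rw [Set.mem_uIcc] at ht
    rcases ht with ht | ht
    · exact h3 (hl.trans ht.1) (ht.2.trans hr')
    · exact h3 (hl'.trans ht.1) (ht.2.trans hr)
  have hK0 : 0 ≤ K₀ := (abs_nonneg _).trans (hint (F.t ω) Set.right_mem_uIcc)
  have hd : |F.t ω - F.t ω'| ≤ 1 / 2 ^ a := by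
    rw [a0, a1, e2, div_sub_div_same, abs_div, abs_of_pos h2a]
    refine div_le_div_of_nonneg_right ?_ h2a.le
    rw [abs_le]
    constructor <;> linarith [q0.1, q0.2, q1.1, q1.2]
  have hmv := Convex.norm_image_sub_le_of_norm_hasDerivWithin_le (𝕜 := ℝ) (f := fun t => p.eval t)
    (f' := fun t => p.derivative.eval t) (s := Set.uIcc (F.t ω') (F.t ω)) (C := K₀)
    (fun t _ => (p.hasDerivAt t).hasDerivWithinAt) (fun t ht => hint t ht) (convex_uIcc _ _)
    Set.left_mem_uIcc Set.right_mem_uIcc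
  rw [Real.norm_eq_abs, Real.norm_eq_abs] at hmv
  refine hmv.trans ?_
  rw [div_eq_mul_one_div]
  exact mul_le_mul_of_nonneg_left hd hK0

/-- **The own line and the label of `c 0`**. -/
theorem own_ext (D : ℕ) : ∃ C : ℕ, ∀ {m J : ℕ} {F : Fam m J} {c : ℕ → Fin m} {a n : ℕ}
    {g : ℕ → ℕ} {B : F.Ω → Prop} {G : PtT F → ℕ → MvPolynomial (Option (Fin m)) ℝ}, a ≤ J →
    (∀ y l, (G y l).totalDegree ≤ D) → (∀ y l, DepC c l (G y l)) → Pth F c 1 a n g B G →
    ∀ ω, B ω → ∀ b, NBx c (G (ptr F J ω)) g a (F.t ω) 1 b →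
      |b (some (c 0)) - (F.x ω (c 0) + (b none - F.t ω) * bd F ω (some (c 0)))| ≤
        2 ^ (C + n) / 2 ^ g 0 := by
  obtain ⟨C₁, hC₁, hext⟩ := pol_ext (D + 1)
  obtain ⟨c₁, hc₁⟩ := pow_unbounded_of_one_lt (C₁ + 1) (one_lt_two (α := ℝ))
  refine ⟨c₁, ?_⟩
  intro m J F c a n g B G haJ hdG hdep hpth ω hω b hb
  obtain ⟨x, hx⟩ : ∃ x, x = bt F ω := ⟨_, rfl⟩
  obtain ⟨V, hV⟩ : ∃ V, V = vl F a ω := ⟨_, rfl⟩
  obtain ⟨r, hr⟩ : ∃ r, r = rt F a ω := ⟨_, rfl⟩
  have hr' := rt_mem F a ω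
  rw [← hr] at hr'
  obtain ⟨p, hp⟩ : ∃ p : Option (Fin m) → Polynomial ℝ, p = fun o =>
      Polynomial.C (x o) + Polynomial.C (V o) * (Polynomial.X - Polynomial.C r) := ⟨_, rfl⟩
  have hpe : ∀ o t, (p o).eval t = x o + V o * (t - r) := by
    intro o t
    rw [hp]
    simp only [Polynomial.eval_add, Polynomial.eval_mul, Polynomial.eval_C, Polynomial.eval_sub,
      Polynomial.eval_X]
  have hpd : ∀ o, (p o).natDegree ≤ 1 := by
    intro o
    rw [hp]
    refine (Polynomial.natDegree_add_le _ _).trans (max_le ?_ ?_)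
    · rw [Polynomial.natDegree_C]
      exact Nat.zero_le _
    · refine (Polynomial.natDegree_C_mul_le _ _).trans ?_
      exact (Polynomial.natDegree_sub_le _ _).trans (max_le Polynomial.natDegree_X_le (by
        rw [Polynomial.natDegree_C]
        exact Nat.zero_le _))
  obtain ⟨P, hP⟩ : ∃ P, P = G (ptr F J ω) 0 := ⟨_, rfl⟩
  have hPd : P.totalDegree ≤ D := by rw [hP]; exact hdG _ _
  have hPc : DepC c 0 P := by rw [hP]; exact hdep _ _
  obtain ⟨q, hq⟩ : ∃ q : Polynomial ℝ, q = p (some (c 0)) - MvPolynomial.aeval p P := ⟨_, rfl⟩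
  have hqd : q.natDegree ≤ D + 1 := by
    rw [hq]
    refine (Polynomial.natDegree_sub_le _ _).trans (max_le ((hpd _).trans (by omega)) ?_)
    exact (Pool.KBX.natDegree_aeval_le _ _ hpd hPd).trans (by omega)
  have hqe : ∀ t, q.eval t = (x + (t - r) • V) (some (c 0)) - eval (x + (t - r) • V) P := by
    intro t
    rw [hq, Polynomial.eval_sub, Pool.KBX.eval_aeval_poly]
    have e1 : (fun o => (p o).eval t) = x + (t - r) • V := by
      funext o
      rw [hpe, Pi.add_apply, Pi.smul_apply, smul_eq_mul]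
      ring
    rw [e1]
    have e2 : (p (some (c 0))).eval t = (x + (t - r) • V) (some (c 0)) := by
      rw [hpe, Pi.add_apply, Pi.smul_apply, smul_eq_mul]
      ring
    rw [e2]
  have h2 := hext q (2 ^ n / 2 ^ g 0) hqd (fun t ht => by
    rw [hqe, hx, hV, hP]
    exact hpth ω ω hω hω rfl (t - r) (by rw [← hr]; linarith [ht.1])
      (by rw [← hr]; linarith [ht.2]) 0 (by norm_num))
  obtain ⟨s, hs⟩ : ∃ s : ℝ, s = 2 ^ a * (b none - F.t ω) := ⟨_, rfl⟩
  have hs1 : |s| ≤ 1 := by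
    rw [hs, abs_mul, abs_of_pos (show (0 : ℝ) < 2 ^ a by positivity)]
    have := hb.1
    calc (2 : ℝ) ^ a * |b none - F.t ω| ≤ 2 ^ a * (1 / 2 ^ a) :=
          mul_le_mul_of_nonneg_left this (by positivity)
      _ = 1 := by field_simp
  have h3 := h2 (s + r) (abs_le.2 ⟨by linarith [(abs_le.1 hs1).1, hr'.1],
    by linarith [(abs_le.1 hs1).2, hr'.2]⟩)
  rw [hqe, add_sub_cancel_right] at h3
  have hbn : (x + s • V) none = b none := by
    rw [Pi.add_apply, Pi.smul_apply, hV, vl_none, hx, hs, smul_eq_mul]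
    show F.t ω + 2 ^ a * (b none - F.t ω) * (1 / 2 ^ a) = b none
    field_simp
    ring
  have hb0 : (x + s • V) (some (c 0)) =
      F.x ω (c 0) + (b none - F.t ω) * bd F ω (some (c 0)) := by
    rw [Pi.add_apply, Pi.smul_apply, hV, hx, hs, smul_eq_mul]
    show F.x ω (c 0) + 2 ^ a * (b none - F.t ω) * (1 / 2 ^ a * F.d ω (c 0)) =
      F.x ω (c 0) + (b none - F.t ω) * F.d ω (c 0)
    field_simp
  have e3 : eval (x + s • V) P = eval b P :=
    hPc _ _ hbn fun l hl => absurd hl (Nat.not_lt_zero l)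
  rw [hb0, e3] at h3
  have h4 := hb.2 0 (by norm_num)
  rw [← hP] at h4
  have e4 : b (some (c 0)) - (F.x ω (c 0) + (b none - F.t ω) * bd F ω (some (c 0))) =
      (b (some (c 0)) - eval b P) -
      (F.x ω (c 0) + (b none - F.t ω) * bd F ω (some (c 0)) - eval b P) := by ring
  rw [e4]
  refine (abs_sub _ _).trans ((add_le_add h4 h3).trans ?_)
  rw [pow_add, ← mul_div_assoc, ← add_div]
  refine div_le_div_of_nonneg_right ?_ (by positivity)
  have h5 : (1 : ℝ) ≤ 2 ^ n := one_le_pow₀ (by norm_num)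
  nlinarith

/-- Smaller degree. -/
theorem relvH_mono {F : Fam m J} {c : ℕ → Fin m} {i a w : ℕ} {g Y : ℕ → ℕ} {D D' h : ℕ} {κ κ' : ℝ}
    {B₀ : F.Ω → Prop} {G : PtT F → ℕ → MvPolynomial (Option (Fin m)) ℝ}
    (hR : RelvH F c i a w g Y D h κ B₀ G) (hD : D' ≤ D) (hκ : κ ≤ κ') :
    RelvH F c i a w g Y D' h κ' B₀ G := fun B' hB hP Dx Dl M y h1 h2 =>
  hR B' hB ((mul_le_mul_of_nonneg_right hκ (Pe_nonneg F.isLaw B₀)).trans hP) Dx Dl M y
    (fun y => (h1 y).trans hD) fun s => (h2 s).trans hD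

/-- The absence of relations, for a joined chain. -/
theorem relvH_jn {F : Fam m J} {c : ℕ → Fin m} {i a w : ℕ} {g g' Y : ℕ → ℕ} {D h : ℕ} {κ : ℝ}
    {B₀ : F.Ω → Prop} {T N : PtT F → ℕ → MvPolynomial (Option (Fin m)) ℝ}
    (hR : RelvH F c i a w g Y D h κ B₀ T) :
    RelvH F c i a w (jn i g g') Y D h κ B₀ (fun y => jn i (T y) (N y)) := by
  intro B' hB hP Dx Dl M y h1 h2 h3 h4 hM h5 h6 h7
  obtain ⟨B'', k1, k2, k3⟩ := hR B' hB hP Dx Dl M y h1 h2 h3 h4 hM h5 h6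
    (fun ω hω b hb => h7 ω hω b ((nbx_jn le_rfl).2 hb))
  exact ⟨B'', k1, k2, fun ω hω b hb => k3 ω hω b ((nbx_jn le_rfl).1 hb)⟩

end Pool.NVX
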