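import Pool.Agent.H80.NV.Bal
import Pool.Agent.H64.F5.Evs

/-!
# The closed derivative along the own line

`hcl k P s`: the mixed second derivative of `P` along the line `s`, in the direction of the line and
in the direction `e_k`, as a polynomial of the time.
-/

set_option autoImplicit false

namespace Pool.NVX

open Finset Real MvPolynomial
open Pool.Agent.H49.Ent Pool.Agent.H32.Dense Pool.STK Pool.KA Pool.KSAT Pool.K2S Pool.PB Pool.S6C
open Pool.GEN Pool.CHT
open Pool.D2R (dd hs dd_add dd_smul dd_congr)
open Pool.F5 (lp gp der_lp dd_gp deg_gp deg_lp eo bdS bdS_slam)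

variable {m J : ℕ}

/-- The point of a line at the time zero. -/
noncomputable def x0S {F : Fam m J} (s : LnT F) : Option (Fin m) → ℝ
  | none => 0
  | some j => s.1.1 j

/-- The point of the own line at any time. -/
theorem pt_slam (F : Fam m J) (w : ℕ) (ω : F.Ω) (t : ℝ) :
    (fun o => x0S (slam F w ω) o + t * bdS (slam F w ω) o) = bt F ω + (t - F.t ω) • bd F ω := by
  funext o
  rw [bdS_slam, Pi.add_apply, Pi.smul_apply, smul_eq_mul]
  cases o with
  | none =>
    show (0 : ℝ) + t * 1 = F.t ω + (t - F.t ω) * 1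
    ring
  | some j =>
    show F.u ω j + t * F.d ω j = F.x ω j + (t - F.t ω) * F.d ω j
    unfold Fam.x
    ring

/-- **The mixed second derivative along the line**, in the direction of the line and in the
direction `e_k`. -/
noncomputable def hcl {F : Fam m J} (k : Fin m) (P : MvPolynomial (Option (Fin m)) ℝ)
    (s : LnT F) : Polynomial ℝ :=
  Polynomial.derivative (lp (gp P (eo (some k))) (x0S s) (bdS s))

theorem hcl_eval (F : Fam m J) (w : ℕ) (ω : F.Ω) (k : Fin m)
    (P : MvPolynomial (Option (Fin m)) ℝ) (t : ℝ) :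
    (hcl k P (slam F w ω)).eval t =
      hs P (bt F ω + (t - F.t ω) • bd F ω) (bd F ω) (eo (some k)) := by
  unfold hcl
  rw [(der_lp _ _ _ t).1, dd_gp, pt_slam, bdS_slam]

theorem hcl_deg {F : Fam m J} {D : ℕ} (k : Fin m) {P : MvPolynomial (Option (Fin m)) ℝ}
    (hD : P.totalDegree ≤ D) (s : LnT F) : (hcl k P s).natDegree ≤ D := by
  unfold hcl
  exact (Polynomial.natDegree_derivative_le _).trans ((Nat.sub_le _ _).trans
    (deg_lp (deg_gp hD _) _ _))

end Pool.NVX
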