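import Pool.Agent.H80.NV.Rl3
import Pool.Agent.H39.NV.Pl2

/-!
# The natural boxes of any node, in the coordinates of the plane
-/

set_option autoImplicit false

namespace Pool.NVX

open Finset Real MvPolynomial
open Pool.Agent.H49.Ent Pool.Agent.H32.Dense Pool.STK Pool.KA Pool.KSAT Pool.K2S Pool.PB Pool.S6C
open Pool.GEN Pool.CHT
open Pool.D2R (dd hs dd_add dd_smul dd_congr)
open Pool.SHR (dir mvp mvp_none mvp_some meanv dir_deg dir_dep RelvH Shr ShrY relvF_low)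
open Pool.PB.Trl (rt rt_mem t_rt)

variable {m J : ℕ}

/-- The point of the plane with the same time and the same first coordinate. -/
theorem pl_pt {F : Fam m J} {c : ℕ → Fin m} {a g0 : ℕ} {ω : F.Ω} {X₀ : Option (Fin m) → ℝ}
    (h0 : X₀ none = 0) (h1 : X₀ (some (c 0)) = 1) (b : Option (Fin m) → ℝ) :
    ∃ (α β : ℝ) (y : Option (Fin m) → ℝ), α = 2 ^ a * (b none - F.t ω) ∧
      β = 2 ^ g0 * (b (some (c 0)) -
        (F.x ω (c 0) + (b none - F.t ω) * bd F ω (some (c 0)))) ∧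
      y = bt F ω + α • vl F a ω + β • ((1 / 2 ^ g0 : ℝ) • X₀) ∧ y none = b none ∧
      y (some (c 0)) = b (some (c 0)) ∧ ∀ k : Fin m, y (some k) = F.x ω k +
        (b none - F.t ω) * bd F ω (some k) + X₀ (some k) * (b (some (c 0)) -
        (F.x ω (c 0) + (b none - F.t ω) * bd F ω (some (c 0)))) := by
  have key : ∀ k : Fin m, (bt F ω + (2 ^ a * (b none - F.t ω)) • vl F a ω +
      (2 ^ g0 * (b (some (c 0)) - (F.x ω (c 0) + (b none - F.t ω) * bd F ω (some (c 0))))) •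
      ((1 / 2 ^ g0 : ℝ) • X₀)) (some k) = F.x ω k +
        (b none - F.t ω) * bd F ω (some k) + X₀ (some k) * (b (some (c 0)) -
        (F.x ω (c 0) + (b none - F.t ω) * bd F ω (some (c 0)))) := by
    intro k
    simp only [Pi.add_apply, Pi.smul_apply, smul_eq_mul]
    show F.x ω k + 2 ^ a * (b none - F.t ω) * (1 / 2 ^ a * F.d ω k) +
      2 ^ g0 * (b (some (c 0)) - (F.x ω (c 0) + (b none - F.t ω) * F.d ω (c 0))) *
        (1 / 2 ^ g0 * X₀ (some k)) =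
      F.x ω k + (b none - F.t ω) * F.d ω k + X₀ (some k) *
        (b (some (c 0)) - (F.x ω (c 0) + (b none - F.t ω) * F.d ω (c 0)))
    field_simp
  refine ⟨_, _, _, rfl, rfl, rfl, ?_, ?_, key⟩
  · simp only [Pi.add_apply, Pi.smul_apply, smul_eq_mul]
    rw [h0, vl_none]
    show F.t ω + 2 ^ a * (b none - F.t ω) * (1 / 2 ^ a) + _ * (1 / 2 ^ g0 * 0) = b none
    field_simp
    ring
  · rw [key, h1]
    ring

/-- **The natural boxes of any node**, the coordinates `c 0`, `c 1`. -/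
theorem rel3_bx (D : ℕ) (hD : 1 ≤ D) : ∃ C : ℕ, ∀ {m J : ℕ} {F : Fam m J} {c : ℕ → Fin m}
    {a w e n p lam₁ lam₂ h : ℕ} {g gN g₄ : ℕ → ℕ} {A B : F.Ω → Prop}
    {T T₄ : PtT F → ℕ → MvPolynomial (Option (Fin m)) ℝ}
    {NH : LnT F → ℕ → MvPolynomial (Option (Fin m)) ℝ} {v : PtT F → Fin m → ℝ}
    {X : PtT F → Option (Fin m) → ℝ} {ν₀ : PtT F → F.Ω},
    Rel3 F c a w e n p lam₁ lam₂ D h g gN g₄ A B T T₄ NH v X ν₀ → a ≤ J → Sub B A →
    (∀ y l, (T₄ y l).totalDegree ≤ D) → (∀ y l, DepC c l (T₄ y l)) → g 0 ≤ g₄ 0 + n →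
    (∀ ω, B ω → ∀ b, NBx c (T₄ (ptr F J ω)) g₄ a (F.t ω) 1 b →
      |b (some (c 0)) - (F.x ω (c 0) + (b none - F.t ω) * bd F ω (some (c 0)))| ≤
        2 ^ (C * (n + h + 1)) / 2 ^ g₄ 0) ∧
    ∀ ω, B ω → ∀ b, NBx c (T₄ (ptr F J ω)) g₄ a (F.t ω) 2 b →
      |(b (some (c 1)) - (F.x ω (c 1) + (b none - F.t ω) * bd F ω (some (c 1)))) -
        X (ptr F J ω) (some (c 1)) *
        (b (some (c 0)) - (F.x ω (c 0) + (b none - F.t ω) * bd F ω (some (c 0))))| ≤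
        2 ^ (C * (n + h + 1)) / 2 ^ g₄ 1 := by
  obtain ⟨cO, hown⟩ := own_ext D
  obtain ⟨cL, hpln⟩ := pln_lab D hD
  have pw : ∀ {x y : ℕ}, x ≤ y → (2 : ℝ) ^ x ≤ 2 ^ y := fun h => pow_le_pow_right₀ (by norm_num) h
  refine ⟨cO + 1 + cL * (cO + 4) + 1, ?_⟩
  intro m J F c a w e n p lam₁ lam₂ h g gN g₄ A B T T₄ NH v X ν₀ H haJ hBA hdG hdep hg0
  obtain ⟨T₀, hT₀⟩ : ∃ T, T = n + h + 1 := ⟨_, rfl⟩
  have hT1 : 1 ≤ T₀ := by omega
  rw [← hT₀]
  have hCT : (cO + 1 + cL * (cO + 4) + 1) * T₀ = cO * T₀ + T₀ + cL * (cO + 4) * T₀ + T₀ := by ring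
  have mO : cO ≤ cO * T₀ := Nat.le_mul_of_pos_right _ hT1
  have hown' : ∀ ω, B ω → ∀ b, NBx c (T₄ (ptr F J ω)) g₄ a (F.t ω) 1 b →
      |b (some (c 0)) - (F.x ω (c 0) + (b none - F.t ω) * bd F ω (some (c 0)))| ≤
        2 ^ (cO + n) / 2 ^ g₄ 0 := fun ω hω b hb =>
    hown haJ hdG hdep (H.pth4.mono (by norm_num) le_rfl) ω (hBA ω hω) b hb
  refine ⟨fun ω hω b hb => (hown' ω hω b hb).trans
    (div_le_div_of_nonneg_right (pw (by omega)) (by positivity)), fun ω hω b hb => ?_⟩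
  obtain ⟨k₂, hk₂⟩ : ∃ k₂, k₂ = cO + n + n := ⟨_, rfl⟩
  have hX0 := H.x0 ω hω
  have hX1 := H.x1 ω hω
  obtain ⟨α, β, y, hα, hβ, hy, y0, y1, yk⟩ := pl_pt (F := F) (c := c) (a := a) (g0 := g 0)
    (ω := ω) hX0 hX1 b
  have hα1 : |α| ≤ 2 ^ k₂ := by
    rw [hα, abs_mul, abs_of_pos (show (0 : ℝ) < 2 ^ a by positivity)]
    calc (2 : ℝ) ^ a * |b none - F.t ω| ≤ 2 ^ a * (1 / 2 ^ a) :=
          mul_le_mul_of_nonneg_left hb.1 (by positivity)
      _ = 1 := by field_simp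
      _ ≤ _ := one_le_pow₀ (by norm_num)
  have hβ1 : |β| ≤ 2 ^ k₂ := by
    rw [hβ, abs_mul, abs_of_pos (show (0 : ℝ) < 2 ^ g 0 by positivity)]
    have h1 := hown' ω hω b (hb.mono le_rfl (by norm_num))
    have h2 : (2 : ℝ) ^ g 0 ≤ 2 ^ g₄ 0 * 2 ^ n := by rw [← pow_add]; exact pw hg0
    calc (2 : ℝ) ^ g 0 * |b (some (c 0)) -
        (F.x ω (c 0) + (b none - F.t ω) * bd F ω (some (c 0)))| ≤
        2 ^ g₄ 0 * 2 ^ n * (2 ^ (cO + n) / 2 ^ g₄ 0) :=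
          mul_le_mul h2 h1 (abs_nonneg _) (by positivity)
      _ = 2 ^ k₂ := by
          rw [hk₂, pow_add 2 (cO + n) n]
          field_simp
  have h3 := hpln (k := k₂) (h := h) (g₀ := g 0) (g := g₄) (a := a) (n := n)
    (X₀ := X (ptr F J ω)) hdG hdep (H.pth4.mono (by norm_num) le_rfl) (hBA ω hω) (H.sep ω hω) hX0
    hX1 (H.rep ω hω) (by rw [hk₂]; omega) α β hα1 hβ1
  rw [← hy, hdep _ 1 y b y0 fun l hl => by
    have : l = 0 := by omega
    subst this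
    exact y1] at h3
  have h4 := hb.2 1 (by norm_num)
  have e4 : (b (some (c 1)) - (F.x ω (c 1) + (b none - F.t ω) * bd F ω (some (c 1)))) -
      X (ptr F J ω) (some (c 1)) *
      (b (some (c 0)) - (F.x ω (c 0) + (b none - F.t ω) * bd F ω (some (c 0)))) =
      (b (some (c 1)) - eval b (T₄ (ptr F J ω) 1)) -
        (y (some (c 1)) - eval b (T₄ (ptr F J ω) 1)) := by rw [yk]; ring
  rw [e4]
  refine (abs_sub _ _).trans ((add_le_add h4 h3).trans ?_)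
  rw [← add_div]
  refine div_le_div_of_nonneg_right ?_ (by positivity)
  have g3 : (1 : ℝ) ≤ 2 ^ (cL * (n + h + k₂ + 1)) := one_le_pow₀ (by norm_num)
  have g4 : cL * (n + h + k₂ + 1) ≤ cL * (cO + 4) * T₀ := by
    rw [Nat.mul_assoc]
    refine Nat.mul_le_mul_left _ ?_
    rw [Nat.add_mul]
    omega
  have g5 : (2 : ℝ) ^ (cL * (n + h + k₂ + 1) + 1) ≤
      2 ^ ((cO + 1 + cL * (cO + 4) + 1) * T₀) := pw (by omega)
  rw [pow_succ] at g5
  linarith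

/-- **The natural boxes of any node**, the coordinate `c 2`. -/
theorem rel3_bx2 (D : ℕ) (hD : 1 ≤ D) : ∃ C : ℕ, ∀ {m J : ℕ} {F : Fam m J} {c : ℕ → Fin m}
    {a w e n p lam₁ lam₂ h y : ℕ} {g gN g₄ : ℕ → ℕ} {A B : F.Ω → Prop}
    {T T₄ : PtT F → ℕ → MvPolynomial (Option (Fin m)) ℝ}
    {NH : LnT F → ℕ → MvPolynomial (Option (Fin m)) ℝ} {v : PtT F → Fin m → ℝ}
    {X : PtT F → Option (Fin m) → ℝ} {ν₀ : PtT F → F.Ω}, Set.InjOn c (Set.Iio 3) →
    Rel3 F c a w e n p lam₁ lam₂ D h g gN g₄ A B T T₄ NH v X ν₀ → a ≤ J → Sub B A →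
    (∀ y l, (T₄ y l).totalDegree ≤ D) → (∀ y l, DepC c l (T₄ y l)) → g 0 ≤ g₄ 0 + n →
    g₄ 1 ≤ g 1 + p → (∀ ω, B ω → ∀ b, NBx c (T₄ (ptr F J ω)) g₄ a (F.t ω) 2 b →
      |eval b (dir (ek (c 1)) (T₄ (ptr F J ω) 2)) - v (ptr F J ω) (c 2)| ≤
        2 ^ y * 2 ^ g₄ 1 / 2 ^ g₄ 2) →
    ∀ ω, B ω → ∀ b, NBx c (T₄ (ptr F J ω)) g₄ a (F.t ω) 3 b →
      |(b (some (c 2)) - (F.x ω (c 2) + (b none - F.t ω) * bd F ω (some (c 2)))) -
        v (ptr F J ω) (c 2) *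
        (b (some (c 1)) - (F.x ω (c 1) + (b none - F.t ω) * bd F ω (some (c 1)))) -
        (X (ptr F J ω) (some (c 2)) - v (ptr F J ω) (c 2) * X (ptr F J ω) (some (c 1))) *
        (b (some (c 0)) - (F.x ω (c 0) + (b none - F.t ω) * bd F ω (some (c 0))))| ≤
        2 ^ (C * (n + h + y + 1)) / 2 ^ g₄ 2 := by
  obtain ⟨cX, hbx⟩ := rel3_bx D hD
  obtain ⟨cL, hpln⟩ := pln_lab2 D hD
  obtain ⟨c₀, D₁, hD₁, hdil⟩ := nbx_dil 3 (fun _ => D)
  have pw : ∀ {x y : ℕ}, x ≤ y → (2 : ℝ) ^ x ≤ 2 ^ y := fun h => pow_le_pow_right₀ (by norm_num) h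
  refine ⟨1 + cL * (cX + 4) + c₀ + (cX + 2) * D₁ + cX + 3, ?_⟩
  intro m J F c a w e n p lam₁ lam₂ h y g gN g₄ A B T T₄ NH v X ν₀ hc H haJ hBA hdG hdep hg0 hg1
    hder ω hω b hb
  obtain ⟨T₀, hT₀⟩ : ∃ T, T = n + h + y + 1 := ⟨_, rfl⟩
  have hT1 : 1 ≤ T₀ := by omega
  rw [← hT₀]
  obtain ⟨hb0, hb1⟩ := hbx H haJ hBA hdG hdep hg0
  obtain ⟨k₁, hk₁⟩ : ∃ k, k = cX * (n + h + 1) := ⟨_, rfl⟩
  rw [← hk₁] at hb0 hb1
  have hk1T : k₁ ≤ cX * T₀ := by
    rw [hk₁]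
    exact Nat.mul_le_mul_left _ (by omega)
  obtain ⟨k₂, hk₂⟩ : ∃ k₂, k₂ = k₁ + n := ⟨_, rfl⟩
  have hX0 := H.x0 ω hω
  have hX1 := H.x1 ω hω
  obtain ⟨α, β, y', hα, hβ, hy, y0, y1, yk⟩ := pl_pt (F := F) (c := c) (a := a) (g0 := g 0)
    (ω := ω) hX0 hX1 b
  have hα0 : |b none - F.t ω| ≤ 1 / 2 ^ a := hb.1
  have hα1 : |α| ≤ 2 ^ k₂ := by
    rw [hα, abs_mul, abs_of_pos (show (0 : ℝ) < 2 ^ a by positivity)]
    calc (2 : ℝ) ^ a * |b none - F.t ω| ≤ 2 ^ a * (1 / 2 ^ a) :=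
          mul_le_mul_of_nonneg_left hb.1 (by positivity)
      _ = 1 := by field_simp
      _ ≤ _ := one_le_pow₀ (by norm_num)
  have hβ1 : |β| ≤ 2 ^ k₂ := by
    rw [hβ, abs_mul, abs_of_pos (show (0 : ℝ) < 2 ^ g 0 by positivity)]
    have h1 := hb0 ω hω b (hb.mono le_rfl (by norm_num))
    have h2 : (2 : ℝ) ^ g 0 ≤ 2 ^ g₄ 0 * 2 ^ n := by rw [← pow_add]; exact pw hg0
    calc (2 : ℝ) ^ g 0 * |b (some (c 0)) -
        (F.x ω (c 0) + (b none - F.t ω) * bd F ω (some (c 0)))| ≤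
        2 ^ g₄ 0 * 2 ^ n * (2 ^ k₁ / 2 ^ g₄ 0) :=
          mul_le_mul h2 h1 (abs_nonneg _) (by positivity)
      _ = 2 ^ k₂ := by
          rw [hk₂, pow_add 2 k₁ n]
          field_simp
  have h3 := hpln (k := k₂) (h := h) (g₀ := g 0) (g := g₄) (a := a) (n := n) (y := y)
    (τ := v (ptr F J ω) (c 2)) (ζ := 2 ^ a / 2 ^ (g 1 + p))
    (X₀ := X (ptr F J ω)) hc hdG hdep H.pth4 (hBA ω hω) (H.dp ω (hBA ω hω))
    (div_le_div_of_nonneg_left (by positivity) (by positivity) (pw hg1)) (hder ω hω)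
    (H.sep ω hω) hX0 hX1 (H.rep ω hω) (by rw [hk₂]; omega) α β hα1 hβ1
  rw [← hy] at h3
  -- the movement in the direction `c 1`
  obtain ⟨τ, hτ⟩ : ∃ τ, τ = v (ptr F J ω) (c 2) := ⟨_, rfl⟩
  obtain ⟨sv, hsv⟩ : ∃ sv, sv = b (some (c 1)) - y' (some (c 1)) := ⟨_, rfl⟩
  have hsv1 : |sv| ≤ 2 ^ k₁ / 2 ^ g₄ 1 := by
    have h1 := hb1 ω hω b (hb.mono le_rfl (by norm_num))
    rw [hsv, yk]
    refine le_trans (le_of_eq ?_) h1
    congr 1
    ring
  have h01 : c 0 ≠ c 1 := c_ne hc (by norm_num) (by norm_num) (by norm_num)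
  have e5 : eval (mvp (ek (c 1)) sv y') (T₄ (ptr F J ω) 2) = eval b (T₄ (ptr F J ω) 2) := by
    refine hdep _ 2 _ _ (by rw [mvp_none, y0]) fun l hl => ?_
    have : l = 0 ∨ l = 1 := by omega
    rcases this with rfl | rfl
    · rw [mvp_some, ek_ne h01, mul_zero, add_zero, y1]
    · rw [mvp_some, ek_self, mul_one, hsv]
      ring
  obtain ⟨E, hE⟩ : ∃ E : ℝ, E = 2 ^ y * 2 ^ g₄ 1 / 2 ^ g₄ 2 := ⟨_, rfl⟩
  have hE0 : 0 ≤ E := by rw [hE]; positivity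
  obtain ⟨n', hn'⟩ : ∃ n', n' = k₁ + 2 := ⟨_, rfl⟩
  have h5 := meanv (ek (c 1)) y' (T₄ (ptr F J ω) 2) (x := τ) (Y := 2 ^ (c₀ + n' * D₁) * E)
    (s := sv) (fun s' hs' => by
      have hs'1 : |s'| ≤ 2 ^ k₁ / 2 ^ g₄ 1 := hs'.trans hsv1
      have h6 := hdil (c := c) (i := 2) (G := T₄ (ptr F J ω))
        (Q := dir (ek (c 1)) (T₄ (ptr F J ω) 2) - C τ) (g := g₄) (a := a) (t := F.t ω)
        (M := E) n' (by norm_num) (hc.mono (by
          intro y hy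
          rw [Set.mem_Iio] at hy ⊢
          omega)) (fun l => hdG _ l) (fun l => hdep _ l) (fun b b' hn hb => by
          rw [map_sub, map_sub, eval_C, eval_C, dir_dep _ (hdep _ 2) b b' hn hb])
        ((totalDegree_sub _ _).trans (max_le (dir_deg _ (hdG _ 2)) (by
          rw [totalDegree_C]; exact Nat.zero_le _))) hE0 (fun b hb => by
          rw [map_sub, eval_C, hτ, hE]
          exact hder ω hω b hb) (mvp (ek (c 1)) s' y') (by
          rw [mvp_none, y0]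
          exact hα0) (fun l hl => by
          rcases Nat.lt_or_ge l 1 with h4 | h4
          · have : l = 0 := by omega
            subst this
            have e3 : eval (mvp (ek (c 1)) s' y') (T₄ (ptr F J ω) 0) =
                eval b (T₄ (ptr F J ω) 0) :=
              hdep _ 0 _ _ (by rw [mvp_none, y0]) fun k hk => absurd hk (Nat.not_lt_zero k)
            rw [e3, mvp_some, ek_ne h01, mul_zero, add_zero, y1]
            refine (hb.2 0 (by norm_num)).trans ?_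
            refine div_le_div_of_nonneg_right ?_ (by positivity)
            exact one_le_pow₀ (by norm_num)
          · have : l = 1 := by omega
            subst this
            have e3 : eval (mvp (ek (c 1)) s' y') (T₄ (ptr F J ω) 1) =
                eval b (T₄ (ptr F J ω) 1) :=
              hdep _ 1 _ _ (by rw [mvp_none, y0]) fun k hk => by
                have : k = 0 := by omega
                subst this
                rw [mvp_some, ek_ne h01, mul_zero, add_zero, y1]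
            rw [e3, mvp_some, ek_self, mul_one]
            have e4 : y' (some (c 1)) + s' - eval b (T₄ (ptr F J ω) 1) =
                (b (some (c 1)) - eval b (T₄ (ptr F J ω) 1)) - sv + s' := by rw [hsv]; ring
            rw [e4]
            have h8 := hb.2 1 (by norm_num)
            refine (abs_add_le _ _).trans ((add_le_add ((abs_sub _ _).trans
              (add_le_add h8 hsv1)) hs'1).trans ?_)
            rw [← add_div, ← add_div]
            refine div_le_div_of_nonneg_right ?_ (by positivity)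
            have g1 : (1 : ℝ) ≤ 2 ^ k₁ := one_le_pow₀ (by norm_num)
            rw [hn', pow_add]
            linarith)
      rw [map_sub, eval_C] at h6
      exact h6)
  rw [e5] at h5
  have h6 := hb.2 2 (by norm_num)
  have e6 : (b (some (c 2)) - (F.x ω (c 2) + (b none - F.t ω) * bd F ω (some (c 2)))) -
        v (ptr F J ω) (c 2) *
        (b (some (c 1)) - (F.x ω (c 1) + (b none - F.t ω) * bd F ω (some (c 1)))) -
        (X (ptr F J ω) (some (c 2)) - v (ptr F J ω) (c 2) * X (ptr F J ω) (some (c 1))) *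
        (b (some (c 0)) - (F.x ω (c 0) + (b none - F.t ω) * bd F ω (some (c 0)))) =
      (b (some (c 2)) - eval b (T₄ (ptr F J ω) 2)) +
      (eval b (T₄ (ptr F J ω) 2) - eval y' (T₄ (ptr F J ω) 2) - τ * sv) -
      (y' (some (c 2)) - eval y' (T₄ (ptr F J ω) 2)) := by
    rw [hsv, yk, yk, hτ]
    ring
  rw [e6]
  have h7 : |eval b (T₄ (ptr F J ω) 2) - eval y' (T₄ (ptr F J ω) 2) - τ * sv| ≤
      2 ^ (c₀ + n' * D₁ + y + k₁) / 2 ^ g₄ 2 := by
    refine (h5.trans (mul_le_mul_of_nonneg_left hsv1 (by positivity))).trans (le_of_eq ?_)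
    rw [hE, pow_add 2 (c₀ + n' * D₁ + y) k₁, pow_add 2 (c₀ + n' * D₁) y]
    field_simp
  refine (abs_sub _ _).trans ((add_le_add ((abs_add_le _ _).trans (add_le_add h6 h7)) h3).trans ?_)
  rw [← add_div, ← add_div]
  refine div_le_div_of_nonneg_right ?_ (by positivity)
  have g1 : cL * (n + h + k₂ + y + 1) ≤ cL * (cX + 4) * T₀ := by
    rw [Nat.mul_assoc]
    refine Nat.mul_le_mul_left _ ?_
    rw [Nat.add_mul]
    omega
  have g2 : n' * D₁ ≤ (cX + 2) * D₁ * T₀ := by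
    calc n' * D₁ ≤ ((cX + 2) * T₀) * D₁ := by
          refine Nat.mul_le_mul_right _ ?_
          rw [Nat.add_mul]
          omega
      _ = _ := by ring
  have g3 : c₀ ≤ c₀ * T₀ := Nat.le_mul_of_pos_right _ hT1
  have g4 : (1 + cL * (cX + 4) + c₀ + (cX + 2) * D₁ + cX + 3) * T₀ =
      T₀ + cL * (cX + 4) * T₀ + c₀ * T₀ + (cX + 2) * D₁ * T₀ + cX * T₀ + 3 * T₀ := by ring
  obtain ⟨Z, hZ⟩ : ∃ Z, Z = cL * (cX + 4) * T₀ + c₀ * T₀ + (cX + 2) * D₁ * T₀ + cX * T₀ + T₀ :=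
    ⟨_, rfl⟩
  have g5 : (2 : ℝ) ^ (c₀ + n' * D₁ + y + k₁) ≤ 2 ^ Z := pw (by omega)
  have g6 : (2 : ℝ) ^ (cL * (n + h + k₂ + y + 1)) ≤ 2 ^ Z := pw (by omega)
  have g7 : (1 : ℝ) ≤ 2 ^ Z := one_le_pow₀ (by norm_num)
  have g8 : (2 : ℝ) ^ (Z + 2) ≤
      2 ^ ((1 + cL * (cX + 4) + c₀ + (cX + 2) * D₁ + cX + 3) * T₀) := pw (by omega)
  rw [pow_add] at g8
  linarith

end Pool.NVX
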