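import Pool.Agent.H80.NV.Qe

/-!
# The quotient end for `c 1`

`rel3_q1`: the second derivative in the direction `v` is large: the label of `c 1` of the node
`(a, w₂)` is closed with a gain.
-/

set_option autoImplicit false

namespace Pool.NVX

open Finset Real MvPolynomial
open Pool.Agent.H49.Ent Pool.Agent.H32.Dense Pool.STK Pool.KA Pool.KSAT Pool.K2S Pool.PB Pool.S6C
open Pool.GEN Pool.CHT
open Pool.D2R (dd hs dd_add dd_smul dd_congr)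
open Pool.F5 (lp gp der_lp dd_gp deg_gp deg_lp eo bdS bdS_slam eval_lp eval_gp)
open Pool.SHR (dir mvp RelvH Shr ShrY relvF_low)
open Pool.PB.Trl (rt rt_mem t_rt)

variable {m J : ℕ}

/-- A polynomial along the line, as a polynomial of the time. -/
noncomputable def alg {F : Fam m J} (P : MvPolynomial (Option (Fin m)) ℝ) (s : LnT F) :
    Polynomial ℝ := lp P (x0S s) (bdS s)

theorem alg_eval (F : Fam m J) (w : ℕ) (ω : F.Ω) (P : MvPolynomial (Option (Fin m)) ℝ) (t : ℝ) :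
    (alg P (slam F w ω)).eval t = eval (bt F ω + (t - F.t ω) • bd F ω) P := by
  unfold alg
  rw [eval_lp, pt_slam]

theorem alg_deg {F : Fam m J} {D : ℕ} {P : MvPolynomial (Option (Fin m)) ℝ}
    (hD : P.totalDegree ≤ D) (s : LnT F) : (alg P s).natDegree ≤ D := by
  unfold alg
  exact deg_lp hD _ _

/-- **The quotient end for `c 1`.** -/
theorem rel3_q1 (D : ℕ) (hD : 1 ≤ D) : ∃ C : ℕ, ∀ {m J : ℕ} {F : Fam m J} {c : ℕ → Fin m}
    {a w w₂ e n p lam₁ lam₂ h x k U K D₂ : ℕ} {g gN g₄ : ℕ → ℕ} {κ : ℝ} {B₀ A B : F.Ω → Prop}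
    {T T₄ : PtT F → ℕ → MvPolynomial (Option (Fin m)) ℝ}
    {NH T₄H : LnT F → ℕ → MvPolynomial (Option (Fin m)) ℝ} {v : PtT F → Fin m → ℝ}
    {X : PtT F → Option (Fin m) → ℝ} {ν₀ : PtT F → F.Ω},
    Rel3 F c a w e n p lam₁ lam₂ D h g gN g₄ A B T T₄ NH v X ν₀ → w ≤ w₂ → w₂ ≤ a → a + 1 ≤ J →
    Set.InjOn c (Set.Iio 3) → RelvF F c 2 a w₂ g₄ D₂ h κ B₀ T₄ →
    ChOK F c 2 (fun _ => D) a w₂ e g₄ B₀ T₄ T₄H → 2 * D + 2 ≤ D₂ → Sub A B₀ → Sub B A →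
    κ * Pe F.p B₀ ≤ Pe F.p B → 0 < Pe F.p B → (∀ s l, (NH s l).totalDegree ≤ D) →
    (∀ ω, B ω → ∀ t : ℝ, |t - F.t ω| ≤ 1 / 2 ^ a → |X (ptr F J ω) (some (c 2)) -
      (eval (bt F ω + (t - F.t ω) • bd F ω) (pderiv (some (c 0)) (NH (slam F w ω) 2)) +
      eval (bt F ω + (t - F.t ω) • bd F ω) (pderiv (some (c 1)) (NH (slam F w ω) 2)) *
        X (ptr F J ω) (some (c 1)))| ≤ 2 ^ (g 0 + k) / 2 ^ g 2) →
    (∀ ω, B ω → 2 ^ (a + lam₁) / 2 ^ gN 3 / 2 ^ x ≤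
      |(hcl (c 1) (NH (slam F w ω) 3) (slam F w ω)).eval (F.t ω) +
        v (ptr F J ω) (c 2) * (hcl (c 2) (NH (slam F w ω) 3) (slam F w ω)).eval (F.t ω)|) →
    (∀ ω, B ω → ∀ t : ℝ, F.t ω - rt F w ω / 2 ^ w ≤ t → t ≤ F.t ω + (1 - rt F w ω) / 2 ^ w →
      |(hcl (c 1) (NH (slam F w ω) 3) (slam F w ω)).eval t +
        v (ptr F J ω) (c 2) * (hcl (c 2) (NH (slam F w ω) 3) (slam F w ω)).eval t| ≤
        2 ^ (a + lam₁) / 2 ^ gN 3) →
    (∀ ω, B ω → ∀ t : ℝ, F.t ω - rt F w ω / 2 ^ w ≤ t → t ≤ F.t ω + (1 - rt F w ω) / 2 ^ w →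
      |(hcl (c 2) (NH (slam F w ω) 3) (slam F w ω)).eval t| ≤ 2 ^ (a + lam₂) / 2 ^ gN 3) →
    (∀ ω, B ω → ∀ t : ℝ, F.t ω - rt F w ω / 2 ^ w ≤ t → t ≤ F.t ω + (1 - rt F w ω) / 2 ^ w →
      |eval (bt F ω + (t - F.t ω) • bd F ω) (pderiv (some (c 1)) (NH (slam F w ω) 2)) -
        v (ptr F J ω) (c 2)| ≤ 2 ^ (k + U) / 2 ^ g 2) →
    g₄ 1 + K ≤ lam₁ → g₄ 1 ≤ U → lam₂ + U + K ≤ lam₁ + g 2 → g₄ 1 ≤ g 1 + n →
    g 0 ≤ g₄ 0 + n → K ≤ p → w + K ≤ w₂ → C * (n + h + k + x + 1) ≤ K →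
    (∀ l < 2, e + g l + 2 * n + h + 4 ≤ J) → False := by
  obtain ⟨cX, hbx⟩ := rel3_bx D hD
  obtain ⟨cM, hmkv⟩ := mkv_win (2 * D)
  obtain ⟨cW, hwin⟩ := win_box D
  have pw : ∀ {x y : ℕ}, x ≤ y → (2 : ℝ) ^ x ≤ 2 ^ y := fun h => pow_le_pow_right₀ (by norm_num) h
  refine ⟨cX + cM + cW + 14, ?_⟩
  intro m J F c a w w₂ e n p lam₁ lam₂ h x k U K D₂ g gN g₄ κ B₀ A B T T₄ NH T₄H v X ν₀ H hw hw2
    haJ1 hc hR hT4 hDD hA hBA hκ hP hNd hst hlow hup1 hup2 hslp n1 n2 n3 n4 n5 n6 n7 n8 hrm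
  have haJ : a ≤ J := by omega
  have hwa : w ≤ a := hw.trans hw2
  obtain ⟨T₀, hT₀⟩ : ∃ T, T = n + h + k + x + 1 := ⟨_, rfl⟩
  have hT1 : 1 ≤ T₀ := by omega
  rw [← hT₀] at n8
  obtain ⟨q, hq⟩ : ∃ q, q = cX * T₀ := ⟨_, rfl⟩
  have hCT : (cX + cM + cW + 14) * T₀ = q + cM * T₀ + cW * T₀ + 14 * T₀ := by rw [hq]; ring
  have mM : cM ≤ cM * T₀ := Nat.le_mul_of_pos_right _ hT1
  have mW : cW ≤ cW * T₀ := Nat.le_mul_of_pos_right _ hT1
  obtain ⟨hb0, hb1⟩ := hbx H haJ hBA hT4.degG hT4.depG n5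
  have hkX : cX * (n + h + 1) ≤ q := by
    rw [hq]
    exact Nat.mul_le_mul_left _ (by omega)
  obtain ⟨M, hM⟩ : ∃ M : ℝ, M = 1 / 2 ^ (g₄ 1 + h + 2) := ⟨_, rfl⟩
  have hM0 : 0 < M := by rw [hM]; positivity
  obtain ⟨Rr, hRr⟩ : ∃ R : ℝ, R = 2 ^ (n + e + nlp g 0 1) := ⟨_, rfl⟩
  have hn01 : nlp g 0 1 + g 1 + e + 2 * n + h + 4 ≤ J := by
    have h3 := nlp_01 g
    have h4 := hrm 0 (by norm_num)
    have h5 := hrm 1 (by norm_num)
    have h6 : max (g 0) (g 1) + e + 2 * n + h + 4 ≤ J := by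
      rcases le_total (g 0) (g 1) with h7 | h7
      · rw [max_eq_right h7]
        omega
      · rw [max_eq_left h7]
        omega
    omega
  obtain ⟨k₀, hk₀⟩ : ∃ k₀ : ℝ, k₀ = 2 ^ (a + lam₁) / 2 ^ gN 3 / 2 ^ (x + 1) := ⟨_, rfl⟩
  have hk00 : 0 < k₀ := by rw [hk₀]; positivity
  obtain ⟨δ, hδ⟩ : ∃ δ : ℝ, δ = 2 ^ cM * 2 ^ w / 2 ^ w₂ * 2 ^ (x + 2) := ⟨_, rfl⟩
  obtain ⟨er, her⟩ : ∃ er : ℝ, er = 2 ^ (a + g 0 + n) / 2 ^ gN 3 *
        (1 + 2 ^ lam₁ / 2 ^ (g 1 + p) + 2 ^ lam₂ / 2 ^ (g 2 + p)) := ⟨_, rfl⟩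
  obtain ⟨er₂, her₂⟩ : ∃ er₂ : ℝ, er₂ = 2 ^ cW * (2 ^ (a + lam₂) / 2 ^ gN 3) *
    (2 ^ (g 0 + k) / 2 ^ g 2) := ⟨_, rfl⟩
  obtain ⟨u, hu⟩ : ∃ u : ℝ, u = 1 / 2 ^ (g₄ 1 + K) := ⟨_, rfl⟩
  have hu0 : 0 ≤ u := by rw [hu]; positivity
  -- the second factor
  have hsm : 2 ^ (a + lam₂) / 2 ^ gN 3 * (2 ^ (k + U) / 2 ^ g 2) ≤ k₀ := by
    rw [hk₀, div_mul_div_comm, div_div, div_le_div_iff₀ (by positivity) (by positivity),
      ← pow_add, ← pow_add, ← pow_add, ← pow_add, ← pow_add]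
    exact pw (by omega)
  have q1 : 4 * er / k₀ * (2 ^ q / 2 ^ g₄ 0) ≤ 2 ^ (5 + 3 * n + x + q) * u := by
    have e1 := er_num (a := a) (g0 := g 0) (n := n) (x := x + 1) (li := lam₁) (lj := lam₂)
      (gi := g 1) (gj := g 2) (p := p) (G := 2 ^ gN 3) (by positivity)
    have e2 : 4 * er / k₀ = 4 * (2 ^ (g 0 + n + (x + 1)) * (1 / 2 ^ lam₁ + 1 / 2 ^ (g 1 + p) +
        2 ^ lam₂ / (2 ^ lam₁ * 2 ^ (g 2 + p)))) := by
      rw [← e1, her, hk₀]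
      ring
    rw [e2]
    have r1 : (1 : ℝ) / 2 ^ lam₁ ≤ 2 ^ n * u := by
      rw [hu, mul_one_div, div_le_div_iff₀ (by positivity) (by positivity), one_mul, ← pow_add]
      exact pw (by omega)
    have r2 : (1 : ℝ) / 2 ^ (g 1 + p) ≤ 2 ^ n * u := by
      rw [hu, mul_one_div, div_le_div_iff₀ (by positivity) (by positivity), one_mul, ← pow_add]
      exact pw (by omega)
    have r3 : (2 : ℝ) ^ lam₂ / (2 ^ lam₁ * 2 ^ (g 2 + p)) ≤ 2 ^ n * u := by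
      rw [hu, mul_one_div, div_le_div_iff₀ (by positivity) (by positivity), ← pow_add,
        ← pow_add, ← pow_add]
      exact pw (by omega)
    have r4 : (2 : ℝ) ^ g 0 / 2 ^ g₄ 0 ≤ 2 ^ n := by
      rw [div_le_iff₀ (by positivity), ← pow_add]
      exact pw (by omega)
    have r5 : 1 / 2 ^ lam₁ + 1 / 2 ^ (g 1 + p) + 2 ^ lam₂ / (2 ^ lam₁ * 2 ^ (g 2 + p)) ≤
        4 * (2 ^ n * u) := by
      have : 0 ≤ 2 ^ n * u := by positivity
      linarith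
    calc 4 * (2 ^ (g 0 + n + (x + 1)) * (1 / 2 ^ lam₁ + 1 / 2 ^ (g 1 + p) +
        2 ^ lam₂ / (2 ^ lam₁ * 2 ^ (g 2 + p)))) * (2 ^ q / 2 ^ g₄ 0) ≤
        4 * (2 ^ (g 0 + n + (x + 1)) * (4 * (2 ^ n * u))) * (2 ^ q / 2 ^ g₄ 0) :=
          mul_le_mul_of_nonneg_right (mul_le_mul_of_nonneg_left (mul_le_mul_of_nonneg_left r5
            (by positivity)) (by norm_num)) (by positivity)
      _ = 16 * 2 ^ (n + (x + 1) + n + q) * u * (2 ^ g 0 / 2 ^ g₄ 0) := by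
          rw [pow_add 2 (n + (x + 1) + n) q, pow_add 2 (n + (x + 1)) n,
            show g 0 + n + (x + 1) = g 0 + (n + (x + 1)) by omega, pow_add 2 (g 0) (n + (x + 1))]
          ring
      _ ≤ 16 * 2 ^ (n + (x + 1) + n + q) * u * 2 ^ n :=
          mul_le_mul_of_nonneg_left r4 (by positivity)
      _ = _ := by
          rw [show 5 + 3 * n + x + q = 4 + (n + (x + 1) + n + q) + n by omega, pow_add 2 _ n,
            pow_add 2 4]
          norm_num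
          ring
  have q2 : 4 * er₂ / k₀ * (2 ^ q / 2 ^ g₄ 0) ≤ 2 ^ (3 + cW + k + x + n + q) * u := by
    have e1 : 4 * er₂ / k₀ * (2 ^ q / 2 ^ g₄ 0) = 2 ^ (3 + cW + k + x + q) *
        (2 ^ lam₂ / (2 ^ lam₁ * 2 ^ g 2)) * (2 ^ g 0 / 2 ^ g₄ 0) := by
      rw [her₂, hk₀, pow_add 2 a lam₁, pow_add 2 a lam₂, pow_add 2 (3 + cW + k + x) q,
        pow_add 2 (3 + cW + k) x, pow_add 2 (3 + cW) k, pow_add 2 3 cW, pow_add 2 x 1,
        pow_add 2 (g 0) k]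
      field_simp
      norm_num
    have r4 : (2 : ℝ) ^ g 0 / 2 ^ g₄ 0 ≤ 2 ^ n := by
      rw [div_le_iff₀ (by positivity), ← pow_add]
      exact pw (by omega)
    have r5 : (2 : ℝ) ^ lam₂ / (2 ^ lam₁ * 2 ^ g 2) ≤ u := by
      rw [hu, div_le_div_iff₀ (by positivity) (by positivity), one_mul, ← pow_add, ← pow_add]
      exact pw (by omega)
    rw [e1]
    calc 2 ^ (3 + cW + k + x + q) * (2 ^ lam₂ / (2 ^ lam₁ * 2 ^ g 2)) * (2 ^ g 0 / 2 ^ g₄ 0) ≤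
        2 ^ (3 + cW + k + x + q) * u * 2 ^ n :=
          mul_le_mul (mul_le_mul_of_nonneg_left r5 (by positivity)) r4 (by positivity)
            (by positivity)
      _ = _ := by
          rw [show 3 + cW + k + x + n + q = 3 + cW + k + x + q + n by omega, pow_add 2 _ n]
          ring
  have q3 : 4 * δ * (2 ^ q / 2 ^ g₄ 1) ≤ 2 ^ (4 + cM + x + q) * u := by
    have e1 : 4 * δ * (2 ^ q / 2 ^ g₄ 1) = 2 ^ (4 + cM + x + q) *
        (2 ^ w / (2 ^ w₂ * 2 ^ g₄ 1)) := by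
      rw [hδ, pow_add 2 (4 + cM + x) q, pow_add 2 (4 + cM) x, pow_add 2 4 cM, pow_add 2 x 2]
      field_simp
      norm_num
    rw [e1, hu]
    refine mul_le_mul_of_nonneg_left ?_ (by positivity)
    rw [div_le_div_iff₀ (by positivity) (by positivity), one_mul, ← pow_add, ← pow_add]
    exact pw (by omega)
  -- the closed coefficients
  obtain ⟨P₀, hP₀⟩ : ∃ P₀ : LnT F → Polynomial ℝ, P₀ = fun s => hcl (c 0) (NH s 3) s +
    hcl (c 2) (NH s 3) s * alg (pderiv (some (c 0)) (NH s 2)) s := ⟨_, rfl⟩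
  obtain ⟨P₁, hP₁⟩ : ∃ P₁ : LnT F → Polynomial ℝ, P₁ = fun s => hcl (c 1) (NH s 3) s +
    hcl (c 2) (NH s 3) s * alg (pderiv (some (c 1)) (NH s 2)) s := ⟨_, rfl⟩
  have hdP : ∀ (i : ℕ) (s : LnT F), (hcl (c i) (NH s 3) s +
      hcl (c 2) (NH s 3) s * alg (pderiv (some (c i)) (NH s 2)) s).natDegree ≤ 2 * D := by
    intro i s
    refine (Polynomial.natDegree_add_le _ _).trans (max_le ((hcl_deg _ (hNd s 3) s).trans
      (by omega)) ?_)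
    refine Polynomial.natDegree_mul_le.trans ?_
    have h1 := hcl_deg (c 2) (hNd s 3) s
    have h2 := alg_deg (Pool.GEN.totalDegree_pdσ (hNd s 2) (some (c i))) s
    omega
  have hP1v : ∀ ω, ∀ t : ℝ, (P₁ (slam F w ω)).eval t =
      ((hcl (c 1) (NH (slam F w ω) 3) (slam F w ω)).eval t +
        v (ptr F J ω) (c 2) * (hcl (c 2) (NH (slam F w ω) 3) (slam F w ω)).eval t) +
      (hcl (c 2) (NH (slam F w ω) 3) (slam F w ω)).eval t *
        (eval (bt F ω + (t - F.t ω) • bd F ω) (pderiv (some (c 1)) (NH (slam F w ω) 2)) -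
          v (ptr F J ω) (c 2)) := by
    intro ω t
    rw [hP₁]
    simp only [Polynomial.eval_add, Polynomial.eval_mul, alg_eval]
    ring
  have htw : ∀ ω, F.t ω - rt F w ω / 2 ^ w ≤ F.t ω ∧ F.t ω ≤ F.t ω + (1 - rt F w ω) / 2 ^ w := by
    intro ω
    have hrt := rt_mem F w ω
    have h1 : 0 ≤ rt F w ω / 2 ^ w := div_nonneg hrt.1 (by positivity)
    have h2 : 0 ≤ (1 - rt F w ω) / 2 ^ w := div_nonneg (by linarith [hrt.2]) (by positivity)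
    constructor <;> linarith
  have hsmall : ∀ ω, B ω → ∀ t : ℝ, F.t ω - rt F w ω / 2 ^ w ≤ t →
      t ≤ F.t ω + (1 - rt F w ω) / 2 ^ w →
      |(hcl (c 2) (NH (slam F w ω) 3) (slam F w ω)).eval t *
        (eval (bt F ω + (t - F.t ω) • bd F ω) (pderiv (some (c 1)) (NH (slam F w ω) 2)) -
          v (ptr F J ω) (c 2))| ≤ k₀ := by
    intro ω hω t t1 t2
    rw [abs_mul]
    exact (mul_le_mul (hup2 ω hω t t1 t2) (hslp ω hω t t1 t2) (abs_nonneg _)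
      (by positivity)).trans hsm
  refine nv_end (F := F) (c := c) (D := 2 * D) (D' := D) (D₂ := D₂) (a := a) (w := w) (w₂ := w₂)
    (e := e) (h := h) (g := g₄) (κ := κ) (M := M) (R := Rr) (er := er + er₂) (k₀ := k₀) (δ := δ)
    (Y := 2 ^ q / 2 ^ g₄ 0) (Yu := 2 ^ q / 2 ^ g₄ 1) (B₀ := B₀) (B := B) (G := T₄) (H := T₄H)
    (hc.mono fun x hx => by
      rw [Set.mem_Iio] at hx ⊢
      omega) hR hT4 hDD (fun ω h => hA ω (hBA ω h)) hκ hP hw hw2 haJ ν₀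
    (fun y => X y (some (c 1))) P₀ P₁ (fun s => by rw [hP₀]; exact hdP 0 s)
    (fun s => by rw [hP₁]; exact hdP 1 s) H.nu (fun ω hω => ?_) hM0 (fun ω hω => ?_) hk00
    (fun ω hω => ?_) (by rw [hδ]; positivity) (fun ω hω t ht => ?_) (fun ω hω t ht => ?_)
    (by positivity) (fun ω hω b hb => ?_) (by positivity) (fun ω hω b hb => ?_) ?_ ?_ ?_
  · rw [hRr]
    exact H.sl1 ω hω
  · refine (H.ve1 ω hω).trans ?_
    rw [hM, div_mul_eq_mul_div, one_mul]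
    exact div_le_div_of_nonneg_left (by positivity) (by positivity) (pw (by omega))
  · rw [hP1v]
    have h1 := hlow ω hω
    have h2 := hsmall ω hω (F.t ω) (htw ω).1 (htw ω).2
    have e1 : (2 : ℝ) ^ (a + lam₁) / 2 ^ gN 3 / 2 ^ x = 2 * k₀ := by
      rw [hk₀, pow_succ]
      field_simp
    rw [e1] at h1
    have h3 := abs_sub_abs_le_abs_sub
      ((hcl (c 1) (NH (slam F w ω) 3) (slam F w ω)).eval (F.t ω) +
        v (ptr F J ω) (c 2) * (hcl (c 2) (NH (slam F w ω) 3) (slam F w ω)).eval (F.t ω))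
      (-((hcl (c 2) (NH (slam F w ω) 3) (slam F w ω)).eval (F.t ω) *
        (eval (bt F ω + (F.t ω - F.t ω) • bd F ω) (pderiv (some (c 1)) (NH (slam F w ω) 2)) -
          v (ptr F J ω) (c 2))))
    rw [abs_neg, sub_neg_eq_add] at h3
    linarith
  · refine (hmkv (w := w) (w' := w₂) (K := 2 * (2 ^ (a + lam₁) / 2 ^ gN 3)) hw (by omega)
      (by rw [hP₁]; exact hdP 1 _) (fun t t1 t2 => ?_) t ht).trans (le_of_eq ?_)
    · rw [hP1v]
      have h1 := hup1 ω hω t t1 t2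
      have h2 := hsmall ω hω t t1 t2
      have h3 : k₀ ≤ 2 ^ (a + lam₁) / 2 ^ gN 3 := by
        rw [hk₀]
        exact div_le_self (by positivity) (one_le_pow₀ (by norm_num))
      refine (abs_add_le _ _).trans ?_
      linarith
    · rw [hδ, hk₀, pow_add 2 x 1, pow_add 2 x 2]
      field_simp
  · have h1 := H.rel ω hω t ht
    rw [← her] at h1
    have h2 := hst ω hω t ht
    have h3 := hwin (w := w) (P := hcl (c 2) (NH (slam F w ω) 3) (slam F w ω)) (ω := ω)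
      (by omega) (hcl_deg _ (hNd _ 3) _) (hup2 ω hω) t (ht.trans
        (one_div_le_one_div_of_le (by positivity) (pw hwa)))
    have e1 : (P₀ (slam F w ω)).eval t + (P₁ (slam F w ω)).eval t * X (ptr F J ω) (some (c 1)) =
        ((hcl (c 0) (NH (slam F w ω) 3) (slam F w ω)).eval t +
      ((hcl (c 1) (NH (slam F w ω) 3) (slam F w ω)).eval t +
        v (ptr F J ω) (c 2) * (hcl (c 2) (NH (slam F w ω) 3) (slam F w ω)).eval t) *
        X (ptr F J ω) (some (c 1)) +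
      (hcl (c 2) (NH (slam F w ω) 3) (slam F w ω)).eval t *
        (X (ptr F J ω) (some (c 2)) - v (ptr F J ω) (c 2) * X (ptr F J ω) (some (c 1)))) -
        (hcl (c 2) (NH (slam F w ω) 3) (slam F w ω)).eval t *
        (X (ptr F J ω) (some (c 2)) -
      (eval (bt F ω + (t - F.t ω) • bd F ω) (pderiv (some (c 0)) (NH (slam F w ω) 2)) +
      eval (bt F ω + (t - F.t ω) • bd F ω) (pderiv (some (c 1)) (NH (slam F w ω) 2)) *
        X (ptr F J ω) (some (c 1)))) := by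
      rw [hP₀, hP₁]
      simp only [Polynomial.eval_add, Polynomial.eval_mul, alg_eval]
      ring
    rw [e1]
    refine (abs_sub _ _).trans (add_le_add h1 ?_)
    rw [abs_mul, her₂]
    exact mul_le_mul h3 h2 (abs_nonneg _) (by positivity)
  · exact (hb0 ω hω b hb).trans (div_le_div_of_nonneg_right (pw hkX) (by positivity))
  · exact (hb1 ω hω b hb).trans (div_le_div_of_nonneg_right (pw hkX) (by positivity))
  · obtain ⟨Z, hZ⟩ : ∃ Z, Z = 5 + 3 * n + x + k + q + cW + cM := ⟨_, rfl⟩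
    have r1 : (2 : ℝ) ^ (5 + 3 * n + x + q) * u ≤ 2 ^ Z * u :=
      mul_le_mul_of_nonneg_right (pw (by omega)) hu0
    have r2 : (2 : ℝ) ^ (3 + cW + k + x + n + q) * u ≤ 2 ^ Z * u :=
      mul_le_mul_of_nonneg_right (pw (by omega)) hu0
    have r3 : (2 : ℝ) ^ (4 + cM + x + q) * u ≤ 2 ^ Z * u :=
      mul_le_mul_of_nonneg_right (pw (by omega)) hu0
    have r4 : (4 : ℝ) * (2 ^ Z * u) ≤ M := by
      rw [hM, hu, show (4 : ℝ) = 2 ^ 2 by norm_num, mul_one_div, ← mul_div_assoc, ← pow_add,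
        div_le_div_iff₀ (by positivity) (by positivity), one_mul, ← pow_add]
      exact pw (by omega)
    have r5 : 0 ≤ 2 ^ Z * u := by positivity
    have e1 : 4 * (er + er₂) / k₀ * (2 ^ q / 2 ^ g₄ 0) =
        4 * er / k₀ * (2 ^ q / 2 ^ g₄ 0) + 4 * er₂ / k₀ * (2 ^ q / 2 ^ g₄ 0) := by ring
    rw [e1]
    linarith
  · rw [hM, hRr, div_mul_eq_mul_div, one_mul, le_div_iff₀ (by positivity)]
    have h1 : (2 : ℝ) ^ (n + e + nlp g 0 1) + 1 ≤ 2 ^ (n + e + nlp g 0 1 + 2) := by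
      have : (1 : ℝ) ≤ 2 ^ (n + e + nlp g 0 1) := one_le_pow₀ (by norm_num)
      rw [pow_add 2 (n + e + nlp g 0 1) 2]
      linarith
    refine (mul_le_mul_of_nonneg_right h1 (by positivity)).trans ?_
    rw [← pow_add]
    exact pw (by omega)
  · rw [hM]
    have e1 : (2 : ℝ) ^ h * (3 * (1 / 2 ^ (g₄ 1 + h + 2))) = 3 / 4 * (1 / 2 ^ g₄ 1) := by
      rw [pow_add, pow_add]
      field_simp
      norm_num
    rw [e1]
    have : (0 : ℝ) < 1 / 2 ^ g₄ 1 := by positivity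
    linarith

end Pool.NVX
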