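import Pool.Agent.H80.NV.Ttw
import Pool.Agent.H80.NV.Qf

/-!
# Windows; larger losses
-/

set_option autoImplicit false

namespace Pool.NVX

open Finset Real MvPolynomial
open Pool.Agent.H49.Ent Pool.Agent.H32.Dense Pool.STK Pool.KA Pool.KSAT Pool.K2S Pool.PB Pool.S6C
open Pool.GEN Pool.CHT
open Pool.PB.Trl (rt rt_mem t_rt)

variable {m J : ℕ}

/-- **The window `a` is in the window `w`.** -/
theorem win_sub {F : Fam m J} {w a : ℕ} (hwa : w ≤ a) (haJ : a ≤ J) (ω : F.Ω) {t : ℝ}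
    (h1 : F.t ω - rt F a ω / 2 ^ a ≤ t) (h2 : t ≤ F.t ω + (1 - rt F a ω) / 2 ^ a) :
    F.t ω - rt F w ω / 2 ^ w ≤ t ∧ t ≤ F.t ω + (1 - rt F w ω) / 2 ^ w := by
  have hw := t_rt F (hwa.trans haJ) ω
  have ha := t_rt F haJ ω
  have hs := slam_coarse F hwa haJ ω
  obtain ⟨N, hN⟩ : ∃ N : ℕ, N = (slam F a ω).2.2 := ⟨_, rfl⟩
  have hM : (slam F w ω).2.2 = N / 2 ^ (a - w) := by rw [hs, hN]
  rw [hM] at hw
  rw [← hN] at ha
  have h2w : (0 : ℝ) < 2 ^ w := by positivity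
  have h2a : (0 : ℝ) < 2 ^ a := by positivity
  have hpow : (2 : ℝ) ^ a = 2 ^ w * 2 ^ (a - w) := by rw [← pow_add, Nat.add_sub_cancel' hwa]
  have hd : (0 : ℝ) < 2 ^ (a - w) := by positivity
  obtain ⟨M, hM'⟩ : ∃ M : ℕ, M = N / 2 ^ (a - w) := ⟨_, rfl⟩
  rw [← hM'] at hw
  have k1 : M * 2 ^ (a - w) ≤ N := by rw [hM']; exact Nat.div_mul_le_self N _
  have k2 : N + 1 ≤ (M + 1) * 2 ^ (a - w) := by
    rw [hM', Nat.add_mul, one_mul]
    exact Nat.succ_le_of_lt (Nat.lt_div_mul_add (by positivity))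
  have k1' : (M : ℝ) * 2 ^ (a - w) ≤ N := by exact_mod_cast k1
  have k2' : (N : ℝ) + 1 ≤ (M + 1) * 2 ^ (a - w) := by exact_mod_cast k2
  have e1 : F.t ω - rt F w ω / 2 ^ w = (M : ℝ) / 2 ^ w := by rw [hw]; ring
  have e2 : F.t ω + (1 - rt F w ω) / 2 ^ w = ((M : ℝ) + 1) / 2 ^ w := by rw [hw]; ring
  have e3 : F.t ω - rt F a ω / 2 ^ a = (N : ℝ) / 2 ^ a := by rw [ha]; ring
  have e4 : F.t ω + (1 - rt F a ω) / 2 ^ a = ((N : ℝ) + 1) / 2 ^ a := by rw [ha]; ring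
  rw [e3] at h1
  rw [e4] at h2
  rw [e1, e2]
  constructor
  · refine le_trans ?_ h1
    rw [hpow, div_le_div_iff₀ h2w (by positivity)]
    calc (M : ℝ) * (2 ^ w * 2 ^ (a - w)) = (M * 2 ^ (a - w)) * 2 ^ w := by ring
      _ ≤ _ := mul_le_mul_of_nonneg_right k1' h2w.le
  · refine h2.trans ?_
    rw [hpow, div_le_div_iff₀ (by positivity) h2w]
    calc ((N : ℝ) + 1) * 2 ^ w ≤ ((M + 1) * 2 ^ (a - w)) * 2 ^ w :=
          mul_le_mul_of_nonneg_right k2' h2w.le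
      _ = _ := by ring

/-- The own time is in the window. -/
theorem win_self (F : Fam m J) (w : ℕ) (ω : F.Ω) :
    F.t ω - rt F w ω / 2 ^ w ≤ F.t ω ∧ F.t ω ≤ F.t ω + (1 - rt F w ω) / 2 ^ w := by
  have hrt := rt_mem F w ω
  have h1 : 0 ≤ rt F w ω / 2 ^ w := div_nonneg hrt.1 (by positivity)
  have h2 : 0 ≤ (1 - rt F w ω) / 2 ^ w := div_nonneg (by linarith [hrt.2]) (by positivity)
  constructor <;> linarith

/-- Larger losses. -/
theorem Rel3.mono {F : Fam m J} {c : ℕ → Fin m} {a w e n n' p lam₁ lam₂ D h : ℕ}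
    {g gN g₄ : ℕ → ℕ} {A B : F.Ω → Prop} {T T₄ : PtT F → ℕ → MvPolynomial (Option (Fin m)) ℝ}
    {NH : LnT F → ℕ → MvPolynomial (Option (Fin m)) ℝ} {v : PtT F → Fin m → ℝ}
    {X : PtT F → Option (Fin m) → ℝ} {ν₀ : PtT F → F.Ω}
    (H : Rel3 F c a w e n p lam₁ lam₂ D h g gN g₄ A B T T₄ NH v X ν₀) (hn : n ≤ n') :
    Rel3 F c a w e n' p lam₁ lam₂ D h g gN g₄ A B T T₄ NH v X ν₀ := by
  have pw : ∀ {x y : ℕ}, x ≤ y → (2 : ℝ) ^ x ≤ 2 ^ y := fun h => pow_le_pow_right₀ (by norm_num) h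
  have pd : ∀ {x y z : ℕ}, x ≤ y → (2 : ℝ) ^ x / 2 ^ z ≤ 2 ^ y / 2 ^ z := fun h =>
    div_le_div_of_nonneg_right (pw h) (by positivity)
  exact ⟨H.x0, H.x1, H.nu, fun ω h => (H.sl1 ω h).trans (pw (by omega)),
    fun ω h => (H.slv ω h).trans (pw (by omega)), fun ω h => (H.sl2 ω h).trans (pw (by omega)),
    H.ve1, H.ve2, fun ω ω' h1 h2 h3 => (H.tt1 ω ω' h1 h2 h3).trans (pd (by omega)),
    fun ω ω' h1 h2 h3 => (H.tt2 ω ω' h1 h2 h3).trans (pd (by omega)),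
    fun ω h α β hα hβ l hl => (H.pl ω h α β hα hβ l hl).trans (pd hn), H.sep, H.rep,
    H.pth.mono le_rfl hn, H.pth4.mono le_rfl hn, H.dp,
    fun ω h t ht => (H.rel ω h t ht).trans (mul_le_mul_of_nonneg_right (pd (by omega))
      (by positivity)),
    fun ω h t ht => (H.xx ω h t ht).trans (mul_le_mul_of_nonneg_right (pd (by omega))
      (by positivity))⟩

end Pool.NVX
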