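import Pool.Agent.H80.NV.Axl
import Pool.Agent.H60.D2.Box

/-!
# The variation in a visible direction

The direction `v` as a vector; the variation along the line of the derivative in a direction; the
second derivatives in the coordinates `c 0, c 1, c 2`.
-/

set_option autoImplicit false

namespace Pool.NVX

open Finset Real MvPolynomial
open Pool.Agent.H49.Ent Pool.Agent.H32.Dense Pool.STK Pool.KA Pool.KSAT Pool.K2S Pool.PB Pool.S6C
open Pool.GEN Pool.CHT
open Pool.D2R (dd hs dd_add dd_smul dd_congr hs_add_right hs_smul_right hs_smul_left)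
open Pool.F5 (lp gp der_lp dd_gp deg_gp deg_lp eo bdS bdS_slam eval_lp eval_gp)
open Pool.SHR (dir RelvH)
open Pool.PB.Trl (rt rt_mem t_rt)

variable {m J : ℕ}

/-- The direction as a vector. -/
noncomputable def vo (v : Fin m → ℝ) : Option (Fin m) → ℝ
  | none => 0
  | some k => v k

theorem dir_dd (v : Fin m → ℝ) (P : MvPolynomial (Option (Fin m)) ℝ) (x : Option (Fin m) → ℝ) :
    eval x (dir v P) = dd P x (vo v) := by
  unfold dir dd
  rw [map_sum, Fintype.sum_option]
  have e1 : vo v none = 0 := rfl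
  rw [e1, mul_zero, zero_add]
  refine Finset.sum_congr rfl fun k _ => ?_
  rw [map_mul, eval_C, mul_comm]
  rfl

/-- **The variation along the line** of the derivative in a direction. -/
theorem vary_dir {F : Fam m J} {a : ℕ} (haJ : a ≤ J) {ω ω' : F.Ω}
    (h : slam F a ω = slam F a ω') (P : MvPolynomial (Option (Fin m)) ℝ)
    (V : Option (Fin m) → ℝ) {K₀ : ℝ}
    (hK : ∀ t : ℝ, F.t ω - rt F a ω / 2 ^ a ≤ t → t ≤ F.t ω + (1 - rt F a ω) / 2 ^ a →
      |hs P (bt F ω + (t - F.t ω) • bd F ω) (bd F ω) V| ≤ K₀) :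
    |dd P (bt F ω) V - dd P (bt F ω') V| ≤ K₀ / 2 ^ a := by
  obtain ⟨s, hs'⟩ : ∃ s, s = slam F a ω := ⟨_, rfl⟩
  obtain ⟨p, hp⟩ : ∃ p, p = lp (gp P V) (x0S s) (bdS s) := ⟨_, rfl⟩
  have hpe : ∀ ν, slam F a ν = s → p.eval (F.t ν) = dd P (bt F ν) V := by
    intro ν hν
    rw [hp, eval_lp, ← hν, pt_slam, sub_self, zero_smul, add_zero, eval_gp]
  rw [← hpe ω hs'.symm, ← hpe ω' (by rw [hs', h])]
  have a0 := t_rt F haJ ω
  have a1 := t_rt F haJ ω'
  have q0 := rt_mem F a ω
  have q1 := rt_mem F a ω'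
  have e1 : ((slam F a ω).2.2 : ℝ) = (slam F a ω').2.2 := by rw [h]
  have h2a : (0 : ℝ) < 2 ^ a := by positivity
  have hint : ∀ t ∈ Set.uIcc (F.t ω') (F.t ω), |p.derivative.eval t| ≤ K₀ := by
    intro t ht
    have h3 := hK t
    have e3 : p.derivative.eval t = hs P (bt F ω + (t - F.t ω) • bd F ω) (bd F ω) V := by
      rw [hp, (der_lp _ _ _ t).1, dd_gp, hs', pt_slam, bdS_slam]
    rw [← e3] at h3
    have hl : F.t ω - rt F a ω / 2 ^ a ≤ F.t ω' := by
      rw [a0, a1, e1, div_sub_div_same]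
      exact div_le_div_of_nonneg_right (by linarith [q1.1]) h2a.le
    have hr : F.t ω' ≤ F.t ω + (1 - rt F a ω) / 2 ^ a := by
      rw [a0, a1, e1, ← add_div]
      exact div_le_div_of_nonneg_right (by linarith [q1.2]) h2a.le
    have hl' : F.t ω - rt F a ω / 2 ^ a ≤ F.t ω := by
      have : 0 ≤ rt F a ω / 2 ^ a := div_nonneg q0.1 h2a.le
      linarith
    have hr' : F.t ω ≤ F.t ω + (1 - rt F a ω) / 2 ^ a := by
      have : 0 ≤ (1 - rt F a ω) / 2 ^ a := div_nonneg (by linarith [q0.2]) h2a.le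
      linarith
    rw [Set.mem_uIcc] at ht
    rcases ht with ht | ht
    · exact h3 (hl.trans ht.1) (ht.2.trans hr')
    · exact h3 (hl'.trans ht.1) (ht.2.trans hr)
  have hK0 : 0 ≤ K₀ := (abs_nonneg _).trans (hint (F.t ω) Set.right_mem_uIcc)
  have hd : |F.t ω - F.t ω'| ≤ 1 / 2 ^ a := by
    rw [a0, a1, e1, div_sub_div_same, abs_div, abs_of_pos h2a]
    refine div_le_div_of_nonneg_right ?_ h2a.le
    rw [abs_le]
    constructor <;> linarith [q0.1, q0.2, q1.1, q1.2]
  have hmv := Convex.norm_image_sub_le_of_norm_hasDerivWithin_le (𝕜 := ℝ) (f := fun t => p.eval t)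
    (f' := fun t => p.derivative.eval t) (s := Set.uIcc (F.t ω') (F.t ω)) (C := K₀)
    (fun t _ => (p.hasDerivAt t).hasDerivWithinAt) (fun t ht => hint t ht) (convex_uIcc _ _)
    Set.left_mem_uIcc Set.right_mem_uIcc
  rw [Real.norm_eq_abs, Real.norm_eq_abs] at hmv
  refine hmv.trans ?_
  rw [div_eq_mul_one_div]
  exact mul_le_mul_of_nonneg_left hd hK0

theorem c_ne {c : ℕ → Fin m} {n : ℕ} (hc : Set.InjOn c (Set.Iio n)) {i j : ℕ} (hi : i < n)
    (hj : j < n) (h : i ≠ j) : c i ≠ c j := fun h' =>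
  h (hc (Set.mem_Iio.2 hi) (Set.mem_Iio.2 hj) h')

/-- The second derivatives in the coordinates `c 0, c 1, c 2`. -/
theorem hs_three {c : ℕ → Fin m} {P : MvPolynomial (Option (Fin m)) ℝ}
    (hc : Set.InjOn c (Set.Iio 3)) (hP : DepC c 3 P) {X₀ : Option (Fin m) → ℝ} (h0 : X₀ none = 0)
    (x W : Option (Fin m) → ℝ) : hs P x W X₀ =
      hs P x W (eo (some (c 0))) * X₀ (some (c 0)) + hs P x W (eo (some (c 1))) * X₀ (some (c 1)) +
      hs P x W (eo (some (c 2))) * X₀ (some (c 2)) := by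
  have h01 := c_ne hc (i := 0) (j := 1) (by norm_num) (by norm_num) (by norm_num)
  have h02 := c_ne hc (i := 0) (j := 2) (by norm_num) (by norm_num) (by norm_num)
  have h12 := c_ne hc (i := 1) (j := 2) (by norm_num) (by norm_num) (by norm_num)
  have e1 : hs P x W X₀ = hs P x W (X₀ (some (c 0)) • eo (some (c 0)) +
      X₀ (some (c 1)) • eo (some (c 1)) + X₀ (some (c 2)) • eo (some (c 2))) := by
    refine Pool.D2Z.hs_dep hP rfl (fun _ _ => rfl) rfl (fun _ _ => rfl) ?_ fun l hl => ?_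
    · simp only [Pi.add_apply, Pi.smul_apply, smul_eq_mul]
      rw [h0]
      unfold eo
      simp
    · simp only [Pi.add_apply, Pi.smul_apply, smul_eq_mul]
      have : l = 0 ∨ l = 1 ∨ l = 2 := by omega
      unfold eo
      rcases this with rfl | rfl | rfl
      · simp [h01, h02]
      · simp [h01.symm, h12]
      · simp [h02.symm, h12.symm]
  rw [e1, hs_add_right, hs_add_right, hs_smul_right, hs_smul_right, hs_smul_right]
  ring

/-- The first derivatives in the coordinates `c 0, c 1`. -/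
theorem dd_two {c : ℕ → Fin m} {P : MvPolynomial (Option (Fin m)) ℝ}
    (hc : Set.InjOn c (Set.Iio 2)) (hP : DepC c 2 P) {X₀ : Option (Fin m) → ℝ} (h0 : X₀ none = 0)
    (x : Option (Fin m) → ℝ) : dd P x X₀ =
      eval x (pderiv (some (c 0)) P) * X₀ (some (c 0)) +
      eval x (pderiv (some (c 1)) P) * X₀ (some (c 1)) := by
  have h01 := c_ne hc (i := 0) (j := 1) (by norm_num) (by norm_num) (by norm_num)
  have e1 : dd P x X₀ = dd P x (X₀ (some (c 0)) • eo (some (c 0)) +
      X₀ (some (c 1)) • eo (some (c 1))) := by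
    refine dd_congr hP x ?_ fun l hl => ?_
    · simp only [Pi.add_apply, Pi.smul_apply, smul_eq_mul]
      rw [h0]
      unfold eo
      simp
    · simp only [Pi.add_apply, Pi.smul_apply, smul_eq_mul]
      have : l = 0 ∨ l = 1 := by omega
      unfold eo
      rcases this with rfl | rfl
      · simp [h01]
      · simp [h01.symm]
  rw [e1, dd_add, dd_smul, dd_smul, dd_eo, dd_eo]
  ring

/-- The first derivatives in the coordinate `c 0`. -/
theorem dd_one' {c : ℕ → Fin m} {P : MvPolynomial (Option (Fin m)) ℝ} (hP : DepC c 1 P)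
    {X₀ : Option (Fin m) → ℝ} (h0 : X₀ none = 0) (x : Option (Fin m) → ℝ) : dd P x X₀ =
      eval x (pderiv (some (c 0)) P) * X₀ (some (c 0)) := by
  have e1 : dd P x X₀ = dd P x (X₀ (some (c 0)) • eo (some (c 0))) := by
    refine dd_congr hP x ?_ fun l hl => ?_
    · simp only [Pi.smul_apply, smul_eq_mul]
      rw [h0]
      unfold eo
      simp
    · simp only [Pi.smul_apply, smul_eq_mul]
      have : l = 0 := by omega
      subst this
      unfold eo
      simp
  rw [e1, dd_smul, dd_eo]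
  ring

/-- The derivative in the direction `v` of a label of `c 2`. -/
theorem dir_two {c : ℕ → Fin m} {P : MvPolynomial (Option (Fin m)) ℝ}
    (hc : Set.InjOn c (Set.Iio 2)) (hP : DepC c 2 P) {v : Fin m → ℝ} (h0 : v (c 0) = 0)
    (h1 : v (c 1) = 1) (x : Option (Fin m) → ℝ) :
    eval x (dir v P) = eval x (pderiv (some (c 1)) P) := by
  rw [dir_dd, dd_two hc hP rfl]
  show _ * v (c 0) + _ * v (c 1) = _
  rw [h0, h1]
  ring

/-- **The variation of the derivative in the direction `v`** along the line, by the closed second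
derivatives. -/
theorem vary_v {F : Fam m J} {c : ℕ → Fin m} {a w : ℕ} (haJ : a ≤ J) {ω ω' : F.Ω}
    (hc : Set.InjOn c (Set.Iio 3)) (h : slam F a ω = slam F a ω')
    {P : MvPolynomial (Option (Fin m)) ℝ} (hP : DepC c 3 P) {v : Fin m → ℝ} (h0 : v (c 0) = 0)
    {K₀ : ℝ}
    (hK : ∀ t : ℝ, F.t ω - rt F a ω / 2 ^ a ≤ t → t ≤ F.t ω + (1 - rt F a ω) / 2 ^ a →
      |(hcl (c 1) P (slam F w ω)).eval t * v (c 1) + v (c 2) *
        (hcl (c 2) P (slam F w ω)).eval t| ≤ K₀) :
    |eval (bt F ω) (dir v P) - eval (bt F ω') (dir v P)| ≤ K₀ / 2 ^ a := by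
  rw [dir_dd, dir_dd]
  refine vary_dir haJ h P (vo v) fun t t1 t2 => ?_
  have h1 := hK t t1 t2
  rw [hs_three hc hP rfl]
  rw [hcl_eval, hcl_eval] at h1
  have e1 : vo v (some (c 0)) = 0 := h0
  have e2 : vo v (some (c 1)) = v (c 1) := rfl
  have e3 : vo v (some (c 2)) = v (c 2) := rfl
  rw [e1, e2, e3, mul_zero, zero_add]
  refine le_trans (le_of_eq ?_) h1
  congr 1
  ring

end Pool.NVX
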