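import Pool.Agent.H80.NV.Pth
import Pool.Agent.H31.NV.Pla

/-!
# The plane of the lines through one exact point

`pb_one`: a label which is affine, up to small errors, along `D + 1` separated lines through a point
is affine on the plane of these lines.
-/

set_option autoImplicit false

namespace Pool.NVX

open Finset Real MvPolynomial
open Pool.GEN Pool.CHT
open Pool.D2R (dd hs dd_add dd_smul der_one mv_seg)

variable {m : ℕ}

/-- The derivative at the point of a polynomial which is almost affine along a line. -/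
theorem vel_one (D : ℕ) : ∃ C : ℝ, 1 ≤ C ∧ ∀ {m : ℕ} (P : MvPolynomial (Option (Fin m)) ℝ)
    (x V : Option (Fin m) → ℝ) (k : Option (Fin m)) (s₀ eps : ℝ), P.totalDegree ≤ D →
    0 ≤ s₀ → s₀ ≤ 1 →
    (∀ s : ℝ, -s₀ ≤ s → s ≤ 1 - s₀ → |(x + s • V) k - eval (x + s • V) P| ≤ eps) →
    |V k - dd P x V| ≤ C * eps := by
  obtain ⟨C, hC, hder⟩ := der_one (D + 1)
  refine ⟨C, hC, ?_⟩
  intro m P x V k s₀ eps hP h0 h1 h
  obtain ⟨p, hp⟩ : ∃ p : Option (Fin m) → Polynomial ℝ, p = fun o =>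
      Polynomial.C (x o) + Polynomial.C (V o) * (Polynomial.X - Polynomial.C s₀) := ⟨_, rfl⟩
  have hpe : ∀ o t, (p o).eval t = x o + V o * (t - s₀) := by
    intro o t
    rw [hp]
    simp only [Polynomial.eval_add, Polynomial.eval_mul, Polynomial.eval_C, Polynomial.eval_sub,
      Polynomial.eval_X]
  have hpd : ∀ o, (p o).natDegree ≤ 1 := by
    intro o
    rw [hp]
    refine (Polynomial.natDegree_add_le _ _).trans (max_le ?_ ?_)
    · rw [Polynomial.natDegree_C]
      exact Nat.zero_le _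
    · refine (Polynomial.natDegree_C_mul_le _ _).trans ?_
      exact (Polynomial.natDegree_sub_le _ _).trans (max_le Polynomial.natDegree_X_le (by
        rw [Polynomial.natDegree_C]
        exact Nat.zero_le _))
  have hdp : ∀ o, Polynomial.derivative (p o) = Polynomial.C (V o) := by
    intro o
    rw [hp]
    simp
  have hcv := Pool.D2R.der_curve p (x := x) (V := V) (Z := 0) (s := s₀) (fun o => by
    rw [hpe]; ring) (fun o => by rw [hdp, Polynomial.eval_C]) (fun o => by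
      rw [hdp, Polynomial.derivative_C, Polynomial.eval_zero]; rfl) P
  obtain ⟨q, hq⟩ : ∃ q : Polynomial ℝ, q = p k - MvPolynomial.aeval p P := ⟨_, rfl⟩
  have hqd : q.natDegree ≤ D + 1 := by
    rw [hq]
    refine (Polynomial.natDegree_sub_le _ _).trans (max_le ((hpd _).trans (by omega)) ?_)
    exact (Pool.KBX.natDegree_aeval_le _ _ hpd hP).trans (by omega)
  have h2 := hder q eps hqd (fun t ht => by
    rw [hq, Polynomial.eval_sub, Pool.KBX.eval_aeval_poly]
    have h3 := h (t - s₀) (by linarith [ht.1]) (by linarith [ht.2])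
    have e1 : (fun o => (p o).eval t) = x + (t - s₀) • V := by
      funext o
      rw [hpe, Pi.add_apply, Pi.smul_apply, smul_eq_mul]
      ring
    rw [e1]
    have e2 : (p k).eval t = (x + (t - s₀) • V) k := by
      rw [← e1]
    rw [e2]
    exact h3) s₀ (abs_le.2 ⟨by linarith, h1⟩)
  have e3 : (Polynomial.derivative q).eval s₀ = V k - dd P x V := by
    rw [hq, Polynomial.derivative_sub, Polynomial.eval_sub, hcv.1, hdp, Polynomial.eval_C]
  rw [e3] at h2
  exact h2

/-- **The label on the plane.** -/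
theorem pb_one (D : ℕ) (hD : 1 ≤ D) : ∃ C : ℝ, 1 ≤ C ∧ ∃ N : ℕ, ∀ {m : ℕ}
    (P : MvPolynomial (Option (Fin m)) ℝ) (x U₀ U₁ : Option (Fin m) → ℝ)
    (V : Fin (D + 1) → Option (Fin m) → ℝ) (k : Option (Fin m)) (η s L : Fin (D + 1) → ℝ)
    (s₀ R mu e₁ e₂ e₃ : ℝ), P.totalDegree ≤ D → 1 ≤ R → 0 < mu → mu ≤ 1 →
    (∀ j, |η j| ≤ R) → (∀ j j', j ≠ j' → mu ≤ |η j - η j'|) → (∀ j, 0 ≤ s j ∧ s j ≤ 1) →
    0 ≤ s₀ → s₀ ≤ 1 →
    (∀ t : ℝ, -s₀ ≤ t → t ≤ 1 - s₀ → |(x + t • U₀) k - eval (x + t • U₀) P| ≤ e₁) →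
    (∀ j, ∀ t : ℝ, -s j ≤ t → t ≤ 1 - s j →
      |(x + t • V j) k - eval (x + t • V j) P| ≤ e₁) →
    (∀ j, ∀ t : ℝ, -s j ≤ t → t ≤ 1 - s j →
      |eval (x + t • (U₀ + η j • U₁)) P - eval (x + t • V j) P - t * L j| ≤ e₂) →
    |U₁ k - dd P x U₁| ≤ e₃ →
    ∀ α β : ℝ, |α| ≤ R → |β| ≤ R →
      |(x + α • U₀ + β • U₁) k - eval (x + α • U₀ + β • U₁) P| ≤
        C * (R / mu) ^ N * (e₁ + e₂) + R * e₃ := by
  obtain ⟨C₁, hC₁, N, hpl⟩ := plane_aff D hD
  obtain ⟨C₂, hC₂, hvel⟩ := vel_one D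
  refine ⟨C₁ + C₂ + 1, by linarith, N + 1, ?_⟩
  intro m P x U₀ U₁ V k η s L s₀ R mu e₁ e₂ e₃ hP hR hmu hmu1 hη hsep hs h0 h1 hown hpath hZ hU α β
    hα hβ
  have he₁ : 0 ≤ e₁ := (abs_nonneg _).trans (hown 0 (by linarith) (by linarith))
  have he₂ : 0 ≤ e₂ := (abs_nonneg _).trans (hZ ⟨0, by omega⟩ 0 (by linarith [(hs ⟨0, by omega⟩).1])
    (by linarith [(hs ⟨0, by omega⟩).2]))
  have hRm : 1 ≤ R / mu := by
    rw [le_div_iff₀ hmu]
    linarith
  have h2 := hpl P x U₀ U₁ η s (fun j => x k) (fun j => V j k + L j) R mu (e₁ + e₂) hP hR hmu hmu1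
    hη hsep hs (fun j t ht0 ht1 => by
      have h3 := hpath j t ht0 ht1
      have h4 := hZ j t ht0 ht1
      have e1 : eval (x + t • (U₀ + η j • U₁)) P - (x k + t * (V j k + L j)) =
          (eval (x + t • (U₀ + η j • U₁)) P - eval (x + t • V j) P - t * L j) -
          ((x + t • V j) k - eval (x + t • V j) P) := by
        rw [Pi.add_apply, Pi.smul_apply, smul_eq_mul]
        ring
      rw [e1]
      refine (abs_sub _ _).trans ?_
      linarith)
  obtain ⟨X, hX⟩ : ∃ X : ℝ, X = C₁ * (R / mu) ^ N * (e₁ + e₂) := ⟨_, rfl⟩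
  -- the value on the plane
  have h5 : |eval (x + α • U₀ + β • U₁) P - eval x P - dd P x (α • U₀ + β • U₁)| ≤ X := by
    obtain ⟨Q, hQ⟩ : ∃ Q : MvPolynomial (Option (Fin m)) ℝ, Q = P -
        ∑ o, C (eval x (pderiv o P)) * (MvPolynomial.X o - C (x o)) := ⟨_, rfl⟩
    have hQe : ∀ b, eval b Q = eval b P - dd P x (b - x) := by
      intro b
      rw [hQ, map_sub, map_sum]
      congr 1
      unfold dd
      refine Finset.sum_congr rfl fun o _ => ?_
      rw [map_mul, eval_C, map_sub, eval_X, eval_C, Pi.sub_apply]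
    have hQd : ∀ b W, dd Q b W = dd P b W - dd P x W := by
      intro b W
      classical
      unfold dd
      rw [← Finset.sum_sub_distrib]
      refine Finset.sum_congr rfl fun o _ => ?_
      rw [← sub_mul, hQ, map_sub, map_sum, map_sub]
      congr 2
      rw [Finset.sum_eq_single o]
      · rw [pderiv_mul, pderiv_C, zero_mul, zero_add, map_sub, pderiv_X_self, pderiv_C, sub_zero,
          mul_one, eval_C]
      · intro o' _ ho
        rw [pderiv_mul, pderiv_C, zero_mul, zero_add, map_sub, pderiv_X_of_ne ho, pderiv_C,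
          sub_zero, mul_zero]
      · intro h'
        exact absurd (Finset.mem_univ _) h'
    have h6 := mv_seg Q x (α • U₀ + β • U₁) (M := X) (fun u hu => by
      rw [hQd]
      have e1 : (fun o => x o + u * (α • U₀ + β • U₁) o) = x + (u * α) • U₀ + (u * β) • U₁ := by
        funext o
        simp only [Pi.add_apply, Pi.smul_apply, smul_eq_mul]
        ring
      rw [e1, hX]
      have hu1 : ∀ y : ℝ, |y| ≤ R → |u * y| ≤ R := by
        intro y hy
        rw [abs_mul, abs_of_nonneg hu.1]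
        calc u * |y| ≤ 1 * |y| := mul_le_mul_of_nonneg_right hu.2 (abs_nonneg _)
          _ ≤ R := by rw [one_mul]; exact hy
      exact h2 _ _ _ _ (hu1 α hα) (hu1 β hβ) hα hβ) 1 ⟨zero_le_one, le_rfl⟩
    have e2 : (fun o => x o + 1 * (α • U₀ + β • U₁) o) = x + α • U₀ + β • U₁ := by
      funext o
      simp only [Pi.add_apply, Pi.smul_apply, smul_eq_mul]
      ring
    rw [e2, hQe, hQe] at h6
    have e3 : x + α • U₀ + β • U₁ - x = α • U₀ + β • U₁ := by
      rw [add_assoc, add_sub_cancel_left]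
    have e4 : dd P x (x - x) = 0 := by
      unfold dd
      refine Finset.sum_eq_zero fun o _ => ?_
      rw [sub_self, Pi.zero_apply, mul_zero]
    rw [e3, e4, sub_zero] at h6
    have e5 : eval (x + α • U₀ + β • U₁) P - eval x P - dd P x (α • U₀ + β • U₁) =
        eval (x + α • U₀ + β • U₁) P - dd P x (α • U₀ + β • U₁) - eval x P := by ring
    rw [e5]
    exact h6
  have h7 := hvel P x U₀ k s₀ e₁ hP h0 h1 hown
  have h8 := hown 0 (by linarith) (by linarith)
  rw [zero_smul, add_zero] at h8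
  have e1 : (x + α • U₀ + β • U₁) k - eval (x + α • U₀ + β • U₁) P =
      (x k - eval x P) + α * (U₀ k - dd P x U₀) + β * (U₁ k - dd P x U₁) -
      (eval (x + α • U₀ + β • U₁) P - eval x P - dd P x (α • U₀ + β • U₁)) := by
    rw [dd_add, dd_smul, dd_smul]
    simp only [Pi.add_apply, Pi.smul_apply, smul_eq_mul]
    ring
  rw [e1]
  have h9 : |α * (U₀ k - dd P x U₀)| ≤ R * (C₂ * e₁) := by
    rw [abs_mul]
    exact mul_le_mul hα h7 (abs_nonneg _) (by linarith)
  have h10 : |β * (U₁ k - dd P x U₁)| ≤ R * e₃ := by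
    rw [abs_mul]
    exact mul_le_mul hβ hU (abs_nonneg _) (by linarith)
  have h11 := abs_sub ((x k - eval x P) + α * (U₀ k - dd P x U₀) + β * (U₁ k - dd P x U₁))
    (eval (x + α • U₀ + β • U₁) P - eval x P - dd P x (α • U₀ + β • U₁))
  have h12 := abs_add_three (x k - eval x P) (α * (U₀ k - dd P x U₀)) (β * (U₁ k - dd P x U₁))
  have h13 : e₁ + R * (C₂ * e₁) + X ≤ (C₁ + C₂ + 1) * (R / mu) ^ (N + 1) * (e₁ + e₂) := by
    have g1 : (1 : ℝ) ≤ (R / mu) ^ (N + 1) := one_le_pow₀ hRm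
    have g2 : (R / mu) ^ N ≤ (R / mu) ^ (N + 1) := pow_le_pow_right₀ hRm (Nat.le_succ N)
    have g3 : R ≤ (R / mu) ^ (N + 1) := by
      have g4 : R ≤ R / mu := by
        rw [le_div_iff₀ hmu]
        nlinarith
      refine g4.trans ?_
      calc R / mu = (R / mu) ^ 1 := (pow_one _).symm
        _ ≤ _ := pow_le_pow_right₀ hRm (by omega)
    obtain ⟨Y, hY⟩ : ∃ Y : ℝ, Y = (R / mu) ^ (N + 1) := ⟨_, rfl⟩
    rw [← hY] at g1 g2 g3 ⊢
    have g5 : X ≤ C₁ * Y * (e₁ + e₂) := by
      rw [hX]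
      exact mul_le_mul_of_nonneg_right (mul_le_mul_of_nonneg_left g2 (by linarith)) (by linarith)
    have g6 : R * (C₂ * e₁) ≤ C₂ * Y * (e₁ + e₂) := by
      calc R * (C₂ * e₁) ≤ Y * (C₂ * e₁) := mul_le_mul_of_nonneg_right g3 (by positivity)
        _ = C₂ * Y * e₁ := by ring
        _ ≤ _ := mul_le_mul_of_nonneg_left (by linarith) (by positivity)
    have g7 : e₁ ≤ Y * (e₁ + e₂) := by
      calc e₁ ≤ e₁ + e₂ := by linarith
        _ = 1 * (e₁ + e₂) := (one_mul _).symm
        _ ≤ _ := mul_le_mul_of_nonneg_right g1 (by linarith)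
    calc e₁ + R * (C₂ * e₁) + X ≤ Y * (e₁ + e₂) + C₂ * Y * (e₁ + e₂) + C₁ * Y * (e₁ + e₂) := by
          linarith
      _ = _ := by ring
  linarith

end Pool.NVX
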