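import Pool.Agent.H80.NV.Rl3
import Pool.Agent.H31.NV.Tte

/-!
# The ends with two times

`rel3_tt2`, `rel3_tt1`: the slope of `c 2` (resp. `c 1`) is constant, with a gain, in each window of
the ball.
-/

set_option autoImplicit false

namespace Pool.NVX

open Finset Real MvPolynomial
open Pool.Agent.H49.Ent Pool.Agent.H32.Dense Pool.STK Pool.KA Pool.KSAT Pool.K2S Pool.PB Pool.S6C
open Pool.GEN Pool.CHT
open Pool.D2R (dd hs dd_add dd_smul dd_congr)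
open Pool.SHR (dir mvp RelvH Shr ShrY relvF_low)
open Pool.PB.Trl (rt rt_mem t_rt)

variable {m J : ℕ}

/-- **Two samples of one window at one time.** -/
theorem Rel3.dif {F : Fam m J} {c : ℕ → Fin m} {a w e n p lam₁ lam₂ D h : ℕ} {g gN g₄ : ℕ → ℕ}
    {A B : F.Ω → Prop} {T T₄ : PtT F → ℕ → MvPolynomial (Option (Fin m)) ℝ}
    {NH : LnT F → ℕ → MvPolynomial (Option (Fin m)) ℝ} {v : PtT F → Fin m → ℝ}
    {v' : LnT F → Fin m → ℝ} {X : PtT F → Option (Fin m) → ℝ} {ν₀ : PtT F → F.Ω}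
    (H : Rel3 F c a w e n p lam₁ lam₂ D h g gN g₄ A B T T₄ NH v X ν₀) (hwa : w ≤ a)
    (haJ : a ≤ J) (hv : ∀ ω, B ω → v (ptr F J ω) = v' (slam F a ω)) {ω ω' : F.Ω} (h1 : B ω)
    (h2 : B ω') (h3 : slam F a ω = slam F a ω') :
    |((hcl (c 1) (NH (slam F w ω) 3) (slam F w ω)).eval (F.t ω) +
      v (ptr F J ω) (c 2) * (hcl (c 2) (NH (slam F w ω) 3) (slam F w ω)).eval (F.t ω)) *
      (X (ptr F J ω) (some (c 1)) - X (ptr F J ω') (some (c 1))) +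
    (hcl (c 2) (NH (slam F w ω) 3) (slam F w ω)).eval (F.t ω) *
      ((X (ptr F J ω) (some (c 2)) - v (ptr F J ω) (c 2) * X (ptr F J ω) (some (c 1))) -
      (X (ptr F J ω') (some (c 2)) - v (ptr F J ω') (c 2) * X (ptr F J ω') (some (c 1))))| ≤
    2 * (2 ^ (a + g 0 + n) / 2 ^ gN 3 *
        (1 + 2 ^ lam₁ / 2 ^ (g 1 + p) + 2 ^ lam₂ / 2 ^ (g 2 + p))) := by
  have hs' : slam F w ω' = slam F w ω := by
    rw [slam_coarse F hwa haJ ω, slam_coarse F hwa haJ ω', h3]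
  have hvs : v (ptr F J ω') = v (ptr F J ω) := by rw [hv ω h1, hv ω' h2, h3]
  have k1 := H.rel ω h1 (F.t ω) (by rw [sub_self, abs_zero]; positivity)
  have k2 := H.rel ω' h2 (F.t ω) (t_win haJ h3)
  rw [hs', hvs] at k2
  rw [hvs]
  obtain ⟨C0, hC0⟩ : ∃ x, x = (hcl (c 0) (NH (slam F w ω) 3) (slam F w ω)).eval (F.t ω) :=
    ⟨_, rfl⟩
  obtain ⟨C1, hC1⟩ : ∃ x, x = (hcl (c 1) (NH (slam F w ω) 3) (slam F w ω)).eval (F.t ω) :=
    ⟨_, rfl⟩
  obtain ⟨C2, hC2⟩ : ∃ x, x = (hcl (c 2) (NH (slam F w ω) 3) (slam F w ω)).eval (F.t ω) :=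
    ⟨_, rfl⟩
  rw [← hC0, ← hC1, ← hC2] at k1 k2
  rw [← hC1, ← hC2]
  have e1 : (C1 + v (ptr F J ω) (c 2) * C2) *
      (X (ptr F J ω) (some (c 1)) - X (ptr F J ω') (some (c 1))) + C2 *
      ((X (ptr F J ω) (some (c 2)) - v (ptr F J ω) (c 2) * X (ptr F J ω) (some (c 1))) -
      (X (ptr F J ω') (some (c 2)) - v (ptr F J ω) (c 2) * X (ptr F J ω') (some (c 1)))) =
      (C0 + (C1 + v (ptr F J ω) (c 2) * C2) * X (ptr F J ω) (some (c 1)) +
        C2 * (X (ptr F J ω) (some (c 2)) - v (ptr F J ω) (c 2) * X (ptr F J ω) (some (c 1)))) -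
      (C0 + (C1 + v (ptr F J ω) (c 2) * C2) * X (ptr F J ω') (some (c 1)) +
        C2 * (X (ptr F J ω') (some (c 2)) -
          v (ptr F J ω) (c 2) * X (ptr F J ω') (some (c 1)))) := by ring
  rw [e1]
  refine (abs_sub _ _).trans ?_
  linarith

/-- The numbers of the ends with two times. -/
theorem tt_num {a g0 n x K p li lj gi gj : ℕ} {G : ℝ} (hG : 0 < G) (h1 : gi + K ≤ li)
    (h2 : lj + gi + K ≤ li + gj) (h3 : K ≤ p) :
    (2 * (2 ^ (a + g0 + n) / G * (1 + 2 ^ li / 2 ^ (gi + p) + 2 ^ lj / 2 ^ (gj + p))) +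
      2 ^ (a + lj) / G * (2 ^ (g0 + n) / 2 ^ gj)) / (2 ^ (a + li) / G / 2 ^ x) ≤
      8 * 2 ^ (g0 + n + x) / 2 ^ (gi + K) := by
  have pw : ∀ {x y : ℕ}, x ≤ y → (2 : ℝ) ^ x ≤ 2 ^ y := fun h => pow_le_pow_right₀ (by norm_num) h
  obtain ⟨u, hu⟩ : ∃ u : ℝ, u = 1 / 2 ^ (gi + K) := ⟨_, rfl⟩
  have k1 : (1 : ℝ) / 2 ^ li ≤ u := by
    rw [hu]
    exact one_div_le_one_div_of_le (by positivity) (pw h1)
  have k2 : (1 : ℝ) / 2 ^ (gi + p) ≤ u := by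
    rw [hu]
    exact one_div_le_one_div_of_le (by positivity) (pw (by omega))
  have k3 : (2 : ℝ) ^ lj / (2 ^ li * 2 ^ (gj + p)) ≤ u := by
    rw [hu, div_le_div_iff₀ (by positivity) (by positivity), one_mul, ← pow_add, ← pow_add]
    exact pw (by omega)
  have k4 : (2 : ℝ) ^ lj / (2 ^ li * 2 ^ gj) ≤ u := by
    rw [hu, div_le_div_iff₀ (by positivity) (by positivity), one_mul, ← pow_add, ← pow_add]
    exact pw (by omega)
  have e1 : (2 * ((2 : ℝ) ^ (a + g0 + n) / G * (1 + 2 ^ li / 2 ^ (gi + p) +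
      2 ^ lj / 2 ^ (gj + p))) + 2 ^ (a + lj) / G * (2 ^ (g0 + n) / 2 ^ gj)) /
      (2 ^ (a + li) / G / 2 ^ x) = 2 ^ (g0 + n + x) * (2 * (1 / 2 ^ li + 1 / 2 ^ (gi + p) +
        2 ^ lj / (2 ^ li * 2 ^ (gj + p))) + 2 ^ lj / (2 ^ li * 2 ^ gj)) := by
    rw [pow_add 2 (a + g0) n, pow_add 2 a g0, pow_add 2 a lj, pow_add 2 g0 n, pow_add 2 a li,
      pow_add 2 (g0 + n) x, pow_add 2 g0 n]
    field_simp
  rw [e1]
  have e2 : 8 * (2 : ℝ) ^ (g0 + n + x) / 2 ^ (gi + K) = 2 ^ (g0 + n + x) * (8 * u) := by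
    rw [hu]
    ring
  rw [e2]
  refine mul_le_mul_of_nonneg_left ?_ (by positivity)
  have hu0 : 0 ≤ u := by rw [hu]; positivity
  linarith

theorem div_bd {x y z P Q R : ℝ} (hP : 0 < P) (h : |Q * z + R * y| ≤ x) (hR : P ≤ |R|)
    {q d : ℝ} (hQ : |Q| ≤ q) (hz : |z| ≤ d) : |y| ≤ (x + q * d) / P := by
  rw [le_div_iff₀ hP]
  have h1 : |R * y| ≤ x + q * d := by
    have e1 : R * y = (Q * z + R * y) - Q * z := by ring
    rw [e1]
    refine (abs_sub _ _).trans (add_le_add h ?_)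
    rw [abs_mul]
    exact mul_le_mul hQ hz (abs_nonneg _) ((abs_nonneg _).trans hQ)
  rw [abs_mul] at h1
  have h2 : |y| * P ≤ |y| * |R| := mul_le_mul_of_nonneg_left hR (abs_nonneg _)
  linarith [mul_comm |R| |y|]

/-- **The end with two times, for `c 2`**: the second derivative in the direction `c 2` is large. -/
theorem rel3_tt2 (D : ℕ) (hD : 1 ≤ D) : ∃ C : ℕ, ∀ {m J : ℕ} {F : Fam m J} {c : ℕ → Fin m}
    {a w e n p lam₁ lam₂ D' h x K : ℕ} {g gN g₄ : ℕ → ℕ} {κ : ℝ} {B₀ A B : F.Ω → Prop}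
    {T T₄ : PtT F → ℕ → MvPolynomial (Option (Fin m)) ℝ}
    {NH TH : LnT F → ℕ → MvPolynomial (Option (Fin m)) ℝ} {v : PtT F → Fin m → ℝ}
    {v' : LnT F → Fin m → ℝ} {X : PtT F → Option (Fin m) → ℝ} {ν₀ : PtT F → F.Ω},
    Rel3 F c a w e n p lam₁ lam₂ D' h g gN g₄ A B T T₄ NH v X ν₀ → w ≤ a → a ≤ J →
    Set.InjOn c (Set.Iio 3) → RelvF F c 3 a a g D h κ B₀ T →
    ChOK F c 3 (fun _ => D) a a e g B₀ T TH → Sub A B₀ → Sub B A →
    κ * Pe F.p B₀ ≤ Pe F.p B → 0 < Pe F.p B →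
    (∀ ω, B ω → v (ptr F J ω) = v' (slam F a ω)) →
    (∀ ω, B ω → 2 ^ (a + lam₂) / 2 ^ gN 3 / 2 ^ x ≤
      |(hcl (c 2) (NH (slam F w ω) 3) (slam F w ω)).eval (F.t ω)|) →
    (∀ ω, B ω → |(hcl (c 1) (NH (slam F w ω) 3) (slam F w ω)).eval (F.t ω) +
      v (ptr F J ω) (c 2) * (hcl (c 2) (NH (slam F w ω) 3) (slam F w ω)).eval (F.t ω)| ≤
      2 ^ (a + lam₁) / 2 ^ gN 3) →
    g 2 + K ≤ lam₂ → lam₁ + g 2 + K ≤ lam₂ + g 1 → K ≤ p → 2 * n + x + h + C ≤ K →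
    (∀ l < 3, e + g l + n + h + 4 ≤ J) → False := by
  obtain ⟨cO, hown⟩ := own_ext D
  refine ⟨cO + 5, ?_⟩
  intro m J F c a w e n p lam₁ lam₂ D' h x K g gN g₄ κ B₀ A B T T₄ NH TH v v' X ν₀ H hwa haJ hc hR
    hT hA hB hκ hP hv hlow hup n1 n2 n3 n4 hrm
  have pw : ∀ {x y : ℕ}, x ≤ y → (2 : ℝ) ^ x ≤ 2 ^ y := fun h => pow_le_pow_right₀ (by norm_num) h
  obtain ⟨M, hM⟩ : ∃ M : ℝ, M = 1 / 2 ^ (g 2 + h + 2) := ⟨_, rfl⟩
  have hM0 : 0 < M := by rw [hM]; positivity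
  obtain ⟨Rr, hRr⟩ : ∃ R : ℝ, R = 2 ^ (n + e + nlp g 0 2) := ⟨_, rfl⟩
  obtain ⟨d, hd⟩ : ∃ d : ℝ, d = 8 * 2 ^ (g 0 + n + x) / 2 ^ (g 2 + K) := ⟨_, rfl⟩
  obtain ⟨Yy, hYy⟩ : ∃ Y : ℝ, Y = 2 ^ (cO + n) / 2 ^ g 0 := ⟨_, rfl⟩
  have hn02 : nlp g 0 2 + g 2 + e + n + h + 4 ≤ J := by
    have h3 : (Finset.Icc 0 2).sup g + (e + n + h + 4) ≤ J := by
      have h4 : (Finset.Icc 0 2).sup g ≤ J - (e + n + h + 4) := Finset.sup_le fun l hl => by
        have := hrm l (by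
          have := (Finset.mem_Icc.1 hl).2
          omega)
        omega
      have := hrm 0 (by norm_num)
      omega
    unfold nlp
    have h5 : g 2 ≤ (Finset.Icc 0 2).sup g := Finset.le_sup (Finset.mem_Icc.2 ⟨by norm_num, le_rfl⟩)
    omega
  have hn12 : nlp g 1 2 ≤ nlp g 0 2 := by
    unfold nlp
    have h5 : (Finset.Icc 1 2).sup g ≤ (Finset.Icc 0 2).sup g :=
      Finset.sup_mono fun l hl => by
        rw [Finset.mem_Icc] at hl ⊢
        omega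
    omega
  refine tt_end (F := F) (c := c) (D := D) (D' := D) (a := a) (e := e) (h := h) (j := 2) (g := g)
    (κ := κ) (M := M) (R := Rr) (d := d) (Y := Yy) (B₀ := B₀) (B := B) (G := T) (H := TH)
    (by norm_num) hc hR hT hD (fun ω h => hA ω (hB ω h)) hκ hP ν₀
    (fun y k => if k = 0 then X y (some (c 2)) - v y (c 2) * X y (some (c 1)) else v y (c 2))
    (fun s _ => v' s (c 2)) H.nu (by rw [hRr]; positivity) ?_ hM0 ?_ ?_ ?_ ?_
    (by rw [hYy]; positivity) ?_ ?_ ?_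
  · intro ω hω k hk
    by_cases h0 : k = 0
    · simp only [h0, if_true]
      rw [hRr]
      exact H.sl2 ω hω
    · simp only [h0, if_false]
      rw [hRr]
      exact (H.slv ω hω).trans (pw (by omega))
  · intro ω hω k hk h1
    have h0 : k ≠ 0 := by omega
    simp only [h0, if_false]
    rw [hv ω hω]
  · intro ω ω' h1 h2 h3
    simp only [if_true]
    have k1 := H.dif hwa haJ hv h1 h2 h3
    have k2 := div_bd (by positivity) k1 (hlow ω h1) (hup ω h1) (H.tt1 ω ω' h1 h2 h3)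
    refine k2.trans ?_
    have k3 := tt_num (a := a) (g0 := g 0) (n := n) (x := x) (K := K) (p := p) (li := lam₂)
      (lj := lam₁) (gi := g 2) (gj := g 1) (G := 2 ^ gN 3) (by positivity) n1 (by omega) n3
    rw [hd]
    refine le_trans (le_of_eq ?_) k3
    ring
  · intro ω hω
    rw [Finset.sum_range_succ, Finset.sum_range_one]
    simp only [if_true, one_ne_zero, if_false]
    have k1 := H.ve2 ω hω
    have e1 : (bd F ω (some (c 2)) - bd F (ν₀ (ptr F J ω)) (some (c 2))) -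
        ((X (ptr F J ω) (some (c 2)) - v (ptr F J ω) (c 2) * X (ptr F J ω) (some (c 1))) *
          (bd F ω (some (c 0)) - bd F (ν₀ (ptr F J ω)) (some (c 0))) +
        v (ptr F J ω) (c 2) * (bd F ω (some (c 1)) - bd F (ν₀ (ptr F J ω)) (some (c 1)))) =
        (bd F ω (some (c 2)) - bd F (ν₀ (ptr F J ω)) (some (c 2))) -
    v (ptr F J ω) (c 2) * (bd F ω (some (c 1)) - bd F (ν₀ (ptr F J ω)) (some (c 1))) -
    (X (ptr F J ω) (some (c 2)) - v (ptr F J ω) (c 2) * X (ptr F J ω) (some (c 1))) *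
      (bd F ω (some (c 0)) - bd F (ν₀ (ptr F J ω)) (some (c 0))) := by ring
    rw [e1]
    refine k1.trans ?_
    rw [hM, div_mul_eq_mul_div, one_mul]
    exact div_le_div_of_nonneg_left (by positivity) (by positivity) (pw (by omega))
  · intro ω hω b hb
    rw [hYy]
    exact hown haJ hT.degG hT.depG (H.pth.mono (by norm_num) le_rfl) ω (hB ω hω) b hb
  · rw [hd, hYy, hM]
    have e1 : (8 : ℝ) * 2 ^ (g 0 + n + x) / 2 ^ (g 2 + K) * (2 ^ (cO + n) / 2 ^ g 0) =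
        2 ^ (3 + n + x + (cO + n)) / 2 ^ (g 2 + K) := by
      rw [pow_add 2 (3 + n + x), pow_add 2 (3 + n), pow_add 2 3, pow_add 2 (g 0 + n),
        pow_add 2 (g 0)]
      field_simp
      norm_num
    rw [e1, div_le_div_iff₀ (by positivity) (by positivity), one_mul, ← pow_add]
    exact pw (by omega)
  · rw [hM, hRr, div_mul_eq_mul_div, one_mul, le_div_iff₀ (by positivity)]
    have h1 : ((2 : ℕ) : ℝ) * 2 ^ (n + e + nlp g 0 2) + 1 ≤ 2 ^ (n + e + nlp g 0 2 + 2) := by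
      have : (1 : ℝ) ≤ 2 ^ (n + e + nlp g 0 2) := one_le_pow₀ (by norm_num)
      rw [pow_add 2 (n + e + nlp g 0 2) 2]
      push_cast
      linarith
    refine (mul_le_mul_of_nonneg_right h1 (by positivity)).trans ?_
    rw [← pow_add]
    exact pw (by omega)
  · rw [hM]
    have e1 : (2 : ℝ) ^ h * (3 * (1 / 2 ^ (g 2 + h + 2))) = 3 / 4 * (1 / 2 ^ g 2) := by
      rw [pow_add, pow_add]
      field_simp
      norm_num
    rw [e1]
    have : (0 : ℝ) < 1 / 2 ^ g 2 := by positivity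
    linarith

/-- **The end with two times, for `c 1`**: the second derivative in the direction `v` is large. -/
theorem rel3_tt1 (D : ℕ) (hD : 1 ≤ D) : ∃ C : ℕ, ∀ {m J : ℕ} {F : Fam m J} {c : ℕ → Fin m}
    {a w e n p lam₁ lam₂ D' h x K : ℕ} {g gN g₄ : ℕ → ℕ} {κ : ℝ} {B₀ A B : F.Ω → Prop}
    {T T₄ : PtT F → ℕ → MvPolynomial (Option (Fin m)) ℝ}
    {NH TH : LnT F → ℕ → MvPolynomial (Option (Fin m)) ℝ} {v : PtT F → Fin m → ℝ}
    {v' : LnT F → Fin m → ℝ} {X : PtT F → Option (Fin m) → ℝ} {ν₀ : PtT F → F.Ω},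
    Rel3 F c a w e n p lam₁ lam₂ D' h g gN g₄ A B T T₄ NH v X ν₀ → w ≤ a → a ≤ J →
    Set.InjOn c (Set.Iio 3) → RelvF F c 3 a a g D h κ B₀ T →
    ChOK F c 3 (fun _ => D) a a e g B₀ T TH → Sub A B₀ → Sub B A →
    κ * Pe F.p B₀ ≤ Pe F.p B → 0 < Pe F.p B →
    (∀ ω, B ω → v (ptr F J ω) = v' (slam F a ω)) →
    (∀ ω, B ω → 2 ^ (a + lam₁) / 2 ^ gN 3 / 2 ^ x ≤
      |(hcl (c 1) (NH (slam F w ω) 3) (slam F w ω)).eval (F.t ω) +
      v (ptr F J ω) (c 2) * (hcl (c 2) (NH (slam F w ω) 3) (slam F w ω)).eval (F.t ω)|) →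
    (∀ ω, B ω → |(hcl (c 2) (NH (slam F w ω) 3) (slam F w ω)).eval (F.t ω)| ≤
      2 ^ (a + lam₂) / 2 ^ gN 3) →
    g 1 + K ≤ lam₁ → lam₂ + g 1 + K ≤ lam₁ + g 2 → K ≤ p → 2 * n + x + h + C ≤ K →
    (∀ l < 3, e + g l + n + h + 4 ≤ J) → False := by
  obtain ⟨cO, hown⟩ := own_ext D
  refine ⟨cO + 5, ?_⟩
  intro m J F c a w e n p lam₁ lam₂ D' h x K g gN g₄ κ B₀ A B T T₄ NH TH v v' X ν₀ H hwa haJ hc hR
    hT hA hB hκ hP hv hlow hup n1 n2 n3 n4 hrm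
  have pw : ∀ {x y : ℕ}, x ≤ y → (2 : ℝ) ^ x ≤ 2 ^ y := fun h => pow_le_pow_right₀ (by norm_num) h
  obtain ⟨M, hM⟩ : ∃ M : ℝ, M = 1 / 2 ^ (g 1 + h + 2) := ⟨_, rfl⟩
  have hM0 : 0 < M := by rw [hM]; positivity
  obtain ⟨Rr, hRr⟩ : ∃ R : ℝ, R = 2 ^ (n + e + nlp g 0 1) := ⟨_, rfl⟩
  obtain ⟨d, hd⟩ : ∃ d : ℝ, d = 8 * 2 ^ (g 0 + n + x) / 2 ^ (g 1 + K) := ⟨_, rfl⟩
  obtain ⟨Yy, hYy⟩ : ∃ Y : ℝ, Y = 2 ^ (cO + n) / 2 ^ g 0 := ⟨_, rfl⟩
  have hn01 : nlp g 0 1 + g 1 + e + n + h + 4 ≤ J := by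
    have h3 := nlp_01 g
    have h4 := hrm 0 (by norm_num)
    have h5 := hrm 1 (by norm_num)
    have h6 : max (g 0) (g 1) + e + n + h + 4 ≤ J := by
      rcases le_total (g 0) (g 1) with h7 | h7
      · rw [max_eq_right h7]
        omega
      · rw [max_eq_left h7]
        omega
    omega
  refine tt_end (F := F) (c := c) (D := D) (D' := D) (a := a) (e := e) (h := h) (j := 1) (g := g)
    (κ := κ) (M := M) (R := Rr) (d := d) (Y := Yy) (B₀ := B₀) (B := B) (G := T) (H := TH)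
    le_rfl (hc.mono fun x hx => by
      rw [Set.mem_Iio] at hx ⊢
      omega) (relvF_low hR (by norm_num) hc hT.depG)
    (hT.mono (by norm_num) (fun _ => le_rfl) le_rfl le_rfl) hD (fun ω h => hA ω (hB ω h)) hκ hP ν₀
    (fun y _ => X y (some (c 1)))
    (fun s _ => 0) H.nu (by rw [hRr]; positivity) ?_ hM0 ?_ ?_ ?_ ?_
    (by rw [hYy]; positivity) ?_ ?_ ?_
  · intro ω hω k hk
    rw [hRr]
    exact H.sl1 ω hω
  · intro ω hω k hk h1
    omega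
  · intro ω ω' h1 h2 h3
    have k1 := H.dif hwa haJ hv h1 h2 h3
    rw [add_comm] at k1
    have k2 := div_bd (by positivity) k1 (hlow ω h1) (hup ω h1) (H.tt2 ω ω' h1 h2 h3)
    refine k2.trans ?_
    have k3 := tt_num (a := a) (g0 := g 0) (n := n) (x := x) (K := K) (p := p) (li := lam₁)
      (lj := lam₂) (gi := g 1) (gj := g 2) (G := 2 ^ gN 3) (by positivity) n1 (by omega) n3
    rw [hd]
    exact k3
  · intro ω hω
    rw [Finset.sum_range_one]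
    refine (H.ve1 ω hω).trans ?_
    rw [hM, div_mul_eq_mul_div, one_mul]
    exact div_le_div_of_nonneg_left (by positivity) (by positivity) (pw (by omega))
  · intro ω hω b hb
    rw [hYy]
    exact hown haJ hT.degG hT.depG (H.pth.mono (by norm_num) le_rfl) ω (hB ω hω) b hb
  · rw [hd, hYy, hM]
    have e1 : (8 : ℝ) * 2 ^ (g 0 + n + x) / 2 ^ (g 1 + K) * (2 ^ (cO + n) / 2 ^ g 0) =
        2 ^ (3 + n + x + (cO + n)) / 2 ^ (g 1 + K) := by
      rw [pow_add 2 (3 + n + x), pow_add 2 (3 + n), pow_add 2 3, pow_add 2 (g 0 + n),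
        pow_add 2 (g 0)]
      field_simp
      norm_num
    rw [e1, div_le_div_iff₀ (by positivity) (by positivity), one_mul, ← pow_add]
    exact pw (by omega)
  · rw [hM, hRr, div_mul_eq_mul_div, one_mul, le_div_iff₀ (by positivity)]
    have h1 : ((1 : ℕ) : ℝ) * 2 ^ (n + e + nlp g 0 1) + 1 ≤ 2 ^ (n + e + nlp g 0 1 + 2) := by
      have : (1 : ℝ) ≤ 2 ^ (n + e + nlp g 0 1) := one_le_pow₀ (by norm_num)
      rw [pow_add 2 (n + e + nlp g 0 1) 2]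
      push_cast
      linarith
    refine (mul_le_mul_of_nonneg_right h1 (by positivity)).trans ?_
    rw [← pow_add]
    exact pw (by omega)
  · rw [hM]
    have e1 : (2 : ℝ) ^ h * (3 * (1 / 2 ^ (g 1 + h + 2))) = 3 / 4 * (1 / 2 ^ g 1) := by
      rw [pow_add, pow_add]
      field_simp
      norm_num
    rw [e1]
    have : (0 : ℝ) < 1 / 2 ^ g 1 := by positivity
    linarith

end Pool.NVX
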