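import Pool.Agent.H80.NV.Rl3

/-!
# The deep velocities, three coordinates

`deep_three`.
-/

set_option autoImplicit false

namespace Pool.NVX

open Finset Real MvPolynomial
open Pool.Agent.H49.Ent Pool.Agent.H32.Dense Pool.STK Pool.KA Pool.KSAT Pool.K2S Pool.PB Pool.S6C
open Pool.GEN Pool.CHT
open Pool.D2R (dd hs dd_add dd_smul dd_congr)
open Pool.SHR (dir mvp RelvH Shr ShrY slp_cmp)
open Pool.PB.Trl (rt rt_mem t_rt)

variable {m J : ℕ}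

/-- **The deep velocities**, three coordinates. -/
theorem deep_three (D : ℕ) : ∃ C : ℕ, ∀ {m J : ℕ} {F : Fam m J} {c : ℕ → Fin m}
    {a a₂ a₃ n k y z K : ℕ} {g g₂ g₃ : ℕ → ℕ} {B : F.Ω → Prop}
    {T T₂ T₃ : PtT F → ℕ → MvPolynomial (Option (Fin m)) ℝ} {v : PtT F → Fin m → ℝ},
    Set.InjOn c (Set.Iio 2) → (∀ y l, (T y l).totalDegree ≤ D) → (∀ y l, DepC c l (T y l)) →
    (∀ y l, (T₂ y l).totalDegree ≤ D) → (∀ y l, DepC c l (T₂ y l)) →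
    (∀ y l, (T₃ y l).totalDegree ≤ D) → (∀ y l, DepC c l (T₃ y l)) →
    Pth F c 3 a₂ n g₂ B T₂ → Pth F c 2 a₃ n g₃ B T₃ →
    (∀ ω, B ω → NBx c (T₂ (ptr F J ω)) g₂ a₂ (F.t ω) 2 (bt F ω)) →
    (∀ ω, B ω → ∀ b, NBx c (T₂ (ptr F J ω)) g₂ a₂ (F.t ω) 2 b →
      |eval b (T₂ (ptr F J ω) 2) - eval b (T (ptr F J ω) 2)| ≤ 2 ^ k / 2 ^ g 2) →
    (∀ ω, B ω → |eval (bt F ω) (dir (v (ptr F J ω)) (T (ptr F J ω) 2)) -
      v (ptr F J ω) (c 2)| ≤ 2 ^ y * 2 ^ g 1 / 2 ^ g 2) →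
    (∀ ω, B ω → v (ptr F J ω) (c 0) = 0 ∧ v (ptr F J ω) (c 1) = 1) →
    C * (n + k + y + 1) ≤ K → g 1 + z + a₃ + K ≤ g₃ 1 + a → g₂ 1 + z + a₃ + K ≤ g₃ 1 + a →
    g 2 + z + a₂ + K ≤ g₂ 2 + a →
    (∀ ω, B ω → ∃ p' q' : ℝ, ∀ ν, B ν → ptr F J ν = ptr F J ω →
      |bd F ν (some (c 1)) - (p' + q' * bd F ν (some (c 0)))| ≤ 2 ^ a / 2 ^ (g 1 + z)) ∧
    ∀ ω, B ω → ∃ p' q' : ℝ, ∀ ν, B ν → ptr F J ν = ptr F J ω →
      |(bd F ν (some (c 2)) - v (ptr F J ω) (c 2) * bd F ν (some (c 1))) -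
        (p' + q' * bd F ν (some (c 0)))| ≤ 2 ^ a / 2 ^ (g 2 + z) := by
  obtain ⟨cV, hdv⟩ := dvel D
  obtain ⟨cW, hdw⟩ := dvel_two D
  obtain ⟨cK, hcmp⟩ := slp_cmp D 3
  have pw : ∀ {x y : ℕ}, x ≤ y → (2 : ℝ) ^ x ≤ 2 ^ y := fun h => pow_le_pow_right₀ (by norm_num) h
  refine ⟨cV + cW + cK + 4, ?_⟩
  intro m J F c a a₂ a₃ n k y z K g g₂ g₃ B T T₂ T₃ v hcc2 hTd hTp hT2d hT2p hT3d hT3p hP2 hP3
    hself hnr hder hv01 hK n1 n2 n3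
  have hK' : (cV + cW + cK + 4) * (n + k + y + 1) = cV * (n + k + y + 1) + cW * (n + k + y + 1) +
      cK * (n + k + y + 1) + 4 * (n + k + y + 1) := by ring
  have kV : cV ≤ cV * (n + k + y + 1) := Nat.le_mul_of_pos_right _ (by omega)
  have kW : cW ≤ cW * (n + k + y + 1) := Nat.le_mul_of_pos_right _ (by omega)
  have kK : cK * (k + 0 + 1) ≤ cK * (n + k + y + 1) := Nat.mul_le_mul_left _ (by omega)
  obtain ⟨ζd, hζd⟩ : ∃ ζ : ℝ, ζ = 2 ^ (a₃ + n + cV) / 2 ^ g₃ 1 := ⟨_, rfl⟩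
  have hζd0 : 0 ≤ ζd := by rw [hζd]; positivity
  have hdeep0 := hdv hT3d hT3p hP3
  rw [← hζd] at hdeep0
  refine ⟨fun ω hω => ?_, fun ω hω => ?_⟩
  · obtain ⟨p', q', h1⟩ := hdeep0 ω hω
    refine ⟨p', q', fun ν h2 h3 => (h1 ν h2 h3).trans ?_⟩
    rw [hζd, div_le_div_iff₀ (by positivity) (by positivity), ← pow_add, ← pow_add]
    exact pw (by omega)
  obtain ⟨Ed, hEd⟩ : ∃ Ed : ℝ, Ed = 2 ^ y * 2 ^ g 1 / 2 ^ g 2 +
      2 ^ (cK * (k + 0 + 1)) * 2 ^ g₂ 1 / 2 ^ g 2 := ⟨_, rfl⟩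
  have hEdb : ∀ ω, B ω → |eval (bt F ω) (dir (v (ptr F J ω)) (T₂ (ptr F J ω) 2)) -
      v (ptr F J ω) (c 2)| ≤ Ed := by
    intro ω hω
    have h1 := hder ω hω
    have h2 := hcmp (c := c) (l := 1) (i := 2) (a := a₂) (k := k) (y := 0) (p := g 2)
      (g := g₂) (G := T₂) (v := v) (P := T₂ (ptr F J ω) 2 - T (ptr F J ω) 2) (ω := ω)
      (b := bt F ω) (by norm_num) hcc2 hT2d hT2p
      (fun b b' hn hb => by
        rw [map_sub, map_sub, hT2p _ 2 b b' hn hb, hTp _ 2 b b' hn hb])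
      ((totalDegree_sub _ _).trans (max_le (hT2d _ 2) (hTd _ 2)))
      (hv01 ω hω).2 (fun j hj => by
        have : j = 0 := by omega
        subst this
        exact (hv01 ω hω).1) (fun j hj hlj => by omega)
      (hself ω hω) (fun b hb => by
        rw [map_sub]
        exact hnr ω hω b hb)
    rw [Pool.SHR.dir_sub, map_sub] at h2
    have e1 : eval (bt F ω) (dir (v (ptr F J ω)) (T₂ (ptr F J ω) 2)) - v (ptr F J ω) (c 2) =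
        (eval (bt F ω) (dir (v (ptr F J ω)) (T (ptr F J ω) 2)) - v (ptr F J ω) (c 2)) +
        (eval (bt F ω) (dir (v (ptr F J ω)) (T₂ (ptr F J ω) 2)) -
          eval (bt F ω) (dir (v (ptr F J ω)) (T (ptr F J ω) 2))) := by ring
    rw [e1, hEd]
    exact (abs_add_le _ _).trans (add_le_add h1 h2)
  have hdeep2' := hdw hcc2 hT2d hT2p hP2 hv01 hdeep0 hEdb
  obtain ⟨p', q', h1⟩ := hdeep2' ω hω
  refine ⟨p', q', fun ν h2 h3 => (h1 ν h2 h3).trans ?_⟩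
  obtain ⟨z', hz⟩ : ∃ z' : ℝ, z' = 2 ^ a / 2 ^ (g 2 + z + 2) := ⟨_, rfl⟩
  have e0 : (2 : ℝ) ^ a / 2 ^ (g 2 + z) = 4 * z' := by
    rw [hz, pow_add 2 (g 2 + z) 2]
    field_simp
    norm_num
  have e1 : (2 : ℝ) ^ (a₂ + n + cW) / 2 ^ g₂ 2 ≤ z' := by
    rw [hz, div_le_div_iff₀ (by positivity) (by positivity), ← pow_add, ← pow_add]
    exact pw (by omega)
  have e2 : 2 ^ y * 2 ^ g 1 / 2 ^ g 2 * ζd ≤ z' := by
    rw [hz, hζd, ← pow_add, div_mul_div_comm, ← pow_add, ← pow_add,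
      div_le_div_iff₀ (by positivity) (by positivity), ← pow_add, ← pow_add]
    exact pw (by omega)
  have e3 : 2 ^ (cK * (k + 0 + 1)) * 2 ^ g₂ 1 / 2 ^ g 2 * ζd ≤ z' := by
    rw [hz, hζd, ← pow_add, div_mul_div_comm, ← pow_add, ← pow_add,
      div_le_div_iff₀ (by positivity) (by positivity), ← pow_add, ← pow_add]
    exact pw (by omega)
  have hz0 : 0 ≤ z' := by rw [hz]; positivity
  rw [hEd, add_mul, e0]
  linarith

end Pool.NVX
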