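import Pool.Agent.H80.NV.Rl3a
import Pool.Agent.H80.NV.Rl3b

/-!
# The relation of the slopes at a node `(a, w₁)`

`rel_threew`: as `rel_three`, the node of the first three coordinates is `(a, w₁)`, `w ≤ w₁ ≤ a`.
-/

set_option autoImplicit false

namespace Pool.NVX

open Finset Real MvPolynomial
open Pool.Agent.H49.Ent Pool.Agent.H32.Dense Pool.STK Pool.KA Pool.KSAT Pool.K2S Pool.PB Pool.S6C
open Pool.GEN Pool.CHT
open Pool.D2R (dd hs dd_add dd_smul dd_congr hs_add_right hs_smul_right hs_smul_left)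
open Pool.F5 (eo bdS bdS_slam)
open Pool.SHR (dir mvp RelvH Shr ShrY relvF_low lab_near slp_cmp)
open Pool.PB.Trl (rt rt_mem t_rt)
open Pool.FLF (Fam.sub)
open Pool.Z3 (jn jn_lt jn_self nbx_jn join_top)
open Pool.ISO (cwn cwn_slam chOK_win)

variable {m J : ℕ}

/-- **The relation of the slopes at a node** `(a, w₁)`. -/
theorem rel_threew (m D : ℕ) (hD : 1 ≤ D) : ∃ (C : ℕ) (C₁ : ℝ), 1 ≤ C₁ ∧
    ∀ {J : ℕ} {F : Fam m J} {c : ℕ → Fin m} {a w w₁ a₂ a₃ e E h s p lam₁ lam₂ D₂ : ℕ}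
    {gN g g₂ g₃ Y : ℕ → ℕ} {κ θ : ℝ} {B₀ B : F.Ω → Prop}
    {N T T₂ T₃ : PtT F → ℕ → MvPolynomial (Option (Fin m)) ℝ}
    {NH TH T₂H T₃H : LnT F → ℕ → MvPolynomial (Option (Fin m)) ℝ}
    {v : PtT F → Fin m → ℝ} {v' : LnT F → Fin m → ℝ},
    Set.InjOn c (Set.Iio 4) → w ≤ w₁ → w₁ ≤ a → a ≤ a₂ → a₂ ≤ a₃ → a₃ ≤ J → a + 1 ≤ J →
    2 * D ≤ D₂ → 0 < Pe F.p B → Sub B B₀ → ChOK F c 4 (fun _ => D) a w E gN B N NH →
    ChOK F c 3 (fun _ => D) a w₁ e g B₀ T TH → RelvH F c 3 a w₁ g Y D₂ h κ B₀ T →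
    ChOK F c 3 (fun _ => D) a₂ a₂ e g₂ B₀ T₂ T₂H → RelvF F c 3 a₂ a₂ g₂ D h κ B₀ T₂ →
    ChOK F c 2 (fun _ => D) a₃ a₃ e g₃ B₀ T₃ T₃H →
    0 ≤ κ → κ * 2 ^ C * Pe F.p B₀ ≤ Pe F.p B → κ * 2 ^ C ≤ 1 →
    (∀ (B' : F.Ω → Prop) (hB' : 0 < Pe F.p B'), Sub B' B → Pe F.p B ≤ 2 ^ C * Pe F.p B' →
      (Fam.sub F B' hB').Tm θ) → 0 ≤ θ → C₁ * (θ + 1) ≤ ((J : ℝ) - a₃) * Real.log 2 →
    C₁ * (θ + 1) ≤ s → h ≤ s → (∀ l < 3, gN l ≤ g l + s) →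
    (∀ j < 3, Y j ≤ J) → (∀ l < 4, e + E + gN l + C * (s + 1) ≤ J) →
    (∀ l < 3, e + E + g l + C * (s + 1) ≤ J) → (∀ l < 3, e + g₂ l + C * (s + 1) ≤ J) →
    (∀ l < 2, e + g₃ l + C * (s + 1) ≤ J) →
    C * (s + 1) ≤ gN 3 → (∀ ω, B ω → v (ptr F J ω) = v' (slam F a ω)) →
    (∀ ω, B ω → v (ptr F J ω) (c 0) = 0 ∧ v (ptr F J ω) (c 1) = 1) →
    (∀ ω, B ω → ShrY F c a (g 1) g T v s 2 ω) →
    (∀ ω, B ω → ∀ t : ℝ, F.t ω - rt F a ω / 2 ^ a ≤ t → t ≤ F.t ω + (1 - rt F a ω) / 2 ^ a →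
      |(hcl (c 1) (NH (slam F w ω) 3) (slam F w ω)).eval t +
        v (ptr F J ω) (c 2) * (hcl (c 2) (NH (slam F w ω) 3) (slam F w ω)).eval t| ≤
        2 ^ (a + lam₁) / 2 ^ gN 3) →
    (∀ ω, B ω → ∀ t : ℝ, F.t ω - rt F a ω / 2 ^ a ≤ t → t ≤ F.t ω + (1 - rt F a ω) / 2 ^ a →
      |(hcl (c 2) (NH (slam F w ω) 3) (slam F w ω)).eval t| ≤ 2 ^ (a + lam₂) / 2 ^ gN 3) →
    g 1 + p + a₃ + C * (s + 1) ≤ g₃ 1 + a → g₂ 1 + p + a₃ + C * (s + 1) ≤ g₃ 1 + a →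
    g 2 + p + a₂ + C * (s + 1) ≤ g₂ 2 + a →
    ∃ (A B' : F.Ω → Prop) (X : PtT F → Option (Fin m) → ℝ) (ν₀ : PtT F → F.Ω),
      Sub A B ∧ Sub B' A ∧ Pe F.p B / 2 ^ C ≤ Pe F.p B' ∧
      Rel3 F c a w e (C * (s + 1)) p lam₁ lam₂ D h g gN g A B' T T NH v X ν₀ := by
  classical
  obtain ⟨cJ, hjoin⟩ := join_top D 3 hD
  obtain ⟨cB, hbox⟩ := box_uv D hD
  obtain ⟨cP, rP, hrP, hpth4⟩ := pth_fam m D 4
  obtain ⟨cQ, rQ, hrQ, hpth3⟩ := pth_fam m D 3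
  obtain ⟨cR, rR, hrR, hpth2⟩ := pth_fam m D 2
  obtain ⟨cD, hdeep⟩ := deep_three D
  obtain ⟨cL, hnear⟩ := lab_near D 3 hD
  obtain ⟨cK, hcmp⟩ := slp_cmp D 3
  obtain ⟨cS, hrelb⟩ := rel_bd D
  obtain ⟨cU, hstar⟩ := star_sl D
  obtain ⟨cA, hbal⟩ := bal_three D hD
  obtain ⟨cM, hder⟩ := der_shr D hD
  have pw : ∀ {x y : ℕ}, x ≤ y → (2 : ℝ) ^ x ≤ 2 ^ y := fun h => pow_le_pow_right₀ (by norm_num) h
  obtain ⟨q, hq⟩ : ∃ q, q = cA * (cP + cM + 3) := ⟨_, rfl⟩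
  obtain ⟨C, hC⟩ : ∃ C, C = cS * (q + 2) + cU * (q + 2) + cS + q + 4 * cJ + cB * (cP + 4) +
    2 * cB + cD * (cQ + cR + cL + cM + 4) + cL + 2 * cM + cK + cP + cQ + cR + D + 100 := ⟨_, rfl⟩
  obtain ⟨C₁, hC₁⟩ : ∃ C₁, C₁ = rP + rQ + rR := ⟨_, rfl⟩
  refine ⟨C, C₁, by rw [hC₁]; linarith, ?_⟩
  intro J F c a w w₁ a₂ a₃ e E h s p lam₁ lam₂ D₂ gN g g₂ g₃ Y κ θ B₀ B N T T₂ T₃ NH TH T₂H T₃H
    v v' hc hw hw1a ha2 ha3 ha3J haJ1 hDD hPB hB hN hT hRH hT2 hR2 hT3 hκ0 hκP hκ1 hTm hθ hθJ hθs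
    hhs hgx hYJ hrN hrg hr2 hr3 hgN3 hvv hv01 hshr hup1 hup2 n1 n2 n3
  have ha2J : a₂ ≤ J := ha3.trans ha3J
  have haJ : a ≤ J := ha2.trans ha2J
  have hw1J : w₁ ≤ J := hw1a.trans haJ
  obtain ⟨T₀, hT₀⟩ : ∃ T₀, T₀ = s + 1 := ⟨_, rfl⟩
  have hT1 : 1 ≤ T₀ := by omega
  rw [← hT₀] at hrN hrg hr2 hr3 hgN3 n1 n2 n3 ⊢
  have hCT : C * T₀ = cS * (q + 2) * T₀ + cU * (q + 2) * T₀ + cS * T₀ + q * T₀ + 4 * (cJ * T₀) +
      cB * (cP + 4) * T₀ + 2 * (cB * T₀) + cD * (cQ + cR + cL + cM + 4) * T₀ + cL * T₀ +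
      2 * (cM * T₀) + cK * T₀ + cP * T₀ + cQ * T₀ + cR * T₀ + D * T₀ + 100 * T₀ := by
    rw [hC]
    ring
  have hT0s : s ≤ T₀ := by omega
  have mT : ∀ x : ℕ, x ≤ x * T₀ := fun x => Nat.le_mul_of_pos_right _ hT1
  have hcc3 : Set.InjOn c (Set.Iio 3) := hc.mono fun x hx => by
    rw [Set.mem_Iio] at hx ⊢
    omega
  have hcc2 : Set.InjOn c (Set.Iio 2) := hc.mono fun x hx => by
    rw [Set.mem_Iio] at hx ⊢
    omega
  -- the shares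
  have h2C : (0 : ℝ) < 2 ^ C := by positivity
  have shr : ∀ (k : ℕ) (B' : F.Ω → Prop), k ≤ C → Pe F.p B / 2 ^ k ≤ Pe F.p B' →
      0 < Pe F.p B' ∧ Pe F.p B ≤ 2 ^ C * Pe F.p B' := by
    intro k B' hk h1
    have h2 : (0 : ℝ) < 2 ^ k := by positivity
    refine ⟨(div_pos hPB h2).trans_le h1, ?_⟩
    rw [div_le_iff₀ h2] at h1
    calc Pe F.p B ≤ Pe F.p B' * 2 ^ k := h1
      _ ≤ Pe F.p B' * 2 ^ C := mul_le_mul_of_nonneg_left (pw hk) (Pe_nonneg F.isLaw B')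
      _ = _ := mul_comm _ _
  have shk : ∀ (k : ℕ) (B' : F.Ω → Prop), k ≤ C → Pe F.p B / 2 ^ k ≤ Pe F.p B' →
      κ * 2 ^ (C - k) * Pe F.p B₀ ≤ Pe F.p B' := by
    intro k B' hk h1
    refine le_trans ?_ h1
    rw [le_div_iff₀ (by positivity)]
    refine le_trans (le_of_eq ?_) hκP
    have e1 : (2 : ℝ) ^ C = 2 ^ (C - k) * 2 ^ k := by rw [← pow_add, Nat.sub_add_cancel hk]
    rw [e1]
    ring
  have shj : ∀ (k j : ℕ) (B' : F.Ω → Prop), k + j ≤ C → Pe F.p B / 2 ^ k ≤ Pe F.p B' →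
      κ * 2 ^ j * Pe F.p B₀ ≤ Pe F.p B' := by
    intro k j B' hk h1
    refine le_trans ?_ (shk k B' (by omega) h1)
    exact mul_le_mul_of_nonneg_right (mul_le_mul_of_nonneg_left (pw (by omega)) hκ0)
      (Pe_nonneg F.isLaw B₀)
  have hP0 : 0 < Pe F.p B₀ := hPB.trans_le (Pe_mono F.isLaw hB)
  have hfr : ∀ (k j : ℕ) (A A' : F.Ω → Prop), Pe F.p B / 2 ^ k ≤ Pe F.p A →
      Pe F.p A / 2 ^ j ≤ Pe F.p A' → Pe F.p B / 2 ^ (k + j) ≤ Pe F.p A' := by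
    intro k j A A' h1 h2
    refine le_trans ?_ h2
    rw [pow_add, ← div_div]
    exact div_le_div_of_nonneg_right h1 (by positivity)
  have half : ∀ (k : ℕ) (A A' : F.Ω → Prop), Pe F.p B / 2 ^ k ≤ Pe F.p A →
      Pe F.p A / 2 ≤ Pe F.p A' → Pe F.p B / 2 ^ (k + 1) ≤ Pe F.p A' := by
    intro k A A' h1 h2
    exact hfr k 1 A A' h1 (by rwa [pow_one])
  -- the joined chart
  have hN1 : ChOK F c 4 (fun _ => D) a w₁ (e + E) gN B N (cwn w w₁ NH) :=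
    chOK_win (hN.mono le_rfl (fun _ => le_rfl) le_rfl (Nat.le_add_left _ _)) hw hw1J
  have hRF : RelvF F c 3 a w₁ g D h κ B₀ T := hRH.relv.mono (by omega) le_rfl
  have hRFj : RelvF F c 3 a w₁ g D h (1 / 2 ^ C) B T :=
    hRF.sub hB (κ₁ := κ * 2 ^ C) hκP (by positivity) (le_of_eq (by field_simp))
  have hκ4 : (1 : ℝ) / 2 ^ C * 2 ^ 3 ≤ 1 := by
    rw [div_mul_eq_mul_div, one_mul, div_le_one h2C]
    exact pw (by omega)
  obtain ⟨g', hg'⟩ : ∃ g' : ℕ → ℕ, g' = fun _ => gN 3 - cJ * (h + 1) := ⟨_, rfl⟩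
  have hcJh : cJ * (h + 1) ≤ cJ * T₀ := Nat.mul_le_mul_left _ (by omega)
  have hcJN : cJ * (h + 1) ≤ gN 3 := by omega
  have hg'3 : g' 3 + cJ * (h + 1) = gN 3 := by rw [hg']; exact Nat.sub_add_cancel hcJN
  obtain ⟨B₁, b1, p1, -, hJ1⟩ := hjoin (e := e) (E := e + E) (x := s) (g' := g') hc hRFj hκ4
    (hT.sub hB) hN1 hgx (Nat.le_add_right _ _) (by omega) (by omega)
  obtain ⟨e₁, he₁⟩ : ∃ e₁, e₁ = e + E + 2 * cJ * (h + 1) + s := ⟨_, rfl⟩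
  rw [← he₁] at hJ1
  obtain ⟨gJ, hgJ⟩ : ∃ gJ, gJ = jn 3 g g' := ⟨_, rfl⟩
  obtain ⟨GJ, hGJ⟩ : ∃ GJ : PtT F → ℕ → MvPolynomial (Option (Fin m)) ℝ,
      GJ = fun y => jn 3 (T y) (N y) := ⟨_, rfl⟩
  obtain ⟨HJ, hHJ⟩ : ∃ HJ : LnT F → ℕ → MvPolynomial (Option (Fin m)) ℝ,
      HJ = fun s => jn 3 (TH s) (cwn w w₁ NH s) := ⟨_, rfl⟩
  rw [← hgJ, ← hGJ, ← hHJ] at hJ1
  have gl : ∀ l < 3, gJ l = g l := fun l hl => by rw [hgJ]; exact jn_lt hl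
  have g3 : gJ 3 = g' 3 := by rw [hgJ]; exact jn_self
  have g0e : gJ 0 = g 0 := gl 0 (by norm_num)
  have Gl : ∀ y, ∀ l < 3, GJ y l = T y l := fun y l hl => by rw [hGJ]; exact jn_lt hl
  have H3 : ∀ ω, HJ (slam F w₁ ω) 3 = NH (slam F w ω) 3 := fun ω => by
    rw [hHJ]
    show jn 3 (TH (slam F w₁ ω)) (cwn w w₁ NH (slam F w₁ ω)) 3 = _
    rw [jn_self, cwn_slam hw hw1J]
  have nbJ : ∀ (y : PtT F) (t : ℝ) (i : ℕ) (b : Option (Fin m) → ℝ), i ≤ 3 →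
      (NBx c (GJ y) gJ a t i b ↔ NBx c (T y) g a t i b) := by
    intro y t i b hi
    rw [hgJ, hGJ]
    exact nbx_jn hi
  have hB1 : Sub B₁ B₀ := fun ω h => hB ω (b1 ω h)
  have hRJ : RelvH F c 3 a w₁ gJ Y (2 * D) h κ B₀ GJ := by
    rw [hgJ, hGJ]
    exact relvH_jn (relvH_mono hRH hDD le_rfl)
  have hshJ : ∀ ω, B ω → Shr F c 1 a gJ GJ v s 2 ω := by
    intro ω hω b hb sv hsv
    have h1 := hshr ω hω b ((nbJ _ _ 2 b (by norm_num)).1 hb) sv (by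
      rwa [gl 1 (by norm_num)] at hsv)
    rw [Gl _ 2 (by norm_num), gl 2 (by norm_num)]
    exact h1
  have a1 : 2 * cJ * (h + 1) ≤ 2 * (cJ * T₀) := by
    rw [Nat.mul_assoc]
    exact Nat.mul_le_mul_left _ hcJh
  have mB := mT cB
  have mK := mT cK
  have mM := mT cM
  have mS := mT cS
  have m9 := mT 9
  have room1 : ∀ l < 4, e₁ + gJ l + h + cB + cP * T₀ ≤ J := by
    intro l hl
    rcases Nat.lt_or_ge l 3 with h3 | h3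
    · have := hrg l h3
      rw [gl l h3, he₁]
      omega
    · have : l = 3 := by omega
      subst this
      have := hrN 3 (by norm_num)
      rw [g3, he₁]
      omega
  -- the paths of the joined chart
  have hlog : 0 ≤ Real.log 2 := Real.log_nonneg (by norm_num)
  have hJ2 : ((J : ℝ) - a₃) * Real.log 2 ≤ ((J : ℝ) - a₂) * Real.log 2 := by
    refine mul_le_mul_of_nonneg_right ?_ hlog
    have : (a₂ : ℝ) ≤ a₃ := by exact_mod_cast ha3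
    linarith
  have hJa : ((J : ℝ) - a₃) * Real.log 2 ≤ ((J : ℝ) - a) * Real.log 2 := by
    refine mul_le_mul_of_nonneg_right ?_ hlog
    have : (a : ℝ) ≤ a₃ := by exact_mod_cast ha2.trans ha3
    linarith
  have hr0 : 0 ≤ θ + 1 := by linarith
  have hrP' : rP * (θ + 1) ≤ C₁ * (θ + 1) := mul_le_mul_of_nonneg_right (by rw [hC₁]; linarith) hr0
  have hrQ' : rQ * (θ + 1) ≤ C₁ * (θ + 1) := mul_le_mul_of_nonneg_right (by rw [hC₁]; linarith) hr0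
  have hrR' : rR * (θ + 1) ≤ C₁ * (θ + 1) := mul_le_mul_of_nonneg_right (by rw [hC₁]; linarith) hr0
  have s1 := shr 3 B₁ (by omega) p1
  obtain ⟨B₂, b2, p2, hP5⟩ := hpth4 (x := s) (a := a) (e := e₁) (g := gJ) s1.1 hc haJ
    (chOK_win hJ1 hw1a haJ) (fun l hl => by
      have := room1 l hl
      rw [← hT₀]
      omega) (hTm B₁ s1.1 b1 s1.2) hθ ((hrP'.trans hθJ).trans hJa) (hrP'.trans hθs)
  rw [← hT₀] at hP5
  have q2 := half 3 B₁ B₂ p1 p2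
  have sb2 : Sub B₂ B := fun ω h => b1 ω (b2 ω h)
  -- the derivatives on the natural box
  obtain ⟨V₁, hV₁⟩ : ∃ V₁ : ℝ, V₁ = 2 ^ lam₁ / 2 ^ gN 3 := ⟨_, rfl⟩
  obtain ⟨V₂, hV₂⟩ : ∃ V₂ : ℝ, V₂ = 2 ^ lam₂ / 2 ^ gN 3 := ⟨_, rfl⟩
  have hV10 : 0 ≤ V₁ := by rw [hV₁]; positivity
  have hV20 : 0 ≤ V₂ := by rw [hV₂]; positivity
  have hVe : ∀ x : ℕ, (2 : ℝ) ^ (a + x) / 2 ^ gN 3 = 2 ^ a * (2 ^ x / 2 ^ gN 3) := fun x => by
    rw [pow_add]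
    ring
  obtain ⟨B₃, al₁, al₂, b3, p3, hal1, hal2⟩ := hbox (a := a) (w := w₁) (n := cP * T₀) (h := h)
    (y := s) (V₁ := V₁) (V₂ := V₂) (v := v) hc haJ1 hRJ (fun ω h => hB ω (sb2 ω h)) hκ0
    ((le_of_eq (by rw [pow_one])).trans (shj 4 1 B₂ (by omega) q2)) (hJ1.sub b2) hV10 hV20
    (hP5.mono (by norm_num) le_rfl) (fun ω hω => hv01 ω (sb2 ω hω))
    (fun ω hω => hshJ ω (sb2 ω hω)) (fun ω hω t t1 t2 => by
      have h1 := hup1 ω (sb2 ω hω) t t1 t2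
      rw [hVe, ← hV₁, hcl_eval, hcl_eval] at h1
      rw [H3, hcl_eval, hcl_eval]
      exact h1) (fun ω hω t t1 t2 => by
      have h1 := hup2 ω (sb2 ω hω) t t1 t2
      rw [hVe, ← hV₂, hcl_eval] at h1
      rw [H3, hcl_eval]
      exact h1) hYJ (fun j hj => by
      have := room1 j (by omega)
      omega)
  have q3 := hfr 4 2 B₂ B₃ q2 (by
    refine le_trans (le_of_eq ?_) p3
    norm_num)
  have sb3 : Sub B₃ B := fun ω h => sb2 ω (b3 ω h)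
  -- the near labels in the ball `a₂`
  have hTa2 : ChOK F c 3 (fun _ => D) a₂ a₂ e g B₃ T (cwn w₁ a₂ TH) :=
    chOK_win ((hT.mono le_rfl (fun _ => le_rfl) ha2 le_rfl).sub fun ω h => hB ω (sb3 ω h))
      (hw1a.trans ha2) ha2J
  obtain ⟨B₄, b4, p4, hnr⟩ := hnear (n := 3) (κ' := κ * 2 ^ 4) le_rfl hcc3 hR2 hT2.depG
    (fun ω h => hB ω (sb3 ω h)) (shj 6 4 B₃ (by omega) q3) (le_of_eq (by norm_num)) hTa2
  have q4 := hfr 6 3 B₃ B₄ q3 p4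
  have sb4 : Sub B₄ B := fun ω h => sb3 ω (b4 ω h)
  have s4 := shr 9 B₄ (by omega) q4
  obtain ⟨B₆, b6, p6, hP6⟩ := hpth3 (x := s) (a := a₂) (e := e) (g := g₂) s4.1 hcc3 ha2J
    (hT2.sub fun ω h => hB ω (sb4 ω h)) (fun l hl => by
      have := hr2 l hl
      rw [← hT₀]
      omega) (hTm B₄ s4.1 sb4 s4.2) hθ ((hrQ'.trans hθJ).trans hJ2) (hrQ'.trans hθs)
  have q6 := half 9 B₄ B₆ q4 p6
  have s6 := shr 10 B₆ (by omega) q6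
  have sb6 : Sub B₆ B := fun ω h => sb4 ω (b6 ω h)
  obtain ⟨B₈, b8, p8, hP7⟩ := hpth2 (x := s) (a := a₃) (e := e) (g := g₃) s6.1 hcc2 ha3J
    (hT3.sub fun ω h => hB ω (sb6 ω h)) (fun l hl => by
      have := hr3 l hl
      rw [← hT₀]
      omega) (hTm B₆ s6.1 sb6 s6.2) hθ (hrR'.trans hθJ) (hrR'.trans hθs)
  have q8 := half 10 B₆ B₈ q6 p8
  have s8 := shr 11 B₈ (by omega) q8
  have sb8 : Sub B₈ B := fun ω h => sb6 ω (b8 ω h)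
  rw [← hT₀] at hP6 hP7
  -- the separated lines
  have hshare : κ * (2 * (D + 1 : ℕ)) < Pe F.p B₈ / Pe F.p B₀ := by
    rw [lt_div_iff₀ hP0]
    rcases hκ0.eq_or_lt with h0 | h0
    · rw [← h0, zero_mul, zero_mul]
      exact s8.1
    · refine lt_of_lt_of_le ?_ (shk 11 B₈ (by omega) q8)
      have h1 : (2 * (D + 1 : ℕ) : ℝ) < 2 ^ (C - 11) := by
        have h2 : D + 1 < 2 ^ (D + 1) := Nat.lt_two_pow_self
        have h3 : ((D + 1 : ℕ) : ℝ) < 2 ^ (D + 1) := by exact_mod_cast h2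
        calc (2 * (D + 1 : ℕ) : ℝ) < 2 * 2 ^ (D + 1) := by linarith
          _ = 2 ^ (D + 2) := by ring
          _ ≤ _ := pw (by omega)
      exact mul_lt_mul_of_pos_right (mul_lt_mul_of_pos_left h1 h0) hP0
  obtain ⟨B₉, b9, p9, hsep⟩ := sep_fam (F := F) (c := c) (D := D) (a := a) (w := w₁) (e := e)
    (h := h) (N := D + 1) (g := g) (κ := κ) (κ' := Pe F.p B₈ / Pe F.p B₀) (B₀ := B₀) (B := B₈)
    hD (by omega) (relvF_low hRF (by norm_num) hcc3 hT.depG)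
    (hT.mono (by norm_num) (fun _ => le_rfl) le_rfl le_rfl)
    (fun ω h => hB ω (sb8 ω h)) hκ0 (by rw [div_mul_cancel₀ _ hP0.ne']) hshare hP0 (by
      have := hrg 0 (by norm_num)
      have := mT 30
      omega)
  have q9 := half 11 B₈ B₉ q8 p9
  have sb9 : Sub B₉ B := fun ω h => sb8 ω (b9 ω h)
  have s84 : Sub B₈ B₄ := fun ω h => b6 ω (b8 ω h)
  have hPJ : Pth F c 4 a (cP * T₀) gJ B₈ GJ := hP5.sub fun ω h => b3 ω (b4 ω (s84 ω h))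
  -- the numbers of the constants
  obtain ⟨n', hn'⟩ : ∃ n', n' = cA * (cP * T₀ + h + (cM + s) + 1) := ⟨_, rfl⟩
  have hn'q : n' ≤ q * T₀ := by
    rw [hn', hq, Nat.mul_assoc]
    refine Nat.mul_le_mul_left _ ?_
    have e1 : (cP + cM + 3) * T₀ = cP * T₀ + cM * T₀ + 3 * T₀ := by ring
    rw [e1]
    omega
  have f1 : cS * (n' + 1) ≤ cS * (q + 2) * T₀ := by
    rw [Nat.mul_assoc]
    refine Nat.mul_le_mul_left _ ?_
    rw [Nat.add_mul]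
    omega
  have f2 : cU * (n' + 1) ≤ cU * (q + 2) * T₀ := by
    rw [Nat.mul_assoc]
    refine Nat.mul_le_mul_left _ ?_
    rw [Nat.add_mul]
    omega
  have f3 : cB * (cP * T₀ + h + s + 1) ≤ cB * (cP + 4) * T₀ := by
    rw [Nat.mul_assoc]
    refine Nat.mul_le_mul_left _ ?_
    rw [Nat.add_mul]
    omega
  have f6 : cL * (h + 1) ≤ cL * T₀ := Nat.mul_le_mul_left _ (by omega)
  have f4 : cD * ((cQ * T₀ + cR * T₀) + cL * (h + 1) + (cM + s) + 1) ≤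
      cD * (cQ + cR + cL + cM + 4) * T₀ := by
    rw [Nat.mul_assoc]
    refine Nat.mul_le_mul_left _ ?_
    have e1 : (cQ + cR + cL + cM + 4) * T₀ = cQ * T₀ + cR * T₀ + cL * T₀ + cM * T₀ + 4 * T₀ := by
      ring
    rw [e1]
    omega
  -- the deep velocities
  have hderT : ∀ ω, B ω → ∀ b, NBx c (T (ptr F J ω)) g a (F.t ω) 2 b →
      |eval b (dir (v (ptr F J ω)) (T (ptr F J ω) 2)) - v (ptr F J ω) (c 2)| ≤
        2 ^ (cM + s) * 2 ^ g 1 / 2 ^ g 2 := fun ω hω b hb =>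
    hder hT.degG (hv01 ω hω).2 (hshr ω hω) b hb
  obtain ⟨hdeep1, hdeep2⟩ := hdeep (a := a) (a₂ := a₂) (a₃ := a₃) (n := cQ * T₀ + cR * T₀)
    (k := cL * (h + 1)) (y := cM + s) (z := p + q * T₀) (K := cD * (cQ + cR + cL + cM + 4) * T₀)
    (g := g) (g₂ := g₂) (g₃ := g₃) (B := B₈) (T := T) (T₂ := T₂) (T₃ := T₃) (v := v) hcc2 hT.degG
    hT.depG hT2.degG hT2.depG hT3.degG hT3.depG
    ((hP6.sub b8).mono le_rfl (Nat.le_add_right _ _)) (hP7.mono le_rfl (Nat.le_add_left _ _))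
    (fun ω hω => hT2.self (hB ω (sb8 ω hω)) (by norm_num))
    (fun ω hω b hb => hnr ω (s84 ω hω) 2 (by norm_num) b hb)
    (fun ω hω => hderT ω (sb8 ω hω) (bt F ω) (hT.self (hB ω (sb8 ω hω)) (by norm_num)))
    (fun ω hω => hv01 ω (sb8 ω hω)) f4 (by omega) (by omega) (by omega)
  -- the plane
  obtain ⟨ζ₁, hζ₁⟩ : ∃ ζ : ℝ, ζ = 2 ^ a / 2 ^ (g 1 + (p + q * T₀)) := ⟨_, rfl⟩
  obtain ⟨ζ₂, hζ₂⟩ : ∃ ζ : ℝ, ζ = 2 ^ a / 2 ^ (g 2 + (p + q * T₀)) := ⟨_, rfl⟩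
  rw [← hζ₁] at hdeep1
  rw [← hζ₂] at hdeep2
  obtain ⟨E₁, hE₁⟩ : ∃ E₁ : ℝ, E₁ = 2 ^ (cB * (cP * T₀ + h + s + 1)) *
      (2 ^ gJ 1 / 2 ^ gJ 3 + V₁ + 2 ^ gJ 1 / 2 ^ gJ 2 * V₂) := ⟨_, rfl⟩
  obtain ⟨E₂, hE₂⟩ : ∃ E₂ : ℝ, E₂ = 2 ^ (cB * (cP * T₀ + h + s + 1)) *
      (2 ^ gJ 2 / 2 ^ gJ 3 + V₂) := ⟨_, rfl⟩
  rw [← hE₁] at hal1
  rw [← hE₂] at hal2
  obtain ⟨X, ν₀, hX⟩ := hbal (c := c) (a := a) (n := cP * T₀) (h := h) (y := cM + s) (g := gJ)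
    (B := B₈) (G := GJ) (v := v) (al₁ := al₁) (al₂ := al₂) (ζ₁ := ζ₁) (ζ₂ := ζ₂) (E₁ := E₁)
    (E₂ := E₂) hc haJ hJ1.degG hJ1.depG hPJ (fun ω hω => hv01 ω (sb8 ω hω)) hdeep1 (by
      rw [hζ₁, gl 1 (by norm_num)]
      exact div_le_div_of_nonneg_left (by positivity) (by positivity) (pw (by omega))) hdeep2 (by
      rw [hζ₂, gl 2 (by norm_num)]
      exact div_le_div_of_nonneg_left (by positivity) (by positivity) (pw (by omega)))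
    (fun ω hω b hb => by
      rw [Gl _ 2 (by norm_num), gl 1 (by norm_num), gl 2 (by norm_num)]
      exact hderT ω (sb8 ω hω) b ((nbJ _ _ 2 b (by norm_num)).1 hb))
    (fun ω hω b hb => hal1 ω (b4 ω (s84 ω hω)) b hb)
    (fun ω hω b hb => hal2 ω (b4 ω (s84 ω hω)) b hb)
  rw [← hn'] at hX
  have hsep' : ∀ ω, B₉ ω → Sep F c B₈ (2 ^ a / 2 ^ (gJ 0 + h + 3)) (D + 1) ω := by
    intro ω hω
    rw [g0e]
    exact hsep ω hω
  obtain ⟨ω₀, hω₀⟩ : ∃ ω, B₈ ω := by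
    by_contra hcon
    push Not at hcon
    have h1 : Pe F.p B₈ = 0 := by
      unfold Pe
      exact Finset.sum_eq_zero fun ω _ => by simp [hcon ω]
    linarith [s8.1]
  have hpl3 : ∀ ω, B₉ ω → ∀ α β : ℝ, |α| ≤ 2 → |β| ≤ 2 → ∀ l < 3,
      |(bt F ω + α • vl F a ω + β • ((1 / 2 ^ g 0 : ℝ) • X (ptr F J ω))) (some (c l)) -
        eval (bt F ω + α • vl F a ω + β • ((1 / 2 ^ g 0 : ℝ) • X (ptr F J ω)))
          (T (ptr F J ω) l)| ≤ 2 ^ n' / 2 ^ g l := by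
    intro ω hω α β hα hβ l hl
    obtain ⟨-, -, -, -, -, hpl⟩ := hX ω (b9 ω hω) (hsep' ω hω)
    have h1 := (hpl α β hα hβ).1 l hl
    rwa [g0e, Gl _ l hl, gl l hl] at h1
  -- the slopes
  have hdT2 : ∀ ω, B ω → |eval (bt F ω) (pderiv (some (c 1)) (T (ptr F J ω) 2)) -
      v (ptr F J ω) (c 2)| ≤ 2 ^ (cM + s) * 2 ^ g 1 / 2 ^ g 2 := by
    intro ω hω
    have h1 := hderT ω hω (bt F ω) (hT.self (hB ω hω) (by norm_num))
    rwa [dir_two hcc2 (hT.depG _ 2) (hv01 ω hω).1 (hv01 ω hω).2] at h1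
  have hsl : ∀ ω, B₉ ω → |X (ptr F J ω) (some (c 1))| ≤ 2 ^ (n' + 1 + e + nlp g 0 1) ∧
      |v (ptr F J ω) (c 2)| ≤ 2 ^ (cM + s + 1 + e + nlp g 1 2) ∧
      |X (ptr F J ω) (some (c 2)) - v (ptr F J ω) (c 2) * X (ptr F J ω) (some (c 1))| ≤
        2 ^ (n' + (cM + s) + 3 + e + nlp g 0 2) := by
    intro ω hω
    obtain ⟨hX0, hX1, -, -, hnat, -⟩ := hX ω (b9 ω hω) (hsep' ω hω)
    exact sl_bd hcc3 hT (hB ω (sb9 ω hω)) hX0 hX1 (fun l hl => by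
      have h1 := hnat l (by omega)
      rwa [g0e, Gl _ l hl, gl l hl] at h1) (hdT2 ω (sb9 ω hω))
  have hdH2 : ∀ ω, B ω → |eval (bt F ω) (pderiv (some (c 1)) (TH (slam F w₁ ω) 2)) -
      v (ptr F J ω) (c 2)| ≤ 2 ^ (cM + s + cK + 1) * 2 ^ g 1 / 2 ^ g 2 := by
    intro ω hω
    have h1 := hdT2 ω hω
    have h2 := hcmp (c := c) (l := 1) (i := 2) (a := a) (k := 0) (y := 0) (p := g 2)
      (g := g) (G := T) (v := v) (P := T (ptr F J ω) 2 - TH (slam F w₁ ω) 2) (ω := ω)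
      (b := bt F ω) (by norm_num) hcc2 hT.degG hT.depG
      (fun b b' hn hb => by
        rw [map_sub, map_sub, hT.depG _ 2 b b' hn hb, hT.depH _ 2 b b' hn hb])
      ((totalDegree_sub _ _).trans (max_le (hT.degG _ 2) (hT.degH _ 2)))
      (hv01 ω hω).2 (fun j hj => by
        have : j = 0 := by omega
        subst this
        exact (hv01 ω hω).1) (fun j hj hlj => by omega)
      (hT.self (hB ω hω) (by norm_num)) (fun b hb => by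
        rw [map_sub, pow_zero]
        exact hT.agr ω (hB ω hω) 2 (by norm_num) b hb)
    rw [Pool.SHR.dir_sub, map_sub, dir_two hcc2 (hT.depG _ 2) (hv01 ω hω).1 (hv01 ω hω).2,
      dir_two hcc2 (hT.depH _ 2) (hv01 ω hω).1 (hv01 ω hω).2] at h2
    have e1 : eval (bt F ω) (pderiv (some (c 1)) (TH (slam F w₁ ω) 2)) - v (ptr F J ω) (c 2) =
        (eval (bt F ω) (pderiv (some (c 1)) (T (ptr F J ω) 2)) - v (ptr F J ω) (c 2)) -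
        (eval (bt F ω) (pderiv (some (c 1)) (T (ptr F J ω) 2)) -
          eval (bt F ω) (pderiv (some (c 1)) (TH (slam F w₁ ω) 2))) := by ring
    rw [e1]
    refine (abs_sub _ _).trans ((add_le_add h1 h2).trans ?_)
    rw [← add_div, ← add_mul]
    refine div_le_div_of_nonneg_right (mul_le_mul_of_nonneg_right ?_ (by positivity))
      (by positivity)
    have e2 : (2 : ℝ) ^ (cM + s) ≤ 2 ^ (cM + s + cK) := pw (by omega)
    have e3 : (2 : ℝ) ^ (cK * (0 + 0 + 1)) ≤ 2 ^ (cM + s + cK) := pw (by omega)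
    rw [pow_succ]
    linarith
  have htt : ∀ ω ω', B₉ ω → B₉ ω' → slam F a ω = slam F a ω' →
      |X (ptr F J ω) (some (c 1)) - X (ptr F J ω') (some (c 1))| ≤
        2 ^ (g 0 + cU * (n' + 1) + 1) / 2 ^ g 1 ∧
      |(X (ptr F J ω) (some (c 2)) - v (ptr F J ω) (c 2) * X (ptr F J ω) (some (c 1))) -
        (X (ptr F J ω') (some (c 2)) - v (ptr F J ω) (c 2) * X (ptr F J ω') (some (c 1)))| ≤
        2 ^ (g 0 + cU * (n' + 1) + (cM + s + cK + 1) + 3) / 2 ^ g 2 := by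
    intro ω ω' h1 h2 h3
    obtain ⟨hX0, hX1, -, -, -, -⟩ := hX ω (b9 ω h1) (hsep' ω h1)
    obtain ⟨hY0, hY1, -, -, -, -⟩ := hX ω' (b9 ω' h2) (hsep' ω' h2)
    exact tt_sl haJ hw1a h3
      (hstar hcc3 hT (hB ω (sb9 ω h1)) hX0 hX1 fun α β hα hβ l hl =>
        hpl3 ω h1 α β (by linarith) (by linarith) l hl)
      (hstar hcc3 hT (hB ω' (sb9 ω' h2)) hY0 hY1 fun α β hα hβ l hl =>
        hpl3 ω' h2 α β (by linarith) (by linarith) l hl) (hdH2 ω (sb9 ω h1))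
  -- the relation
  have hg3e : (1 : ℝ) / 2 ^ gJ 3 = 2 ^ (cJ * (h + 1)) / 2 ^ gN 3 := by
    rw [g3, ← hg'3, pow_add]
    field_simp
  obtain ⟨er_t, her_t⟩ : ∃ er_t : ℝ, er_t = 2 ^ n' *
      (1 / 2 ^ gJ 3 + ζ₁ / 2 ^ a * E₁ + ζ₂ / 2 ^ a * E₂) := ⟨_, rfl⟩
  have hrel : ∀ ω, B₉ ω → ∀ t : ℝ, |t - F.t ω| ≤ 1 / 2 ^ a →
      |(hcl (c 0) (NH (slam F w ω) 3) (slam F w ω)).eval t +
      ((hcl (c 1) (NH (slam F w ω) 3) (slam F w ω)).eval t +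
        v (ptr F J ω) (c 2) * (hcl (c 2) (NH (slam F w ω) 3) (slam F w ω)).eval t) *
        X (ptr F J ω) (some (c 1)) +
      (hcl (c 2) (NH (slam F w ω) 3) (slam F w ω)).eval t *
        (X (ptr F J ω) (some (c 2)) - v (ptr F J ω) (c 2) * X (ptr F J ω) (some (c 1)))| ≤
      2 ^ a * 2 ^ gJ 0 * (2 ^ cS * (er_t + 2 ^ (cS * (n' + 1)) * (1 / 2 ^ gJ 3))) ∧
      |hs (NH (slam F w ω) 3) (bt F ω + (t - F.t ω) • bd F ω) (X (ptr F J ω))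
        (X (ptr F J ω))| ≤
      2 ^ gJ 0 * 2 ^ gJ 0 * (2 ^ cS * (er_t + 2 ^ (cS * (n' + 1)) * (1 / 2 ^ gJ 3))) := by
    intro ω hω
    obtain ⟨hX0, hX1, -, -, -, hpl⟩ := hX ω (b9 ω hω) (hsep' ω hω)
    exact hrelb (c := c) (a := a) (w := w) (n' := n') (g := gJ) (G := GJ (ptr F J ω))
      (R := NH (slam F w ω) 3) (X₀ := X (ptr F J ω)) (u := v (ptr F J ω) (c 2)) (er_t := er_t)
      (δ := 1 / 2 ^ gJ 3) (ω := ω) hcc3 (fun l => hJ1.degG _ l) (fun l => hJ1.depG _ l)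
      (hN.degH _ 3) (hN.depH _ 3) hX0 hX1 (by positivity) (fun b hb => by
        have := hJ1.agr ω (b2 ω (b3 ω (b4 ω (s84 ω (b9 ω hω))))) 3 (by norm_num) b hb
        rwa [H3] at this)
      (fun α' β' h1 h2 => by
        obtain ⟨k1, k2⟩ := hpl α' β' (by linarith) (by linarith)
        rw [g0e] at k1 k2
        rw [g0e]
        exact ⟨k1, by rw [her_t]; exact k2⟩)
  have hnum : ∀ a' : ℕ, (2 : ℝ) ^ a' * 2 ^ gJ 0 *
      (2 ^ cS * (er_t + 2 ^ (cS * (n' + 1)) * (1 / 2 ^ gJ 3))) ≤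
      2 ^ (a' + g 0 + C * T₀) / 2 ^ gN 3 *
        (1 + 2 ^ lam₁ / 2 ^ (g 1 + p) + 2 ^ lam₂ / 2 ^ (g 2 + p)) := by
    intro a'
    have hZ : ∀ x : ℕ, (2 : ℝ) ^ a / 2 ^ (x + (p + q * T₀)) / 2 ^ a ≤ 1 / 2 ^ (x + p) := by
      intro x
      rw [div_div, ← pow_add, div_le_div_iff₀ (by positivity) (by positivity), one_mul, ← pow_add]
      exact pw (by omega)
    have h1 := rl3_numw (A := 2 ^ a') (G0 := 2 ^ g 0) (G := 2 ^ gN 3) (P₁ := 2 ^ (g 1 + p))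
      (P₂ := 2 ^ (g 2 + p)) (L₁ := 2 ^ lam₁) (L₂ := 2 ^ lam₂) (x₁ := 2 ^ gJ 1) (x₂ := 2 ^ gJ 2)
      (cs := 2 ^ cS) (N' := 2 ^ n') (K := 2 ^ (cJ * (h + 1)))
      (Kb := 2 ^ (cB * (cP * T₀ + h + s + 1))) (r := 2 ^ gJ 1 / 2 ^ gJ 2)
      (M := 2 ^ (cS * (n' + 1))) (J3 := 1 / 2 ^ gJ 3) (Z₁ := ζ₁ / 2 ^ a) (Z₂ := ζ₂ / 2 ^ a)
      (E₁ := E₁) (E₂ := E₂) (by positivity) (by positivity) (by positivity) (by positivity)
      (by positivity) (by positivity) (by positivity) (by positivity)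
      (by rw [gl 1 (by norm_num)]; exact pw (by omega)) (by positivity)
      (by rw [gl 2 (by norm_num)]; exact pw (by omega)) (one_le_pow₀ (by norm_num))
      (one_le_pow₀ (by norm_num)) (one_le_pow₀ (by norm_num)) (one_le_pow₀ (by norm_num))
      (one_le_pow₀ (by norm_num)) hg3e (by rw [hζ₁]; positivity)
      (by rw [hζ₁]; exact hZ (g 1)) (by rw [hζ₂]; positivity)
      (by rw [hζ₂]; exact hZ (g 2))
      (by
        rw [hζ₁, gl 1 (by norm_num), gl 2 (by norm_num)]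
        have e1 : (2 : ℝ) ^ a / 2 ^ (g 1 + (p + q * T₀)) / 2 ^ a * (2 ^ g 1 / 2 ^ g 2) =
            1 / 2 ^ (g 2 + (p + q * T₀)) := by
          rw [pow_add 2 (g 1), pow_add 2 (g 2)]
          field_simp
        rw [e1]
        exact one_div_le_one_div_of_le (by positivity) (pw (by omega)))
      (by rw [hE₁, hV₁, hV₂, mul_one_div])
      (by rw [hE₂, hV₂, mul_one_div])
    rw [her_t, g0e]
    refine h1.trans ?_
    refine mul_le_mul_of_nonneg_right ?_ (by positivity)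
    refine div_le_div_of_nonneg_right ?_ (by positivity)
    have e4 : (8 : ℝ) = 2 ^ 3 := by norm_num
    rw [e4, ← pow_add, ← pow_add, ← pow_add, ← pow_add, ← pow_add, ← pow_add, ← pow_add]
    refine pw ?_
    omega
  refine ⟨B₈, B₉, X, fun y => ν₀ y ω₀, sb8, b9, ?_, ?_⟩
  · refine le_trans ?_ q9
    exact div_le_div_of_nonneg_left hPB.le (by positivity) (pw (by omega))
  refine ⟨fun ω hω => (hX ω (b9 ω hω) (hsep' ω hω)).1,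
    fun ω hω => (hX ω (b9 ω hω) (hsep' ω hω)).2.1, fun ω hω => ?_,
    fun ω hω => (hsl ω hω).1.trans (pw (by omega)),
    fun ω hω => (hsl ω hω).2.1.trans (pw (by omega)),
    fun ω hω => (hsl ω hω).2.2.trans (pw (by omega)), fun ω hω => ?_, fun ω hω => ?_,
    fun ω ω' h1 h2 h3 => (htt ω ω' h1 h2 h3).1.trans
      (div_le_div_of_nonneg_right (pw (by omega)) (by positivity)),
    fun ω ω' h1 h2 h3 => ?_,
    fun ω hω α β hα hβ l hl => (hpl3 ω hω α β hα hβ l hl).trans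
      (div_le_div_of_nonneg_right (pw (by omega)) (by positivity)),
    fun ω hω => hsep ω hω, fun ω hω => ?_, ?_, ?_, fun ω hω => ?_,
    fun ω hω t ht => (hrel ω hω t ht).1.trans (hnum a),
    fun ω hω t ht => (hrel ω hω t ht).2.trans (by
      have := hnum (g 0)
      rw [g0e] at this ⊢
      exact this)⟩
  · obtain ⟨-, -, -, ⟨ν₁, hA₁, hp₁, hν₁, -⟩, -⟩ := hX ω (b9 ω hω) (hsep' ω hω)
    rw [hν₁ ω₀]
    exact hp₁
  · obtain ⟨-, -, -, ⟨ν₁, hA₁, hp₁, hν₁, -, hv1, -⟩, -⟩ := hX ω (b9 ω hω) (hsep' ω hω)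
    rw [hν₁ ω₀]
    refine hv1.trans ?_
    rw [hζ₁, ← mul_div_assoc, ← pow_add, div_le_div_iff₀ (by positivity) (by positivity),
      ← pow_add, ← pow_add]
    exact pw (by omega)
  · obtain ⟨-, -, -, ⟨ν₁, hA₁, hp₁, hν₁, -, -, hv2⟩, -⟩ := hX ω (b9 ω hω) (hsep' ω hω)
    rw [hν₁ ω₀]
    refine hv2.trans ?_
    rw [hζ₂, ← mul_div_assoc, ← pow_add, div_le_div_iff₀ (by positivity) (by positivity),
      ← pow_add, ← pow_add]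
    exact pw (by omega)
  · have h4 := (htt ω ω' h1 h2 h3).2
    have h5 : v (ptr F J ω') (c 2) = v (ptr F J ω) (c 2) := by
      rw [hvv ω (sb9 ω h1), hvv ω' (sb9 ω' h2), h3]
    rw [h5]
    exact h4.trans (div_le_div_of_nonneg_right (pw (by omega)) (by positivity))
  · obtain ⟨-, -, -, ⟨ν₁, hA₁, hp₁, hν₁, ⟨ν₂, δ, hA₂, hp₂, hδ, hXd⟩, -, -⟩, -⟩ :=
      hX ω (b9 ω hω) (hsep' ω hω)
    rw [g0e] at hXd
    exact ⟨ν₁, ν₂, δ, hA₁, hp₁, hA₂, hp₂, hδ, hXd⟩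
  · intro ω ν h1 h2 h3 sv h4 h5 l hl
    have h6 := hPJ ω ν h1 h2 h3 sv h4 h5 l (by omega)
    rw [Gl _ l hl, gl l hl] at h6
    exact h6.trans (div_le_div_of_nonneg_right (pw (by omega)) (by positivity))
  · intro ω ν h1 h2 h3 sv h4 h5 l hl
    have h6 := hPJ ω ν h1 h2 h3 sv h4 h5 l (by omega)
    rw [Gl _ l hl, gl l hl] at h6
    exact h6.trans (div_le_div_of_nonneg_right (pw (by omega)) (by positivity))
  · obtain ⟨p', q', h1⟩ := hdeep1 ω hω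
    refine ⟨p', q', fun ν h2 h3 => (h1 ν h2 h3).trans ?_⟩
    rw [hζ₁]
    exact div_le_div_of_nonneg_left (by positivity) (by positivity) (pw (by omega))

end Pool.NVX
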