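import Pool.Agent.H80.NV.Nvc
import Pool.Agent.H87.NV.Jet

/-!
# The bad event is small, for `c 0, c 1, c 2; c 3`, `c 2` static

`vcl`: the derivative of the derivative in a direction `v = c 1 + v₂ c 2` along the line.
`vcl_up`: a crude bound. `no_badc`: there is no event on which `vcl` is large, if on all its large
parts there are nodes for `c 0, c 1, c 2` near the node of the family.
-/

set_option autoImplicit false

namespace Pool.NVX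

open Finset Real MvPolynomial
open Pool.Agent.H49.Ent Pool.Agent.H32.Dense Pool.STK Pool.KA Pool.KSAT Pool.K2S Pool.PB Pool.S6C
open Pool.GEN Pool.CHT
open Pool.SHR (dir mvp RelvH Shr ShrY relvF_low)
open Pool.PB.Trl (rt rt_mem t_rt)
open Pool.FLF (Fam.sub)

variable {m J : ℕ}

/-- **The derivative along the line of the derivative in the direction** `c 1 + z c 2` of a label of
`c 3`. -/
noncomputable def vcl {F : Fam m J} (c : ℕ → Fin m) (P : MvPolynomial (Option (Fin m)) ℝ) (z : ℝ)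
    (s : LnT F) : Polynomial ℝ := hcl (c 1) P s + Polynomial.C z * hcl (c 2) P s

theorem vcl_eval {F : Fam m J} (c : ℕ → Fin m) (P : MvPolynomial (Option (Fin m)) ℝ) (z : ℝ)
    (s : LnT F) (t : ℝ) : (vcl c P z s).eval t =
      (hcl (c 1) P s).eval t + z * (hcl (c 2) P s).eval t := by
  unfold vcl
  rw [Polynomial.eval_add, Polynomial.eval_mul, Polynomial.eval_C]

theorem vcl_deg {F : Fam m J} (c : ℕ → Fin m) {P : MvPolynomial (Option (Fin m)) ℝ} (z : ℝ)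
    (s : LnT F) {D : ℕ} (hD : P.totalDegree ≤ D) : (vcl c P z s).natDegree ≤ D := by
  unfold vcl
  refine (Polynomial.natDegree_add_le _ _).trans (max_le (hcl_deg _ hD _) ?_)
  exact (Polynomial.natDegree_C_mul_le _ _).trans (hcl_deg _ hD _)

/-- Degrees of the test polynomials. -/
theorem relvH_deg {F : Fam m J} {c : ℕ → Fin m} {i a w : ℕ} {g Y : ℕ → ℕ} {D D' h : ℕ} {κ : ℝ}
    {B₀ : F.Ω → Prop} {G : PtT F → ℕ → MvPolynomial (Option (Fin m)) ℝ}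
    (hR : RelvH F c i a w g Y D h κ B₀ G) (hD : D' ≤ D) : RelvH F c i a w g Y D' h κ B₀ G :=
  fun B' hB hP Dx Dl M y h1 h2 => hR B' hB hP Dx Dl M y (fun y => (h1 y).trans hD)
    fun s => (h2 s).trans hD

/-- **A crude bound** of the derivatives of the closed derivatives on the window. -/
theorem hcl_crude (m D : ℕ) : ∃ (C : ℕ) (C₁ : ℝ), 1 ≤ C₁ ∧ ∀ {J : ℕ} {F : Fam m J}
    {c : ℕ → Fin m} {a w E s X : ℕ} {g : ℕ → ℕ} {A : F.Ω → Prop}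
    {G : PtT F → ℕ → MvPolynomial (Option (Fin m)) ℝ}
    {H : LnT F → ℕ → MvPolynomial (Option (Fin m)) ℝ} {θ : ℝ} (_ : 0 < Pe F.p A),
    Set.InjOn c (Set.Iio 4) → w ≤ J → ChOK F c 4 (fun _ => D) a w E g A G H →
    (∀ l < 4, g l ≤ X) →
    (∀ (A' : F.Ω → Prop) (h : 0 < Pe F.p A'), Sub A' A → Pe F.p A ≤ 16 * Pe F.p A' →
      (Fam.sub F A' h).Tm θ) → 0 ≤ θ → C₁ * (θ + 1) ≤ ((J : ℝ) - w) * Real.log 2 →
    C₁ * (θ + 1) ≤ s →
    ∃ B : F.Ω → Prop, Sub B A ∧ Pe F.p A / 16 ≤ Pe F.p B ∧ ∀ ω, B ω →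
      wmx w (slam F w ω).2.2 (hcl (c 1) (H (slam F w ω) 3) (slam F w ω)) ≤
        2 ^ (C + w + s + E + 2 * X) ∧
      wmx w (slam F w ω).2.2 (hcl (c 2) (H (slam F w ω) 3) (slam F w ω)) ≤
        2 ^ (C + w + s + E + 2 * X) := by
  obtain ⟨cJ, hjet⟩ := jet_up D 4
  obtain ⟨rU, hrU, hrem⟩ := rem_up m D
  obtain ⟨cM, hder⟩ := mkv_der D
  refine ⟨cJ + cM, rU, hrU, ?_⟩
  intro J F c a w E s X g A G H θ hA hc hw hL hX hTm hθ hn1 hn2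
  have hj := hjet (n := 4) le_rfl hc hL hX
  obtain ⟨A₁, a1, p1, k1⟩ := hrem hA (fun s' => gcl (c 1) (H s' 3) s') hw
    (fun s' => gcl_deg _ (hL.degH _ _) _) (fun A' h h1 h2 => hTm A' h h1 (by
      have := h.le
      linarith)) hθ hn1 hn2
  have hA₁ : 0 < Pe F.p A₁ := by linarith
  obtain ⟨A₂, a2, p2, k2⟩ := hrem hA₁ (fun s' => gcl (c 2) (H s' 3) s') hw
    (fun s' => gcl_deg _ (hL.degH _ _) _) (fun A' h h1 h2 => hTm A' h
      (fun ω hω => a1 ω (h1 ω hω)) (by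
      have := h.le
      linarith)) hθ hn1 hn2
  have key : ∀ ω, A ω → ∀ k, k < 3 → wmx w (slam F w ω).2.2 (gcl (c k) (H (slam F w ω) 3)
      (slam F w ω)) ≤ 2 ^ s * |(gcl (c k) (H (slam F w ω) 3) (slam F w ω)).eval (F.t ω)| →
      wmx w (slam F w ω).2.2 (hcl (c k) (H (slam F w ω) 3) (slam F w ω)) ≤
        2 ^ (cJ + cM + w + s + E + 2 * X) := by
    intro ω hω k hk h1
    have h2 := hj ω hω 3 (by norm_num) k hk
    rw [gcl_self] at h1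
    have h3 := hder (w := w) (n := (slam F w ω).2.2)
      (K := wmx w (slam F w ω).2.2 (gcl (c k) (H (slam F w ω) 3) (slam F w ω)))
      (P := gcl (c k) (H (slam F w ω) 3) (slam F w ω)) (gcl_deg _ (hL.degH _ _) _)
      (fun t ht => le_wmx ht)
    rw [gcl_der] at h3
    obtain ⟨t, ht, h4⟩ := wmx_mem w (slam F w ω).2.2 (hcl (c k) (H (slam F w ω) 3) (slam F w ω))
    rw [h4]
    refine (h3 t ht).trans ?_
    calc (2 : ℝ) ^ (cM + w) * wmx w (slam F w ω).2.2 (gcl (c k) (H (slam F w ω) 3) (slam F w ω))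
        ≤ 2 ^ (cM + w) * (2 ^ s * 2 ^ (cJ + E + 2 * X)) :=
          mul_le_mul_of_nonneg_left (h1.trans (mul_le_mul_of_nonneg_left h2 (by positivity)))
            (by positivity)
      _ = _ := by
        rw [← pow_add, ← pow_add]
        congr 1
        ring
  refine ⟨A₂, fun ω hω => a1 ω (a2 ω hω), by linarith, fun ω hω => ⟨?_, ?_⟩⟩
  · exact key ω (a1 ω (a2 ω hω)) 1 (by norm_num) (k1 ω (a2 ω hω))
  · exact key ω (a1 ω (a2 ω hω)) 2 (by norm_num) (k2 ω hω)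

/-- The size of `vcl`. -/
theorem vcl_up {F : Fam m J} {c : ℕ → Fin m} {P : MvPolynomial (Option (Fin m)) ℝ} {z : ℝ}
    {s : LnT F} {w n R V : ℕ} (h1 : wmx w n (hcl (c 1) P s) ≤ 2 ^ R)
    (h2 : wmx w n (hcl (c 2) P s) ≤ 2 ^ R) (hz : |z| ≤ 2 ^ V) :
    wmx w n (vcl c P z s) ≤ 2 ^ (R + V + 1) := by
  obtain ⟨t, ht, h3⟩ := wmx_mem w n (vcl c P z s)
  rw [h3, vcl_eval]
  have h4 := (le_wmx (P := hcl (c 1) P s) ht).trans h1
  have h5 := (le_wmx (P := hcl (c 2) P s) ht).trans h2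
  refine (abs_add_le _ _).trans ?_
  rw [abs_mul]
  have h6 : |z| * |(hcl (c 2) P s).eval t| ≤ 2 ^ V * 2 ^ R :=
    mul_le_mul hz h5 (abs_nonneg _) (by positivity)
  have h7 : (2 : ℝ) ^ (R + V + 1) = 2 ^ (R + V) + 2 ^ V * 2 ^ R := by
    rw [pow_succ, pow_add]
    ring
  have h8 : (2 : ℝ) ^ R ≤ 2 ^ (R + V) := pow_le_pow_right₀ (by norm_num) (by omega)
  rw [h7]
  exact add_le_add (h4.trans h8) h6

/-- **There is no bad event**, for `c 0, c 1, c 2; c 3`, `c 2` static. -/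
theorem no_badc (m D : ℕ) (hD : 1 ≤ D) : ∃ (C : ℕ) (C₁ : ℝ), 1 ≤ C₁ ∧
    ∀ {J : ℕ} {F : Fam m J} {c : ℕ → Fin m} {a w w₂ a₂ a₃ e E h s Q N X U Un D₂ : ℕ}
    {gN g g₂ g₃ g₄ Y : ℕ → ℕ} {κ θ : ℝ} {A : F.Ω → Prop}
    {G : PtT F → ℕ → MvPolynomial (Option (Fin m)) ℝ}
    {H : LnT F → ℕ → MvPolynomial (Option (Fin m)) ℝ}
    {v : PtT F → Fin m → ℝ} {v' : LnT F → Fin m → ℝ} (_ : 0 < Pe F.p A),
    Set.InjOn c (Set.Iio 4) → w ≤ w₂ → w₂ ≤ a → a ≤ a₂ → a₂ ≤ a₃ → a₃ + 1 ≤ J →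
    ChOK F c 4 (fun _ => D) a w E gN A G H →
    (∀ ω, A ω → v (ptr F J ω) = v' (slam F w ω)) →
    (∀ ω, A ω → v (ptr F J ω) (c 0) = 0 ∧ v (ptr F J ω) (c 1) = 1) →
    (∀ ω, A ω → ShrY F c a Un gN G v s 2 ω) →
    (∀ ω, A ω → |eval (bt F ω) (dir (v (ptr F J ω)) (G (ptr F J ω) 2)) -
      v (ptr F J ω) (c 2)| ≤ 2 ^ s * 2 ^ Un / 2 ^ gN 2) →
    (∀ ω, A ω → 2 ^ Q / 2 ^ gN 3 <
      wmx w (slam F w ω).2.2 (vcl c (H (slam F w ω) 3) (v (ptr F J ω) (c 2)) (slam F w ω))) →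
    (∀ A' : F.Ω → Prop, Sub A' A → Pe F.p A ≤ 16 * (N + 1) ^ 2 * Pe F.p A' →
      (∀ h : 0 < Pe F.p A', (Fam.sub F A' h).Tm θ) ∧
      ∃ B : F.Ω → Prop, Sub B A' ∧ (0 < Pe F.p A' → 0 < Pe F.p B) ∧
      (∀ (B' : F.Ω → Prop) (hB' : 0 < Pe F.p B'), Sub B' B → Pe F.p B ≤ 2 ^ C * Pe F.p B' →
        (Fam.sub F B' hB').Tm θ) ∧
      ∃ (T T₂ T₃ T₄ : PtT F → ℕ → MvPolynomial (Option (Fin m)) ℝ)
        (TH T₂H T₃H T₄H : LnT F → ℕ → MvPolynomial (Option (Fin m)) ℝ),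
        ChOK F c 3 (fun _ => D) a a e g B T TH ∧ RelvH F c 3 a a g Y D h κ B T ∧
        ChOK F c 3 (fun _ => D) a₂ a₂ e g₂ B T₂ T₂H ∧ RelvF F c 3 a₂ a₂ g₂ D h κ B T₂ ∧
        ChOK F c 2 (fun _ => D) a₃ a₃ e g₃ B T₃ T₃H ∧
        ChOK F c 3 (fun _ => D) a w₂ e g₄ B T₄ T₄H ∧ RelvF F c 2 a w₂ g₄ D₂ h κ B T₄) →
    2 * D + 2 ≤ D₂ → 0 ≤ κ → κ * 2 ^ C ≤ 1 → 0 ≤ θ →
    C₁ * (θ + 1) ≤ ((J : ℝ) - a₃) * Real.log 2 →
    C₁ * (θ + 1) ≤ s → h ≤ s → (∀ l < 3, gN l ≤ g l + s) →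
    (∀ j < 3, Y j ≤ J) → (∀ l < 4, e + E + gN l + C * (s + 1) ≤ J) →
    (∀ l < 3, e + E + g l + C * (s + 1) ≤ J) → (∀ l < 3, e + g₂ l + C * (s + 1) ≤ J) →
    (∀ l < 2, e + g₃ l + C * (s + 1) ≤ J) → (∀ l < 3, e + g₄ l + C * (s + 1) ≤ J) →
    C * (s + 1) ≤ gN 3 → (∀ l < 4, gN l ≤ X) →
    C + w + 2 * s + 2 * E + 4 * X + Un ≤ N * s →
    gN 1 ≤ Un → Un ≤ U → g₄ 1 ≤ U → a + U + C * (s + 1) ≤ Q → U + C * (s + 1) ≤ g 1 →
    g 2 ≤ gN 2 + s → g 1 + a₃ + C * (s + 1) ≤ g₃ 1 + a →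
    g₂ 1 + a₃ + C * (s + 1) ≤ g₃ 1 + a → g 2 + a₂ + C * (s + 1) ≤ g₂ 2 + a →
    w + C * (s + 1) ≤ w₂ → g 0 ≤ g₄ 0 + s → False := by
  obtain ⟨cN, rN, hrN1, hnv⟩ := nv_c m D hD
  obtain ⟨cU, rU, hrU, hcr⟩ := hcl_crude m D
  have pw : ∀ {x y : ℕ}, x ≤ y → (2 : ℝ) ^ x ≤ 2 ^ y := fun h => pow_le_pow_right₀ (by norm_num) h
  refine ⟨cN + cU + 3, max rN rU, le_trans hrN1 (le_max_left _ _), ?_⟩
  intro J F c a w w₂ a₂ a₃ e E h s Q N X U Un D₂ gN g g₂ g₃ g₄ Y κ θ A G H v v' hA hc hw hw2 ha2 ha3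
    ha3J hL hvv hv01 hsh hdv hbad hown hDD hκ hκC hθ hn1 hn2 hhs hgx hYJ hrN hrg hr2 hr3 hr4 hgN3
    hX hN n1 n2 n3 n4 n5 n6 n7 n8 n9 n10 n11
  have hθ1 : 0 < θ + 1 := by linarith
  have hm1 : rN * (θ + 1) ≤ max rN rU * (θ + 1) :=
    mul_le_mul_of_nonneg_right (le_max_left _ _) hθ1.le
  have hm2 : rU * (θ + 1) ≤ max rN rU * (θ + 1) :=
    mul_le_mul_of_nonneg_right (le_max_right _ _) hθ1.le
  have hln : 0 < Real.log 2 := Real.log_pos (by norm_num)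
  have hCC : cN * (s + 1) ≤ (cN + cU + 3) * (s + 1) := Nat.mul_le_mul_right _ (by omega)
  have hs1 : s + 1 ≤ (cN + cU + 3) * (s + 1) := Nat.le_mul_of_pos_left _ (by omega)
  have hwJ : w ≤ J := by omega
  have hc2 : Set.InjOn c (Set.Iio 2) := hc.mono (Set.Iio_subset_Iio (by norm_num))
  have hN1 : (1 : ℝ) ≤ ((N : ℝ) + 1) := by
    have : (0 : ℝ) ≤ N := Nat.cast_nonneg N
    linarith
  have hN2 : (1 : ℝ) ≤ ((N : ℝ) + 1) ^ 2 := one_le_pow₀ hN1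
  -- the crude bounds
  obtain ⟨A₁, a1, p1, k1⟩ := hcr hA hc hwJ hL hX (fun A' h' h1 h2 => (hown A' h1 (by
      refine h2.trans ?_
      have h3 := h'.le
      nlinarith)).1 h') hθ (hm2.trans (hn1.trans (by
    refine mul_le_mul_of_nonneg_right ?_ hln.le
    have : (w : ℝ) ≤ a₃ := by exact_mod_cast (by omega : w ≤ a₃)
    linarith))) (hm2.trans hn2)
  obtain ⟨R, hR⟩ : ∃ R, R = cU + w + s + E + 2 * X := ⟨_, rfl⟩
  have hv2 : ∀ ω, A ω → |v (ptr F J ω) (c 2)| ≤ 2 ^ (E + X + s + Un + 1) := by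
    intro ω hω
    have h1 := hdv ω hω
    rw [dir_twoW hc2 (hL.depG _ 2) (hv01 ω hω).2 (hv01 ω hω).1] at h1
    have h2 := hL.lip ω hω 2 (by norm_num) (bt F ω) (hL.self hω (by norm_num)) 1 (by norm_num)
    have h3 : nlp gN 1 2 ≤ X := by
      unfold nlp
      have : (Finset.Icc 1 2).sup gN ≤ X := Finset.sup_le fun x hx => hX x (by
        have := (Finset.mem_Icc.1 hx).2
        omega)
      omega
    have e1 : v (ptr F J ω) (c 2) = eval (bt F ω) (pderiv (some (c 1)) (G (ptr F J ω) 2)) -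
        (eval (bt F ω) (pderiv (some (c 1)) (G (ptr F J ω) 2)) - v (ptr F J ω) (c 2)) := by ring
    rw [e1]
    refine (abs_sub _ _).trans ((add_le_add h2 h1).trans ?_)
    have f1 : (2 : ℝ) ^ (E + nlp gN 1 2) ≤ 2 ^ (E + X + s + Un) := pw (by omega)
    have f2 : (2 : ℝ) ^ s * 2 ^ Un / 2 ^ gN 2 ≤ 2 ^ (E + X + s + Un) := by
      refine (div_le_self (by positivity) (one_le_pow₀ (by norm_num))).trans ?_
      rw [← pow_add]
      exact pw (by omega)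
    rw [pow_succ]
    linarith
  obtain ⟨f₁, hf₁⟩ : ∃ f₁ : F.Ω → ℝ, f₁ = fun ω => wmx w (slam F w ω).2.2
    (vcl c (H (slam F w ω) 3) (v (ptr F J ω) (c 2)) (slam F w ω)) := ⟨_, rfl⟩
  obtain ⟨f₂, hf₂⟩ : ∃ f₂ : F.Ω → ℝ, f₂ = fun ω => wmx w (slam F w ω).2.2
    (hcl (c 2) (H (slam F w ω) 3) (slam F w ω)) := ⟨_, rfl⟩
  have hX3 := hX 3 (by norm_num)
  obtain ⟨k₁, hk₁, q1⟩ := dyad (A := A₁) f₁ Q s N (ρ := 1 / 2 ^ gN 3) (fun ω hω => by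
    have h1 := vcl_up (c := c) (P := H (slam F w ω) 3) (z := v (ptr F J ω) (c 2))
      (s := slam F w ω) (w := w) (n := (slam F w ω).2.2) (R := R) (V := E + X + s + Un + 1)
      (by rw [hR]; exact (k1 ω hω).1) (by rw [hR]; exact (k1 ω hω).2) (hv2 ω (a1 ω hω))
    rw [hf₁, mul_one_div, le_div_iff₀ (by positivity)]
    calc _ ≤ (2 : ℝ) ^ (R + (E + X + s + Un + 1) + 1) * 2 ^ gN 3 :=
          mul_le_mul_of_nonneg_right h1 (by positivity)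
      _ = 2 ^ (R + (E + X + s + Un + 1) + 1 + gN 3) := by rw [← pow_add]
      _ ≤ _ := pw (by omega))
  obtain ⟨B₁, hB₁⟩ : ∃ B₁ : F.Ω → Prop, B₁ = fun ω => A₁ ω ∧ (f₁ ω ≤
    2 ^ (Q + k₁ * s) * (1 / 2 ^ gN 3) ∧ (k₁ = 0 ∨ 2 ^ (Q + k₁ * s) * (1 / 2 ^ gN 3) / 2 ^ s <
      f₁ ω)) := ⟨_, rfl⟩
  rw [← hB₁] at q1
  have sB₁ : Sub B₁ A₁ := fun ω h => by
    rw [hB₁] at h
    exact h.1
  obtain ⟨k₂, hk₂, q2⟩ := dyad (A := B₁) f₂ a s N (ρ := 1 / 2 ^ gN 3) (fun ω hω => by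
    rw [hf₂, mul_one_div, le_div_iff₀ (by positivity)]
    calc _ ≤ (2 : ℝ) ^ R * 2 ^ gN 3 :=
          mul_le_mul_of_nonneg_right (by rw [hR]; exact (k1 ω (sB₁ ω hω)).2) (by positivity)
      _ = 2 ^ (R + gN 3) := by rw [← pow_add]
      _ ≤ _ := pw (by omega))
  obtain ⟨B₂, hB₂⟩ : ∃ B₂ : F.Ω → Prop, B₂ = fun ω => B₁ ω ∧ (f₂ ω ≤
    2 ^ (a + k₂ * s) * (1 / 2 ^ gN 3) ∧ (k₂ = 0 ∨ 2 ^ (a + k₂ * s) * (1 / 2 ^ gN 3) / 2 ^ s <
      f₂ ω)) := ⟨_, rfl⟩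
  rw [← hB₂] at q2
  have sB₂ : Sub B₂ B₁ := fun ω h => by
    rw [hB₂] at h
    exact h.1
  have hA₁ : 0 < Pe F.p A₁ := by linarith
  have hPB₁ : 0 < Pe F.p B₁ := by
    by_contra hcon
    push Not at hcon
    have := mul_nonpos_of_nonneg_of_nonpos (by linarith : (0 : ℝ) ≤ (N : ℝ) + 1) hcon
    linarith
  have hPB₂ : 0 < Pe F.p B₂ := by
    by_contra hcon
    push Not at hcon
    have := mul_nonpos_of_nonneg_of_nonpos (by linarith : (0 : ℝ) ≤ (N : ℝ) + 1) hcon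
    linarith
  have sA₂ : Sub B₂ A := fun ω h => a1 ω (sB₁ ω (sB₂ ω h))
  obtain ⟨-, B, l1, l2', l3, T, T₂, T₃, T₄, TH, T₂H, T₃H, T₄H, t1, t2, t3, t4, t5, t6, t7⟩ :=
    hown B₂ sA₂ (by
      calc Pe F.p A = 16 * (Pe F.p A / 16) := by ring
        _ ≤ 16 * Pe F.p A₁ := mul_le_mul_of_nonneg_left p1 (by norm_num)
        _ ≤ 16 * ((N + 1) * Pe F.p B₁) := mul_le_mul_of_nonneg_left q1 (by norm_num)
        _ ≤ 16 * ((N + 1) * ((N + 1) * Pe F.p B₂)) :=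
            mul_le_mul_of_nonneg_left (mul_le_mul_of_nonneg_left q2 (by linarith)) (by norm_num)
        _ = _ := by ring)
  have l2 := l2' hPB₂
  have hBA : Sub B A := fun ω h => sA₂ ω (l1 ω h)
  have hf1 : ∀ ω, B ω → f₁ ω ≤ 2 ^ (Q + k₁ * s) * (1 / 2 ^ gN 3) ∧
      2 ^ (Q + k₁ * s) * (1 / 2 ^ gN 3) / 2 ^ s < f₁ ω := by
    intro ω hω
    have h1 := sB₂ ω (l1 ω hω)
    rw [hB₁] at h1
    refine ⟨h1.2.1, h1.2.2.resolve_left fun hk0 => ?_⟩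
    have h2 := h1.2.1
    have h3 := hbad ω (hBA ω hω)
    rw [hk0, Nat.zero_mul, Nat.add_zero, mul_one_div, hf₁] at h2
    linarith
  have hk1pos : 1 ≤ k₁ := by
    by_contra hcon
    have hk0 : k₁ = 0 := by omega
    obtain ⟨ω, hω⟩ : ∃ ω, B ω := by
      by_contra hcon'
      push Not at hcon'
      have h1 : Pe F.p B = 0 := by
        unfold Pe
        exact Finset.sum_eq_zero fun ω _ => by simp [hcon' ω]
      linarith
    have h1 := sB₂ ω (l1 ω hω)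
    rw [hB₁] at h1
    have h2 := h1.2.1
    have h3 := hbad ω (hBA ω hω)
    rw [hk0, Nat.zero_mul, Nat.add_zero, mul_one_div, hf₁] at h2
    linarith
  have hf2 : ∀ ω, B ω → f₂ ω ≤ 2 ^ (a + k₂ * s) * (1 / 2 ^ gN 3) ∧
      (k₂ = 0 ∨ 2 ^ (a + k₂ * s) * (1 / 2 ^ gN 3) / 2 ^ s < f₂ ω) := by
    intro ω hω
    have h1 := l1 ω hω
    rw [hB₂] at h1
    exact h1.2
  have hks : a + (Q + k₁ * s - a) = Q + k₁ * s := by
    have : a ≤ Q := by omega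
    omega
  have h2C : (2 : ℝ) ^ cN ≤ 2 ^ (cN + cU + 3) := pw (by omega)
  have hκC' : κ * 2 ^ cN ≤ 1 := (mul_le_mul_of_nonneg_left h2C hκ).trans hκC
  refine hnv (h := h) (s := s) (lam₁ := Q + k₁ * s - a) (lam₂ := k₂ * s) (κ := κ) (θ := θ)
    (B₀ := B) (B := B) (N := G) (NH := H) (T := T) (T₂ := T₂) (T₃ := T₃) (T₄ := T₄) (TH := TH)
    (T₂H := T₂H) (T₃H := T₃H) (T₄H := T₄H) (gN := gN) (g := g) (g₂ := g₂) (g₃ := g₃) (g₄ := g₄)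
    (Y := Y) (E := E) (e := e) (U := U) (Un := Un) (v := v) (v' := v') hc hw hw2 ha2 ha3 ha3J l2
    (fun _ h => h) (hL.sub hBA) t1 t2 t3 t4 t5 t6 t7 hDD hκ ?_ hκC' ?_ hθ
    (hm1.trans hn1) (hm1.trans hn2) hhs hgx hYJ (fun l hl => ?_) (fun l hl => ?_) (fun l hl => ?_)
    (fun l hl => ?_) (fun l hl => ?_) (by omega) (fun ω h => hvv ω (hBA ω h))
    (fun ω h => hv01 ω (hBA ω h)) (fun ω h => hsh ω (hBA ω h)) ?_ ?_ ?_ ?_ n1 n2 n3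
    (by
      have : s ≤ k₁ * s := Nat.le_mul_of_pos_left _ hk1pos
      omega) (by omega) n6 (by omega) (by omega)
    (by omega) (by omega) n11
  · have := mul_le_mul_of_nonneg_right hκC' (Pe_nonneg F.isLaw B)
    linarith
  · intro B' hB' hs hP
    exact l3 B' hB' hs (hP.trans (mul_le_mul_of_nonneg_right h2C (Pe_nonneg F.isLaw B')))
  · have := hrN l hl
    omega
  · have := hrg l hl
    omega
  · have := hr2 l hl
    omega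
  · have := hr3 l hl
    omega
  · have := hr4 l hl
    omega
  · intro ω hω t ht1 ht2
    rw [hks, ← vcl_eval]
    refine (le_wmx ((win_iff hwJ ω t).1 ⟨ht1, ht2⟩)).trans ?_
    have := (hf1 ω hω).1
    rwa [hf₁, mul_one_div] at this
  · intro ω hω
    obtain ⟨t, ht, h3⟩ := wmx_mem w (slam F w ω).2.2
      (vcl c (H (slam F w ω) 3) (v (ptr F J ω) (c 2)) (slam F w ω))
    obtain ⟨h4, h5⟩ := (win_iff hwJ ω t).2 ht
    refine ⟨t, h4, h5, ?_⟩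
    rw [← vcl_eval, ← h3, hks]
    have := (hf1 ω hω).2.le
    rwa [hf₁, mul_one_div] at this
  · intro ω hω t ht1 ht2
    refine (le_wmx ((win_iff hwJ ω t).1 ⟨ht1, ht2⟩)).trans ?_
    have := (hf2 ω hω).1
    rwa [hf₂, mul_one_div] at this
  · intro hlam ω hω
    rcases (hf2 ω hω).2 with hk0 | h1
    · exfalso
      have h2 : s ≤ k₁ * s := Nat.le_mul_of_pos_left _ hk1pos
      rw [hk0, Nat.zero_mul] at hlam
      omega
    · obtain ⟨t, ht, h3⟩ := wmx_mem w (slam F w ω).2.2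
        (hcl (c 2) (H (slam F w ω) 3) (slam F w ω))
      obtain ⟨h4, h5⟩ := (win_iff hwJ ω t).2 ht
      refine ⟨t, h4, h5, ?_⟩
      rw [← h3]
      rw [hf₂, mul_one_div] at h1
      exact h1.le

end Pool.NVX
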