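import Pool.Agent.H39.NV.BoxW
import Pool.Agent.H80.NV.Qf

/-!
# Increments of a visible and of a closed function on the natural box

`box_inc`: the increments of a visible function and of a closed function, against the points of the
own line, are near each other on the natural box, and the visible function is almost constant along
the line in one window; then the visible function is almost constant on the natural box.
-/

set_option autoImplicit false

namespace Pool.NVX

open Finset Real MvPolynomial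
open Pool.Agent.H49.Ent Pool.Agent.H32.Dense Pool.STK Pool.KA Pool.KSAT Pool.K2S Pool.PB Pool.S6C
open Pool.GEN Pool.CHT
open Pool.D2R (dd hs dd_add dd_smul dd_congr)
open Pool.F5 (lp gp der_lp dd_gp deg_gp deg_lp eo bdS bdS_slam eval_lp eval_gp)
open Pool.SHR (dir mvp RelvH Shr slp_cmp dir_sub dir_deg dir_dep)
open Pool.PB.Trl (rt rt_mem t_rt)

variable {m J : ℕ}

/-- **Increments on the natural box**: the increments of the visible function and of the closed
function against the points of the own line are near each other, and the visible function is almost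
constant along the line. The window of the node is `w`, the radius is `a`. -/
theorem box_inc (D Dc r : ℕ) : ∃ C : ℕ, ∀ {m J : ℕ} {F : Fam m J} {c : ℕ → Fin m}
    {i a w e h σ : ℕ} {g Y : ℕ → ℕ} {κ V : ℝ} {B₀ B' : F.Ω → Prop}
    {G : PtT F → ℕ → MvPolynomial (Option (Fin m)) ℝ}
    {H : LnT F → ℕ → MvPolynomial (Option (Fin m)) ℝ}
    {P : PtT F → MvPolynomial (Option (Fin m)) ℝ} {R : LnT F → MvPolynomial (Option (Fin m)) ℝ},
    i < r → Set.InjOn c (Set.Iio i) → RelvH F c i a w g Y D h κ B₀ G → Sub B' B₀ →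
    κ * Pe F.p B₀ ≤ Pe F.p B' → ChOK F c i (fun _ => Dc) a w e g B' G H → 0 < V →
    (∀ y, (P y).totalDegree ≤ D) → (∀ s, (R s).totalDegree ≤ D) → (∀ y, DepC c i (P y)) →
    (∀ s, DepC c i (R s)) →
    (∀ ω, B' ω → ∀ b, NBx c (G (ptr F J ω)) g a (F.t ω) i b →
      |(eval b (P (ptr F J ω)) -
        eval (bt F ω + (b none - F.t ω) • bd F ω) (P (ptr F J ω))) -
        (eval b (R (slam F w ω)) -
          eval (bt F ω + (b none - F.t ω) • bd F ω) (R (slam F w ω)))| ≤ V) →
    (∀ ω, B' ω → ∀ t : ℝ, |t - F.t ω| ≤ 1 / 2 ^ a →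
      |eval (bt F ω + (t - F.t ω) • bd F ω) (P (ptr F J ω)) - eval (bt F ω) (P (ptr F J ω))| ≤
        V) →
    (∀ j < i, Y j ≤ J) → (∀ j < i, e + g j + σ + C ≤ J) → h + C ≤ σ →
    ∃ (B : F.Ω → Prop) (x : PtT F → ℝ), Sub B B' ∧ Pe F.p B' / 2 ≤ Pe F.p B ∧
      (x = fun y => eval (bho J J y) (P y)) ∧
      ∀ ω, B ω → ∀ b, NBx c (G (ptr F J ω)) g a (F.t ω) i b →
        |eval b (P (ptr F J ω)) - x (ptr F J ω)| ≤ 2 ^ (h + C) * V := by
  classical
  obtain ⟨c₃, hscl⟩ := Pool.ISO.scl r D (fun _ => Dc)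
  obtain hcell := fun r' : ℕ => near_cell r' (fun _ => Dc)
  choose c₄ hcell using hcell
  obtain ⟨c₅, hc₅⟩ : ∃ c₅, c₅ = ∑ x ∈ range (r + 1), c₄ x := ⟨_, rfl⟩
  have hc45 : ∀ x ≤ r, c₄ x ≤ c₅ := by
    intro x hx
    rw [hc₅]
    exact Finset.single_le_sum (f := fun x => c₄ x) (fun x _ => Nat.zero_le _)
      (mem_range.2 (Nat.lt_succ_of_le hx))
  refine ⟨c₅ + c₃ + 6, ?_⟩
  intro m J F c i a w e h σ g Y κ V B₀ B' G H P R hi hci hR hB' hP hL hV hPdeg hRdeg hPdep hRdep
    hagr hvar hY hJ hσ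
  obtain ⟨al, hal⟩ : ∃ al : PtT F → ℝ, al = fun p => eval (bho J J p) (P p) := ⟨_, rfl⟩
  obtain ⟨q, hq⟩ : ∃ q : LnT F → Polynomial ℝ, q = fun s => lp (R s) (x0S s) (bdS s) := ⟨_, rfl⟩
  have hqe : ∀ ω t, (q (slam F w ω)).eval t =
      eval (bt F ω + (t - F.t ω) • bd F ω) (R (slam F w ω)) := fun ω t => by
    rw [hq]
    simp only
    rw [eval_lp, pt_slam]
  obtain ⟨ρ, hρ⟩ : ∃ ρ : F.Ω → ℝ, ρ = fun ω =>
      |eval (bt F ω) (P (ptr F J ω)) - al (ptr F J ω)| := ⟨_, rfl⟩
  have hρ0 : ∀ ω, 0 ≤ ρ ω := fun ω => by rw [hρ]; exact abs_nonneg _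
  have hnear : ∀ ω k, |((F.X J ω k : ℤ) : ℝ) / 2 ^ J - F.x ω k| ≤ 1 / 2 ^ J := fun ω k =>
    Pool.PB.Trl.x_near F J ω k
  obtain ⟨B₂, l1, l2, l3⟩ := hR B' hB' hP
    (fun p => P p - C (al p)) (fun s => R s - tpo (q s)) (fun ω => 3 * V + ρ ω)
    (fun ω => bho J J (ptr F J ω))
    (fun p => (totalDegree_sub _ _).trans (max_le (hPdeg p) (by
      rw [totalDegree_C]; exact Nat.zero_le _)))
    (fun s => (totalDegree_sub _ _).trans (max_le (hRdeg s) ((tpo_deg _).trans (by
      rw [hq]; exact deg_lp (hRdeg s) _ _))))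
    (fun p b b' hn hb => by
      rw [map_sub, map_sub, eval_C, eval_C, hPdep p b b' hn hb])
    (fun s b b' hn hb => by
      rw [map_sub, map_sub, tpo_eval, tpo_eval, hRdep s b b' hn hb, hn])
    (fun ω _ => by linarith [hρ0 ω]) (fun ω _ => ⟨rfl, fun j hj => by
      refine (hnear ω (c j)).trans (inv_mono (hY j hj))⟩)
    (fun ω _ => by
      have e1 : eval (bho J J (ptr F J ω)) (P (ptr F J ω) - C (al (ptr F J ω))) = 0 := by
        rw [map_sub, eval_C, hal, sub_self]
      rw [e1, abs_zero]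
      linarith [hρ0 ω])
    (fun ω hω b hb => by
      have h1 := hagr ω hω b hb
      have h3 := hvar ω hω (b none) hb.1
      have h4 : ρ ω = |eval (bt F ω) (P (ptr F J ω)) - al (ptr F J ω)| := by rw [hρ]
      rw [map_sub, map_sub, eval_C, tpo_eval, hqe]
      have e1 : eval b (P (ptr F J ω)) - al (ptr F J ω) -
          (eval b (R (slam F w ω)) -
            eval (bt F ω + (b none - F.t ω) • bd F ω) (R (slam F w ω))) =
          ((eval b (P (ptr F J ω)) -
            eval (bt F ω + (b none - F.t ω) • bd F ω) (P (ptr F J ω))) -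
          (eval b (R (slam F w ω)) -
            eval (bt F ω + (b none - F.t ω) • bd F ω) (R (slam F w ω)))) +
          (eval (bt F ω + (b none - F.t ω) • bd F ω) (P (ptr F J ω)) -
            eval (bt F ω) (P (ptr F J ω))) +
          (eval (bt F ω) (P (ptr F J ω)) - al (ptr F J ω)) := by ring
      rw [e1, h4]
      refine (abs_add_three _ _ _).trans ?_
      linarith)
  -- the value at the sample is near the value at the rounded point
  have hρA : ∀ ω, B₂ ω → ρ ω ≤ 3 * V := by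
    intro ω hω
    have hω' := l1 ω hω
    have hcj := hcell i (x := bt F ω) (v := σ) (e := e) (J := J) (g := g) (a := a)
        (G := G (ptr F J ω)) hci (hL.degG _) (hL.depG _) (fun j hj => hL.pos ω hω' j hj)
        (fun j hj b hb => hL.lip ω hω' j hj b hb) (fun j hj => by
          have h1 := hJ j hj
          have h2 := hc45 i (by omega)
          omega)
    have h2 : ∀ j < i, |(bho J J (ptr F J ω) (some (c j)) -
        eval (bho J J (ptr F J ω)) (G (ptr F J ω) j)) -
        (bt F ω (some (c j)) - eval (bt F ω) (G (ptr F J ω) j))| ≤ 2 ^ 0 / 2 ^ (g j + σ) := by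
      intro j hj
      have h3 := (hcj j (by omega) (bho J J (ptr F J ω)) rfl (fun j _ => hnear ω (c j))).2 hj
      have h4 := hnear ω (c j)
      have h5 : (1 : ℝ) / 2 ^ J ≤ 1 / 4 / 2 ^ (g j + σ) := by
        have h6 := hJ j (by omega)
        have h7 : (2 : ℝ) ^ (g j + σ + 2) ≤ 2 ^ J := pow_le_pow_right₀ (by norm_num) (by omega)
        rw [div_div, div_le_div_iff₀ (by positivity) (by positivity)]
        rw [pow_add] at h7
        linarith
      have e1 : (bho J J (ptr F J ω) (some (c j)) -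
          eval (bho J J (ptr F J ω)) (G (ptr F J ω) j)) -
          (bt F ω (some (c j)) - eval (bt F ω) (G (ptr F J ω) j)) =
          (((F.X J ω (c j) : ℤ) : ℝ) / 2 ^ J - F.x ω (c j)) -
            (eval (bho J J (ptr F J ω)) (G (ptr F J ω) j) -
              eval (bt F ω) (G (ptr F J ω) j)) := by
        have e2 : bho J J (ptr F J ω) (some (c j)) = ((F.X J ω (c j) : ℤ) : ℝ) / 2 ^ J := rfl
        have e3 : bt F ω (some (c j)) = F.x ω (c j) := rfl
        rw [e2, e3]
        ring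
      rw [e1, pow_zero]
      have h6 := abs_sub (((F.X J ω (c j) : ℤ) : ℝ) / 2 ^ J - F.x ω (c j))
        (eval (bho J J (ptr F J ω)) (G (ptr F J ω) j) - eval (bt F ω) (G (ptr F J ω) j))
      have h7 : (1 : ℝ) / 4 / 2 ^ (g j + σ) + 1 / 4 / 2 ^ (g j + σ) ≤ 1 / 2 ^ (g j + σ) := by
        have h8 : (0 : ℝ) < 1 / 2 ^ (g j + σ) := by positivity
        have h9 : (1 : ℝ) / 4 / 2 ^ (g j + σ) = 1 / 2 ^ (g j + σ) / 4 := by ring
        rw [h9]
        linarith
      linarith
    have h3 := hscl (c := c) (i := i) (G := G (ptr F J ω))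
      (Q := P (ptr F J ω) - C (al (ptr F J ω))) (g := g) (a := a) (n := 0) (v := σ)
      (M := 2 ^ h * (3 * V + ρ ω)) (x := bt F ω) (b := bho J J (ptr F J ω)) hi hci (hL.degG _)
      (hL.depG _) (fun b b' hn hb => by
        rw [map_sub, map_sub, eval_C, eval_C, hPdep _ b b' hn hb])
      ((totalDegree_sub _ _).trans (max_le (hPdeg _) (by
        rw [totalDegree_C]; exact Nat.zero_le _)))
      (mul_nonneg (by positivity) (by linarith [hρ0 ω])) (fun b hb => l3 ω hω b hb)
      (fun j hj => hL.pos ω hω' j hj) (Nat.zero_le _) (by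
        show |F.t ω - F.t ω| ≤ _
        rw [sub_self, abs_zero]
        positivity) h2
    have e1 : eval (bho J J (ptr F J ω)) (P (ptr F J ω) - C (al (ptr F J ω))) = 0 := by
      rw [map_sub, eval_C, hal, sub_self]
    have e2 : |eval (bho J J (ptr F J ω)) (P (ptr F J ω) - C (al (ptr F J ω))) -
        eval (bt F ω) (P (ptr F J ω) - C (al (ptr F J ω)))| = ρ ω := by
      rw [e1, zero_sub, abs_neg, map_sub, eval_C, hρ]
    rw [e2] at h3
    have h4 : (2 : ℝ) ^ (c₃ + 0) / 2 ^ σ * (2 ^ h * (3 * V + ρ ω)) ≤ 1 / 2 * (3 * V + ρ ω) := by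
      have h5 : (2 : ℝ) ^ (c₃ + 0) / 2 ^ σ * 2 ^ h ≤ 1 / 2 := by
        rw [div_mul_eq_mul_div, ← pow_add, div_le_div_iff₀ (by positivity) (by norm_num), one_mul,
          ← pow_succ]
        exact pow_le_pow_right₀ (by norm_num) (by omega)
      rw [← mul_assoc]
      exact mul_le_mul_of_nonneg_right h5 (by linarith [hρ0 ω])
    linarith
  refine ⟨B₂, al, l1, l2, hal, fun ω hω b hb => ?_⟩
  have h1 := l3 ω hω b hb
  rw [map_sub, eval_C] at h1
  have h2 := hρA ω hω
  calc |eval b (P (ptr F J ω)) - al (ptr F J ω)| ≤ 2 ^ h * (3 * V + ρ ω) := h1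
    _ ≤ 2 ^ h * (2 ^ 3 * V) := mul_le_mul_of_nonneg_left (by linarith) (by positivity)
    _ = 2 ^ (h + 3) * V := by rw [pow_add]; ring
    _ ≤ _ := mul_le_mul_of_nonneg_right (pow_le_pow_right₀ (by norm_num) (by omega)) hV.le

/-- **The own line in the natural box**, all times of the radius. -/
theorem own_pt (D : ℕ) : ∃ C : ℕ, ∀ {m J : ℕ} {F : Fam m J} {c : ℕ → Fin m} {i a n : ℕ}
    {g : ℕ → ℕ} {B : F.Ω → Prop} {G : PtT F → ℕ → MvPolynomial (Option (Fin m)) ℝ}, a + 1 ≤ J →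
    (∀ y l, (G y l).totalDegree ≤ D) → Pth F c i a n g B G → ∀ ω, B ω → ∀ t : ℝ,
    |t - F.t ω| ≤ 1 / 2 ^ a → ∀ l < i, |(bt F ω + (t - F.t ω) • bd F ω) (some (c l)) -
      eval (bt F ω + (t - F.t ω) • bd F ω) (G (ptr F J ω) l)| ≤ 2 ^ (C + n) / 2 ^ g l := by
  obtain ⟨cW, hwin⟩ := win_box (D + 1)
  refine ⟨cW, ?_⟩
  intro m J F c i a n g B G haJ hdG hpth ω hω t ht l hl
  obtain ⟨P, hP⟩ : ∃ P : MvPolynomial (Option (Fin m)) ℝ, P = X (some (c l)) - G (ptr F J ω) l :=
    ⟨_, rfl⟩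
  have hPe : ∀ t : ℝ, (alg P (slam F a ω)).eval t =
      (bt F ω + (t - F.t ω) • bd F ω) (some (c l)) -
        eval (bt F ω + (t - F.t ω) • bd F ω) (G (ptr F J ω) l) := by
    intro t
    rw [alg_eval, hP, map_sub, eval_X]
  have h1 := hwin (w := a) (K := 2 ^ n / 2 ^ g l) (P := alg P (slam F a ω)) (ω := ω) haJ
    (alg_deg (by
      rw [hP]
      exact (totalDegree_sub _ _).trans (max_le ((totalDegree_X _).le.trans (by omega))
        ((hdG _ _).trans (by omega)))) _) (fun t t1 t2 => by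
      rw [hPe]
      have h3 := hpth ω ω hω hω rfl (2 ^ a * (t - F.t ω)) (by
        have h4 : -(rt F a ω / 2 ^ a) ≤ t - F.t ω := by linarith
        have h5 : -rt F a ω = 2 ^ a * (-(rt F a ω / 2 ^ a)) := by field_simp
        rw [h5]
        exact mul_le_mul_of_nonneg_left h4 (by positivity)) (by
        have h4 : t - F.t ω ≤ (1 - rt F a ω) / 2 ^ a := by linarith
        have h5 : 1 - rt F a ω = 2 ^ a * ((1 - rt F a ω) / 2 ^ a) := by field_simp
        rw [h5]
        exact mul_le_mul_of_nonneg_left h4 (by positivity)) l hl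
      have e1 : bt F ω + (2 ^ a * (t - F.t ω)) • vl F a ω = bt F ω + (t - F.t ω) • bd F ω := by
        unfold vl
        rw [smul_smul]
        congr 2
        field_simp
      rwa [e1] at h3) t ht
  rw [hPe] at h1
  refine h1.trans (le_of_eq ?_)
  rw [pow_add]
  ring

/-- **From the natural box to the own line**. -/
theorem own_dil (D r : ℕ) : ∃ C : ℕ, ∀ {m J : ℕ} {F : Fam m J} {c : ℕ → Fin m} {i a n : ℕ}
    {g : ℕ → ℕ} {B : F.Ω → Prop} {G : PtT F → ℕ → MvPolynomial (Option (Fin m)) ℝ}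
    {Q : MvPolynomial (Option (Fin m)) ℝ} {M : ℝ} {ω : F.Ω}, i < r → a + 1 ≤ J →
    Set.InjOn c (Set.Iio i) → (∀ y l, (G y l).totalDegree ≤ D) → (∀ y l, DepC c l (G y l)) →
    Pth F c i a n g B G → B ω → DepC c i Q → Q.totalDegree ≤ D → 0 ≤ M →
    (∀ b, NBx c (G (ptr F J ω)) g a (F.t ω) i b → |eval b Q| ≤ M) → ∀ t : ℝ,
    |t - F.t ω| ≤ 1 / 2 ^ a →
      |eval (bt F ω + (t - F.t ω) • bd F ω) Q| ≤ 2 ^ (C * (n + 1)) * M := by
  obtain ⟨cO, hown⟩ := own_pt D
  obtain ⟨c₀, D₁, -, hdil⟩ := nbx_dil r (fun _ => D)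
  refine ⟨c₀ + cO * D₁ + D₁, ?_⟩
  intro m J F c i a n g B G Q M ω hi haJ hc hdG hdep hpth hω hQ hQd hM hbox t ht
  have h1 := hdil (c := c) (i := i) (G := G (ptr F J ω)) (Q := Q) (g := g) (a := a)
    (t := F.t ω) (M := M) (cO + n) hi hc (hdG _) (hdep _) hQ hQd hM hbox
    (bt F ω + (t - F.t ω) • bd F ω) (by
      have e1 : (bt F ω + (t - F.t ω) • bd F ω) none = t := by
        show F.t ω + (t - F.t ω) * 1 = t
        ring
      rw [e1]
      exact ht) (hown haJ hdG hpth ω hω t ht)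
  refine h1.trans (mul_le_mul_of_nonneg_right (pow_le_pow_right₀ (by norm_num) ?_) hM)
  have h2 : (c₀ + cO * D₁ + D₁) * (n + 1) = c₀ * (n + 1) + cO * D₁ * (n + 1) + D₁ * (n + 1) := by
    ring
  have h3 : c₀ ≤ c₀ * (n + 1) := Nat.le_mul_of_pos_right _ (by omega)
  have h4 : cO * D₁ ≤ cO * D₁ * (n + 1) := Nat.le_mul_of_pos_right _ (by omega)
  have h5 : (cO + n) * D₁ = cO * D₁ + n * D₁ := by ring
  have h6 : D₁ * (n + 1) = n * D₁ + D₁ := by ring
  rw [h2, h5]
  omega

/-- **The variation along the own line**, all times of the radius. -/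
theorem own_var {F : Fam m J} {a : ℕ} {ω : F.Ω} (P : MvPolynomial (Option (Fin m)) ℝ)
    (V : Option (Fin m) → ℝ) {K₀ : ℝ}
    (hK : ∀ t : ℝ, |t - F.t ω| ≤ 1 / 2 ^ a →
      |hs P (bt F ω + (t - F.t ω) • bd F ω) (bd F ω) V| ≤ K₀) (t : ℝ)
    (ht : |t - F.t ω| ≤ 1 / 2 ^ a) :
    |dd P (bt F ω + (t - F.t ω) • bd F ω) V - dd P (bt F ω) V| ≤ K₀ / 2 ^ a := by
  obtain ⟨s, hs'⟩ : ∃ s, s = slam F a ω := ⟨_, rfl⟩
  obtain ⟨p, hp⟩ : ∃ p, p = lp (gp P V) (x0S s) (bdS s) := ⟨_, rfl⟩
  have hpe : ∀ t : ℝ, p.eval t = dd P (bt F ω + (t - F.t ω) • bd F ω) V := by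
    intro t
    rw [hp, eval_lp, hs', pt_slam, eval_gp]
  have hp0 : p.eval (F.t ω) = dd P (bt F ω) V := by
    rw [hpe, sub_self, zero_smul, add_zero]
  have hint : ∀ t' ∈ Set.uIcc (F.t ω) t, |p.derivative.eval t'| ≤ K₀ := by
    intro t' ht'
    have h3 := hK t' (by
      refine le_trans ?_ ht
      rw [Set.mem_uIcc] at ht'
      rcases ht' with h | h
      · rw [abs_of_nonneg (by linarith [h.1]), abs_of_nonneg (by linarith [h.1, h.2])]
        linarith [h.2]
      · rw [abs_of_nonpos (by linarith [h.2]), abs_of_nonpos (by linarith [h.1, h.2])]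
        linarith [h.1])
    have e3 : p.derivative.eval t' = hs P (bt F ω + (t' - F.t ω) • bd F ω) (bd F ω) V := by
      rw [hp, (der_lp _ _ _ t').1, dd_gp, hs', pt_slam, bdS_slam]
    rwa [e3]
  have hK0 : 0 ≤ K₀ := (abs_nonneg _).trans (hint (F.t ω) Set.left_mem_uIcc)
  have hmv := Convex.norm_image_sub_le_of_norm_hasDerivWithin_le (𝕜 := ℝ) (f := fun t => p.eval t)
    (f' := fun t => p.derivative.eval t) (s := Set.uIcc (F.t ω) t) (C := K₀)
    (fun t _ => (p.hasDerivAt t).hasDerivWithinAt) (fun t ht => hint t ht) (convex_uIcc _ _)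
    Set.left_mem_uIcc Set.right_mem_uIcc
  rw [Real.norm_eq_abs, Real.norm_eq_abs] at hmv
  rw [← hpe, ← hp0]
  refine hmv.trans ?_
  rw [div_eq_mul_one_div]
  exact mul_le_mul_of_nonneg_left ht hK0

/-- The derivative in the direction `v` of a label of `c 3`. -/
theorem dir_three {c : ℕ → Fin m} {P : MvPolynomial (Option (Fin m)) ℝ}
    (hc : Set.InjOn c (Set.Iio 3)) (hP : DepC c 3 P) {v : Fin m → ℝ} (h0 : v (c 0) = 0)
    (h1 : v (c 1) = 1) (x : Option (Fin m) → ℝ) :
    eval x (dir v P) = eval x (pderiv (some (c 1)) P) + v (c 2) *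
      eval x (pderiv (some (c 2)) P) := by
  have h01 := c_ne hc (i := 0) (j := 1) (by norm_num) (by norm_num) (by norm_num)
  have h02 := c_ne hc (i := 0) (j := 2) (by norm_num) (by norm_num) (by norm_num)
  have h12 := c_ne hc (i := 1) (j := 2) (by norm_num) (by norm_num) (by norm_num)
  have e1 : dd P x (vo v) = dd P x (eo (some (c 1)) + v (c 2) • eo (some (c 2))) := by
    refine dd_congr hP x ?_ fun l hl => ?_
    · simp only [Pi.add_apply, Pi.smul_apply, smul_eq_mul]
      show (0 : ℝ) = _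
      unfold eo
      simp
    · simp only [Pi.add_apply, Pi.smul_apply, smul_eq_mul]
      show v (c l) = _
      have : l = 0 ∨ l = 1 ∨ l = 2 := by omega
      unfold eo
      rcases this with rfl | rfl | rfl
      · simp [h01, h02, h0]
      · simp [h12, h1]
      · simp [h12.symm]
  rw [dir_dd, e1, dd_add, dd_smul, dd_eo, dd_eo]

end Pool.NVX
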