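import Pool.Agent.H80.NV.Vr2
import Pool.Agent.H87.GEN.ShrY

/-!
# The derivative of the label of `c 2` from the shear
-/

set_option autoImplicit false

namespace Pool.NVX

open Finset Real MvPolynomial
open Pool.Agent.H49.Ent Pool.Agent.H32.Dense Pool.STK Pool.KA Pool.KSAT Pool.K2S Pool.PB Pool.S6C
open Pool.GEN Pool.CHT
open Pool.D2R (dd hs dd_add dd_smul dd_congr)
open Pool.SHR (dir mvp Shr ShrY markov mvp_none mvp_some)

variable {m J : ℕ}

theorem dd_sub_left (P Q : MvPolynomial (Option (Fin m)) ℝ) (x V : Option (Fin m) → ℝ) :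
    dd (P - Q) x V = dd P x V - dd Q x V := by
  unfold dd
  rw [← Finset.sum_sub_distrib]
  refine Finset.sum_congr rfl fun o _ => ?_
  rw [map_sub, map_sub, sub_mul]

/-- **The derivative of the label from the shear.** -/
theorem der_shr (D : ℕ) (hD : 1 ≤ D) : ∃ C : ℕ, ∀ {m J : ℕ} {F : Fam m J} {c : ℕ → Fin m}
    {a y Y : ℕ} {g : ℕ → ℕ} {G : PtT F → ℕ → MvPolynomial (Option (Fin m)) ℝ}
    {v : PtT F → Fin m → ℝ} {ω : F.Ω}, (∀ y l, (G y l).totalDegree ≤ D) →
    v (ptr F J ω) (c 1) = 1 → ShrY F c a Y g G v y 2 ω →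
    ∀ b, NBx c (G (ptr F J ω)) g a (F.t ω) 2 b →
      |eval b (dir (v (ptr F J ω)) (G (ptr F J ω) 2)) - v (ptr F J ω) (c 2)| ≤
        2 ^ (C + y) * 2 ^ Y / 2 ^ g 2 := by
  obtain ⟨C₁, hC₁, hmar⟩ := markov D
  obtain ⟨k, hk⟩ := pow_unbounded_of_one_lt C₁ (one_lt_two (α := ℝ))
  refine ⟨k, ?_⟩
  intro m J F c a y Y g G v ω hdG h1 hS b hb
  obtain ⟨u, hu⟩ : ∃ u, u = v (ptr F J ω) := ⟨_, rfl⟩
  obtain ⟨Gw, hGw⟩ : ∃ Gw, Gw = G (ptr F J ω) 2 := ⟨_, rfl⟩
  obtain ⟨P, hP⟩ : ∃ P : MvPolynomial (Option (Fin m)) ℝ, P = Gw -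
      (C (u (c 2)) * X (some (c 1)) + C (eval b Gw - u (c 2) * b (some (c 1)))) := ⟨_, rfl⟩
  have hPd : P.totalDegree ≤ D := by
    rw [hP]
    refine (totalDegree_sub _ _).trans (max_le (by rw [hGw]; exact hdG _ 2) ?_)
    refine (totalDegree_add _ _).trans (max_le ?_ (by rw [totalDegree_C]; exact Nat.zero_le _))
    refine (totalDegree_mul _ _).trans ?_
    rw [totalDegree_C, totalDegree_X]
    omega
  have h2 := hmar u b P (2 ^ y / 2 ^ g 2) Y hPd (by positivity) (fun s s0 s1 => by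
    have h3 := hS b hb s (by rw [abs_of_nonneg s0]; exact s1)
    rw [← hu, ← hGw] at h3
    have e1 : eval (mvp u s b) P = eval (mvp u s b) Gw - eval b Gw - s * u (c 2) := by
      rw [hP]
      simp only [map_sub, map_add, map_mul, eval_C, eval_X]
      rw [mvp_some, hu, h1]
      ring
    rw [e1]
    exact h3)
  have e2 : eval b (dir u P) = eval b (dir u Gw) - u (c 2) := by
    rw [dir_dd, dir_dd, hP, dd_sub_left]
    congr 1
    unfold dd
    rw [Finset.sum_eq_single (some (c 1))]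
    · simp only [map_add, Derivation.leibniz, pderiv_C, smul_eq_mul, mul_zero, add_zero,
        pderiv_X_self, mul_one, eval_C]
      show u (c 2) * u (c 1) = u (c 2)
      rw [hu, h1, mul_one]
    · intro o _ ho
      simp only [map_add, Derivation.leibniz, pderiv_C, smul_eq_mul, mul_zero, add_zero]
      rw [pderiv_X_of_ne (Ne.symm ho), mul_zero, map_zero, zero_mul]
    · intro h
      exact absurd (Finset.mem_univ _) h
  rw [e2] at h2
  rw [← hu, ← hGw]
  refine h2.trans ?_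
  rw [pow_add, mul_assoc (2 ^ k : ℝ), mul_div_assoc, mul_div_assoc]
  calc C₁ * (2 ^ y / 2 ^ g 2) * 2 ^ Y = C₁ * (2 ^ y * (2 ^ Y / 2 ^ g 2)) := by ring
    _ ≤ 2 ^ k * (2 ^ y * (2 ^ Y / 2 ^ g 2)) :=
        mul_le_mul_of_nonneg_right hk.le (by positivity)
    _ = _ := by ring

end Pool.NVX
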