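import Pool.Agent.H80.NV.Flat
import Pool.Agent.H80.NV.Shd

/-!
# The two derivatives of the target on the natural box of a node `(a, w)`

`box_uv`: the derivatives of the label of `c 3` in the directions `c 2` and `v = c 1 + σ c 2`.
-/

set_option autoImplicit false

namespace Pool.NVX

open Finset Real MvPolynomial
open Pool.Agent.H49.Ent Pool.Agent.H32.Dense Pool.STK Pool.KA Pool.KSAT Pool.K2S Pool.PB Pool.S6C
open Pool.GEN Pool.CHT
open Pool.D2R (dd hs dd_add dd_smul dd_congr)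
open Pool.F5 (lp gp der_lp dd_gp deg_gp deg_lp eo bdS bdS_slam eval_lp eval_gp)
open Pool.SHR (dir mvp RelvH Shr slp_cmp dir_sub dir_deg dir_dep)
open Pool.PB.Trl (rt rt_mem t_rt)

variable {m J : ℕ}

theorem deg_pd (k : Fin m) {P : MvPolynomial (Option (Fin m)) ℝ} {D : ℕ}
    (hP : P.totalDegree ≤ D) : (pderiv (some k) P).totalDegree ≤ D :=
  Pool.KS3.SML.totalDegree_pderiv_le _ P D (hP.trans (Nat.le_succ _))

/-- **The derivatives in the directions `c 2` and `v`** on the natural box of a node `(a, w)`. -/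
theorem box_uv (D : ℕ) (hD : 1 ≤ D) : ∃ C : ℕ, ∀ {m J : ℕ} {F : Fam m J} {c : ℕ → Fin m}
    {a w e n h y : ℕ} {g Y : ℕ → ℕ} {κ V₁ V₂ : ℝ} {B₀ B' : F.Ω → Prop}
    {G : PtT F → ℕ → MvPolynomial (Option (Fin m)) ℝ}
    {H : LnT F → ℕ → MvPolynomial (Option (Fin m)) ℝ} {v : PtT F → Fin m → ℝ},
    Set.InjOn c (Set.Iio 4) → a + 1 ≤ J → RelvH F c 3 a w g Y (2 * D) h κ B₀ G → Sub B' B₀ →
    0 ≤ κ → κ * 2 * Pe F.p B₀ ≤ Pe F.p B' → ChOK F c 4 (fun _ => D) a w e g B' G H → 0 ≤ V₁ →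
    0 ≤ V₂ → Pth F c 3 a n g B' G →
    (∀ ω, B' ω → v (ptr F J ω) (c 0) = 0 ∧ v (ptr F J ω) (c 1) = 1) →
    (∀ ω, B' ω → Shr F c 1 a g G v y 2 ω) →
    (∀ ω, B' ω → ∀ t : ℝ, F.t ω - rt F a ω / 2 ^ a ≤ t → t ≤ F.t ω + (1 - rt F a ω) / 2 ^ a →
      |(hcl (c 1) (H (slam F w ω) 3) (slam F w ω)).eval t +
        v (ptr F J ω) (c 2) * (hcl (c 2) (H (slam F w ω) 3) (slam F w ω)).eval t| ≤
        2 ^ a * V₁) →
    (∀ ω, B' ω → ∀ t : ℝ, F.t ω - rt F a ω / 2 ^ a ≤ t → t ≤ F.t ω + (1 - rt F a ω) / 2 ^ a →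
      |(hcl (c 2) (H (slam F w ω) 3) (slam F w ω)).eval t| ≤ 2 ^ a * V₂) →
    (∀ j < 3, Y j ≤ J) → (∀ j < 3, e + g j + h + C ≤ J) →
    ∃ (B : F.Ω → Prop) (al₁ al₂ : PtT F → ℝ), Sub B B' ∧ Pe F.p B' / 4 ≤ Pe F.p B ∧
      (∀ ω, B ω → ∀ b, NBx c (G (ptr F J ω)) g a (F.t ω) 3 b →
        |eval b (dir (v (ptr F J ω)) (G (ptr F J ω) 3)) - al₁ (ptr F J ω)| ≤
          2 ^ (C * (n + h + y + 1)) * (2 ^ g 1 / 2 ^ g 3 + V₁ + 2 ^ g 1 / 2 ^ g 2 * V₂)) ∧
      ∀ ω, B ω → ∀ b, NBx c (G (ptr F J ω)) g a (F.t ω) 3 b →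
        |eval b (dir (ek (c 2)) (G (ptr F J ω) 3)) - al₂ (ptr F J ω)| ≤
          2 ^ (C * (n + h + y + 1)) * (2 ^ g 2 / 2 ^ g 3 + V₂) := by
  obtain ⟨cg, hgen⟩ := box_gen (2 * D) D 4
  obtain ⟨ci, hinc⟩ := box_inc (2 * D) D 4
  obtain ⟨cK, hcmp⟩ := slp_cmp D 4
  obtain ⟨cM, hder⟩ := der_shr D hD
  obtain ⟨cL, hdil⟩ := own_dil D 4
  obtain ⟨cW, hwin⟩ := win_box D
  have pw : ∀ {x y : ℕ}, x ≤ y → (2 : ℝ) ^ x ≤ 2 ^ y := fun h => pow_le_pow_right₀ (by norm_num) h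
  obtain ⟨C, hC⟩ : ∃ C, C = 2 * cg + 2 * ci + 4 * cK + 4 * cM + 4 * cL + 2 * cW + 20 := ⟨_, rfl⟩
  refine ⟨C, ?_⟩
  intro m J F c a w e n h y g Y κ V₁ V₂ B₀ B' G H v hc haJ1 hR hB' hκ0 hP hL hV10 hV20 hpth hv01
    hshr hup1 hup2 hYJ hJ
  have haJ : a ≤ J := by omega
  have hcc3 : Set.InjOn c (Set.Iio 3) := hc.mono fun x hx => by
    rw [Set.mem_Iio] at hx ⊢
    omega
  have hcc2 : Set.InjOn c (Set.Iio 2) := hc.mono fun x hx => by
    rw [Set.mem_Iio] at hx ⊢
    omega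
  have hL3 : ChOK F c 3 (fun _ => D) a w e g B' G H :=
    hL.mono (by norm_num) (fun _ => le_rfl) le_rfl le_rfl
  obtain ⟨T₀, hT₀⟩ : ∃ T, T = n + h + y + 1 := ⟨_, rfl⟩
  have hT1 : 1 ≤ T₀ := by omega
  rw [← hT₀]
  have mT : ∀ x : ℕ, x ≤ x * T₀ := fun x => Nat.le_mul_of_pos_right _ hT1
  have hCT : C * T₀ = 2 * (cg * T₀) + 2 * (ci * T₀) + 4 * (cK * T₀) + 4 * (cM * T₀) +
      4 * (cL * T₀) + 2 * (cW * T₀) + 20 * T₀ := by rw [hC]; ring
  have mg := mT cg
  have mi := mT ci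
  have mK := mT cK
  have mM := mT cM
  have mW := mT cW
  have hPe0 := Pe_nonneg F.isLaw B₀
  -- the natural sizes
  obtain ⟨n₁, hn₁⟩ : ∃ x : ℝ, x = 2 ^ g 1 / 2 ^ g 3 := ⟨_, rfl⟩
  obtain ⟨n₂, hn₂⟩ : ∃ x : ℝ, x = 2 ^ g 2 / 2 ^ g 3 := ⟨_, rfl⟩
  obtain ⟨r, hr⟩ : ∃ x : ℝ, x = 2 ^ g 1 / 2 ^ g 2 := ⟨_, rfl⟩
  have hn₁0 : 0 < n₁ := by rw [hn₁]; positivity
  have hn₂0 : 0 < n₂ := by rw [hn₂]; positivity
  have hr0 : 0 < r := by rw [hr]; positivity
  have hrn : r * n₂ = n₁ := by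
    rw [hr, hn₁, hn₂]
    field_simp
  obtain ⟨k, hk⟩ : ∃ k, k = cK * (y + 1) := ⟨_, rfl⟩
  obtain ⟨l, hl⟩ : ∃ l, l = cL * (n + 1) := ⟨_, rfl⟩
  have hkT : k ≤ cK * T₀ := by rw [hk]; exact Nat.mul_le_mul_left _ (by omega)
  have hlT : l ≤ cL * T₀ := by rw [hl]; exact Nat.mul_le_mul_left _ (by omega)
  have hKk : cK ≤ k := by
    rw [hk]
    exact Nat.le_mul_of_pos_right _ (by omega)
  rw [← hn₁, ← hn₂, ← hr]
  -- the direction `c 2`
  obtain ⟨Vu, hVu⟩ : ∃ V : ℝ, V = 2 ^ k * n₂ + 2 ^ cW * V₂ := ⟨_, rfl⟩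
  have hVu0 : 0 < Vu := by
    rw [hVu]
    have : 0 < 2 ^ k * n₂ := by positivity
    have : 0 ≤ 2 ^ cW * V₂ := by positivity
    linarith
  have hAu : ∀ ω, B' ω → ∀ b, NBx c (G (ptr F J ω)) g a (F.t ω) 3 b →
      |eval b (dir (ek (c 2)) (G (ptr F J ω) 3)) - eval b (dir (ek (c 2)) (H (slam F w ω) 3))| ≤
        2 ^ k * n₂ := by
    intro ω hω b hb
    have h1 := hcmp (c := c) (l := 2) (i := 3) (a := a) (k := 0) (y := 0) (p := g 3) (g := g)
      (G := G) (v := fun _ => ek (c 2)) (P := G (ptr F J ω) 3 - H (slam F w ω) 3) (ω := ω)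
      (b := b) (by norm_num) hcc3 hL.degG hL.depG
      (fun b b' hn hb => by
        rw [map_sub, map_sub, hL.depG _ 3 b b' hn hb, hL.depH _ 3 b b' hn hb])
      ((totalDegree_sub _ _).trans (max_le (hL.degG _ 3) (hL.degH _ 3))) (ek_self _)
      (fun j hj => ek_ne (c_ne hcc3 (by omega) (by norm_num) (by omega)))
      (fun j hj hlj => by omega) hb (fun b hb => by
        rw [map_sub, pow_zero]
        exact hL.agr ω hω 3 (by norm_num) b hb)
    rw [dir_sub, map_sub] at h1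
    refine h1.trans ?_
    rw [mul_div_assoc, ← hn₂]
    exact mul_le_mul_of_nonneg_right (pw (by omega)) hn₂0.le
  obtain ⟨B₁, al₂, b1, p1, -, hal2⟩ := hgen (i := 3) (a := a) (w := w) (e := e) (σ := h + cg)
    (V := Vu) (P := fun y => dir (ek (c 2)) (G y 3)) (R := fun s => dir (ek (c 2)) (H s 3))
    (by norm_num) hcc3 hR hB' ((mul_le_mul_of_nonneg_right (by nlinarith) hPe0).trans hP) hL3 hVu0
    (fun y => (dir_deg _ (hL.degG y 3)).trans (by omega))
    (fun s => (dir_deg _ (hL.degH s 3)).trans (by omega))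
    (fun y => dir_dep _ (hL.depG y 3)) (fun s => dir_dep _ (hL.depH s 3))
    (fun ω hω b hb => (hAu ω hω b hb).trans (by
      rw [hVu]
      have : 0 ≤ 2 ^ cW * V₂ := by positivity
      linarith))
    (fun ω hω t ht => by
      have h1 := own_var (a := a) (ω := ω) (H (slam F w ω) 3) (eo (some (c 2)))
        (K₀ := 2 ^ cW * (2 ^ a * V₂)) (fun t ht => by
          have h2 := hwin (w := a) haJ1 (hcl_deg (c 2) (hL.degH (slam F w ω) 3) (slam F w ω))
            (hup2 ω hω) t ht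
          rwa [hcl_eval] at h2) t ht
      simp only [dir_ek]
      rw [dd_eo, dd_eo] at h1
      refine h1.trans ?_
      have e1 : (2 : ℝ) ^ cW * (2 ^ a * V₂) / 2 ^ a = 2 ^ cW * V₂ := by field_simp
      rw [e1, hVu]
      have : 0 < 2 ^ k * n₂ := by positivity
      linarith) hYJ (fun j hj => by
      have := hJ j hj
      omega) le_rfl
  obtain ⟨E₂, hE₂⟩ : ∃ E : ℝ, E = 2 ^ (h + cg) * Vu := ⟨_, rfl⟩
  have hE20 : 0 < E₂ := by rw [hE₂]; positivity
  rw [← hE₂] at hal2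
  -- the direction `v`
  obtain ⟨S, hS⟩ : ∃ S : ℝ, S = 2 ^ l * ((2 ^ (cM + y) + 2 ^ k) * r) := ⟨_, rfl⟩
  have hS0 : 0 ≤ S := by rw [hS]; positivity
  obtain ⟨E₂', hE₂'⟩ : ∃ E : ℝ, E = E₂ + 2 ^ k * n₂ := ⟨_, rfl⟩
  have hE20' : 0 < E₂' := by rw [hE₂']; positivity
  have hA : ∀ ω, B' ω → ∀ b, NBx c (G (ptr F J ω)) g a (F.t ω) 3 b →
      |eval b (dir (v (ptr F J ω)) (G (ptr F J ω) 3 - H (slam F w ω) 3))| ≤ 2 ^ k * n₁ := by
    intro ω hω b hb
    have h1 := hcmp (c := c) (l := 1) (i := 3) (a := a) (k := 0) (y := y) (p := g 3) (g := g)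
      (G := G) (v := v) (P := G (ptr F J ω) 3 - H (slam F w ω) 3) (ω := ω)
      (b := b) (by norm_num) hcc3 hL.degG hL.depG
      (fun b b' hn hb => by
        rw [map_sub, map_sub, hL.depG _ 3 b b' hn hb, hL.depH _ 3 b b' hn hb])
      ((totalDegree_sub _ _).trans (max_le (hL.degG _ 3) (hL.degH _ 3))) (hv01 ω hω).2
      (fun j hj => by
        have : j = 0 := by omega
        subst this
        exact (hv01 ω hω).1) (fun j hj hlj => by
        have : j = 2 := by omega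
        subst this
        exact hshr ω hω) hb (fun b hb => by
        rw [map_sub, pow_zero]
        exact hL.agr ω hω 3 (by norm_num) b hb)
    refine h1.trans ?_
    rw [mul_div_assoc, ← hn₁, zero_add, hk]
  have hAown : ∀ ω, B' ω → ∀ t : ℝ, |t - F.t ω| ≤ 1 / 2 ^ a →
      |eval (bt F ω + (t - F.t ω) • bd F ω)
        (dir (v (ptr F J ω)) (G (ptr F J ω) 3 - H (slam F w ω) 3))| ≤ 2 ^ l * (2 ^ k * n₁) := by
    intro ω hω t ht
    rw [hl]
    exact hdil (c := c) (i := 3) (by norm_num) haJ1 hcc3 hL.degG hL.depG hpth hω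
      (dir_dep _ (fun b b' hn hb => by
        rw [map_sub, map_sub, hL.depG _ 3 b b' hn hb, hL.depH _ 3 b b' hn hb]))
      (dir_deg _ ((totalDegree_sub _ _).trans (max_le (hL.degG _ 3) (hL.degH _ 3))))
      (by positivity) (hA ω hω) t ht
  have hη : ∀ ω, B' ω → ∀ t : ℝ, |t - F.t ω| ≤ 1 / 2 ^ a →
      |eval (bt F ω + (t - F.t ω) • bd F ω) (pderiv (some (c 1)) (H (slam F w ω) 2)) -
        v (ptr F J ω) (c 2)| ≤ S := by
    intro ω hω t ht
    have h1 := hdil (c := c) (i := 2) (a := a) (n := n) (g := g) (B := B') (G := G)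
      (Q := pderiv (some (c 1)) (H (slam F w ω) 2) -
        MvPolynomial.C (v (ptr F J ω) (c 2)))
      (M := (2 ^ (cM + y) + 2 ^ k) * r) (ω := ω) (by norm_num) haJ1 hcc2
      hL.degG hL.depG (hpth.mono (by norm_num) le_rfl) hω
      (fun b b' hn hb => by
        rw [map_sub, map_sub, (hL.depH _ 2).pderiv 1 b b' hn hb, eval_C, eval_C])
      ((totalDegree_sub _ _).trans (max_le (deg_pd (c 1) (hL.degH _ 2))
        (by rw [totalDegree_C]; exact Nat.zero_le _))) (by positivity)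
      (fun b hb => by
        have h2 := hder hL.degG (hv01 ω hω).2 (hshr ω hω) b hb
        have h3 := hcmp (c := c) (l := 1) (i := 2) (a := a) (k := 0) (y := 0) (p := g 2) (g := g)
          (G := G) (v := v) (P := G (ptr F J ω) 2 - H (slam F w ω) 2) (ω := ω)
          (b := b) (by norm_num) hcc2 hL.degG hL.depG
          (fun b b' hn hb => by
            rw [map_sub, map_sub, hL.depG _ 2 b b' hn hb, hL.depH _ 2 b b' hn hb])
          ((totalDegree_sub _ _).trans (max_le (hL.degG _ 2) (hL.degH _ 2))) (hv01 ω hω).2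
          (fun j hj => by
            have : j = 0 := by omega
            subst this
            exact (hv01 ω hω).1) (fun j hj hlj => by omega) hb (fun b hb => by
            rw [map_sub, pow_zero]
            exact hL.agr ω hω 2 (by norm_num) b hb)
        rw [dir_sub, map_sub, dir_two hcc2 (hL.depG _ 2) (hv01 ω hω).1 (hv01 ω hω).2,
          dir_two hcc2 (hL.depH _ 2) (hv01 ω hω).1 (hv01 ω hω).2, mul_div_assoc, ← hr] at h3
        rw [dir_two hcc2 (hL.depG _ 2) (hv01 ω hω).1 (hv01 ω hω).2, mul_div_assoc, ← hr] at h2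
        rw [map_sub, eval_C]
        have e1 : eval b (pderiv (some (c 1)) (H (slam F w ω) 2)) - v (ptr F J ω) (c 2) =
            (eval b (pderiv (some (c 1)) (G (ptr F J ω) 2)) - v (ptr F J ω) (c 2)) -
            (eval b (pderiv (some (c 1)) (G (ptr F J ω) 2)) -
              eval b (pderiv (some (c 1)) (H (slam F w ω) 2))) := by ring
        rw [e1, add_mul]
        refine (abs_sub _ _).trans (add_le_add h2 (h3.trans ?_))
        exact mul_le_mul_of_nonneg_right (pw (by omega)) hr0.le) t ht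
    rw [map_sub, eval_C, ← hl, ← hS] at h1
    exact h1
  have hU : ∀ ω, B₁ ω → ∀ b, NBx c (G (ptr F J ω)) g a (F.t ω) 3 b →
      |eval b (pderiv (some (c 2)) (H (slam F w ω) 3)) - al₂ (ptr F J ω)| ≤ E₂' := by
    intro ω hω b hb
    have h1 := hal2 ω hω b hb
    have h2 := hAu ω (b1 ω hω) b hb
    rw [dir_ek] at h1
    rw [dir_ek, dir_ek] at h2
    have e1 : eval b (pderiv (some (c 2)) (H (slam F w ω) 3)) - al₂ (ptr F J ω) =
        (eval b (pderiv (some (c 2)) (G (ptr F J ω) 3)) - al₂ (ptr F J ω)) -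
        (eval b (pderiv (some (c 2)) (G (ptr F J ω) 3)) -
          eval b (pderiv (some (c 2)) (H (slam F w ω) 3))) := by ring
    rw [e1, hE₂']
    exact (abs_sub _ _).trans (add_le_add h1 h2)
  have hUown : ∀ ω, B₁ ω → ∀ t : ℝ, |t - F.t ω| ≤ 1 / 2 ^ a →
      |eval (bt F ω + (t - F.t ω) • bd F ω) (pderiv (some (c 2)) (H (slam F w ω) 3)) -
        al₂ (ptr F J ω)| ≤ 2 ^ l * E₂' := by
    intro ω hω t ht
    have h1 := hdil (c := c) (i := 3) (a := a) (n := n) (g := g) (B := B') (G := G)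
      (Q := pderiv (some (c 2)) (H (slam F w ω) 3) -
        MvPolynomial.C (al₂ (ptr F J ω)))
      (M := E₂') (ω := ω) (by norm_num) haJ1 hcc3 hL.degG hL.depG hpth (b1 ω hω)
      (fun b b' hn hb => by
        rw [map_sub, map_sub, (hL.depH _ 3).pderiv 2 b b' hn hb, eval_C, eval_C])
      ((totalDegree_sub _ _).trans (max_le (deg_pd (c 2) (hL.degH _ 3))
        (by rw [totalDegree_C]; exact Nat.zero_le _))) hE20'.le
      (fun b hb => by
        rw [map_sub, eval_C]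
        exact hU ω hω b hb) t ht
    rw [map_sub, eval_C, ← hl] at h1
    exact h1
  obtain ⟨Vv, hVv⟩ : ∃ V : ℝ, V = 3 * (2 ^ l * (2 ^ k * n₁)) + 2 * (2 ^ l * (S * E₂')) +
      2 ^ cW * V₁ := ⟨_, rfl⟩
  have hVv0 : 0 < Vv := by
    rw [hVv]
    have : 0 < 3 * (2 ^ l * (2 ^ k * n₁)) := by positivity
    have : 0 ≤ 2 * (2 ^ l * (S * E₂')) := by positivity
    have : 0 ≤ 2 ^ cW * V₁ := by positivity
    linarith
  obtain ⟨R, hR'⟩ : ∃ R : LnT F → MvPolynomial (Option (Fin m)) ℝ, R = fun s =>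
      pderiv (some (c 1)) (H s 3) + tpo (alg (pderiv (some (c 1)) (H s 2)) s) *
        pderiv (some (c 2)) (H s 3) := ⟨_, rfl⟩
  have hPR : ∀ ω, B' ω → ∀ x : Option (Fin m) → ℝ,
      eval x (dir (v (ptr F J ω)) (G (ptr F J ω) 3)) - eval x (R (slam F w ω)) =
      eval x (dir (v (ptr F J ω)) (G (ptr F J ω) 3 - H (slam F w ω) 3)) +
      (v (ptr F J ω) (c 2) - eval (bt F ω + (x none - F.t ω) • bd F ω)
        (pderiv (some (c 1)) (H (slam F w ω) 2))) *
        eval x (pderiv (some (c 2)) (H (slam F w ω) 3)) := by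
    intro ω hω x
    obtain ⟨h0, h1⟩ := hv01 ω hω
    rw [dir_sub, map_sub, dir_three hcc3 (hL.depG _ 3) h0 h1, dir_three hcc3 (hL.depH _ 3) h0 h1,
      hR']
    simp only [map_add, map_mul]
    rw [tpo_eval, alg_eval]
    ring
  obtain ⟨B₂, al₁, b2, p2, -, hal1⟩ := hinc (i := 3) (a := a) (w := w) (e := e) (σ := h + ci)
    (V := Vv) (P := fun y => dir (v y) (G y 3)) (R := R)
    (by norm_num) hcc3 hR (fun ω hω => hB' ω (b1 ω hω)) (by
      have : κ * 2 * Pe F.p B₀ / 2 ≤ Pe F.p B₁ := by linarith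
      refine le_trans (le_of_eq ?_) this
      ring) (hL3.sub b1) hVv0
    (fun y => (dir_deg _ (hL.degG y 3)).trans (by omega))
    (fun s => by
      rw [hR']
      refine (totalDegree_add _ _).trans (max_le ((deg_pd (c 1) (hL.degH s 3)).trans (by omega)) ?_)
      refine (totalDegree_mul _ _).trans ?_
      have e1 := (tpo_deg (m := m) (alg (pderiv (some (c 1)) (H s 2)) s)).trans
        (alg_deg (deg_pd (c 1) (hL.degH s 2)) s)
      have e2 := deg_pd (c 2) (hL.degH s 3)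
      omega)
    (fun y => dir_dep _ (hL.depG y 3))
    (fun s b b' hn hb => by
      rw [hR']
      simp only [map_add, map_mul]
      rw [tpo_eval, tpo_eval, (hL.depH s 3).pderiv 1 b b' hn hb, (hL.depH s 3).pderiv 2 b b' hn hb,
        hn])
    (fun ω hω b hb => by
      have hω' := b1 ω hω
      obtain ⟨x, hx⟩ : ∃ x, x = bt F ω + (b none - F.t ω) • bd F ω := ⟨_, rfl⟩
      have hx0 : x none = b none := by
        rw [hx]
        show F.t ω + (b none - F.t ω) * 1 = b none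
        ring
      have h1 := hPR ω hω' b
      have h2 := hPR ω hω' x
      rw [hx0] at h2
      have h3 := hA ω hω' b hb
      have h4 := hAown ω hω' (b none) hb.1
      have h5 := hη ω hω' (b none) hb.1
      have h6 := hU ω hω b hb
      have h7 := hUown ω hω (b none) hb.1
      rw [← hx] at h1 h2 h4 h5 h7 ⊢
      obtain ⟨η, hη'⟩ : ∃ η, η = eval x (pderiv (some (c 1)) (H (slam F w ω) 2)) := ⟨_, rfl⟩
      obtain ⟨u₁, hu₁⟩ : ∃ u, u = eval b (pderiv (some (c 2)) (H (slam F w ω) 3)) := ⟨_, rfl⟩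
      obtain ⟨u₂, hu₂⟩ : ∃ u, u = eval x (pderiv (some (c 2)) (H (slam F w ω) 3)) := ⟨_, rfl⟩
      rw [← hη', ← hu₁] at h1
      rw [← hη', ← hu₂] at h2
      rw [← hη'] at h5
      rw [← hu₁] at h6
      rw [← hu₂] at h7
      have e1 : (eval b (dir (v (ptr F J ω)) (G (ptr F J ω) 3)) -
          eval x (dir (v (ptr F J ω)) (G (ptr F J ω) 3))) -
          (eval b (R (slam F w ω)) - eval x (R (slam F w ω))) =
          eval b (dir (v (ptr F J ω)) (G (ptr F J ω) 3 - H (slam F w ω) 3)) -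
          eval x (dir (v (ptr F J ω)) (G (ptr F J ω) 3 - H (slam F w ω) 3)) +
          (v (ptr F J ω) (c 2) - η) * ((u₁ - al₂ (ptr F J ω)) - (u₂ - al₂ (ptr F J ω))) := by
        linarith [h1, h2]
      rw [e1]
      have h8 : |(u₁ - al₂ (ptr F J ω)) - (u₂ - al₂ (ptr F J ω))| ≤ 2 * (2 ^ l * E₂') := by
        have e2 : (1 : ℝ) ≤ 2 ^ l := one_le_pow₀ (by norm_num)
        have e3 : E₂' ≤ 2 ^ l * E₂' := le_mul_of_one_le_left hE20'.le e2
        refine (abs_sub _ _).trans ?_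
        linarith
      have h9 : |(v (ptr F J ω) (c 2) - η) * ((u₁ - al₂ (ptr F J ω)) - (u₂ - al₂ (ptr F J ω)))| ≤
          S * (2 * (2 ^ l * E₂')) := by
        rw [abs_mul]
        refine mul_le_mul ?_ h8 (abs_nonneg _) hS0
        rw [abs_sub_comm]
        exact h5
      have h10 : 2 ^ k * n₁ ≤ 2 ^ l * (2 ^ k * n₁) := by
        have e2 : (1 : ℝ) ≤ 2 ^ l := one_le_pow₀ (by norm_num)
        exact le_mul_of_one_le_left (by positivity) e2
      have h11 : 0 < 2 ^ l * (2 ^ k * n₁) := by positivity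
      have h12 : 0 ≤ 2 ^ cW * V₁ := by positivity
      refine (abs_add_le _ _).trans ((add_le_add (abs_sub _ _) h9).trans ?_)
      rw [hVv]
      have e4 : S * (2 * (2 ^ l * E₂')) = 2 * (2 ^ l * (S * E₂')) := by ring
      linarith)
    (fun ω hω t ht => by
      have hω' := b1 ω hω
      have h1 := hAown ω hω' t ht
      have h2 := hAown ω hω' (F.t ω) (by rw [sub_self, abs_zero]; positivity)
      rw [sub_self, zero_smul, add_zero] at h2
      have h3 := own_var (a := a) (ω := ω) (H (slam F w ω) 3) (vo (v (ptr F J ω)))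
        (K₀ := 2 ^ cW * (2 ^ a * V₁)) (fun t ht => by
          obtain ⟨p, hp⟩ : ∃ p, p = hcl (c 1) (H (slam F w ω) 3) (slam F w ω) +
            Polynomial.C (v (ptr F J ω) (c 2)) * hcl (c 2) (H (slam F w ω) 3) (slam F w ω) :=
            ⟨_, rfl⟩
          have hpe : ∀ t : ℝ, p.eval t = (hcl (c 1) (H (slam F w ω) 3) (slam F w ω)).eval t +
              v (ptr F J ω) (c 2) * (hcl (c 2) (H (slam F w ω) 3) (slam F w ω)).eval t := by
            intro t
            rw [hp, Polynomial.eval_add, Polynomial.eval_mul, Polynomial.eval_C]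
          have h4 := hwin (w := a) (P := p) (ω := ω) (K := 2 ^ a * V₁) haJ1 (by
            rw [hp]
            refine (Polynomial.natDegree_add_le _ _).trans (max_le
              (hcl_deg _ (hL.degH _ 3) _) ?_)
            exact (Polynomial.natDegree_C_mul_le _ _).trans (hcl_deg _ (hL.degH _ 3) _))
            (fun t t1 t2 => by
              rw [hpe]
              exact hup1 ω hω' t t1 t2) t ht
          rw [hpe, hcl_eval, hcl_eval] at h4
          rw [hs_three hcc3 (hL.depH _ 3) rfl]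
          have e1 : vo (v (ptr F J ω)) (some (c 0)) = 0 := (hv01 ω hω').1
          have e2 : vo (v (ptr F J ω)) (some (c 1)) = 1 := (hv01 ω hω').2
          have e3 : vo (v (ptr F J ω)) (some (c 2)) = v (ptr F J ω) (c 2) := rfl
          rw [e1, e2, e3, mul_zero, zero_add, mul_one]
          refine le_trans (le_of_eq ?_) h4
          congr 1
          ring) t ht
      rw [← dir_dd, ← dir_dd] at h3
      have e0 : (2 : ℝ) ^ cW * (2 ^ a * V₁) / 2 ^ a = 2 ^ cW * V₁ := by field_simp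
      rw [e0] at h3
      rw [dir_sub, map_sub] at h1 h2
      obtain ⟨x, hx⟩ : ∃ x, x = bt F ω + (t - F.t ω) • bd F ω := ⟨_, rfl⟩
      rw [← hx] at h1 h3 ⊢
      have e1 : eval x (dir (v (ptr F J ω)) (G (ptr F J ω) 3)) -
          eval (bt F ω) (dir (v (ptr F J ω)) (G (ptr F J ω) 3)) =
          (eval x (dir (v (ptr F J ω)) (G (ptr F J ω) 3)) -
            eval x (dir (v (ptr F J ω)) (H (slam F w ω) 3))) -
          (eval (bt F ω) (dir (v (ptr F J ω)) (G (ptr F J ω) 3)) -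
            eval (bt F ω) (dir (v (ptr F J ω)) (H (slam F w ω) 3))) +
          (eval x (dir (v (ptr F J ω)) (H (slam F w ω) 3)) -
            eval (bt F ω) (dir (v (ptr F J ω)) (H (slam F w ω) 3))) := by ring
      rw [e1]
      refine (abs_add_le _ _).trans ((add_le_add (abs_sub _ _) h3).trans ?_)
      rw [hVv]
      have h5 : 0 < 2 ^ l * (2 ^ k * n₁) := by positivity
      have h6 : 0 ≤ 2 * (2 ^ l * (S * E₂')) := by positivity
      linarith) hYJ (fun j hj => by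
      have := hJ j hj
      omega) le_rfl
  refine ⟨B₂, al₁, al₂, fun ω hω => b1 ω (b2 ω hω), by linarith, fun ω hω b hb => ?_,
    fun ω hω b hb => ?_⟩
  · refine (hal1 ω hω b hb).trans ?_
    obtain ⟨x, hx⟩ : ∃ x, x = 2 * l + cM + y + 2 * k + h + cg + cW + 2 := ⟨_, rfl⟩
    have hx0 : (0 : ℝ) < 2 ^ x := by positivity
    have e1 : E₂' ≤ 2 ^ (h + cg + k + cW + 2) * (n₂ + V₂) := by
      have f1 : (2 : ℝ) ^ (h + cg) * (2 ^ k * n₂) ≤ 2 ^ (h + cg + k + cW) * n₂ := by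
        rw [← mul_assoc, ← pow_add]
        exact mul_le_mul_of_nonneg_right (pw (by omega)) hn₂0.le
      have f2 : (2 : ℝ) ^ (h + cg) * (2 ^ cW * V₂) ≤ 2 ^ (h + cg + k + cW) * V₂ := by
        rw [← mul_assoc, ← pow_add]
        exact mul_le_mul_of_nonneg_right (pw (by omega)) hV20
      have f3 : (2 : ℝ) ^ k * n₂ ≤ 2 ^ (h + cg + k + cW) * n₂ :=
        mul_le_mul_of_nonneg_right (pw (by omega)) hn₂0.le
      have f4 : 0 ≤ (2 : ℝ) ^ (h + cg + k + cW) * V₂ := by positivity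
      have f5 : 0 ≤ (2 : ℝ) ^ (h + cg + k + cW) * n₂ := by positivity
      rw [hE₂', hE₂, hVu, mul_add, pow_add 2 (h + cg + k + cW) 2]
      linarith
    have e2 : S ≤ 2 ^ (l + cM + y + k + 1) * r := by
      have f1 : (2 : ℝ) ^ (cM + y) ≤ 2 ^ (cM + y + k) := pw (by omega)
      have f2 : (2 : ℝ) ^ k ≤ 2 ^ (cM + y + k) := pw (by omega)
      have e3 : (2 : ℝ) ^ (l + cM + y + k + 1) * r = 2 ^ l * (2 * 2 ^ (cM + y + k) * r) := by
        rw [show l + cM + y + k + 1 = l + ((cM + y + k) + 1) by omega, pow_add, pow_succ]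
        ring
      rw [hS, e3]
      refine mul_le_mul_of_nonneg_left ?_ (by positivity)
      exact mul_le_mul_of_nonneg_right (by linarith) hr0.le
    have e3 : 2 ^ l * (S * E₂') ≤ 2 ^ (x + 1) * (n₁ + r * V₂) := by
      have f1 : S * E₂' ≤ (2 ^ (l + cM + y + k + 1) * r) *
          (2 ^ (h + cg + k + cW + 2) * (n₂ + V₂)) :=
        mul_le_mul e2 e1 hE20'.le (by positivity)
      calc 2 ^ l * (S * E₂') ≤ 2 ^ l * ((2 ^ (l + cM + y + k + 1) * r) *
            (2 ^ (h + cg + k + cW + 2) * (n₂ + V₂))) :=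
            mul_le_mul_of_nonneg_left f1 (by positivity)
        _ = 2 ^ (l + (l + cM + y + k + 1) + (h + cg + k + cW + 2)) * (r * n₂ + r * V₂) := by
            rw [pow_add, pow_add]
            ring
        _ = _ := by
            rw [hrn, hx]
            congr 2
            omega
    have e4 : 2 ^ l * (2 ^ k * n₁) ≤ 2 ^ (x + 1) * n₁ := by
      rw [← mul_assoc, ← pow_add]
      exact mul_le_mul_of_nonneg_right (pw (by omega)) hn₁0.le
    have e5 : 2 ^ cW * V₁ ≤ 2 ^ (x + 1) * V₁ :=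
      mul_le_mul_of_nonneg_right (pw (by omega)) hV10
    have e6 : Vv ≤ 2 ^ (x + 4) * (n₁ + V₁ + r * V₂) := by
      have f1 : (2 : ℝ) ^ (x + 4) = 8 * 2 ^ (x + 1) := by
        rw [show x + 4 = (x + 1) + 3 by omega, pow_add]
        ring
      have f2 : 0 ≤ (2 : ℝ) ^ (x + 1) * n₁ := by positivity
      have f3 : 0 ≤ (2 : ℝ) ^ (x + 1) * V₁ := by positivity
      have f4 : 0 ≤ (2 : ℝ) ^ (x + 1) * (r * V₂) := by positivity
      rw [hVv, f1]
      have f5 : 8 * (2 : ℝ) ^ (x + 1) * (n₁ + V₁ + r * V₂) = 8 * (2 ^ (x + 1) * n₁) +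
          8 * (2 ^ (x + 1) * V₁) + 8 * (2 ^ (x + 1) * (r * V₂)) := by ring
      rw [f5]
      rw [mul_add] at e3
      linarith
    have f0 : 0 ≤ n₁ + V₁ + r * V₂ := by positivity
    calc 2 ^ (h + ci) * Vv ≤ 2 ^ (h + ci) * (2 ^ (x + 4) * (n₁ + V₁ + r * V₂)) :=
          mul_le_mul_of_nonneg_left e6 (by positivity)
      _ = 2 ^ (h + ci + (x + 4)) * (n₁ + V₁ + r * V₂) := by rw [pow_add]; ring
      _ ≤ _ := mul_le_mul_of_nonneg_right (pw (by omega)) f0
  · refine (hal2 ω (b2 ω hω) b hb).trans ?_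
    rw [hE₂, hVu]
    have f1 : (2 : ℝ) ^ k * n₂ ≤ 2 ^ (k + cW) * n₂ :=
      mul_le_mul_of_nonneg_right (pw (by omega)) hn₂0.le
    have f2 : (2 : ℝ) ^ cW * V₂ ≤ 2 ^ (k + cW) * V₂ :=
      mul_le_mul_of_nonneg_right (pw (by omega)) hV20
    calc (2 : ℝ) ^ (h + cg) * (2 ^ k * n₂ + 2 ^ cW * V₂) ≤
        2 ^ (h + cg) * (2 ^ (k + cW) * (n₂ + V₂)) := by
          refine mul_le_mul_of_nonneg_left ?_ (by positivity)
          rw [mul_add]
          linarith
      _ = 2 ^ (h + cg + (k + cW)) * (n₂ + V₂) := by rw [pow_add]; ring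
      _ ≤ _ := mul_le_mul_of_nonneg_right (pw (by omega)) (by positivity)

end Pool.NVX
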