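import Mathlib

/-!
# The geometric series

`gsr n p₀ p₁`: a polynomial which is near `- p₀ / p₁`.
-/

set_option autoImplicit false

namespace Pool.NVX

open Finset Real

/-- **The geometric series**: a polynomial which is near `- p₀ / p₁`. -/
noncomputable def gsr (n : ℕ) (p₀ p₁ : Polynomial ℝ) : Polynomial ℝ :=
  -(Polynomial.C ((p₁.eval 0)⁻¹) * p₀ * ∑ j ∈ range (n + 1),
    (1 - Polynomial.C ((p₁.eval 0)⁻¹) * p₁) ^ j)

theorem gsr_deg {n D : ℕ} {p₀ p₁ : Polynomial ℝ} (h0 : p₀.natDegree ≤ D) (h1 : p₁.natDegree ≤ D) :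
    (gsr n p₀ p₁).natDegree ≤ D * (n + 1) := by
  unfold gsr
  rw [Polynomial.natDegree_neg]
  refine (Polynomial.natDegree_mul_le).trans ?_
  have e1 : (Polynomial.C ((p₁.eval 0)⁻¹) * p₀).natDegree ≤ D :=
    (Polynomial.natDegree_C_mul_le _ _).trans h0
  have e2 : (∑ j ∈ range (n + 1), (1 - Polynomial.C ((p₁.eval 0)⁻¹) * p₁) ^ j).natDegree ≤
      D * n := by
    refine Polynomial.natDegree_sum_le_of_forall_le _ _ fun j hj => ?_
    refine Polynomial.natDegree_pow_le.trans ?_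
    have hj' : j ≤ n := by
      have := Finset.mem_range.1 hj
      omega
    have e3 : (1 - Polynomial.C ((p₁.eval 0)⁻¹) * p₁).natDegree ≤ D := by
      refine (Polynomial.natDegree_sub_le _ _).trans (max_le ?_ ?_)
      · rw [Polynomial.natDegree_one]
        exact Nat.zero_le _
      · exact (Polynomial.natDegree_C_mul_le _ _).trans h1
    calc j * _ ≤ n * D := Nat.mul_le_mul hj' e3
      _ = D * n := Nat.mul_comm _ _
  calc _ ≤ D + D * n := Nat.add_le_add e1 e2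
    _ = D * (n + 1) := by ring

theorem gsr_eval {n : ℕ} {p₀ p₁ : Polynomial ℝ} (h : p₁.eval 0 ≠ 0) (τ : ℝ) :
    (gsr n p₀ p₁).eval τ * p₁.eval τ + p₀.eval τ =
      p₀.eval τ * ((p₁.eval 0 - p₁.eval τ) / p₁.eval 0) ^ (n + 1) := by
  obtain ⟨q, hq⟩ : ∃ q : ℝ, q = 1 - (p₁.eval 0)⁻¹ * p₁.eval τ := ⟨_, rfl⟩
  have e1 : (gsr n p₀ p₁).eval τ = -((p₁.eval 0)⁻¹ * p₀.eval τ * ∑ j ∈ range (n + 1), q ^ j) := by
    unfold gsr
    simp only [Polynomial.eval_neg, Polynomial.eval_mul, Polynomial.eval_C,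
      Polynomial.eval_finsetSum, Polynomial.eval_pow, Polynomial.eval_sub, Polynomial.eval_one]
    rw [← hq]
  have e2 : (∑ j ∈ range (n + 1), q ^ j) * (1 - q) = 1 - q ^ (n + 1) := by
    have := geom_sum_mul_neg q (n + 1)
    exact this
  have e3 : p₁.eval τ = p₁.eval 0 * (1 - q) := by
    rw [hq]
    field_simp
    ring
  have e4 : (p₁.eval 0 - p₁.eval τ) / p₁.eval 0 = q := by
    rw [e3]
    field_simp
    ring
  rw [e4, e1]
  calc -((p₁.eval 0)⁻¹ * p₀.eval τ * ∑ j ∈ range (n + 1), q ^ j) * p₁.eval τ + p₀.eval τ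
      = p₀.eval τ - p₀.eval τ * ((∑ j ∈ range (n + 1), q ^ j) * (1 - q)) *
        ((p₁.eval 0)⁻¹ * p₁.eval 0) := by rw [e3]; ring
    _ = _ := by
      rw [e2, inv_mul_cancel₀ h]
      ring

/-- **The value of the quotient.** -/
theorem gsr_near {n : ℕ} {p₀ p₁ : Polynomial ℝ} {τ X e R δ : ℝ} (h : p₁.eval 0 ≠ 0)
    (hδ : |p₁.eval τ - p₁.eval 0| ≤ δ * |p₁.eval 0|) (hδ1 : δ ≤ 1 / 2) (hX : |X| ≤ R)
    (he : |p₀.eval τ + p₁.eval τ * X| ≤ e) :
    |X - (gsr n p₀ p₁).eval τ| ≤ 4 * e / |p₁.eval 0| + 4 * R * δ ^ (n + 1) := by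
  have h0 : 0 < |p₁.eval 0| := abs_pos.2 h
  have hδ0 : 0 ≤ δ := by
    by_contra hc
    push Not at hc
    have := mul_neg_of_neg_of_pos hc h0
    linarith [abs_nonneg (p₁.eval τ - p₁.eval 0)]
  have hR0 : 0 ≤ R := (abs_nonneg X).trans hX
  have he0 : 0 ≤ e := (abs_nonneg _).trans he
  have h1 : |p₁.eval 0| / 2 ≤ |p₁.eval τ| := by
    have e1 := abs_sub_abs_le_abs_sub (p₁.eval 0) (p₁.eval τ)
    rw [abs_sub_comm] at e1
    have e2 : δ * |p₁.eval 0| ≤ 1 / 2 * |p₁.eval 0| := mul_le_mul_of_nonneg_right hδ1 h0.le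
    linarith
  have h1' : |p₁.eval τ| ≤ 3 / 2 * |p₁.eval 0| := by
    have e1 := abs_sub_abs_le_abs_sub (p₁.eval τ) (p₁.eval 0)
    have e2 : δ * |p₁.eval 0| ≤ 1 / 2 * |p₁.eval 0| := mul_le_mul_of_nonneg_right hδ1 h0.le
    linarith
  have h2 : |p₀.eval τ| ≤ e + 3 / 2 * |p₁.eval 0| * R := by
    have e1 : p₀.eval τ = (p₀.eval τ + p₁.eval τ * X) - p₁.eval τ * X := by ring
    rw [e1]
    refine (abs_sub _ _).trans (add_le_add he ?_)
    rw [abs_mul]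
    exact mul_le_mul h1' hX (abs_nonneg _) (by positivity)
  have h3 : |((p₁.eval 0 - p₁.eval τ) / p₁.eval 0) ^ (n + 1)| ≤ δ ^ (n + 1) := by
    rw [abs_pow]
    refine pow_le_pow_left₀ (abs_nonneg _) ?_ _
    rw [abs_div, div_le_iff₀ h0, abs_sub_comm]
    exact hδ
  have h4 : (X - (gsr n p₀ p₁).eval τ) * p₁.eval τ = (p₀.eval τ + p₁.eval τ * X) -
      p₀.eval τ * ((p₁.eval 0 - p₁.eval τ) / p₁.eval 0) ^ (n + 1) := by
    rw [← gsr_eval h τ]
    ring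
  have h5 : |X - (gsr n p₀ p₁).eval τ| * |p₁.eval τ| ≤
      e + (e + 3 / 2 * |p₁.eval 0| * R) * δ ^ (n + 1) := by
    rw [← abs_mul, h4]
    refine (abs_sub _ _).trans (add_le_add he ?_)
    rw [abs_mul]
    exact mul_le_mul h2 h3 (abs_nonneg _) (by positivity)
  have h6 : δ ^ (n + 1) ≤ 1 := pow_le_one₀ hδ0 (by linarith)
  have h7 : |X - (gsr n p₀ p₁).eval τ| * (|p₁.eval 0| / 2) ≤
      2 * e + 3 / 2 * |p₁.eval 0| * R * δ ^ (n + 1) := by
    refine (mul_le_mul_of_nonneg_left h1 (abs_nonneg _)).trans (h5.trans ?_)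
    have h8 : e * δ ^ (n + 1) ≤ e * 1 := mul_le_mul_of_nonneg_left h6 he0
    nlinarith
  have h9 : |X - (gsr n p₀ p₁).eval τ| ≤
      (2 * e + 3 / 2 * |p₁.eval 0| * R * δ ^ (n + 1)) / (|p₁.eval 0| / 2) := by
    rw [le_div_iff₀ (by positivity)]
    exact h7
  refine h9.trans (le_trans (le_of_eq (b := 4 * e / |p₁.eval 0| + 3 * R * δ ^ (n + 1)) ?_) ?_)
  · field_simp
    ring
  · have : 0 ≤ R * δ ^ (n + 1) := by positivity
    linarith

end Pool.NVX
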