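import Mathlib

/-!
# Numbers for the family theorem of the variation
-/

set_option autoImplicit false

namespace Pool.NVX

/-- The error of the relation. `σ` is the small factor, `A = 2 ^ a`, `L = 2 ^ lam`, `GN, G0, G1`
the precisions of the target and of the two coordinates in the ball, `Q0, Q1` the ones of the node
`(a, w₂)`, `Z` the deviation of the lines from the plane. -/
theorem two_er {A L GN G0 G1 Q0 Q1 σ Ct Z E er k₀ Y : ℝ} {c : ℕ} (hσ : 2 ≤ σ) (hA : 0 < A)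
    (hL : 0 < L) (hGN : 0 < GN) (hG0 : 0 < G0) (hG1 : 0 < G1) (hQ0 : 0 < Q0) (hQ1 : 0 < Q1)
    (hCt : 1 ≤ Ct) (hZ0 : 0 ≤ Z) (hE : E ≤ σ ^ c * ((G1 + L) / GN)) (hE0 : 0 ≤ E)
    (her : er ≤ A * G0 * (σ ^ c * (1 / GN + Z * E))) (hk₀ : k₀ = A * L / GN / σ / σ)
    (hY : Y = σ ^ c / Q0) (hZ1 : Z ≤ σ ^ c / (Q1 * Ct)) (hZ2 : Z ≤ σ ^ c / (G1 * Ct))
    (hLQ : Q1 * Ct ≤ L) (hG : G0 ≤ Q0 * σ) :
    4 * er / k₀ * Y ≤ 12 * σ ^ (4 * c + 3) / (Q1 * Ct) := by
  have hσ0 : 0 < σ := by linarith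
  have hσ1 : 1 ≤ σ := by linarith
  have hCt0 : 0 < Ct := by linarith
  have hk0 : 0 < k₀ := by rw [hk₀]; positivity
  have hσc : 1 ≤ σ ^ c := one_le_pow₀ hσ1
  have hQC : 0 < Q1 * Ct := mul_pos hQ1 hCt0
  -- Z E GN
  have h1 : Z * E * GN ≤ σ ^ (2 * c) / Ct + σ ^ (2 * c) * L / (Q1 * Ct) := by
    have h2 : Z * E * GN ≤ Z * (σ ^ c * (G1 + L)) := by
      have h3 : E * GN ≤ σ ^ c * (G1 + L) := by
        calc E * GN ≤ σ ^ c * ((G1 + L) / GN) * GN := mul_le_mul_of_nonneg_right hE hGN.le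
          _ = σ ^ c * (G1 + L) := by field_simp
      calc Z * E * GN = Z * (E * GN) := by ring
        _ ≤ _ := mul_le_mul_of_nonneg_left h3 hZ0
    refine h2.trans ?_
    have h4 : Z * (σ ^ c * G1) ≤ σ ^ (2 * c) / Ct := by
      calc Z * (σ ^ c * G1) ≤ σ ^ c / (G1 * Ct) * (σ ^ c * G1) :=
            mul_le_mul_of_nonneg_right hZ2 (by positivity)
        _ = σ ^ (2 * c) / Ct := by
            rw [two_mul, pow_add]
            field_simp
    have h5 : Z * (σ ^ c * L) ≤ σ ^ (2 * c) * L / (Q1 * Ct) := by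
      calc Z * (σ ^ c * L) ≤ σ ^ c / (Q1 * Ct) * (σ ^ c * L) :=
            mul_le_mul_of_nonneg_right hZ1 (by positivity)
        _ = σ ^ (2 * c) * L / (Q1 * Ct) := by
            rw [two_mul, pow_add]
            field_simp
    calc Z * (σ ^ c * (G1 + L)) = Z * (σ ^ c * G1) + Z * (σ ^ c * L) := by ring
      _ ≤ _ := add_le_add h4 h5
  -- the quotient
  have h6 : 4 * er / k₀ * Y ≤ 4 * σ ^ (2 * c + 3) * (1 + Z * E * GN) / L := by
    have h7 : er ≤ A * G0 * (σ ^ c * (1 + Z * E * GN)) / GN := by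
      refine her.trans (le_of_eq ?_)
      field_simp
    have hpos : 0 ≤ 1 + Z * E * GN := by positivity
    calc 4 * er / k₀ * Y ≤ 4 * (A * G0 * (σ ^ c * (1 + Z * E * GN)) / GN) / k₀ * Y := by
          refine mul_le_mul_of_nonneg_right (div_le_div_of_nonneg_right
            (mul_le_mul_of_nonneg_left h7 (by norm_num)) hk0.le) ?_
          rw [hY]
          positivity
      _ = 4 * σ ^ (2 * c + 2) * (1 + Z * E * GN) / L * (G0 / Q0) := by
          rw [hk₀, hY, pow_add, two_mul, pow_add]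
          field_simp
      _ ≤ 4 * σ ^ (2 * c + 2) * (1 + Z * E * GN) / L * σ := by
          refine mul_le_mul_of_nonneg_left ?_ (by positivity)
          rw [div_le_iff₀ hQ0, mul_comm]
          exact hG
      _ = _ := by ring
  refine h6.trans ?_
  have h8 : 1 / L ≤ 1 / (Q1 * Ct) := one_div_le_one_div_of_le hQC hLQ
  have h9 : (1 + Z * E * GN) / L ≤ 3 * σ ^ (2 * c) / (Q1 * Ct) := by
    have hs2 : 1 ≤ σ ^ (2 * c) := one_le_pow₀ hσ1
    calc (1 + Z * E * GN) / L ≤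
        (1 + (σ ^ (2 * c) / Ct + σ ^ (2 * c) * L / (Q1 * Ct))) / L :=
          div_le_div_of_nonneg_right (by linarith) hL.le
      _ = (1 + σ ^ (2 * c) / Ct) * (1 / L) + σ ^ (2 * c) / (Q1 * Ct) := by
          field_simp
          ring
      _ ≤ (1 + σ ^ (2 * c) / Ct) * (1 / (Q1 * Ct)) + σ ^ (2 * c) / (Q1 * Ct) :=
          add_le_add (mul_le_mul_of_nonneg_left h8 (by positivity)) le_rfl
      _ ≤ (σ ^ (2 * c) + σ ^ (2 * c)) * (1 / (Q1 * Ct)) + σ ^ (2 * c) / (Q1 * Ct) := by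
          refine add_le_add (mul_le_mul_of_nonneg_right (add_le_add hs2 ?_) (by positivity)) le_rfl
          exact div_le_self (by positivity) hCt
      _ = _ := by ring
  calc 4 * σ ^ (2 * c + 3) * (1 + Z * E * GN) / L =
      4 * σ ^ (2 * c + 3) * ((1 + Z * E * GN) / L) := by ring
    _ ≤ 4 * σ ^ (2 * c + 3) * (3 * σ ^ (2 * c) / (Q1 * Ct)) :=
        mul_le_mul_of_nonneg_left h9 (by positivity)
    _ = _ := by
        rw [show 4 * c + 3 = (2 * c + 3) + 2 * c by ring, pow_add σ (2 * c + 3) (2 * c)]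
        ring

end Pool.NVX
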