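import Pool.Agent.H80.NV.Wn
import Pool.Agent.H39.NV.Shr2

/-!
# No excess of the derivative of the label of `c 3` in the direction `c 2`

`nv_b`: the family theorem for `c 0, c 1, c 2; c 3`, where `c 1` is static.
-/

set_option autoImplicit false

namespace Pool.NVX

open Finset Real MvPolynomial
open Pool.Agent.H49.Ent Pool.Agent.H32.Dense Pool.STK Pool.KA Pool.KSAT Pool.K2S Pool.PB Pool.S6C
open Pool.GEN Pool.CHT
open Pool.SHR (dir mvp RelvH Shr ShrY relvF_low)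
open Pool.PB.Trl (rt rt_mem t_rt)
open Pool.FLF (Fam.sub)
open Pool.ISO (cwn cwn_slam chOK_win)

variable {m J : ℕ}

/-- **The family theorem for `c 0, c 1, c 2; c 3`**, `c 1` static: no excess of the derivative of the
label of `c 3` in the direction `c 2` along the line. -/
theorem nv_b (m D : ℕ) (hD : 1 ≤ D) : ∃ (C : ℕ) (C₁ : ℝ), 1 ≤ C₁ ∧
    ∀ {J : ℕ} {F : Fam m J} {c : ℕ → Fin m} {a w w₂ a₂ a₃ e E h s lam₁ lam₂ D₂ : ℕ}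
    {gN g g₂ g₃ g₄ Y : ℕ → ℕ} {κ θ : ℝ} {B₀ B : F.Ω → Prop}
    {N T T₂ T₃ T₄ : PtT F → ℕ → MvPolynomial (Option (Fin m)) ℝ}
    {NH TH T₂H T₃H T₄H : LnT F → ℕ → MvPolynomial (Option (Fin m)) ℝ}
    {v : PtT F → Fin m → ℝ} {v' : LnT F → Fin m → ℝ},
    Set.InjOn c (Set.Iio 4) → w ≤ w₂ → w₂ ≤ a → a ≤ a₂ → a₂ ≤ a₃ → a₃ + 1 ≤ J →
    0 < Pe F.p B → Sub B B₀ → ChOK F c 4 (fun _ => D) a w E gN B N NH →
    ChOK F c 3 (fun _ => D) a a e g B₀ T TH → RelvH F c 3 a a g Y D h κ B₀ T →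
    ChOK F c 3 (fun _ => D) a₂ a₂ e g₂ B₀ T₂ T₂H → RelvF F c 3 a₂ a₂ g₂ D h κ B₀ T₂ →
    ChOK F c 2 (fun _ => D) a₃ a₃ e g₃ B₀ T₃ T₃H →
    ChOK F c 3 (fun _ => D) a w₂ e g₄ B₀ T₄ T₄H → RelvF F c 3 a w₂ g₄ D₂ h κ B₀ T₄ →
    D + 2 ≤ D₂ → 0 ≤ κ → κ * 2 ^ C * Pe F.p B₀ ≤ Pe F.p B → κ * 2 ^ C ≤ 1 →
    (∀ (B' : F.Ω → Prop) (hB' : 0 < Pe F.p B'), Sub B' B → Pe F.p B ≤ 2 ^ C * Pe F.p B' →
      (Fam.sub F B' hB').Tm θ) → 0 ≤ θ → C₁ * (θ + 1) ≤ ((J : ℝ) - a₃) * Real.log 2 →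
    C₁ * (θ + 1) ≤ s → h ≤ s → (∀ l < 3, gN l ≤ g l + s) →
    (∀ j < 3, Y j ≤ J) → (∀ l < 4, e + E + gN l + C * (s + 1) ≤ J) →
    (∀ l < 3, e + E + g l + C * (s + 1) ≤ J) → (∀ l < 3, e + g₂ l + C * (s + 1) ≤ J) →
    (∀ l < 2, e + g₃ l + C * (s + 1) ≤ J) → (∀ l < 3, e + g₄ l + C * (s + 1) ≤ J) →
    C * (s + 1) ≤ gN 3 → (∀ ω, B ω → v (ptr F J ω) = v' (slam F a ω)) →
    (∀ ω, B ω → v (ptr F J ω) (c 0) = 0 ∧ v (ptr F J ω) (c 1) = 1) →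
    (∀ ω, B ω → ShrY F c a (g 1) g T v s 2 ω) →
    -- the size of the derivative in the direction `c 2`
    (∀ ω, B ω → ∀ t : ℝ, F.t ω - rt F w ω / 2 ^ w ≤ t → t ≤ F.t ω + (1 - rt F w ω) / 2 ^ w →
      |(hcl (c 2) (NH (slam F w ω) 3) (slam F w ω)).eval t| ≤ 2 ^ (a + lam₂) / 2 ^ gN 3) →
    (∀ ω, B ω → ∃ t : ℝ, F.t ω - rt F w ω / 2 ^ w ≤ t ∧ t ≤ F.t ω + (1 - rt F w ω) / 2 ^ w ∧
      2 ^ (a + lam₂) / 2 ^ gN 3 / 2 ^ s ≤
        |(hcl (c 2) (NH (slam F w ω) 3) (slam F w ω)).eval t|) →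
    -- the size of the derivative in the direction `v`
    (∀ ω, B ω → ∀ t : ℝ, F.t ω - rt F a ω / 2 ^ a ≤ t → t ≤ F.t ω + (1 - rt F a ω) / 2 ^ a →
      |(hcl (c 1) (NH (slam F w ω) 3) (slam F w ω)).eval t +
        v (ptr F J ω) (c 2) * (hcl (c 2) (NH (slam F w ω) 3) (slam F w ω)).eval t| ≤
        2 ^ (a + lam₁) / 2 ^ gN 3) →
    (lam₂ + g 1 < lam₁ + g₄ 2 + C * (s + 1) → ∀ ω, B ω → ∃ t : ℝ,
      F.t ω - rt F a ω / 2 ^ a ≤ t ∧ t ≤ F.t ω + (1 - rt F a ω) / 2 ^ a ∧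
      2 ^ (a + lam₁) / 2 ^ gN 3 / 2 ^ s ≤
        |(hcl (c 1) (NH (slam F w ω) 3) (slam F w ω)).eval t +
        v (ptr F J ω) (c 2) * (hcl (c 2) (NH (slam F w ω) 3) (slam F w ω)).eval t|) →
    -- the numbers
    g₄ 2 + C * (s + 1) ≤ lam₂ → g₄ 2 + C * (s + 1) ≤ g 2 →
    g 1 + a₃ + C * (s + 1) ≤ g₃ 1 + a → g₂ 1 + a₃ + C * (s + 1) ≤ g₃ 1 + a →
    g 2 + a₂ + C * (s + 1) ≤ g₂ 2 + a → w + C * (s + 1) ≤ w₂ →
    g 0 ≤ g₄ 0 + s → g 1 ≤ g₄ 1 + s → g₄ 1 ≤ g 1 + s → False := by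
  classical
  obtain ⟨cR, rR, hrR, hrel⟩ := rel_three m D hD
  obtain ⟨cS, hshr⟩ := shr_two D hD
  obtain ⟨cM, hder⟩ := der_shr D hD
  obtain ⟨rL, hrL, hlow⟩ := low_rem m D
  obtain ⟨cT, htt⟩ := rel3_tt1 D hD
  obtain ⟨cQ, hqe⟩ := rel3_q2 D hD
  have pw : ∀ {x y : ℕ}, x ≤ y → (2 : ℝ) ^ x ≤ 2 ^ y := fun h => pow_le_pow_right₀ (by norm_num) h
  obtain ⟨kk, hkk⟩ : ∃ kk, kk = cQ * (cR + cM + 3 * cS + 6) + 2 * cR + cT + 9 := ⟨_, rfl⟩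
  obtain ⟨C, hC⟩ : ∃ C, C = 3 * kk + 3 * cR + cS + 12 := ⟨_, rfl⟩
  refine ⟨C, rR + rL, by linarith, ?_⟩
  intro J F c a w w₂ a₂ a₃ e E h s lam₁ lam₂ D₂ gN g g₂ g₃ g₄ Y κ θ B₀ B N T T₂ T₃ T₄ NH TH T₂H T₃H
    T₄H v v' hc hw hw2 ha2 ha3 ha3J hPB hB hN hT hRH hT2 hR2 hT3 hT4 hR4 hDD hκ0 hκP hκ1 hTm hθ
    hθJ hθs hhs hgx hYJ hrN hrg hr2 hr3 hr4 hgN3 hvv hv01 hsh hup2 hlo2 hup1 hlo1 n1 n2 n3 n4 n5
    n6 n7 n8 n9
  have ha2J : a₂ ≤ J := by omega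
  have haJ : a ≤ J := by omega
  have hwa : w ≤ a := hw.trans hw2
  obtain ⟨T₀, hT₀⟩ : ∃ T₀, T₀ = s + 1 := ⟨_, rfl⟩
  have hT1 : 1 ≤ T₀ := by omega
  rw [← hT₀] at hrN hrg hr2 hr3 hr4 hgN3 hlo1 n1 n2 n3 n4 n5 n6
  have hCT : C * T₀ = 3 * (kk * T₀) + 3 * (cR * T₀) + cS * T₀ + 12 * T₀ := by rw [hC]; ring
  have mM : cM ≤ cM * T₀ := Nat.le_mul_of_pos_right _ hT1
  have mTt : cT ≤ cT * T₀ := Nat.le_mul_of_pos_right _ hT1
  obtain ⟨K, hK⟩ : ∃ K, K = kk * T₀ := ⟨_, rfl⟩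
  have hkkT : kk * T₀ = cQ * (cR + cM + 3 * cS + 6) * T₀ + 2 * (cR * T₀) + cT * T₀ + 9 * T₀ := by
    rw [hkk]; ring
  have hcc3 : Set.InjOn c (Set.Iio 3) := hc.mono fun x hx => by
    rw [Set.mem_Iio] at hx ⊢
    omega
  have hcc2 : Set.InjOn c (Set.Iio 2) := hc.mono fun x hx => by
    rw [Set.mem_Iio] at hx ⊢
    omega
  -- the shares
  have h2C : (0 : ℝ) < 2 ^ C := by positivity
  have shr : ∀ (k j : ℕ) (B' : F.Ω → Prop), k + j ≤ C → Pe F.p B / 2 ^ k ≤ Pe F.p B' →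
      0 < Pe F.p B' ∧ κ * 2 ^ j * Pe F.p B₀ ≤ Pe F.p B' ∧
      ∀ (B'' : F.Ω → Prop) (hB'' : 0 < Pe F.p B''), Sub B'' B' → Sub B' B →
        Pe F.p B' ≤ 2 ^ j * Pe F.p B'' → (Fam.sub F B'' hB'').Tm θ := by
    intro k j B' hk h1
    have h2 : (0 : ℝ) < 2 ^ k := by positivity
    have h0 : 0 < Pe F.p B' := (div_pos hPB h2).trans_le h1
    refine ⟨h0, ?_, fun B'' hB'' h3 h4 h5 => hTm B'' hB'' (fun ω h => h4 ω (h3 ω h)) ?_⟩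
    · refine le_trans ?_ h1
      rw [le_div_iff₀ h2]
      refine le_trans ?_ hκP
      have e1 : κ * 2 ^ j * Pe F.p B₀ * 2 ^ k = κ * 2 ^ (k + j) * Pe F.p B₀ := by
        rw [pow_add]; ring
      rw [e1]
      exact mul_le_mul_of_nonneg_right (mul_le_mul_of_nonneg_left (pw hk) hκ0)
        (Pe_nonneg F.isLaw B₀)
    · rw [div_le_iff₀ h2] at h1
      calc Pe F.p B ≤ Pe F.p B' * 2 ^ k := h1
        _ ≤ (2 ^ j * Pe F.p B'') * 2 ^ k := mul_le_mul_of_nonneg_right h5 h2.le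
        _ = 2 ^ (k + j) * Pe F.p B'' := by rw [pow_add]; ring
        _ ≤ _ := mul_le_mul_of_nonneg_right (pw hk) hB''.le
  have half : ∀ (k : ℕ) (A A' : F.Ω → Prop), Pe F.p B / 2 ^ k ≤ Pe F.p A →
      Pe F.p A / 2 ≤ Pe F.p A' → Pe F.p B / 2 ^ (k + 1) ≤ Pe F.p A' := by
    intro k A A' h1 h2
    refine le_trans ?_ h2
    rw [pow_succ, ← div_div]
    exact div_le_div_of_nonneg_right h1 (by norm_num)
  have hlog : 0 ≤ Real.log 2 := Real.log_nonneg (by norm_num)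
  have hJa : ((J : ℝ) - a₃) * Real.log 2 ≤ ((J : ℝ) - a) * Real.log 2 := by
    refine mul_le_mul_of_nonneg_right ?_ hlog
    have : (a : ℝ) ≤ a₃ := by exact_mod_cast ha2.trans ha3
    linarith
  have hJw : ((J : ℝ) - a₃) * Real.log 2 ≤ ((J : ℝ) - w) * Real.log 2 := by
    refine mul_le_mul_of_nonneg_right ?_ hlog
    have : (w : ℝ) ≤ a₃ := by exact_mod_cast hwa.trans (ha2.trans ha3)
    linarith
  have hr0 : 0 ≤ θ + 1 := by linarith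
  have hrR' : rR * (θ + 1) ≤ (rR + rL) * (θ + 1) :=
    mul_le_mul_of_nonneg_right (by linarith) hr0
  have hrL' : rL * (θ + 1) ≤ (rR + rL) * (θ + 1) :=
    mul_le_mul_of_nonneg_right (by linarith) hr0
  -- the shear at the node `(a, w₂)`
  have hRF : RelvF F c 3 a a g D h κ B₀ T := hRH.relv
  have q0 : Pe F.p B / 2 ^ 0 ≤ Pe F.p B := by rw [pow_zero, div_one]
  have hT4a : ChOK F c 3 (fun _ => D) a a e g₄ B T₄ (cwn w₂ a T₄H) :=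
    chOK_win (hT4.sub hB) hw2 haJ
  obtain ⟨B₁, b1, p1, -, hsh2⟩ := hshr (q := s) (y := s) (κ' := κ * 2 ^ cS) (v := v) hcc3 hRF
    hT.degG hT.depG hB (shr 0 cS B (by omega) q0).2.1 le_rfl hT4a hv01
  have q1 : Pe F.p B / 2 ^ cS ≤ Pe F.p B₁ := p1
  have hsh4 : ∀ ω, B₁ ω → ShrY F c a (g₄ 1) g₄ T₄ v (cS * (h + s + s + 1)) 2 ω := fun ω hω =>
    hsh2 (g 1) (g₄ 1) le_rfl (by omega) (by omega) (by omega) (by omega) ω hω
      (hsh ω (b1 ω hω))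
  obtain ⟨y, hy⟩ : ∃ y, y = cM + cS * (h + s + s + 1) := ⟨_, rfl⟩
  have hyT : y ≤ cM * T₀ + 3 * (cS * T₀) := by
    have : cS * (h + s + s + 1) ≤ cS * (3 * T₀) := Nat.mul_le_mul_left _ (by omega)
    have e1 : cS * (3 * T₀) = 3 * (cS * T₀) := by ring
    omega
  have hder4 : ∀ ω, B₁ ω → ∀ b, NBx c (T₄ (ptr F J ω)) g₄ a (F.t ω) 2 b →
      |eval b (dir (ek (c 1)) (T₄ (ptr F J ω) 2)) - v (ptr F J ω) (c 2)| ≤
        2 ^ y * 2 ^ g₄ 1 / 2 ^ g₄ 2 := by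
    intro ω hω b hb
    have h1 := hder hT4.degG (hv01 ω (b1 ω hω)).2 (hsh4 ω hω) b hb
    rw [dir_two hcc2 (hT4.depG _ 2) (hv01 ω (b1 ω hω)).1 (hv01 ω (b1 ω hω)).2] at h1
    rw [dir_two hcc2 (hT4.depG _ 2) (ek_ne (c_ne hcc2 (by norm_num) (by norm_num) (by norm_num)))
      (ek_self _), hy]
    exact h1
  -- the lower bound in the direction `c 2`
  have s1 := shr cS (2 * cR + 6) B₁ (by omega) q1
  have hTm1 : (Fam.sub F B₁ s1.1).Tm θ := s1.2.2 B₁ s1.1 (fun _ h => h) b1 (by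
    have : (1 : ℝ) ≤ 2 ^ (2 * cR + 6) := one_le_pow₀ (by norm_num)
    nlinarith [s1.1])
  obtain ⟨B₂, b2, p2, hL2⟩ := hlow (w := w) (s := s) s1.1
    (fun s => hcl (c 2) (NH s 3) s) (fun _ => 2 ^ (a + lam₂) / 2 ^ gN 3 / 2 ^ s)
    (hwa.trans haJ) (fun s => hcl_deg _ (hN.degH s 3) s) hTm1 hθ
    ((hrL'.trans hθJ).trans hJw) (hrL'.trans hθs) (fun ω hω => ⟨by positivity, hlo2 ω (b1 ω hω)⟩)
  have q2 := half cS B₁ B₂ q1 p2
  have sb2 : Sub B₂ B := fun ω h => b1 ω (b2 ω h)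
  -- a common tail
  have tail : ∀ (k : ℕ) (B₃ : F.Ω → Prop), k ≤ cS + 3 → Pe F.p B / 2 ^ k ≤ Pe F.p B₃ →
      Sub B₃ B → ∃ (A B' : F.Ω → Prop) (X : PtT F → Option (Fin m) → ℝ) (ν₀ : PtT F → F.Ω),
      Sub A B₃ ∧ Sub B' A ∧ κ * Pe F.p B₀ ≤ Pe F.p B' ∧ 0 < Pe F.p B' ∧
      Rel3 F c a w e ((cR + 1) * T₀) K lam₁ lam₂ D h g gN g₄ A B' T T₄ NH v X ν₀ := by
    intro k B₃ hk h1 h2
    have s3 := shr k cR B₃ (by omega) h1
    obtain ⟨A, B', X, ν₀, k1, k2, k3, k4⟩ := hrel (a := a) (w := w) (w₂ := w₂) (a₂ := a₂)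
      (a₃ := a₃) (e := e) (E := E) (h := h) (s := s) (p := K) (lam₁ := lam₁) (lam₂ := lam₂)
      (gN := gN) (g := g) (g₂ := g₂) (g₃ := g₃) (g₄ := g₄) (Y := Y) (κ := κ) (θ := θ) (B₀ := B₀)
      (B := B₃) (N := N) (T := T) (T₂ := T₂) (T₃ := T₃) (T₄ := T₄) (NH := NH) (v := v) (v' := v')
      hc hwa hw2 ha2 ha3 (by omega) s3.1 (fun ω h => hB ω (h2 ω h)) (hN.sub h2) hT hRH hT2 hR2 hT3
      hT4 hκ0 s3.2.1 ((mul_le_mul_of_nonneg_left (pw (by omega)) hκ0).trans hκ1)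
      (fun B'' hB'' h3 h4 => s3.2.2 B'' hB'' h3 h2 h4) hθ (hrR'.trans hθJ) (hrR'.trans hθs) hhs
      hgx hYJ (fun l hl => by have := hrN l hl; rw [← hT₀]; omega)
      (fun l hl => by have := hrg l hl; rw [← hT₀]; omega)
      (fun l hl => by have := hr2 l hl; rw [← hT₀]; omega)
      (fun l hl => by have := hr3 l hl; rw [← hT₀]; omega)
      (fun l hl => by have := hr4 l hl; rw [← hT₀]; omega) (by rw [← hT₀]; omega)
      (fun ω h => hvv ω (h2 ω h)) (fun ω h => hv01 ω (h2 ω h)) (fun ω h => hsh ω (h2 ω h))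
      (fun ω h => hup1 ω (h2 ω h)) (fun ω h t t1 t2 => by
        obtain ⟨t3, t4⟩ := win_sub hwa haJ ω t1 t2
        exact hup2 ω (h2 ω h) t t3 t4) (by rw [← hT₀, hK]; omega) (by rw [← hT₀, hK]; omega)
      (by rw [← hT₀, hK]; omega)
    have h4 : Pe F.p B / 2 ^ (k + cR) ≤ Pe F.p B' := by
      refine le_trans ?_ k3
      rw [pow_add, ← div_div]
      exact div_le_div_of_nonneg_right h1 (by positivity)
    have s4 := shr (k + cR) 0 B' (by omega) h4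
    refine ⟨A, B', X, ν₀, k1, k2, ?_, s4.1, k4.mono (by rw [← hT₀, Nat.add_mul]; omega)⟩
    have := s4.2.1
    rwa [pow_zero, mul_one] at this
  have hrm : ∀ l < 3, e + g l + 2 * ((cR + 1) * T₀) + h + 4 ≤ J := by
    intro l hl
    have h1 := hrg l hl
    have e1 : (cR + 1) * T₀ = cR * T₀ + T₀ := by ring
    omega
  have eR : (cR + 1) * T₀ = cR * T₀ + T₀ := by ring
  have hKq : cQ * ((cR + 1) * T₀ + h + y + (s + s) + 1) ≤ K := by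
    have h1 : cQ * ((cR + 1) * T₀ + h + y + (s + s) + 1) ≤ cQ * ((cR + cM + 3 * cS + 6) * T₀) := by
      refine Nat.mul_le_mul_left _ ?_
      have e1 : (cR + cM + 3 * cS + 6) * T₀ = cR * T₀ + cM * T₀ + 3 * (cS * T₀) + 6 * T₀ := by ring
      rw [e1, eR]
      omega
    rw [← Nat.mul_assoc] at h1
    rw [hK]
    omega
  have hKt : 2 * ((cR + 1) * T₀) + (s + s) + h + cT ≤ K := by
    rw [hK, eR]
    omega
  have hKC : 3 * K ≤ C * T₀ := by rw [hK]; omega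
  have hTK : 9 * T₀ ≤ K := by rw [hK]; omega
  by_cases hcase : lam₁ + g₄ 2 + K + s ≤ lam₂ + g 1
  · -- the quotient end
    obtain ⟨A, B', X, ν₀, k1, k2, k3, k4, H⟩ := tail (cS + 1) B₂ (by omega) q2 sb2
    refine hqe (x := s + s) (y := y) (K := K) (D₂ := D₂) (κ := κ) (B₀ := B₀) H hw hw2
      (by omega) hcc3 hR4 hT4 hDD (fun ω h => hB ω (sb2 ω (k1 ω h))) k2 k3 k4
      (fun s => hN.degH s 3) (fun ω h b hb => hder4 ω (b2 ω (k1 ω (k2 ω h))) b hb)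
      (fun ω h => ?_) (fun ω h => hup2 ω (sb2 ω (k1 ω (k2 ω h))))
      (fun ω h => hup1 ω (sb2 ω (k1 ω (k2 ω h)))) (by omega) (by omega) (by omega) (by omega)
      (by omega) (by omega) le_rfl (by omega) hKq hrm
    have h1 := hL2 ω (k1 ω (k2 ω h))
    rw [pow_add 2 s s, ← div_div]
    exact h1
  · -- the end with two times
    have hlo1' := hlo1 (by omega)
    obtain ⟨co, hco⟩ : ∃ co : LnT F → LnT F, co = fun s => (s.1, s.2.1, s.2.2 / 2 ^ (a - w)) :=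
      ⟨_, rfl⟩
    have hcs : ∀ ω, co (slam F a ω) = slam F w ω := fun ω => by
      rw [hco]
      exact slam_coarse' F hwa haJ ω
    obtain ⟨P, hP⟩ : ∃ P : LnT F → Polynomial ℝ, P = fun s => hcl (c 1) (NH (co s) 3) (co s) +
        Polynomial.C (v' s (c 2)) * hcl (c 2) (NH (co s) 3) (co s) := ⟨_, rfl⟩
    have hPd : ∀ s, (P s).natDegree ≤ D := fun s => by
      rw [hP]
      refine (Polynomial.natDegree_add_le _ _).trans (max_le (hcl_deg _ (hN.degH _ 3) _) ?_)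
      exact (Polynomial.natDegree_C_mul_le _ _).trans (hcl_deg _ (hN.degH _ 3) _)
    have hPe : ∀ ω, B ω → ∀ t, (P (slam F a ω)).eval t =
        (hcl (c 1) (NH (slam F w ω) 3) (slam F w ω)).eval t +
        v (ptr F J ω) (c 2) * (hcl (c 2) (NH (slam F w ω) 3) (slam F w ω)).eval t := by
      intro ω hω t
      rw [hP, hvv ω hω]
      simp only [Polynomial.eval_add, Polynomial.eval_mul, Polynomial.eval_C]
      rw [hcs]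
    have s2 := shr (cS + 1) (2 * cR + 6) B₂ (by omega) q2
    have hTm2 : (Fam.sub F B₂ s2.1).Tm θ := s2.2.2 B₂ s2.1 (fun _ h => h) sb2 (by
      have : (1 : ℝ) ≤ 2 ^ (2 * cR + 6) := one_le_pow₀ (by norm_num)
      nlinarith [s2.1])
    obtain ⟨B₃, b3, p3, hL1⟩ := hlow (w := a) (s := s) s2.1 P
      (fun _ => 2 ^ (a + lam₁) / 2 ^ gN 3 / 2 ^ s) haJ hPd hTm2 hθ
      ((hrL'.trans hθJ).trans hJa) (hrL'.trans hθs) (fun ω hω => ⟨by positivity, by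
        obtain ⟨t, t1, t2, t3⟩ := hlo1' ω (sb2 ω hω)
        refine ⟨t, t1, t2, ?_⟩
        rw [hPe ω (sb2 ω hω)]
        exact t3⟩)
    have q3 := half (cS + 1) B₂ B₃ q2 p3
    have sb3 : Sub B₃ B := fun ω h => sb2 ω (b3 ω h)
    obtain ⟨A, B', X, ν₀, k1, k2, k3, k4, H⟩ := tail (cS + 1 + 1) B₃ (by omega) q3 sb3
    refine htt (x := s + s) (K := K) (κ := κ) (B₀ := B₀) (v' := v') H hwa haJ hcc3 hRF hT
      (fun ω h => hB ω (sb3 ω (k1 ω h))) k2 k3 k4 (fun ω h => hvv ω (sb3 ω (k1 ω (k2 ω h))))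
      (fun ω h => ?_) (fun ω h => ?_) (by omega) (by omega) le_rfl hKt
      (fun l hl => by have := hrm l hl; omega)
    · have h1 := hL1 ω (k1 ω (k2 ω h))
      rw [hPe ω (sb3 ω (k1 ω (k2 ω h)))] at h1
      rw [pow_add 2 s s, ← div_div]
      exact h1
    · exact hup2 ω (sb3 ω (k1 ω (k2 ω h))) _ (win_self F w ω).1 (win_self F w ω).2

end Pool.NVX
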