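import Pool.Agent.H80.NV.StN
import Pool.Agent.H39.NV.Shr2

/-!
# No excess of the derivative of the label of `c 3` in the direction `c 1`

`nv_c`: the family theorem for `c 0, c 1, c 2; c 3`, where `c 2` is static.
-/

set_option autoImplicit false

namespace Pool.NVX

open Finset Real MvPolynomial
open Pool.Agent.H49.Ent Pool.Agent.H32.Dense Pool.STK Pool.KA Pool.KSAT Pool.K2S Pool.PB Pool.S6C
open Pool.GEN Pool.CHT
open Pool.SHR (dir mvp RelvH Shr ShrY relvF_low lab_near)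
open Pool.PB.Trl (rt rt_mem t_rt)
open Pool.FLF (Fam.sub)
open Pool.ISO (cwn cwn_slam chOK_win)

variable {m J : ℕ}

/-- **The family theorem for `c 0, c 1, c 2; c 3`**, `c 2` static: no excess of the derivative of the
label of `c 3` in the direction `v = c 1 + v₂ c 2` along the line. -/
theorem nv_c (m D : ℕ) (hD : 1 ≤ D) : ∃ (C : ℕ) (C₁ : ℝ), 1 ≤ C₁ ∧
    ∀ {J : ℕ} {F : Fam m J} {c : ℕ → Fin m} {a w w₂ a₂ a₃ e E h s lam₁ lam₂ D₂ U Un : ℕ}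
    {gN g g₂ g₃ g₄ Y : ℕ → ℕ} {κ θ : ℝ} {B₀ B : F.Ω → Prop}
    {N T T₂ T₃ T₄ : PtT F → ℕ → MvPolynomial (Option (Fin m)) ℝ}
    {NH TH T₂H T₃H T₄H : LnT F → ℕ → MvPolynomial (Option (Fin m)) ℝ}
    {v : PtT F → Fin m → ℝ} {v' : LnT F → Fin m → ℝ},
    Set.InjOn c (Set.Iio 4) → w ≤ w₂ → w₂ ≤ a → a ≤ a₂ → a₂ ≤ a₃ → a₃ + 1 ≤ J →
    0 < Pe F.p B → Sub B B₀ → ChOK F c 4 (fun _ => D) a w E gN B N NH →
    ChOK F c 3 (fun _ => D) a a e g B₀ T TH → RelvH F c 3 a a g Y D h κ B₀ T →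
    ChOK F c 3 (fun _ => D) a₂ a₂ e g₂ B₀ T₂ T₂H → RelvF F c 3 a₂ a₂ g₂ D h κ B₀ T₂ →
    ChOK F c 2 (fun _ => D) a₃ a₃ e g₃ B₀ T₃ T₃H →
    ChOK F c 3 (fun _ => D) a w₂ e g₄ B₀ T₄ T₄H → RelvF F c 2 a w₂ g₄ D₂ h κ B₀ T₄ →
    2 * D + 2 ≤ D₂ → 0 ≤ κ → κ * 2 ^ C * Pe F.p B₀ ≤ Pe F.p B → κ * 2 ^ C ≤ 1 →
    (∀ (B' : F.Ω → Prop) (hB' : 0 < Pe F.p B'), Sub B' B → Pe F.p B ≤ 2 ^ C * Pe F.p B' →
      (Fam.sub F B' hB').Tm θ) → 0 ≤ θ → C₁ * (θ + 1) ≤ ((J : ℝ) - a₃) * Real.log 2 →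
    C₁ * (θ + 1) ≤ s → h ≤ s → (∀ l < 3, gN l ≤ g l + s) →
    (∀ j < 3, Y j ≤ J) → (∀ l < 4, e + E + gN l + C * (s + 1) ≤ J) →
    (∀ l < 3, e + E + g l + C * (s + 1) ≤ J) → (∀ l < 3, e + g₂ l + C * (s + 1) ≤ J) →
    (∀ l < 2, e + g₃ l + C * (s + 1) ≤ J) → (∀ l < 3, e + g₄ l + C * (s + 1) ≤ J) →
    C * (s + 1) ≤ gN 3 → (∀ ω, B ω → v (ptr F J ω) = v' (slam F w ω)) →
    (∀ ω, B ω → v (ptr F J ω) (c 0) = 0 ∧ v (ptr F J ω) (c 1) = 1) →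
    (∀ ω, B ω → ShrY F c a Un gN N v s 2 ω) →
    -- the size of the derivative in the direction `v`
    (∀ ω, B ω → ∀ t : ℝ, F.t ω - rt F w ω / 2 ^ w ≤ t → t ≤ F.t ω + (1 - rt F w ω) / 2 ^ w →
      |(hcl (c 1) (NH (slam F w ω) 3) (slam F w ω)).eval t +
        v (ptr F J ω) (c 2) * (hcl (c 2) (NH (slam F w ω) 3) (slam F w ω)).eval t| ≤
        2 ^ (a + lam₁) / 2 ^ gN 3) →
    (∀ ω, B ω → ∃ t : ℝ, F.t ω - rt F w ω / 2 ^ w ≤ t ∧ t ≤ F.t ω + (1 - rt F w ω) / 2 ^ w ∧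
      2 ^ (a + lam₁) / 2 ^ gN 3 / 2 ^ s ≤
        |(hcl (c 1) (NH (slam F w ω) 3) (slam F w ω)).eval t +
        v (ptr F J ω) (c 2) * (hcl (c 2) (NH (slam F w ω) 3) (slam F w ω)).eval t|) →
    -- the size of the derivative in the direction `c 2`
    (∀ ω, B ω → ∀ t : ℝ, F.t ω - rt F w ω / 2 ^ w ≤ t → t ≤ F.t ω + (1 - rt F w ω) / 2 ^ w →
      |(hcl (c 2) (NH (slam F w ω) 3) (slam F w ω)).eval t| ≤ 2 ^ (a + lam₂) / 2 ^ gN 3) →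
    (lam₁ + g 2 < lam₂ + U + C * (s + 1) → ∀ ω, B ω → ∃ t : ℝ,
      F.t ω - rt F w ω / 2 ^ w ≤ t ∧ t ≤ F.t ω + (1 - rt F w ω) / 2 ^ w ∧
      2 ^ (a + lam₂) / 2 ^ gN 3 / 2 ^ s ≤
        |(hcl (c 2) (NH (slam F w ω) 3) (slam F w ω)).eval t|) →
    -- the numbers
    gN 1 ≤ Un → Un ≤ U → g₄ 1 ≤ U → U + C * (s + 1) ≤ lam₁ → U + C * (s + 1) ≤ g 1 →
    g 2 ≤ gN 2 + s → g 1 + a₃ + C * (s + 1) ≤ g₃ 1 + a →
    g₂ 1 + a₃ + C * (s + 1) ≤ g₃ 1 + a → g 2 + a₂ + C * (s + 1) ≤ g₂ 2 + a →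
    w + C * (s + 1) ≤ w₂ → g 0 ≤ g₄ 0 + s → False := by
  classical
  obtain ⟨cR, rR, hrR, hrel⟩ := rel_three m D hD
  obtain ⟨cS, hshr⟩ := shr_two D hD
  obtain ⟨cL, hnear⟩ := lab_near D 3 hD
  obtain ⟨rL, hrL, hlow⟩ := low_rem m D
  obtain ⟨cT, htt⟩ := rel3_tt2 D hD
  obtain ⟨cQ, hqe⟩ := rel3_q1 D hD
  obtain ⟨cN, hstn⟩ := st_node D
  obtain ⟨cW, rW, hrW, hslw⟩ := slp_win m D hD
  have pw : ∀ {x y : ℕ}, x ≤ y → (2 : ℝ) ^ x ≤ 2 ^ y := fun h => pow_le_pow_right₀ (by norm_num) h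
  obtain ⟨nn, hnn⟩ : ∃ nn, nn = cR * (3 * cS + 1) + 1 := ⟨_, rfl⟩
  obtain ⟨k', hk'⟩ : ∃ k', k' = cN * (nn + cL + 1) + cW + 3 := ⟨_, rfl⟩
  obtain ⟨kk, hkk⟩ : ∃ kk, kk = cQ * (nn + k' + 3) + 2 * nn + cT + 5 := ⟨_, rfl⟩
  obtain ⟨C, hC⟩ : ∃ C, C = 3 * kk + 3 * nn + cS + cR + 20 := ⟨_, rfl⟩
  refine ⟨C, rR + rL + rW, by linarith, ?_⟩
  intro J F c a w w₂ a₂ a₃ e E h s lam₁ lam₂ D₂ U Un gN g g₂ g₃ g₄ Y κ θ B₀ B N T T₂ T₃ T₄ NH TH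
    T₂H T₃H T₄H v v' hc hw hw2 ha2 ha3 ha3J hPB hB hN hT hRH hT2 hR2 hT3 hT4 hR4 hDD hκ0 hκP hκ1
    hTm hθ hθJ hθs hhs hgx hYJ hrN hrg hr2 hr3 hr4 hgN3 hvv hv01 hsh hup1 hlo1 hup2 hlo2 n1 n2 n3
    n4 n5 n6 n7 n8 n9 n10 n11
  have ha2J : a₂ ≤ J := by omega
  have haJ : a ≤ J := by omega
  have hwa : w ≤ a := hw.trans hw2
  have hwJ : w ≤ J := hwa.trans haJ
  obtain ⟨T₀, hT₀⟩ : ∃ T₀, T₀ = s + 1 := ⟨_, rfl⟩
  have hT1 : 1 ≤ T₀ := by omega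
  rw [← hT₀] at hrN hrg hr2 hr3 hr4 hgN3 hlo2 n4 n5 n7 n8 n9 n10
  obtain ⟨s', hs'⟩ : ∃ s', s' = cS * (h + s + s + 1) + s := ⟨_, rfl⟩
  have hs'T : s' + 1 ≤ (3 * cS + 1) * T₀ := by
    have h1 : cS * (h + s + s + 1) ≤ cS * (3 * T₀) := Nat.mul_le_mul_left _ (by omega)
    have e1 : (3 * cS + 1) * T₀ = cS * (3 * T₀) + T₀ := by ring
    omega
  have hss' : s ≤ s' := by omega
  obtain ⟨n, hn⟩ : ∃ n, n = cR * (s' + 1) + T₀ := ⟨_, rfl⟩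
  have hnT : n ≤ nn * T₀ := by
    have h1 : cR * (s' + 1) ≤ cR * ((3 * cS + 1) * T₀) := Nat.mul_le_mul_left _ hs'T
    have e1 : nn * T₀ = cR * ((3 * cS + 1) * T₀) + T₀ := by rw [hnn]; ring
    omega
  obtain ⟨q, hq⟩ : ∃ q, q = cL * (h + 1) := ⟨_, rfl⟩
  have hqT : q ≤ cL * T₀ := by
    rw [hq]
    exact Nat.mul_le_mul_left _ (by omega)
  obtain ⟨k, hk⟩ : ∃ k, k = cN * (n + q + s + 1) + cW + 3 * s := ⟨_, rfl⟩
  have mW : cW ≤ cW * T₀ := Nat.le_mul_of_pos_right _ hT1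
  have mTt : cT ≤ cT * T₀ := Nat.le_mul_of_pos_right _ hT1
  have hkT : k ≤ k' * T₀ := by
    have h1 : cN * (n + q + s + 1) ≤ cN * ((nn + cL + 1) * T₀) := by
      refine Nat.mul_le_mul_left _ ?_
      have e1 : (nn + cL + 1) * T₀ = nn * T₀ + cL * T₀ + T₀ := by ring
      omega
    have e1 : k' * T₀ = cN * ((nn + cL + 1) * T₀) + cW * T₀ + 3 * T₀ := by rw [hk']; ring
    omega
  obtain ⟨K, hK⟩ : ∃ K, K = kk * T₀ := ⟨_, rfl⟩
  have hKe : K = cQ * ((nn + k' + 3) * T₀) + 2 * (nn * T₀) + cT * T₀ + 5 * T₀ := by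
    rw [hK, hkk]; ring
  have hKq : cQ * (n + h + k + (s + s) + 1) ≤ K := by
    have h1 : cQ * (n + h + k + (s + s) + 1) ≤ cQ * ((nn + k' + 3) * T₀) := by
      refine Nat.mul_le_mul_left _ ?_
      have e1 : (nn + k' + 3) * T₀ = nn * T₀ + k' * T₀ + 3 * T₀ := by ring
      omega
    omega
  have hKt : 2 * n + (s + s) + h + cT ≤ K := by omega
  have hCT : C * T₀ = 3 * K + 3 * (nn * T₀) + cS * T₀ + cR * T₀ + 20 * T₀ := by
    rw [hC, hK]; ring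
  have hcRn : cR * (s' + 1) ≤ n := by omega
  have hcc3 : Set.InjOn c (Set.Iio 3) := hc.mono fun x hx => by
    rw [Set.mem_Iio] at hx ⊢
    omega
  have hcc2 : Set.InjOn c (Set.Iio 2) := hc.mono fun x hx => by
    rw [Set.mem_Iio] at hx ⊢
    omega
  -- the shares
  have h2C : (0 : ℝ) < 2 ^ C := by positivity
  have shr : ∀ (k j : ℕ) (B' : F.Ω → Prop), k + j ≤ C → Pe F.p B / 2 ^ k ≤ Pe F.p B' →
      0 < Pe F.p B' ∧ κ * 2 ^ j * Pe F.p B₀ ≤ Pe F.p B' ∧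
      ∀ (B'' : F.Ω → Prop) (hB'' : 0 < Pe F.p B''), Sub B'' B' → Sub B' B →
        Pe F.p B' ≤ 2 ^ j * Pe F.p B'' → (Fam.sub F B'' hB'').Tm θ := by
    intro k j B' hk h1
    have h2 : (0 : ℝ) < 2 ^ k := by positivity
    have h0 : 0 < Pe F.p B' := (div_pos hPB h2).trans_le h1
    refine ⟨h0, ?_, fun B'' hB'' h3 h4 h5 => hTm B'' hB'' (fun ω h => h4 ω (h3 ω h)) ?_⟩
    · refine le_trans ?_ h1
      rw [le_div_iff₀ h2]
      refine le_trans ?_ hκP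
      have e1 : κ * 2 ^ j * Pe F.p B₀ * 2 ^ k = κ * 2 ^ (k + j) * Pe F.p B₀ := by
        rw [pow_add]; ring
      rw [e1]
      exact mul_le_mul_of_nonneg_right (mul_le_mul_of_nonneg_left (pw hk) hκ0)
        (Pe_nonneg F.isLaw B₀)
    · rw [div_le_iff₀ h2] at h1
      calc Pe F.p B ≤ Pe F.p B' * 2 ^ k := h1
        _ ≤ (2 ^ j * Pe F.p B'') * 2 ^ k := mul_le_mul_of_nonneg_right h5 h2.le
        _ = 2 ^ (k + j) * Pe F.p B'' := by rw [pow_add]; ring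
        _ ≤ _ := mul_le_mul_of_nonneg_right (pw hk) hB''.le
  have hfr : ∀ (k j : ℕ) (A A' : F.Ω → Prop), Pe F.p B / 2 ^ k ≤ Pe F.p A →
      Pe F.p A / 2 ^ j ≤ Pe F.p A' → Pe F.p B / 2 ^ (k + j) ≤ Pe F.p A' := by
    intro k j A A' h1 h2
    refine le_trans ?_ h2
    rw [pow_add, ← div_div]
    exact div_le_div_of_nonneg_right h1 (by positivity)
  have half : ∀ (k : ℕ) (A A' : F.Ω → Prop), Pe F.p B / 2 ^ k ≤ Pe F.p A →
      Pe F.p A / 2 ≤ Pe F.p A' → Pe F.p B / 2 ^ (k + 1) ≤ Pe F.p A' := by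
    intro k A A' h1 h2
    exact hfr k 1 A A' h1 (by rwa [pow_one])
  have tms : ∀ (k : ℕ) (B' : F.Ω → Prop) (hB' : 0 < Pe F.p B'), k ≤ C →
      Pe F.p B / 2 ^ k ≤ Pe F.p B' → Sub B' B → (Fam.sub F B' hB').Tm θ := by
    intro k B' hB' hk h1 h2
    exact (shr k 0 B' (by omega) h1).2.2 B' hB' (fun _ h => h) h2 (by rw [pow_zero, one_mul])
  have hlog : 0 ≤ Real.log 2 := Real.log_nonneg (by norm_num)
  have hJw : ((J : ℝ) - a₃) * Real.log 2 ≤ ((J : ℝ) - w) * Real.log 2 := by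
    refine mul_le_mul_of_nonneg_right ?_ hlog
    have : (w : ℝ) ≤ a₃ := by exact_mod_cast hwa.trans (ha2.trans ha3)
    linarith
  have hr0 : 0 ≤ θ + 1 := by linarith
  have hrR' : rR * (θ + 1) ≤ (rR + rL + rW) * (θ + 1) :=
    mul_le_mul_of_nonneg_right (by linarith) hr0
  have hrL' : rL * (θ + 1) ≤ (rR + rL + rW) * (θ + 1) :=
    mul_le_mul_of_nonneg_right (by linarith) hr0
  have hrW' : rW * (θ + 1) ≤ (rR + rL + rW) * (θ + 1) :=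
    mul_le_mul_of_nonneg_right (by linarith) hr0
  -- the coarse slopes
  obtain ⟨co, hco⟩ : ∃ co : LnT F → LnT F, co = fun s => (s.1, s.2.1, s.2.2 / 2 ^ (a - w)) :=
    ⟨_, rfl⟩
  have hcs : ∀ ω, co (slam F a ω) = slam F w ω := fun ω => by
    rw [hco]
    exact slam_coarse' F hwa haJ ω
  have hvva : ∀ ω, B ω → v (ptr F J ω) = (fun s => v' (co s)) (slam F a ω) := fun ω hω => by
    show _ = v' (co (slam F a ω))
    rw [hcs]
    exact hvv ω hω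
  -- the shear at the node `(a, a)`
  have hRF : RelvF F c 3 a a g D h κ B₀ T := hRH.relv
  have q0 : Pe F.p B / 2 ^ 0 ≤ Pe F.p B := by rw [pow_zero, div_one]
  have hN3 : ChOK F c 3 (fun _ => D) a w E gN B N NH :=
    hN.mono (by norm_num) (fun _ => le_rfl) le_rfl le_rfl
  have hNa : ChOK F c 3 (fun _ => D) a a E gN B N (cwn w a NH) := chOK_win hN3 hwa haJ
  obtain ⟨B₁, b1, p1, hsh2, -⟩ := hshr (q := s) (y := s) (κ' := κ * 2 ^ cS) (v := v) hcc3 hRF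
    hT.degG hT.depG hB (shr 0 cS B (by omega) q0).2.1 le_rfl hNa hv01
  have q1 : Pe F.p B / 2 ^ cS ≤ Pe F.p B₁ := p1
  have hshT : ∀ ω, B₁ ω → ShrY F c a (g 1) g T v s' 2 ω := fun ω hω => by
    have h1 := hsh2 (g 1) Un le_rfl (by omega) n6 (hgx 0 (by norm_num)) (hgx 1 (by norm_num)) ω hω
      (hsh ω (b1 ω hω))
    refine fun b hb σ hσ => (h1 b hb σ hσ).trans ?_
    exact div_le_div_of_nonneg_right (pw (by omega)) (by positivity)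
  -- the near labels
  obtain ⟨B₂, b2, p2, hnr⟩ := hnear (n := 3) (κ' := κ * 2 ^ 4) le_rfl hcc3 hRF hT.depG
    (fun ω h => hB ω (b1 ω h)) (shr cS 4 B₁ (by omega) q1).2.1 (le_of_eq (by norm_num))
    (hNa.sub b1)
  have q2 := hfr cS 3 B₁ B₂ q1 p2
  have sb2 : Sub B₂ B := fun ω h => b1 ω (b2 ω h)
  -- the slope on the window
  have s2 := shr (cS + 3) 0 B₂ (by omega) q2
  obtain ⟨B₃, b3, p3, hsl⟩ := hslw (a := a) (w := w) (E := E) (s := s) (U := Un) (gN := gN)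
    (θ := θ) (A := B₂) (N := N) (NH := NH) (v := v) (v' := v') s2.1 hcc2 hwJ (hN3.sub sb2)
    (tms (cS + 3) B₂ s2.1 (by omega) q2 sb2) hθ ((hrW'.trans hθJ).trans hJw) (hrW'.trans hθs)
    (fun ω h => hvv ω (sb2 ω h)) (fun ω h => hv01 ω (sb2 ω h)) (fun ω h => hsh ω (sb2 ω h)) n1
  have q3 := half (cS + 3) B₂ B₃ q2 p3
  have sb3 : Sub B₃ B := fun ω h => sb2 ω (b3 ω h)
  -- the lower bound in the direction `v`
  obtain ⟨P, hP⟩ : ∃ P : LnT F → Polynomial ℝ, P = fun s => hcl (c 1) (NH s 3) s +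
      Polynomial.C (v' s (c 2)) * hcl (c 2) (NH s 3) s := ⟨_, rfl⟩
  have hPd : ∀ s, (P s).natDegree ≤ D := fun s => by
    rw [hP]
    refine (Polynomial.natDegree_add_le _ _).trans (max_le (hcl_deg _ (hN.degH _ 3) _) ?_)
    exact (Polynomial.natDegree_C_mul_le _ _).trans (hcl_deg _ (hN.degH _ 3) _)
  have hPe : ∀ ω, B ω → ∀ t, (P (slam F w ω)).eval t =
      (hcl (c 1) (NH (slam F w ω) 3) (slam F w ω)).eval t +
      v (ptr F J ω) (c 2) * (hcl (c 2) (NH (slam F w ω) 3) (slam F w ω)).eval t := by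
    intro ω hω t
    rw [hP, hvv ω hω]
    simp only [Polynomial.eval_add, Polynomial.eval_mul, Polynomial.eval_C]
  have s3 := shr (cS + 3 + 1) 0 B₃ (by omega) q3
  obtain ⟨B₄, b4, p4, hL1⟩ := hlow (w := w) (s := s) s3.1 P
    (fun _ => 2 ^ (a + lam₁) / 2 ^ gN 3 / 2 ^ s) hwJ hPd
    (tms (cS + 3 + 1) B₃ s3.1 (by omega) q3 sb3) hθ
    ((hrL'.trans hθJ).trans hJw) (hrL'.trans hθs) (fun ω hω => ⟨by positivity, by
      obtain ⟨t, t1, t2, t3⟩ := hlo1 ω (sb3 ω hω)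
      refine ⟨t, t1, t2, ?_⟩
      rw [hPe ω (sb3 ω hω)]
      exact t3⟩)
  have q4 := half (cS + 3 + 1) B₃ B₄ q3 p4
  have sb4 : Sub B₄ B := fun ω h => sb3 ω (b4 ω h)
  -- a common tail
  have tail : ∀ (k : ℕ) (B₅ : F.Ω → Prop), k ≤ cS + 3 + 3 → Pe F.p B / 2 ^ k ≤ Pe F.p B₅ →
      Sub B₅ B₁ → ∃ (A B' : F.Ω → Prop) (X : PtT F → Option (Fin m) → ℝ) (ν₀ : PtT F → F.Ω),
      Sub A B₅ ∧ Sub B' A ∧ κ * Pe F.p B₀ ≤ Pe F.p B' ∧ 0 < Pe F.p B' ∧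
      Rel3 F c a w e n K lam₁ lam₂ D h g gN g₄ A B' T T₄ NH v X ν₀ := by
    intro k B₅ hk h1 h2'
    have h2 : Sub B₅ B := fun ω h => b1 ω (h2' ω h)
    have s5 := shr k cR B₅ (by omega) h1
    obtain ⟨A, B', X, ν₀, k1, k2, k3, k4⟩ := hrel (a := a) (w := w) (w₂ := w₂) (a₂ := a₂)
      (a₃ := a₃) (e := e) (E := E) (h := h) (s := s') (p := K) (lam₁ := lam₁) (lam₂ := lam₂)
      (gN := gN) (g := g) (g₂ := g₂) (g₃ := g₃) (g₄ := g₄) (Y := Y) (κ := κ) (θ := θ) (B₀ := B₀)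
      (B := B₅) (N := N) (T := T) (T₂ := T₂) (T₃ := T₃) (T₄ := T₄) (NH := NH) (v := v)
      (v' := fun s => v' (co s))
      hc hwa hw2 ha2 ha3 (by omega) s5.1 (fun ω h => hB ω (h2 ω h)) (hN.sub h2) hT hRH hT2 hR2 hT3
      hT4 hκ0 s5.2.1 ((mul_le_mul_of_nonneg_left (pw (by omega)) hκ0).trans hκ1)
      (fun B'' hB'' h3 h4 => s5.2.2 B'' hB'' h3 h2 h4) hθ (hrR'.trans hθJ)
      ((hrR'.trans hθs).trans (by exact_mod_cast hss')) (hhs.trans hss')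
      (fun l hl => (hgx l hl).trans (by omega)) hYJ (fun l hl => by have := hrN l hl; omega)
      (fun l hl => by have := hrg l hl; omega)
      (fun l hl => by have := hr2 l hl; omega)
      (fun l hl => by have := hr3 l hl; omega)
      (fun l hl => by have := hr4 l hl; omega) (by omega)
      (fun ω h => hvva ω (h2 ω h)) (fun ω h => hv01 ω (h2 ω h)) (fun ω h => hshT ω (h2' ω h))
      (fun ω h t t1 t2 => by
        obtain ⟨t3, t4⟩ := win_sub hwa haJ ω t1 t2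
        exact hup1 ω (h2 ω h) t t3 t4) (fun ω h t t1 t2 => by
        obtain ⟨t3, t4⟩ := win_sub hwa haJ ω t1 t2
        exact hup2 ω (h2 ω h) t t3 t4) (by omega) (by omega) (by omega)
    have h4 : Pe F.p B / 2 ^ (k + cR) ≤ Pe F.p B' := hfr k cR B₅ B' h1 k3
    have s4 := shr (k + cR) 0 B' (by omega) h4
    refine ⟨A, B', X, ν₀, k1, k2, ?_, s4.1, k4.mono hcRn⟩
    have := s4.2.1
    rwa [pow_zero, mul_one] at this
  have hrm : ∀ l < 3, e + g l + 2 * n + h + 4 ≤ J := by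
    intro l hl
    have h1 := hrg l hl
    omega
  by_cases hcase : lam₂ + U + K ≤ lam₁ + g 2
  · -- the quotient end
    obtain ⟨A, B', X, ν₀, k1, k2, k3, k4, H⟩ := tail (cS + 3 + 1 + 1) B₄ (by omega) q4
      (fun ω h => b2 ω (b3 ω (b4 ω h)))
    have sA : Sub A B := fun ω h => sb4 ω (k1 ω h)
    have sB' : Sub B' B := fun ω h => sA ω (k2 ω h)
    have hst := hstn (q := q) (s := s) H hcc2 (hN3.sub sB') hT.degG hT.depG
      (fun l hl => hgx l (by omega)) n6 (fun ω h i hi b hb => by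
        rw [hq]
        exact hnr ω (b3 ω (b4 ω (k1 ω (k2 ω h)))) i hi b hb)
    refine hqe (x := s + s) (k := k) (U := U) (K := K) (D₂ := D₂) (κ := κ) (B₀ := B₀) H hw hw2
      (by omega) hcc3 hR4 (hT4.mono (by norm_num) (fun _ => le_rfl) le_rfl le_rfl) hDD
      (fun ω h => hB ω (sA ω h)) k2 k3 k4 (fun s l => hN.degH s l) (fun ω h t ht => ?_)
      (fun ω h => ?_) (fun ω h => hup1 ω (sB' ω h))
      (fun ω h => hup2 ω (sB' ω h)) (fun ω h t t1 t2 => ?_) (by omega) n3 (by omega) (by omega)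
      (by omega) le_rfl (by omega) hKq (fun l hl => hrm l (by omega))
    · refine (hst ω h t ht).trans (div_le_div_of_nonneg_right (pw ?_) (by positivity))
      omega
    · have h1 := hL1 ω (k1 ω (k2 ω h))
      rw [hPe ω (sB' ω h)] at h1
      rw [pow_add 2 s s, ← div_div]
      exact h1
    · refine (hsl ω (b4 ω (k1 ω (k2 ω h))) t t1 t2).trans ?_
      rw [div_le_div_iff₀ (by positivity) (by positivity), ← pow_add, ← pow_add]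
      exact pw (by omega)
  · -- the end with two times
    have hlo2' := hlo2 (by omega)
    have s4 := shr (cS + 3 + 1 + 1) 0 B₄ (by omega) q4
    obtain ⟨B₅, b5, p5, hL2⟩ := hlow (w := w) (s := s) s4.1
      (fun s => hcl (c 2) (NH s 3) s) (fun _ => 2 ^ (a + lam₂) / 2 ^ gN 3 / 2 ^ s)
      hwJ (fun s => hcl_deg _ (hN.degH s 3) s)
      (tms (cS + 3 + 1 + 1) B₄ s4.1 (by omega) q4 sb4) hθ
      ((hrL'.trans hθJ).trans hJw) (hrL'.trans hθs)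
      (fun ω hω => ⟨by positivity, hlo2' ω (sb4 ω hω)⟩)
    have q5 := half (cS + 3 + 1 + 1) B₄ B₅ q4 p5
    obtain ⟨A, B', X, ν₀, k1, k2, k3, k4, H⟩ := tail (cS + 3 + 1 + 1 + 1) B₅ (by omega) q5
      (fun ω h => b2 ω (b3 ω (b4 ω (b5 ω h))))
    have sA : Sub A B := fun ω h => sb4 ω (b5 ω (k1 ω h))
    have sB' : Sub B' B := fun ω h => sA ω (k2 ω h)
    refine htt (x := s + s) (K := K) (κ := κ) (B₀ := B₀) (v' := fun s => v' (co s)) H hwa haJ hcc3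
      hRF hT (fun ω h => hB ω (sA ω h)) k2 k3 k4 (fun ω h => hvva ω (sB' ω h))
      (fun ω h => ?_) (fun ω h => ?_) (by omega) (by omega) le_rfl hKt
      (fun l hl => by have := hrm l hl; omega)
    · have h1 := hL2 ω (k1 ω (k2 ω h))
      rw [pow_add 2 s s, ← div_div]
      exact h1
    · exact hup1 ω (sB' ω h) _ (win_self F w ω).1 (win_self F w ω).2

end Pool.NVX
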