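import Pool.Agent.H80.NV.Bal

/-!
# The label of `c 1` of any node on the plane of the lines through the point
-/

set_option autoImplicit false

namespace Pool.NVX

open Finset Real MvPolynomial
open Pool.Agent.H49.Ent Pool.Agent.H32.Dense Pool.STK Pool.KA Pool.KSAT Pool.K2S Pool.PB Pool.S6C
open Pool.GEN Pool.CHT
open Pool.D2R (dd hs dd_add dd_smul dd_congr)
open Pool.PB.Trl (rt rt_mem t_rt)

variable {m J : ℕ}

theorem Pth.sub {F : Fam m J} {c : ℕ → Fin m} {i a n : ℕ} {g : ℕ → ℕ} {B B' : F.Ω → Prop}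
    {G : PtT F → ℕ → MvPolynomial (Option (Fin m)) ℝ} (h : Pth F c i a n g B G) (hB : Sub B' B) :
    Pth F c i a n g B' G := fun ω ν h1 h2 => h ω ν (hB ω h1) (hB ν h2)

theorem Pth.mono {F : Fam m J} {c : ℕ → Fin m} {i i' a n n' : ℕ} {g : ℕ → ℕ} {B : F.Ω → Prop}
    {G : PtT F → ℕ → MvPolynomial (Option (Fin m)) ℝ} (h : Pth F c i a n g B G) (hi : i' ≤ i)
    (hn : n ≤ n') : Pth F c i' a n' g B G := fun ω ν h1 h2 h3 s h4 h5 l hl =>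
  (h ω ν h1 h2 h3 s h4 h5 l (hl.trans_le hi)).trans
    (div_le_div_of_nonneg_right (pow_le_pow_right₀ (by norm_num) hn) (by positivity))

/-- **The label of `c 1` on the plane**, for the label of any node. -/
theorem pln_lab (D : ℕ) (hD : 1 ≤ D) : ∃ C : ℕ, ∀ {m J : ℕ} {F : Fam m J} {c : ℕ → Fin m}
    {a n h k g₀ : ℕ} {g : ℕ → ℕ} {B : F.Ω → Prop}
    {G : PtT F → ℕ → MvPolynomial (Option (Fin m)) ℝ} {ω : F.Ω} {X₀ : Option (Fin m) → ℝ},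
    (∀ y l, (G y l).totalDegree ≤ D) → (∀ y l, DepC c l (G y l)) → Pth F c 2 a n g B G → B ω →
    Sep F c B (2 ^ a / 2 ^ (g₀ + h + 3)) (D + 1) ω → X₀ none = 0 → X₀ (some (c 0)) = 1 →
    (∃ (ν₁ ν₂ : F.Ω) (δ : ℝ), B ν₁ ∧ ptr F J ν₁ = ptr F J ω ∧ B ν₂ ∧ ptr F J ν₂ = ptr F J ω ∧
      |δ| ≤ 2 ^ (h + 3) ∧ (1 / 2 ^ g₀ : ℝ) • X₀ = δ • (vl F a ν₁ - vl F a ν₂)) →
    g₀ ≤ g 0 + k → ∀ α β : ℝ, |α| ≤ 2 ^ k → |β| ≤ 2 ^ k →
      |(bt F ω + α • vl F a ω + β • ((1 / 2 ^ g₀ : ℝ) • X₀)) (some (c 1)) -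
        eval (bt F ω + α • vl F a ω + β • ((1 / 2 ^ g₀ : ℝ) • X₀)) (G (ptr F J ω) 1)| ≤
        2 ^ (C * (n + h + k + 1)) / 2 ^ g 1 := by
  obtain ⟨C₁, hC₁, N, hpb⟩ := pb_one D hD
  obtain ⟨C₂, hC₂, hvel⟩ := vel_one D
  obtain ⟨c₁, hc₁⟩ := pow_unbounded_of_one_lt C₁ (one_lt_two (α := ℝ))
  obtain ⟨c₂, hc₂⟩ := pow_unbounded_of_one_lt C₂ (one_lt_two (α := ℝ))
  have pw : ∀ {x y : ℕ}, x ≤ y → (2 : ℝ) ^ x ≤ 2 ^ y := fun h => pow_le_pow_right₀ (by norm_num) h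
  refine ⟨c₁ + (c₂ + 6) * N + 3 * c₂ + 12, ?_⟩
  intro m J F c a n h k g₀ g B G ω X₀ hdG hdep hpth hω hsep hX0 hX1 hrep hg0 α β hα hβ
  obtain ⟨T, hT⟩ : ∃ T, T = n + h + k + 1 := ⟨_, rfl⟩
  have hT1 : 1 ≤ T := by omega
  obtain ⟨ν, hν1, -, hν3⟩ := hsep
  obtain ⟨ν₁, ν₂, δ, hB₁, hp₁, hB₂, hp₂, hδ, hXd⟩ := hrep
  obtain ⟨x, hx⟩ : ∃ x, x = bt F ω := ⟨_, rfl⟩
  obtain ⟨U₀, hU₀⟩ : ∃ U, U = vl F a ω := ⟨_, rfl⟩
  obtain ⟨U₁, hU₁⟩ : ∃ U, U = (1 / 2 ^ g₀ : ℝ) • X₀ := ⟨_, rfl⟩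
  obtain ⟨Gw, hGw⟩ : ∃ Gw, Gw = G (ptr F J ω) := ⟨_, rfl⟩
  have hGd : ∀ l, (Gw l).totalDegree ≤ D := fun l => by rw [hGw]; exact hdG _ l
  have hGp : ∀ l, DepC c l (Gw l) := fun l => by rw [hGw]; exact hdep _ l
  have hU0n : U₀ none = 1 / 2 ^ a := by rw [hU₀]; exact vl_none F a ω
  have hU1n : U₁ none = 0 := by rw [hU₁, Pi.smul_apply, hX0, smul_zero]
  have hU1c : U₁ (some (c 0)) = 1 / 2 ^ g₀ := by
    rw [hU₁, Pi.smul_apply, hX1, smul_eq_mul, mul_one]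
  have hpath : ∀ μ, B μ → ptr F J μ = ptr F J ω → ∀ s : ℝ, -rt F a μ ≤ s → s ≤ 1 - rt F a μ →
      ∀ l < 2, |(x + s • vl F a μ) (some (c l)) - eval (x + s • vl F a μ) (Gw l)| ≤
        2 ^ n / 2 ^ g l := by
    intro μ hμ hpt s h0 h1 l hl
    rw [hx, hGw]
    exact hpth ω μ hω hμ hpt.symm s h0 h1 l hl
  have hvl : ∀ μ, B μ → ptr F J μ = ptr F J ω → ∀ l < 2,
      |vl F a μ (some (c l)) - dd (Gw l) x (vl F a μ)| ≤ 2 ^ (c₂ + n) / 2 ^ g l := by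
    intro μ hμ hpt l hl
    have hrt := rt_mem F a μ
    refine (hvel (Gw l) x (vl F a μ) (some (c l)) (rt F a μ) (2 ^ n / 2 ^ g l) (hGd l) hrt.1 hrt.2
      fun s h0 h1 => hpath μ hμ hpt s h0 h1 l hl).trans ?_
    rw [pow_add, mul_div_assoc]
    exact mul_le_mul_of_nonneg_right hc₂.le (by positivity)
  have hη : ∀ μ, B μ → ptr F J μ = ptr F J ω →
      |2 ^ g₀ * (vl F a μ (some (c 0)) - vl F a ω (some (c 0)))| ≤ 2 ^ (c₂ + n + k + 1) := by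
    intro μ hμ hpt
    have h1 := hvl μ hμ hpt 0 (by norm_num)
    have h2 := hvl ω hω rfl 0 (by norm_num)
    have h3 : dd (Gw 0) x (vl F a μ) = dd (Gw 0) x (vl F a ω) :=
      dd_congr (hGp 0) x (by rw [vl_none, vl_none]) fun l hl => absurd hl (Nat.not_lt_zero l)
    rw [abs_mul, abs_of_pos (show (0 : ℝ) < 2 ^ g₀ by positivity)]
    have h4 : |vl F a μ (some (c 0)) - vl F a ω (some (c 0))| ≤
        2 ^ (c₂ + n) / 2 ^ g 0 + 2 ^ (c₂ + n) / 2 ^ g 0 := by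
      have e1 : vl F a μ (some (c 0)) - vl F a ω (some (c 0)) =
          (vl F a μ (some (c 0)) - dd (Gw 0) x (vl F a μ)) -
          (vl F a ω (some (c 0)) - dd (Gw 0) x (vl F a ω)) := by rw [h3]; ring
      rw [e1]
      exact (abs_sub _ _).trans (add_le_add h1 h2)
    have h5 : (2 : ℝ) ^ g₀ ≤ 2 ^ g 0 * 2 ^ k := by rw [← pow_add]; exact pw hg0
    calc (2 : ℝ) ^ g₀ * |vl F a μ (some (c 0)) - vl F a ω (some (c 0))| ≤
        (2 ^ g 0 * 2 ^ k) * (2 ^ (c₂ + n) / 2 ^ g 0 + 2 ^ (c₂ + n) / 2 ^ g 0) :=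
          mul_le_mul h5 h4 (abs_nonneg _) (by positivity)
      _ = 2 ^ (c₂ + n + k + 1) := by
          rw [pow_succ, pow_add _ (c₂ + n) k]
          field_simp
          ring
  obtain ⟨R, hR⟩ : ∃ R : ℝ, R = 2 ^ (c₂ + n + k + 1) := ⟨_, rfl⟩
  have hkR : (2 : ℝ) ^ k ≤ R := by rw [hR]; exact pw (by omega)
  have hR1 : 1 ≤ R := by rw [hR]; exact one_le_pow₀ (by norm_num)
  have hU1d : |U₁ (some (c 1)) - dd (Gw 1) x U₁| ≤ 2 ^ (h + 4 + c₂ + n) / 2 ^ g 1 := by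
    have e1 : U₁ (some (c 1)) - dd (Gw 1) x U₁ =
        δ * ((vl F a ν₁ (some (c 1)) - dd (Gw 1) x (vl F a ν₁)) -
          (vl F a ν₂ (some (c 1)) - dd (Gw 1) x (vl F a ν₂))) := by
      rw [hU₁, hXd, dd_smul, dd_sub_right, Pi.smul_apply, Pi.sub_apply, smul_eq_mul]
      ring
    rw [e1, abs_mul]
    have h1 := hvl ν₁ hB₁ hp₁ 1 (by norm_num)
    have h2 := hvl ν₂ hB₂ hp₂ 1 (by norm_num)
    have h3 := (abs_sub (vl F a ν₁ (some (c 1)) - dd (Gw 1) x (vl F a ν₁))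
      (vl F a ν₂ (some (c 1)) - dd (Gw 1) x (vl F a ν₂))).trans (add_le_add h1 h2)
    calc |δ| * _ ≤ 2 ^ (h + 3) * (2 ^ (c₂ + n) / 2 ^ g 1 + 2 ^ (c₂ + n) / 2 ^ g 1) :=
          mul_le_mul hδ h3 (abs_nonneg _) (by positivity)
      _ = _ := by
          rw [show h + 4 + c₂ + n = (h + 3) + (c₂ + n) + 1 by omega, pow_succ, pow_add]
          ring
  rw [← hx, ← hU₀, ← hU₁, ← hGw]
  have hmu : (0 : ℝ) < 1 / 2 ^ (h + 3) := by positivity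
  have hmu1 : (1 : ℝ) / 2 ^ (h + 3) ≤ 1 := by
    rw [div_le_one (by positivity)]
    exact one_le_pow₀ (by norm_num)
  have hRmu : R / (1 / 2 ^ (h + 3)) = 2 ^ (c₂ + n + k + h + 4) := by
    rw [hR, div_div_eq_mul_div, div_one, ← pow_add]
    congr 1
    omega
  obtain ⟨V, hV⟩ : ∃ V : Fin (D + 1) → Option (Fin m) → ℝ, V = fun j => vl F a (ν j) := ⟨_, rfl⟩
  obtain ⟨η, hη'⟩ : ∃ η : Fin (D + 1) → ℝ, η = fun j =>
      2 ^ g₀ * (vl F a (ν j) (some (c 0)) - vl F a ω (some (c 0))) := ⟨_, rfl⟩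
  have hsepη : ∀ j j', j ≠ j' → 1 / 2 ^ (h + 3) ≤ |η j - η j'| := by
    intro j j' hjj
    have h1 := hν3 j j' hjj
    have e1 : η j - η j' = 2 ^ g₀ / 2 ^ a * (bd F (ν j) (some (c 0)) - bd F (ν j') (some (c 0))) := by
      rw [hη']
      simp only [vl, Pi.smul_apply, smul_eq_mul]
      ring
    rw [e1, abs_mul, abs_of_pos (show (0 : ℝ) < 2 ^ g₀ / 2 ^ a by positivity)]
    calc (1 : ℝ) / 2 ^ (h + 3) = 2 ^ g₀ / 2 ^ a * (2 ^ a / 2 ^ (g₀ + h + 3)) := by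
          rw [show g₀ + h + 3 = g₀ + (h + 3) by omega, pow_add 2 g₀ (h + 3)]
          field_simp
      _ ≤ _ := mul_le_mul_of_nonneg_left h1 (by positivity)
  have hpt0 : ∀ (j : Fin (D + 1)) (t : ℝ), (x + t • (U₀ + η j • U₁)) none =
      (x + t • V j) none := by
    intro j t
    simp only [Pi.add_apply, Pi.smul_apply, smul_eq_mul]
    rw [hU1n, hU0n, hV]
    show x none + t * (1 / 2 ^ a + η j * 0) = x none + t * vl F a (ν j) none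
    rw [vl_none]
    ring
  have hpt1 : ∀ (j : Fin (D + 1)) (t : ℝ),
      (x + t • (U₀ + η j • U₁)) (some (c 0)) = (x + t • V j) (some (c 0)) := by
    intro j t
    simp only [Pi.add_apply, Pi.smul_apply, smul_eq_mul]
    rw [hU1c, hU₀, hV, hη']
    field_simp
    ring
  have hdepl : ∀ (j : Fin (D + 1)) (t : ℝ), eval (x + t • (U₀ + η j • U₁)) (Gw 1) =
      eval (x + t • V j) (Gw 1) := by
    intro j t
    refine hGp 1 _ _ (hpt0 j t) fun k hk => ?_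
    have : k = 0 := by omega
    subst this
    exact hpt1 j t
  have hrtw := rt_mem F a ω
  have h1 := hpb (Gw 1) x U₀ U₁ V (some (c 1)) η (fun j => rt F a (ν j)) (fun _ => 0) (rt F a ω) R
    (1 / 2 ^ (h + 3)) (2 ^ n / 2 ^ g 1) 0 (2 ^ (h + 4 + c₂ + n) / 2 ^ g 1) (hGd 1)
    hR1 hmu hmu1 (fun j => by
      rw [hη', hR]
      exact hη (ν j) (hν1 j).1 (hν1 j).2) hsepη (fun j => rt_mem F a (ν j)) hrtw.1 hrtw.2
    (fun t h0 h1 => by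
      rw [hU₀]
      exact hpath ω hω rfl t h0 h1 1 (by norm_num))
    (fun j t h0 h1 => by
      rw [hV]
      exact hpath (ν j) (hν1 j).1 (hν1 j).2 t h0 h1 1 (by norm_num))
    (fun j t _ _ => by rw [hdepl, mul_zero, sub_self, sub_zero, abs_zero]) hU1d α β
    (hα.trans hkR) (hβ.trans hkR)
  refine h1.trans ?_
  rw [add_zero, hRmu, ← pow_mul, hR, ← mul_div_assoc, ← mul_div_assoc, ← pow_add, ← add_div]
  refine div_le_div_of_nonneg_right ?_ (by positivity)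
  obtain ⟨u, hu⟩ : ∃ u, u = c₁ + (c₂ + n + k + h + 4) * N + n := ⟨_, rfl⟩
  obtain ⟨v, hv⟩ : ∃ v, v = c₂ + n + k + 1 + (h + 4 + c₂ + n) := ⟨_, rfl⟩
  have g1 : C₁ * 2 ^ ((c₂ + n + k + h + 4) * N) * 2 ^ n ≤ 2 ^ (u + v) := by
    calc C₁ * 2 ^ ((c₂ + n + k + h + 4) * N) * 2 ^ n ≤
        2 ^ c₁ * 2 ^ ((c₂ + n + k + h + 4) * N) * 2 ^ n := by
          refine mul_le_mul_of_nonneg_right (mul_le_mul_of_nonneg_right hc₁.le (by positivity))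
            (by positivity)
      _ = 2 ^ u := by rw [← pow_add, ← pow_add, hu]
      _ ≤ _ := pw (by omega)
  have g2 : (2 : ℝ) ^ (c₂ + n + k + 1 + (h + 4 + c₂ + n)) ≤ 2 ^ (u + v) := pw (by omega)
  have g3 : (2 : ℝ) ^ (u + v + 1) = 2 ^ (u + v) * 2 := pow_succ _ _
  have g4 : u + v + 1 ≤ (c₁ + (c₂ + 6) * N + 3 * c₂ + 12) * (n + h + k + 1) := by
    rw [← hT]
    have a1 : c₂ + n + k + h + 4 ≤ (c₂ + 6) * T := by
      have : (c₂ + 6) * T = c₂ * T + 6 * T := by ring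
      have a2 : c₂ ≤ c₂ * T := Nat.le_mul_of_pos_right _ hT1
      omega
    have a2 : (c₂ + n + k + h + 4) * N ≤ (c₂ + 6) * T * N := Nat.mul_le_mul_right _ a1
    have a3 : (c₁ + (c₂ + 6) * N + 3 * c₂ + 12) * T =
        c₁ * T + (c₂ + 6) * T * N + 3 * (c₂ * T) + 12 * T := by ring
    have a4 : c₁ ≤ c₁ * T := Nat.le_mul_of_pos_right _ hT1
    have a5 : c₂ ≤ c₂ * T := Nat.le_mul_of_pos_right _ hT1
    rw [a3]
    omega
  calc _ ≤ (2 : ℝ) ^ (u + v) + 2 ^ (u + v) := add_le_add g1 g2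
    _ = 2 ^ (u + v + 1) := by rw [g3]; ring
    _ ≤ _ := pw g4

end Pool.NVX
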