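import Pool.Agent.H23.D2.Rad

/-!
# The points of the lines through one exact point

`path_pt`: the line `ν`, moved to the point of `ω`, stays in the natural box of the ball.
-/

set_option autoImplicit false

namespace Pool.NVX

open Finset Real MvPolynomial
open Pool.Agent.H49.Ent Pool.Agent.H32.Dense Pool.STK Pool.KA Pool.KSAT Pool.K2S Pool.PB Pool.S6C
open Pool.GEN Pool.CHT
open Pool.D2R (dd hs path_rad)
open Pool.PB.Trl (rt rt_mem t_rt)

variable {m J : ℕ}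

/-- The scaled velocity. -/
noncomputable def vl (F : Fam m J) (a : ℕ) (ω : F.Ω) : Option (Fin m) → ℝ :=
  (1 / 2 ^ a : ℝ) • bd F ω

theorem vl_none (F : Fam m J) (a : ℕ) (ω : F.Ω) : vl F a ω none = 1 / 2 ^ a := by
  unfold vl
  rw [Pi.smul_apply, smul_eq_mul]
  show 1 / 2 ^ a * (1 : ℝ) = _
  rw [mul_one]

theorem vl_some (F : Fam m J) (a : ℕ) (ω : F.Ω) (j : Fin m) :
    vl F a ω (some j) = 1 / 2 ^ a * F.d ω j := rfl

/-- The point of the line at a relative time. -/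
theorem lc_pt (F : Fam m J) {a : ℕ} (ha : a ≤ J) (ν : F.Ω) (τ : ℝ) (o : Option (Fin m)) :
    (lc a (slam F a ν) o).eval τ = bt F ν o + (τ - rt F a ν) * vl F a ν o := by
  have h1 := eval_lc F ha ν o
  have h2 : ∀ x : ℝ, (lc a (slam F a ν) o).eval x = (lc a (slam F a ν) o).eval 0 +
      x * vl F a ν o := by
    intro x
    cases o with
    | none =>
      rw [vl_none]
      simp only [lc, Polynomial.eval_add, Polynomial.eval_mul, Polynomial.eval_C,
        Polynomial.eval_X]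
      ring
    | some j =>
      rw [vl_some]
      have e2 : (slam F a ν).1.2 j = F.d ν j := rfl
      simp only [lc, Polynomial.eval_add, Polynomial.eval_mul, Polynomial.eval_C,
        Polynomial.eval_X, e2]
      ring
  rw [← h1, h2 τ, h2 (rt F a ν)]
  ring

/-- **The lines through one exact point are in the natural box.** -/
theorem path_pt (m D n : ℕ) : ∃ C : ℕ, 1 ≤ C ∧ ∀ {J : ℕ} {F : Fam m J} {c : ℕ → Fin m}
    {a e k : ℕ} {g : ℕ → ℕ} {A : F.Ω → Prop}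
    {G : PtT F → ℕ → MvPolynomial (Option (Fin m)) ℝ}
    {H : LnT F → ℕ → MvPolynomial (Option (Fin m)) ℝ}, Set.InjOn c (Set.Iio n) → a ≤ J →
    ChOK F c n (fun _ => D) a a e g A G H →
    (∀ l < n, e + g l + C * (k + 1) ≤ J) → ∀ ω ν, A ω → A ν → ptr F J ω = ptr F J ν →
    (∀ l < n, ∀ τ ∈ Set.Icc (0 : ℝ) 1,
      |(dv a (fun s _ => H s l) (c l) (slam F a ν)).eval τ| ≤ 2 ^ k / 2 ^ g l) →
    ∀ s : ℝ, -rt F a ν ≤ s → s ≤ 1 - rt F a ν → ∀ l < n,
      |(bt F ω + s • vl F a ν) (some (c l)) -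
        eval (bt F ω + s • vl F a ν) (G (ptr F J ω) l)| ≤ 2 ^ (C * (k + 1)) / 2 ^ g l := by
  obtain ⟨C, hC, h⟩ := path_rad m D n
  refine ⟨C, hC, ?_⟩
  intro J F c a e k g A G H hc haJ hch hJ ω ν hω hν hpt hdv s hs0 hs1 l hl
  obtain ⟨τ, hτ⟩ : ∃ τ, τ = s + rt F a ν := ⟨_, rfl⟩
  have hrt := rt_mem F a ν
  have hτ0 : τ ∈ Set.Icc (0 : ℝ) 1 := ⟨by linarith, by linarith⟩
  have e1 : ∀ o, (lc a (slam F a ν) o).eval τ = bt F ν o + s * vl F a ν o := by
    intro o
    rw [lc_pt F haJ ν τ o, hτ]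
    ring
  have h1 := h hc hch hJ ω ν hω hν hpt hdv τ hτ0 (by
    rw [e1, vl_none]
    have e2 : bt F ν none + s * (1 / 2 ^ a) - F.t ν = s * (1 / 2 ^ a) := by
      show F.t ν + s * (1 / 2 ^ a) - F.t ν = _
      ring
    rw [e2, abs_mul, abs_of_pos (show (0 : ℝ) < 1 / 2 ^ a by positivity)]
    have h2 : |s| ≤ 1 := abs_le.2 ⟨by linarith [hrt.2], by linarith [hrt.1]⟩
    calc |s| * (1 / 2 ^ a) ≤ 1 * (1 / 2 ^ a) := mul_le_mul_of_nonneg_right h2 (by positivity)
      _ = _ := one_mul _) 1 ⟨zero_le_one, le_rfl⟩ l hl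
  have e3 : (fun o => (lc a (slam F a ν) o).eval τ + 1 * (bt F ω o - bt F ν o)) =
      bt F ω + s • vl F a ν := by
    funext o
    rw [e1, Pi.add_apply, Pi.smul_apply, smul_eq_mul]
    ring
  rw [e3, e1] at h1
  have e4 : (bt F ω + s • vl F a ν) (some (c l)) =
      bt F ν (some (c l)) + s * vl F a ν (some (c l)) + 1 * (F.x ω (c l) - F.x ν (c l)) := by
    rw [Pi.add_apply, Pi.smul_apply, smul_eq_mul]
    show F.x ω (c l) + _ = F.x ν (c l) + _ + 1 * (F.x ω (c l) - F.x ν (c l))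
    ring
  rw [e4]
  exact h1

end Pool.NVX
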