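import Pool.Agent.H80.NV.Bxs
import Pool.Agent.H6.NV.End2

/-!
# The quotient ends

`rel3_q2`: the second derivative in the direction `c 2` is large: the label of `c 2` of the node
`(a, w₂)` is closed with a gain.
-/

set_option autoImplicit false

namespace Pool.NVX

open Finset Real MvPolynomial
open Pool.Agent.H49.Ent Pool.Agent.H32.Dense Pool.STK Pool.KA Pool.KSAT Pool.K2S Pool.PB Pool.S6C
open Pool.GEN Pool.CHT
open Pool.D2R (dd hs dd_add dd_smul dd_congr)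
open Pool.SHR (dir mvp RelvH Shr ShrY relvF_low)
open Pool.PB.Trl (rt rt_mem t_rt)

variable {m J : ℕ}

/-- The error of the relation in comparison with the large coefficient. -/
theorem er_num {a g0 n x li lj gi gj p : ℕ} {G : ℝ} (hG : 0 < G) :
    (2 : ℝ) ^ (a + g0 + n) / G * (1 + 2 ^ li / 2 ^ (gi + p) + 2 ^ lj / 2 ^ (gj + p)) /
      (2 ^ (a + li) / G / 2 ^ x) = 2 ^ (g0 + n + x) * (1 / 2 ^ li + 1 / 2 ^ (gi + p) +
        2 ^ lj / (2 ^ li * 2 ^ (gj + p))) := by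
  rw [pow_add 2 (a + g0) n, pow_add 2 a g0, pow_add 2 a li, pow_add 2 (g0 + n) x, pow_add 2 g0 n]
  field_simp

/-- A bound on the box from a bound on the window. -/
theorem win_box (D : ℕ) : ∃ C : ℕ, ∀ {m J : ℕ} {F : Fam m J} {w : ℕ} {K : ℝ} {P : Polynomial ℝ}
    {ω : F.Ω}, w + 1 ≤ J → P.natDegree ≤ D →
    (∀ t : ℝ, F.t ω - rt F w ω / 2 ^ w ≤ t → t ≤ F.t ω + (1 - rt F w ω) / 2 ^ w →
      |P.eval t| ≤ K) → ∀ t : ℝ, |t - F.t ω| ≤ 1 / 2 ^ w → |P.eval t| ≤ 2 ^ C * K := by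
  obtain ⟨C, h⟩ := mkv_win D
  refine ⟨C + 1, ?_⟩
  intro m J F w K P ω hw hP hK t ht
  have hrt := rt_mem F w ω
  have h0 := hK (F.t ω) (by
    have : 0 ≤ rt F w ω / 2 ^ w := div_nonneg hrt.1 (by positivity)
    linarith) (by
    have : 0 ≤ (1 - rt F w ω) / 2 ^ w := div_nonneg (by linarith [hrt.2]) (by positivity)
    linarith)
  have hK0 : 0 ≤ K := (abs_nonneg _).trans h0
  have h1 := h (w := w) (w' := w + 1) (K := K) (P := P) (ω := ω) (by omega) hw hP hK t (by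
    refine ht.trans (le_of_eq ?_)
    rw [pow_succ]
    field_simp)
  have e1 : (2 : ℝ) ^ C * 2 ^ w / 2 ^ (w + 1) * K = 2 ^ C * K / 2 := by
    rw [pow_succ]
    field_simp
  rw [e1] at h1
  have e2 : P.eval t = (P.eval t - P.eval (F.t ω)) + P.eval (F.t ω) := by ring
  rw [e2]
  refine (abs_add_le _ _).trans ((add_le_add h1 h0).trans ?_)
  have h2 : K ≤ 2 ^ C * K := by
    have : (1 : ℝ) ≤ 2 ^ C := one_le_pow₀ (by norm_num)
    nlinarith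
  have h3 : 0 ≤ (2 : ℝ) ^ C * K := by positivity
  rw [pow_succ]
  linarith

/-- **The quotient end for `c 2`.** -/
theorem rel3_q2 (D : ℕ) (hD : 1 ≤ D) : ∃ C : ℕ, ∀ {m J : ℕ} {F : Fam m J} {c : ℕ → Fin m}
    {a w w₂ e n p lam₁ lam₂ h x y K D₂ : ℕ} {g gN g₄ : ℕ → ℕ} {κ : ℝ} {B₀ A B : F.Ω → Prop}
    {T T₄ : PtT F → ℕ → MvPolynomial (Option (Fin m)) ℝ}
    {NH T₄H : LnT F → ℕ → MvPolynomial (Option (Fin m)) ℝ} {v : PtT F → Fin m → ℝ}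
    {X : PtT F → Option (Fin m) → ℝ} {ν₀ : PtT F → F.Ω},
    Rel3 F c a w e n p lam₁ lam₂ D h g gN g₄ A B T T₄ NH v X ν₀ → w ≤ w₂ → w₂ ≤ a → a + 1 ≤ J →
    Set.InjOn c (Set.Iio 3) → RelvF F c 3 a w₂ g₄ D₂ h κ B₀ T₄ →
    ChOK F c 3 (fun _ => D) a w₂ e g₄ B₀ T₄ T₄H → D + 2 ≤ D₂ → Sub A B₀ → Sub B A →
    κ * Pe F.p B₀ ≤ Pe F.p B → 0 < Pe F.p B → (∀ s, (NH s 3).totalDegree ≤ D) →
    (∀ ω, B ω → ∀ b, NBx c (T₄ (ptr F J ω)) g₄ a (F.t ω) 2 b →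
      |eval b (dir (ek (c 1)) (T₄ (ptr F J ω) 2)) - v (ptr F J ω) (c 2)| ≤
        2 ^ y * 2 ^ g₄ 1 / 2 ^ g₄ 2) →
    (∀ ω, B ω → 2 ^ (a + lam₂) / 2 ^ gN 3 / 2 ^ x ≤
      |(hcl (c 2) (NH (slam F w ω) 3) (slam F w ω)).eval (F.t ω)|) →
    (∀ ω, B ω → ∀ t : ℝ, F.t ω - rt F w ω / 2 ^ w ≤ t → t ≤ F.t ω + (1 - rt F w ω) / 2 ^ w →
      |(hcl (c 2) (NH (slam F w ω) 3) (slam F w ω)).eval t| ≤ 2 ^ (a + lam₂) / 2 ^ gN 3) →
    (∀ ω, B ω → ∀ t : ℝ, F.t ω - rt F a ω / 2 ^ a ≤ t → t ≤ F.t ω + (1 - rt F a ω) / 2 ^ a →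
      |(hcl (c 1) (NH (slam F w ω) 3) (slam F w ω)).eval t +
        v (ptr F J ω) (c 2) * (hcl (c 2) (NH (slam F w ω) 3) (slam F w ω)).eval t| ≤
        2 ^ (a + lam₁) / 2 ^ gN 3) →
    g₄ 2 + K ≤ lam₂ → lam₁ + g₄ 2 + K ≤ lam₂ + g 1 → lam₁ + g₄ 2 + K ≤ lam₂ + g₄ 1 →
    g₄ 2 ≤ g 2 + n → g₄ 1 ≤ g 1 + p → g 0 ≤ g₄ 0 + n → K ≤ p → w + K ≤ w₂ →
    C * (n + h + y + x + 1) ≤ K → (∀ l < 3, e + g l + 2 * n + h + 4 ≤ J) → False := by
  obtain ⟨cX, hbx⟩ := rel3_bx D hD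
  obtain ⟨cY, hbx2⟩ := rel3_bx2 D hD
  obtain ⟨cM, hmkv⟩ := mkv_win D
  obtain ⟨cW, hwin⟩ := win_box D
  have pw : ∀ {x y : ℕ}, x ≤ y → (2 : ℝ) ^ x ≤ 2 ^ y := fun h => pow_le_pow_right₀ (by norm_num) h
  refine ⟨cX + cY + cM + cW + 12, ?_⟩
  intro m J F c a w w₂ e n p lam₁ lam₂ h x y K D₂ g gN g₄ κ B₀ A B T T₄ NH T₄H v X ν₀ H hw hw2 haJ1
    hc hR hT4 hDD hA hBA hκ hP hNd hder hlow hup2 hup1 n1 n2 n3 n4 n5 n6 n7 n8 n9 hrm
  have haJ : a ≤ J := by omega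
  obtain ⟨T₀, hT₀⟩ : ∃ T, T = n + h + y + x + 1 := ⟨_, rfl⟩
  have hT1 : 1 ≤ T₀ := by omega
  rw [← hT₀] at n9
  obtain ⟨k, hk⟩ : ∃ k, k = (cX + cY) * T₀ := ⟨_, rfl⟩
  have hCT : (cX + cY + cM + cW + 12) * T₀ = k + cM * T₀ + cW * T₀ + 12 * T₀ := by rw [hk]; ring
  have mM : cM ≤ cM * T₀ := Nat.le_mul_of_pos_right _ hT1
  have mW : cW ≤ cW * T₀ := Nat.le_mul_of_pos_right _ hT1
  obtain ⟨hb0, hb1⟩ := hbx H haJ hBA hT4.degG hT4.depG n6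
  have hb2 := hbx2 hc H haJ hBA hT4.degG hT4.depG n6 n5 hder
  have hkX : cX * (n + h + 1) ≤ k := by
    rw [hk]
    exact Nat.mul_le_mul (by omega) (by omega)
  have hkY : cY * (n + h + y + 1) ≤ k := by
    rw [hk]
    exact Nat.mul_le_mul (by omega) (by omega)
  obtain ⟨M, hM⟩ : ∃ M : ℝ, M = 1 / 2 ^ (g₄ 2 + h + 2) := ⟨_, rfl⟩
  have hM0 : 0 < M := by rw [hM]; positivity
  obtain ⟨Rr, hRr⟩ : ∃ R : ℝ, R = 2 ^ (n + e + nlp g 0 2) := ⟨_, rfl⟩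
  have hn02 : nlp g 0 2 + g 2 + e + 2 * n + h + 4 ≤ J := by
    have h3 : (Finset.Icc 0 2).sup g + (e + 2 * n + h + 4) ≤ J := by
      have h4 : (Finset.Icc 0 2).sup g ≤ J - (e + 2 * n + h + 4) := Finset.sup_le fun l hl => by
        have := hrm l (by
          have := (Finset.mem_Icc.1 hl).2
          omega)
        omega
      have := hrm 0 (by norm_num)
      omega
    unfold nlp
    have h5 : g 2 ≤ (Finset.Icc 0 2).sup g := Finset.le_sup (Finset.mem_Icc.2 ⟨by norm_num, le_rfl⟩)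
    omega
  have hn12 : nlp g 1 2 ≤ nlp g 0 2 := by
    unfold nlp
    have h5 : (Finset.Icc 1 2).sup g ≤ (Finset.Icc 0 2).sup g :=
      Finset.sup_mono fun l hl => by
        rw [Finset.mem_Icc] at hl ⊢
        omega
    omega
  obtain ⟨k₀, hk₀⟩ : ∃ k₀ : ℝ, k₀ = 2 ^ (a + lam₂) / 2 ^ gN 3 / 2 ^ x := ⟨_, rfl⟩
  have hk00 : 0 < k₀ := by rw [hk₀]; positivity
  obtain ⟨k₁, hk₁⟩ : ∃ k₁ : ℝ, k₁ = 2 ^ cW * (2 ^ (a + lam₁) / 2 ^ gN 3) := ⟨_, rfl⟩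
  obtain ⟨δ, hδ⟩ : ∃ δ : ℝ, δ = 2 ^ cM * 2 ^ w / 2 ^ w₂ * 2 ^ x := ⟨_, rfl⟩
  obtain ⟨er, her⟩ : ∃ er : ℝ, er = 2 ^ (a + g 0 + n) / 2 ^ gN 3 *
        (1 + 2 ^ lam₁ / 2 ^ (g 1 + p) + 2 ^ lam₂ / 2 ^ (g 2 + p)) := ⟨_, rfl⟩
  obtain ⟨u, hu⟩ : ∃ u : ℝ, u = 1 / 2 ^ (g₄ 2 + K) := ⟨_, rfl⟩
  have hu0 : 0 ≤ u := by rw [hu]; positivity
  have q1 : 4 * er / k₀ * (2 ^ k / 2 ^ g₄ 0) ≤ 2 ^ (4 + 3 * n + x + k) * u := by
    have e1 := er_num (a := a) (g0 := g 0) (n := n) (x := x) (li := lam₂) (lj := lam₁)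
      (gi := g 2) (gj := g 1) (p := p) (G := 2 ^ gN 3) (by positivity)
    have e2 : 4 * er / k₀ = 4 * (2 ^ (g 0 + n + x) * (1 / 2 ^ lam₂ + 1 / 2 ^ (g 2 + p) +
        2 ^ lam₁ / (2 ^ lam₂ * 2 ^ (g 1 + p)))) := by
      rw [← e1, her, hk₀]
      ring
    rw [e2]
    have r1 : (1 : ℝ) / 2 ^ lam₂ ≤ 2 ^ n * u := by
      rw [hu, mul_one_div, div_le_div_iff₀ (by positivity) (by positivity), one_mul, ← pow_add]
      exact pw (by omega)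
    have r2 : (1 : ℝ) / 2 ^ (g 2 + p) ≤ 2 ^ n * u := by
      rw [hu, mul_one_div, div_le_div_iff₀ (by positivity) (by positivity), one_mul, ← pow_add]
      exact pw (by omega)
    have r3 : (2 : ℝ) ^ lam₁ / (2 ^ lam₂ * 2 ^ (g 1 + p)) ≤ 2 ^ n * u := by
      rw [hu, mul_one_div, div_le_div_iff₀ (by positivity) (by positivity), ← pow_add,
        ← pow_add, ← pow_add]
      exact pw (by omega)
    have r4 : (2 : ℝ) ^ g 0 / 2 ^ g₄ 0 ≤ 2 ^ n := by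
      rw [div_le_iff₀ (by positivity), ← pow_add]
      exact pw (by omega)
    have r5 : 1 / 2 ^ lam₂ + 1 / 2 ^ (g 2 + p) + 2 ^ lam₁ / (2 ^ lam₂ * 2 ^ (g 1 + p)) ≤
        4 * (2 ^ n * u) := by
      have : 0 ≤ 2 ^ n * u := by positivity
      linarith
    calc 4 * (2 ^ (g 0 + n + x) * (1 / 2 ^ lam₂ + 1 / 2 ^ (g 2 + p) +
        2 ^ lam₁ / (2 ^ lam₂ * 2 ^ (g 1 + p)))) * (2 ^ k / 2 ^ g₄ 0) ≤
        4 * (2 ^ (g 0 + n + x) * (4 * (2 ^ n * u))) * (2 ^ k / 2 ^ g₄ 0) :=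
          mul_le_mul_of_nonneg_right (mul_le_mul_of_nonneg_left (mul_le_mul_of_nonneg_left r5
            (by positivity)) (by norm_num)) (by positivity)
      _ = 16 * 2 ^ (n + x + n + k) * u * (2 ^ g 0 / 2 ^ g₄ 0) := by
          rw [pow_add 2 (n + x + n) k, pow_add 2 (n + x) n, show g 0 + n + x = g 0 + (n + x) by
            omega, pow_add 2 (g 0) (n + x)]
          ring
      _ ≤ 16 * 2 ^ (n + x + n + k) * u * 2 ^ n :=
          mul_le_mul_of_nonneg_left r4 (by positivity)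
      _ = _ := by
          rw [show 4 + 3 * n + x + k = 4 + (n + x + n + k) + n by omega, pow_add 2 _ n,
            pow_add 2 4]
          norm_num
          ring
  have q2 : 4 * k₁ / k₀ * (2 ^ k / 2 ^ g₄ 1) ≤ 2 ^ (2 + cW + x + k) * u := by
    have e1 : 4 * k₁ / k₀ * (2 ^ k / 2 ^ g₄ 1) = 2 ^ (2 + cW + x + k) *
        (2 ^ lam₁ / (2 ^ lam₂ * 2 ^ g₄ 1)) := by
      rw [hk₁, hk₀, pow_add 2 a lam₁, pow_add 2 a lam₂, pow_add 2 (2 + cW + x) k,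
        pow_add 2 (2 + cW) x, pow_add 2 2 cW]
      field_simp
      norm_num
    rw [e1, hu]
    refine mul_le_mul_of_nonneg_left ?_ (by positivity)
    rw [div_le_div_iff₀ (by positivity) (by positivity), one_mul, ← pow_add, ← pow_add]
    exact pw (by omega)
  have q3 : 4 * δ * (2 ^ k / 2 ^ g₄ 2) ≤ 2 ^ (2 + cM + x + k) * u := by
    have e1 : 4 * δ * (2 ^ k / 2 ^ g₄ 2) = 2 ^ (2 + cM + x + k) * (2 ^ w / (2 ^ w₂ * 2 ^ g₄ 2)) := by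
      rw [hδ, pow_add 2 (2 + cM + x) k, pow_add 2 (2 + cM) x, pow_add 2 2 cM]
      field_simp
      norm_num
    rw [e1, hu]
    refine mul_le_mul_of_nonneg_left ?_ (by positivity)
    rw [div_le_div_iff₀ (by positivity) (by positivity), one_mul, ← pow_add, ← pow_add]
    exact pw (by omega)
  refine nv_end2 (F := F) (c := c) (D := D) (D' := D) (D₂ := D₂) (a := a) (w := w) (w₂ := w₂)
    (e := e) (h := h) (g := g₄) (κ := κ) (M := M) (R := Rr) (er := er) (k₀ := k₀) (k₁ := k₁)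
    (δ := δ) (Y := 2 ^ k / 2 ^ g₄ 0) (Y₁ := 2 ^ k / 2 ^ g₄ 1) (Yu := 2 ^ k / 2 ^ g₄ 2)
    (B₀ := B₀) (B := B) (G := T₄) (H := T₄H) hc hR hT4 hDD (fun ω h => hA ω (hBA ω h)) hκ hP hw
    hw2 haJ ν₀ (fun y => X y (some (c 1))) (fun y => v y (c 2))
    (fun y => X y (some (c 2)) - v y (c 2) * X y (some (c 1)))
    (fun s => hcl (c 0) (NH s 3) s) (fun s => hcl (c 1) (NH s 3) s) (fun s => hcl (c 2) (NH s 3) s)
    (fun s => hcl_deg _ (hNd s) s) (fun s => hcl_deg _ (hNd s) s) (fun s => hcl_deg _ (hNd s) s)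
    H.nu (fun ω hω => ?_) (fun ω hω => ?_) hM0 (fun ω hω => ?_) hk00 (fun ω hω => ?_)
    (by rw [hδ]; positivity) (fun ω hω t ht => ?_) (fun ω hω t ht => ?_) (fun ω hω t ht => ?_)
    (by positivity) (fun ω hω b hb => ?_) (by positivity) (fun ω hω b hb => ?_) (by positivity)
    (fun ω hω b hb => ?_) ?_ ?_ ?_
  · rw [hRr]
    exact (H.slv ω hω).trans (pw (by omega))
  · rw [hRr]
    exact H.sl2 ω hω
  · refine (H.ve2 ω hω).trans ?_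
    rw [hM, div_mul_eq_mul_div, one_mul]
    exact div_le_div_of_nonneg_left (by positivity) (by positivity) (pw (by omega))
  · rw [hk₀]
    exact hlow ω hω
  · refine (hmkv (w := w) (w' := w₂) hw (by omega) (hcl_deg _ (hNd _) _) (hup2 ω hω) t ht).trans
      (le_of_eq ?_)
    rw [hδ, hk₀]
    field_simp
  · rw [hk₁]
    obtain ⟨P, hPe⟩ : ∃ P : Polynomial ℝ, P = hcl (c 1) (NH (slam F w ω) 3) (slam F w ω) +
        Polynomial.C (v (ptr F J ω) (c 2)) * hcl (c 2) (NH (slam F w ω) 3) (slam F w ω) := ⟨_, rfl⟩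
    have hPv : ∀ t, P.eval t = (hcl (c 1) (NH (slam F w ω) 3) (slam F w ω)).eval t +
        v (ptr F J ω) (c 2) * (hcl (c 2) (NH (slam F w ω) 3) (slam F w ω)).eval t := fun t => by
      rw [hPe, Polynomial.eval_add, Polynomial.eval_mul, Polynomial.eval_C]
    have h1 := hwin (w := a) (P := P) (ω := ω) haJ1 (by
      rw [hPe]
      refine (Polynomial.natDegree_add_le _ _).trans (max_le (hcl_deg _ (hNd _) _) ?_)
      exact (Polynomial.natDegree_C_mul_le _ _).trans (hcl_deg _ (hNd _) _)) (fun t t1 t2 => by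
      rw [hPv]
      exact hup1 ω hω t t1 t2) t ht
    rw [hPv] at h1
    refine le_trans (le_of_eq ?_) h1
    congr 1
    ring
  · rw [her]
    refine le_trans (le_of_eq ?_) (H.rel ω hω t ht)
    congr 1
    ring
  · exact (hb0 ω hω b hb).trans (div_le_div_of_nonneg_right (pw hkX) (by positivity))
  · exact (hb1 ω hω b hb).trans (div_le_div_of_nonneg_right (pw hkX) (by positivity))
  · exact (hb2 ω hω b hb).trans (div_le_div_of_nonneg_right (pw hkY) (by positivity))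
  · obtain ⟨Z, hZ⟩ : ∃ Z, Z = 4 + 3 * n + x + k + cW + cM := ⟨_, rfl⟩
    have r1 : (2 : ℝ) ^ (4 + 3 * n + x + k) * u ≤ 2 ^ Z * u :=
      mul_le_mul_of_nonneg_right (pw (by omega)) hu0
    have r2 : (2 : ℝ) ^ (2 + cW + x + k) * u ≤ 2 ^ Z * u :=
      mul_le_mul_of_nonneg_right (pw (by omega)) hu0
    have r3 : (2 : ℝ) ^ (2 + cM + x + k) * u ≤ 2 ^ Z * u :=
      mul_le_mul_of_nonneg_right (pw (by omega)) hu0
    have r4 : (4 : ℝ) * (2 ^ Z * u) ≤ M := by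
      rw [hM, hu, show (4 : ℝ) = 2 ^ 2 by norm_num, mul_one_div, ← mul_div_assoc, ← pow_add,
        div_le_div_iff₀ (by positivity) (by positivity), one_mul, ← pow_add]
      exact pw (by omega)
    have r5 : 0 ≤ 2 ^ Z * u := by positivity
    linarith
  · rw [hM, hRr, div_mul_eq_mul_div, one_mul, le_div_iff₀ (by positivity)]
    have h1 : 2 * (2 : ℝ) ^ (n + e + nlp g 0 2) + 1 ≤ 2 ^ (n + e + nlp g 0 2 + 2) := by
      have : (1 : ℝ) ≤ 2 ^ (n + e + nlp g 0 2) := one_le_pow₀ (by norm_num)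
      rw [pow_add 2 (n + e + nlp g 0 2) 2]
      linarith
    refine (mul_le_mul_of_nonneg_right h1 (by positivity)).trans ?_
    rw [← pow_add]
    exact pw (by omega)
  · rw [hM]
    have e1 : (2 : ℝ) ^ h * (3 * (1 / 2 ^ (g₄ 2 + h + 2))) = 3 / 4 * (1 / 2 ^ g₄ 2) := by
      rw [pow_add, pow_add]
      field_simp
      norm_num
    rw [e1]
    have : (0 : ℝ) < 1 / 2 ^ g₄ 2 := by positivity
    linarith

end Pool.NVX
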