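import Pool.Agent.H39.NV.Bal3
import Pool.Agent.H31.NV.St1
import Pool.Agent.H31.NV.Dv2
import Pool.Agent.H87.NV.End
import Pool.Agent.H80.NV.Pln
import Pool.Agent.H80.NV.Shd
import Pool.Agent.H39.NV.Rem
import Pool.Agent.H82.NV.Sep
import Pool.Agent.H87.GEN.Nod
import Pool.Agent.H2.GEN.Iso

/-!
# The relation of the slopes, three coordinates and the target

`rel_three`.
-/

set_option autoImplicit false

namespace Pool.NVX

open Finset Real MvPolynomial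
open Pool.Agent.H49.Ent Pool.Agent.H32.Dense Pool.STK Pool.KA Pool.KSAT Pool.K2S Pool.PB Pool.S6C
open Pool.GEN Pool.CHT
open Pool.D2R (dd hs dd_add dd_smul dd_congr hs_add_right hs_smul_right hs_smul_left)
open Pool.F5 (eo bdS bdS_slam)
open Pool.SHR (dir mvp RelvH Shr ShrY relvF_low lab_near slp_cmp)
open Pool.PB.Trl (rt rt_mem t_rt)
open Pool.FLF (Fam.sub)
open Pool.Z3 (jn jn_lt jn_self nbx_jn join_top)
open Pool.ISO (cwn cwn_slam chOK_win)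

variable {m J : ℕ}

/-- The numbers of the error of the relation. -/
theorem rl3_num {A G0 G P₁ P₂ L₁ L₂ x₁ x₂ cs N' K Kb M J3 Z₁ Z₂ E₁ E₂ : ℝ} (hA : 0 < A)
    (hG0 : 0 < G0) (hG : 0 < G) (hP1 : 0 < P₁) (hP2 : 0 < P₂) (hL1 : 0 ≤ L₁) (hL2 : 0 ≤ L₂)
    (hx1 : 0 ≤ x₁) (hx1P : x₁ ≤ P₁) (hx2 : 0 ≤ x₂) (hx2P : x₂ ≤ P₂) (hcs : 1 ≤ cs) (hN' : 1 ≤ N')
    (hK : 1 ≤ K) (hKb : 1 ≤ Kb) (hM : 1 ≤ M) (hJ3 : J3 = K / G) (hZ1 : 0 ≤ Z₁)
    (hZ1' : Z₁ ≤ 1 / P₁) (hZ2 : 0 ≤ Z₂) (hZ2' : Z₂ ≤ 1 / P₂)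
    (hE1 : E₁ ≤ Kb * (x₁ * J3 + L₁ / G)) (hE2 : E₂ ≤ Kb * (x₂ * J3 + L₂ / G)) :
    A * G0 * (cs * (N' * (J3 + Z₁ * E₁ + Z₂ * E₂) + M * J3)) ≤
      A * G0 * (4 * cs * N' * Kb * K * M) / G * (1 + L₁ / P₁ + L₂ / P₂) := by
  have key : ∀ {P L x Z E : ℝ}, 0 < P → 0 ≤ L → 0 ≤ x → x ≤ P → 0 ≤ Z → Z ≤ 1 / P →
      E ≤ Kb * (x * J3 + L / G) → Z * E ≤ Kb * K * (1 + L / P) / G := by
    intro P L x Z E hP hL hx hxP hZ hZ' hE
    have h0 : 0 ≤ x * J3 + L / G := by rw [hJ3]; positivity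
    calc Z * E ≤ Z * (Kb * (x * J3 + L / G)) := mul_le_mul_of_nonneg_left hE hZ
      _ ≤ 1 / P * (Kb * (x * J3 + L / G)) :=
          mul_le_mul_of_nonneg_right hZ' (mul_nonneg (by linarith) h0)
      _ = Kb * (x / P * K + L / P) / G := by rw [hJ3]; field_simp
      _ ≤ Kb * (K + K * (L / P)) / G := by
          refine div_le_div_of_nonneg_right (mul_le_mul_of_nonneg_left ?_ (by linarith)) hG.le
          have h1 : x / P ≤ 1 := (div_le_one hP).2 hxP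
          have h2 : 0 ≤ L / P := by positivity
          have h3 : x / P * K ≤ 1 * K := mul_le_mul_of_nonneg_right h1 (by linarith)
          nlinarith
      _ = _ := by ring
  have k1 := key hP1 hL1 hx1 hx1P hZ1 hZ1' hE1
  have k2 := key hP2 hL2 hx2 hx2P hZ2 hZ2' hE2
  obtain ⟨y₁, hy₁⟩ : ∃ y, y = L₁ / P₁ := ⟨_, rfl⟩
  obtain ⟨y₂, hy₂⟩ : ∃ y, y = L₂ / P₂ := ⟨_, rfl⟩
  rw [← hy₁] at k1 ⊢
  rw [← hy₂] at k2 ⊢
  have y1 : 0 ≤ y₁ := by rw [hy₁]; positivity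
  have y2 : 0 ≤ y₂ := by rw [hy₂]; positivity
  have hKK : 1 ≤ Kb * K := by nlinarith
  have h1 : J3 + Z₁ * E₁ + Z₂ * E₂ ≤ 3 * (Kb * K) * (1 + y₁ + y₂) / G := by
    have e1 : J3 ≤ Kb * K * 1 / G := by
      rw [hJ3]
      refine div_le_div_of_nonneg_right ?_ hG.le
      nlinarith
    have e2 : Kb * K * 1 / G + Kb * K * (1 + y₁) / G + Kb * K * (1 + y₂) / G ≤
        3 * (Kb * K) * (1 + y₁ + y₂) / G := by
      rw [← add_div, ← add_div]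
      refine div_le_div_of_nonneg_right ?_ hG.le
      nlinarith
    linarith
  have h2 : N' * (J3 + Z₁ * E₁ + Z₂ * E₂) + M * J3 ≤
      4 * N' * Kb * K * M * (1 + y₁ + y₂) / G := by
    have e1 : N' * (J3 + Z₁ * E₁ + Z₂ * E₂) ≤ N' * (3 * (Kb * K) * (1 + y₁ + y₂) / G) :=
      mul_le_mul_of_nonneg_left h1 (by linarith)
    have e3 : 1 ≤ N' * Kb := by nlinarith
    have e2 : M * J3 ≤ M * (N' * Kb * K * (1 + y₁ + y₂) / G) := by
      refine mul_le_mul_of_nonneg_left ?_ (by linarith)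
      rw [hJ3]
      refine div_le_div_of_nonneg_right ?_ hG.le
      have e4 : K ≤ N' * Kb * K := by nlinarith
      have e5 : 0 ≤ N' * Kb * K := by positivity
      nlinarith
    have e4 : N' * (3 * (Kb * K) * (1 + y₁ + y₂) / G) ≤
        M * (N' * (3 * (Kb * K) * (1 + y₁ + y₂) / G)) := by
      have : 0 ≤ N' * (3 * (Kb * K) * (1 + y₁ + y₂) / G) := by positivity
      nlinarith
    calc _ ≤ M * (N' * (3 * (Kb * K) * (1 + y₁ + y₂) / G)) +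
        M * (N' * Kb * K * (1 + y₁ + y₂) / G) := by linarith
      _ = _ := by ring
  calc A * G0 * (cs * (N' * (J3 + Z₁ * E₁ + Z₂ * E₂) + M * J3)) ≤
      A * G0 * (cs * (4 * N' * Kb * K * M * (1 + y₁ + y₂) / G)) :=
        mul_le_mul_of_nonneg_left (mul_le_mul_of_nonneg_left h2 (by linarith)) (by positivity)
    _ = _ := by ring

theorem nlp_ge (g : ℕ → ℕ) {l i j : ℕ} (h1 : l ≤ j) (h2 : j ≤ i) : g j ≤ nlp g l i + g i := by
  unfold nlp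
  have h3 : g j ≤ (Finset.Icc l i).sup g := Finset.le_sup (Finset.mem_Icc.2 ⟨h1, h2⟩)
  omega

theorem nlp_01 (g : ℕ → ℕ) : nlp g 0 1 + g 1 = max (g 0) (g 1) := by
  unfold nlp
  have h1 : (Finset.Icc 0 1).sup g = max (g 0) (g 1) := by
    have h2 : Finset.Icc 0 1 = {0, 1} := by decide
    rw [h2, Finset.sup_insert, Finset.sup_singleton]
  rw [h1]
  omega

/-- **The plane of a ball and the relation of its slopes**, three coordinates and the target. -/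
structure Rel3 (F : Fam m J) (c : ℕ → Fin m) (a w e n p lam₁ lam₂ D h : ℕ) (g gN g₄ : ℕ → ℕ)
    (A B : F.Ω → Prop) (T T₄ : PtT F → ℕ → MvPolynomial (Option (Fin m)) ℝ)
    (NH : LnT F → ℕ → MvPolynomial (Option (Fin m)) ℝ) (v : PtT F → Fin m → ℝ)
    (X : PtT F → Option (Fin m) → ℝ) (ν₀ : PtT F → F.Ω) : Prop where
  x0 : ∀ ω, B ω → X (ptr F J ω) none = 0
  x1 : ∀ ω, B ω → X (ptr F J ω) (some (c 0)) = 1
  nu : ∀ ω, B ω → ptr F J (ν₀ (ptr F J ω)) = ptr F J ω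
  sl1 : ∀ ω, B ω → |X (ptr F J ω) (some (c 1))| ≤ 2 ^ (n + e + nlp g 0 1)
  slv : ∀ ω, B ω → |v (ptr F J ω) (c 2)| ≤ 2 ^ (n + e + nlp g 1 2)
  sl2 : ∀ ω, B ω → |X (ptr F J ω) (some (c 2)) -
    v (ptr F J ω) (c 2) * X (ptr F J ω) (some (c 1))| ≤ 2 ^ (n + e + nlp g 0 2)
  ve1 : ∀ ω, B ω → |(bd F ω (some (c 1)) - bd F (ν₀ (ptr F J ω)) (some (c 1))) -
    X (ptr F J ω) (some (c 1)) * (bd F ω (some (c 0)) - bd F (ν₀ (ptr F J ω)) (some (c 0)))| ≤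
      2 ^ a / 2 ^ (g 1 + p)
  ve2 : ∀ ω, B ω → |(bd F ω (some (c 2)) - bd F (ν₀ (ptr F J ω)) (some (c 2))) -
    v (ptr F J ω) (c 2) * (bd F ω (some (c 1)) - bd F (ν₀ (ptr F J ω)) (some (c 1))) -
    (X (ptr F J ω) (some (c 2)) - v (ptr F J ω) (c 2) * X (ptr F J ω) (some (c 1))) *
      (bd F ω (some (c 0)) - bd F (ν₀ (ptr F J ω)) (some (c 0)))| ≤ 2 ^ a / 2 ^ (g 2 + p)
  tt1 : ∀ ω ω', B ω → B ω' → slam F a ω = slam F a ω' →
    |X (ptr F J ω) (some (c 1)) - X (ptr F J ω') (some (c 1))| ≤ 2 ^ (g 0 + n) / 2 ^ g 1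
  tt2 : ∀ ω ω', B ω → B ω' → slam F a ω = slam F a ω' →
    |(X (ptr F J ω) (some (c 2)) - v (ptr F J ω) (c 2) * X (ptr F J ω) (some (c 1))) -
      (X (ptr F J ω') (some (c 2)) - v (ptr F J ω') (c 2) * X (ptr F J ω') (some (c 1)))| ≤
      2 ^ (g 0 + n) / 2 ^ g 2
  pl : ∀ ω, B ω → ∀ α β : ℝ, |α| ≤ 2 → |β| ≤ 2 → ∀ l < 3,
    |(bt F ω + α • vl F a ω + β • ((1 / 2 ^ g 0 : ℝ) • X (ptr F J ω))) (some (c l)) -
      eval (bt F ω + α • vl F a ω + β • ((1 / 2 ^ g 0 : ℝ) • X (ptr F J ω)))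
        (T (ptr F J ω) l)| ≤ 2 ^ n / 2 ^ g l
  sep : ∀ ω, B ω → Sep F c A (2 ^ a / 2 ^ (g 0 + h + 3)) (D + 1) ω
  rep : ∀ ω, B ω → ∃ (ν₁ ν₂ : F.Ω) (δ : ℝ), A ν₁ ∧ ptr F J ν₁ = ptr F J ω ∧ A ν₂ ∧
    ptr F J ν₂ = ptr F J ω ∧ |δ| ≤ 2 ^ (h + 3) ∧
    (1 / 2 ^ g 0 : ℝ) • X (ptr F J ω) = δ • (vl F a ν₁ - vl F a ν₂)
  pth : Pth F c 3 a n g A T
  pth4 : Pth F c 3 a n g₄ A T₄
  dp : ∀ ω, A ω → ∃ p' q : ℝ, ∀ ν, A ν → ptr F J ν = ptr F J ω →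
    |bd F ν (some (c 1)) - (p' + q * bd F ν (some (c 0)))| ≤ 2 ^ a / 2 ^ (g 1 + p)
  rel : ∀ ω, B ω → ∀ t : ℝ, |t - F.t ω| ≤ 1 / 2 ^ a →
    |(hcl (c 0) (NH (slam F w ω) 3) (slam F w ω)).eval t +
      ((hcl (c 1) (NH (slam F w ω) 3) (slam F w ω)).eval t +
        v (ptr F J ω) (c 2) * (hcl (c 2) (NH (slam F w ω) 3) (slam F w ω)).eval t) *
        X (ptr F J ω) (some (c 1)) +
      (hcl (c 2) (NH (slam F w ω) 3) (slam F w ω)).eval t *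
        (X (ptr F J ω) (some (c 2)) - v (ptr F J ω) (c 2) * X (ptr F J ω) (some (c 1)))| ≤
      2 ^ (a + g 0 + n) / 2 ^ gN 3 *
        (1 + 2 ^ lam₁ / 2 ^ (g 1 + p) + 2 ^ lam₂ / 2 ^ (g 2 + p))
  xx : ∀ ω, B ω → ∀ t : ℝ, |t - F.t ω| ≤ 1 / 2 ^ a →
    |hs (NH (slam F w ω) 3) (bt F ω + (t - F.t ω) • bd F ω) (X (ptr F J ω)) (X (ptr F J ω))| ≤
      2 ^ (g 0 + g 0 + n) / 2 ^ gN 3 *
        (1 + 2 ^ lam₁ / 2 ^ (g 1 + p) + 2 ^ lam₂ / 2 ^ (g 2 + p))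

/-- **The relation of the slopes.** -/
theorem rel_three (m D : ℕ) (hD : 1 ≤ D) : ∃ (C : ℕ) (C₁ : ℝ), 1 ≤ C₁ ∧
    ∀ {J : ℕ} {F : Fam m J} {c : ℕ → Fin m} {a w w₂ a₂ a₃ e E h s p lam₁ lam₂ : ℕ}
    {gN g g₂ g₃ g₄ Y : ℕ → ℕ} {κ θ : ℝ} {B₀ B : F.Ω → Prop}
    {N T T₂ T₃ T₄ : PtT F → ℕ → MvPolynomial (Option (Fin m)) ℝ}
    {NH TH T₂H T₃H T₄H : LnT F → ℕ → MvPolynomial (Option (Fin m)) ℝ}
    {v : PtT F → Fin m → ℝ} {v' : LnT F → Fin m → ℝ},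
    Set.InjOn c (Set.Iio 4) → w ≤ a → w₂ ≤ a → a ≤ a₂ → a₂ ≤ a₃ → a₃ ≤ J → 0 < Pe F.p B →
    Sub B B₀ → ChOK F c 4 (fun _ => D) a w E gN B N NH →
    ChOK F c 3 (fun _ => D) a a e g B₀ T TH → RelvH F c 3 a a g Y D h κ B₀ T →
    ChOK F c 3 (fun _ => D) a₂ a₂ e g₂ B₀ T₂ T₂H → RelvF F c 3 a₂ a₂ g₂ D h κ B₀ T₂ →
    ChOK F c 2 (fun _ => D) a₃ a₃ e g₃ B₀ T₃ T₃H →
    ChOK F c 3 (fun _ => D) a w₂ e g₄ B₀ T₄ T₄H →
    0 ≤ κ → κ * 2 ^ C * Pe F.p B₀ ≤ Pe F.p B → κ * 2 ^ C ≤ 1 →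
    (∀ (B' : F.Ω → Prop) (hB' : 0 < Pe F.p B'), Sub B' B → Pe F.p B ≤ 2 ^ C * Pe F.p B' →
      (Fam.sub F B' hB').Tm θ) → 0 ≤ θ → C₁ * (θ + 1) ≤ ((J : ℝ) - a₃) * Real.log 2 →
    C₁ * (θ + 1) ≤ s → h ≤ s → (∀ l < 3, gN l ≤ g l + s) →
    (∀ j < 3, Y j ≤ J) → (∀ l < 4, e + E + gN l + C * (s + 1) ≤ J) →
    (∀ l < 3, e + E + g l + C * (s + 1) ≤ J) → (∀ l < 3, e + g₂ l + C * (s + 1) ≤ J) →
    (∀ l < 2, e + g₃ l + C * (s + 1) ≤ J) → (∀ l < 3, e + g₄ l + C * (s + 1) ≤ J) →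
    C * (s + 1) ≤ gN 3 → (∀ ω, B ω → v (ptr F J ω) = v' (slam F a ω)) →
    (∀ ω, B ω → v (ptr F J ω) (c 0) = 0 ∧ v (ptr F J ω) (c 1) = 1) →
    (∀ ω, B ω → ShrY F c a (g 1) g T v s 2 ω) →
    (∀ ω, B ω → ∀ t : ℝ, F.t ω - rt F a ω / 2 ^ a ≤ t → t ≤ F.t ω + (1 - rt F a ω) / 2 ^ a →
      |(hcl (c 1) (NH (slam F w ω) 3) (slam F w ω)).eval t +
        v (ptr F J ω) (c 2) * (hcl (c 2) (NH (slam F w ω) 3) (slam F w ω)).eval t| ≤
        2 ^ (a + lam₁) / 2 ^ gN 3) →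
    (∀ ω, B ω → ∀ t : ℝ, F.t ω - rt F a ω / 2 ^ a ≤ t → t ≤ F.t ω + (1 - rt F a ω) / 2 ^ a →
      |(hcl (c 2) (NH (slam F w ω) 3) (slam F w ω)).eval t| ≤ 2 ^ (a + lam₂) / 2 ^ gN 3) →
    g 1 + p + a₃ + C * (s + 1) ≤ g₃ 1 + a → g₂ 1 + p + a₃ + C * (s + 1) ≤ g₃ 1 + a →
    g 2 + p + a₂ + C * (s + 1) ≤ g₂ 2 + a →
    ∃ (A B' : F.Ω → Prop) (X : PtT F → Option (Fin m) → ℝ) (ν₀ : PtT F → F.Ω),
      Sub A B ∧ Sub B' A ∧ Pe F.p B / 2 ^ C ≤ Pe F.p B' ∧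
      Rel3 F c a w e (C * (s + 1)) p lam₁ lam₂ D h g gN g₄ A B' T T₄ NH v X ν₀ := by
  classical
  obtain ⟨cJ, hjoin⟩ := join_top D 3 hD
  obtain ⟨cB, hbox⟩ := box_dir D 4
  obtain ⟨cP, rP, hrP, hpth4⟩ := pth_fam m D 4
  obtain ⟨cQ, rQ, hrQ, hpth3⟩ := pth_fam m D 3
  obtain ⟨cR, rR, hrR, hpth2⟩ := pth_fam m D 2
  obtain ⟨cV, hdv⟩ := dvel D
  obtain ⟨cW, hdw⟩ := dvel_two D
  obtain ⟨cL, hnear⟩ := lab_near D 3 hD
  obtain ⟨cK, hcmp⟩ := slp_cmp D 3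
  obtain ⟨cS, hstar⟩ := star D 3
  obtain ⟨cU, hstar1⟩ := star_one D 2
  obtain ⟨cA, hbal⟩ := bal_three D hD
  obtain ⟨cM, hder⟩ := der_shr D hD
  have pw : ∀ {x y : ℕ}, x ≤ y → (2 : ℝ) ^ x ≤ 2 ^ y := fun h => pow_le_pow_right₀ (by norm_num) h
  obtain ⟨q, hq⟩ : ∃ q, q = cA * (cP + cM + 3) := ⟨_, rfl⟩
  obtain ⟨u, hu⟩ : ∃ u, u = cS + q + cS * (q + 1) + cJ + 3 * cB + cU + cU * (q + 1) + cM + cK +
      cK * (cL + 1) + q + 9 := ⟨_, rfl⟩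
  obtain ⟨zz, hzz⟩ : ∃ zz, zz = q + cQ + cW + cR + cV + cK * (cL + 1) + cM + 9 := ⟨_, rfl⟩
  obtain ⟨C, hC⟩ : ∃ C, C = 2 * u + 2 * zz + cL + 2 * cJ + cP + cQ + cR + D + 60 := ⟨_, rfl⟩
  obtain ⟨C₁, hC₁⟩ : ∃ C₁, C₁ = rP + rQ + rR := ⟨_, rfl⟩
  refine ⟨C, C₁, by rw [hC₁]; linarith, ?_⟩
  intro J F c a w w₂ a₂ a₃ e E h s p lam₁ lam₂ gN g g₂ g₃ g₄ Y κ θ B₀ B N T T₂ T₃ T₄ NH TH T₂H T₃H
    T₄H v v' hc hwa hw2a ha2 ha3 ha3J hPB hB hN hT hRH hT2 hR2 hT3 hT4 hκ0 hκP hκ1 hTm hθ hθJ hθs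
    hhs hgx hYJ hrN hrg hr2 hr3 hr4 hgN3 hvv hv01 hshr hup1 hup2 n1 n2 n3
  have ha2J : a₂ ≤ J := ha3.trans ha3J
  have haJ : a ≤ J := ha2.trans ha2J
  obtain ⟨T₀, hT₀⟩ : ∃ T₀, T₀ = s + 1 := ⟨_, rfl⟩
  have hT1 : 1 ≤ T₀ := by omega
  rw [← hT₀] at hrN hrg hr2 hr3 hr4 hgN3 n1 n2 n3 ⊢
  have hCc : 2 * (u * T₀) + 2 * (zz * T₀) + cL * T₀ + 2 * (cJ * T₀) + cP * T₀ + cQ * T₀ +
      cR * T₀ + D * T₀ + 60 * T₀ = C * T₀ := by rw [hC]; ring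
  have hT0s : s ≤ T₀ := by omega
  have mT : ∀ x : ℕ, x ≤ x * T₀ := fun x => Nat.le_mul_of_pos_right _ hT1
  have hcc3 : Set.InjOn c (Set.Iio 3) := hc.mono fun x hx => by
    rw [Set.mem_Iio] at hx ⊢
    omega
  have hcc2 : Set.InjOn c (Set.Iio 2) := hc.mono fun x hx => by
    rw [Set.mem_Iio] at hx ⊢
    omega
  -- the shares
  have h2C : (0 : ℝ) < 2 ^ C := by positivity
  have shr : ∀ (k : ℕ) (B' : F.Ω → Prop), k ≤ C → Pe F.p B / 2 ^ k ≤ Pe F.p B' →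
      0 < Pe F.p B' ∧ Pe F.p B ≤ 2 ^ C * Pe F.p B' := by
    intro k B' hk h1
    have h2 : (0 : ℝ) < 2 ^ k := by positivity
    refine ⟨(div_pos hPB h2).trans_le h1, ?_⟩
    rw [div_le_iff₀ h2] at h1
    calc Pe F.p B ≤ Pe F.p B' * 2 ^ k := h1
      _ ≤ Pe F.p B' * 2 ^ C := mul_le_mul_of_nonneg_left (pw hk) (Pe_nonneg F.isLaw B')
      _ = _ := mul_comm _ _
  have shk : ∀ (k : ℕ) (B' : F.Ω → Prop), k ≤ C → Pe F.p B / 2 ^ k ≤ Pe F.p B' →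
      κ * 2 ^ (C - k) * Pe F.p B₀ ≤ Pe F.p B' := by
    intro k B' hk h1
    refine le_trans ?_ h1
    rw [le_div_iff₀ (by positivity)]
    refine le_trans (le_of_eq ?_) hκP
    have e1 : (2 : ℝ) ^ C = 2 ^ (C - k) * 2 ^ k := by rw [← pow_add, Nat.sub_add_cancel hk]
    rw [e1]
    ring
  have shj : ∀ (k j : ℕ) (B' : F.Ω → Prop), k + j ≤ C → Pe F.p B / 2 ^ k ≤ Pe F.p B' →
      κ * 2 ^ j * Pe F.p B₀ ≤ Pe F.p B' := by
    intro k j B' hk h1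
    refine le_trans ?_ (shk k B' (by omega) h1)
    exact mul_le_mul_of_nonneg_right (mul_le_mul_of_nonneg_left (pw (by omega)) hκ0)
      (Pe_nonneg F.isLaw B₀)
  have hP0 : 0 < Pe F.p B₀ := hPB.trans_le (Pe_mono F.isLaw hB)
  have hfr : ∀ (k j : ℕ) (A A' : F.Ω → Prop), Pe F.p B / 2 ^ k ≤ Pe F.p A →
      Pe F.p A / 2 ^ j ≤ Pe F.p A' → Pe F.p B / 2 ^ (k + j) ≤ Pe F.p A' := by
    intro k j A A' h1 h2
    refine le_trans ?_ h2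
    rw [pow_add, ← div_div]
    exact div_le_div_of_nonneg_right h1 (by positivity)
  have half : ∀ (k : ℕ) (A A' : F.Ω → Prop), Pe F.p B / 2 ^ k ≤ Pe F.p A →
      Pe F.p A / 2 ≤ Pe F.p A' → Pe F.p B / 2 ^ (k + 1) ≤ Pe F.p A' := by
    intro k A A' h1 h2
    exact hfr k 1 A A' h1 (by rwa [pow_one])
  -- the joined chart
  have hN1 : ChOK F c 4 (fun _ => D) a a (e + E) gN B N (cwn w a NH) :=
    chOK_win (hN.mono le_rfl (fun _ => le_rfl) le_rfl (Nat.le_add_left _ _)) hwa haJ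
  have hRF : RelvF F c 3 a a g D h κ B₀ T := hRH.relv
  have hRFj : RelvF F c 3 a a g D h (1 / 2 ^ C) B T :=
    hRF.sub hB (κ₁ := κ * 2 ^ C) hκP (by positivity) (le_of_eq (by field_simp))
  have hκ4 : (1 : ℝ) / 2 ^ C * 2 ^ 3 ≤ 1 := by
    rw [div_mul_eq_mul_div, one_mul, div_le_one h2C]
    exact pw (by omega)
  obtain ⟨g', hg'⟩ : ∃ g' : ℕ → ℕ, g' = fun _ => gN 3 - cJ * (h + 1) := ⟨_, rfl⟩
  have hcJh : cJ * (h + 1) ≤ cJ * T₀ := Nat.mul_le_mul_left _ (by omega)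
  have hcJN : cJ * (h + 1) ≤ gN 3 := by omega
  have hg'3 : g' 3 + cJ * (h + 1) = gN 3 := by rw [hg']; exact Nat.sub_add_cancel hcJN
  obtain ⟨B₁, b1, p1, -, hJ1⟩ := hjoin (e := e) (E := e + E) (x := s) (g' := g') hc hRFj hκ4
    (hT.sub hB) hN1 hgx (Nat.le_add_right _ _) (by omega) (by omega)
  obtain ⟨e₁, he₁⟩ : ∃ e₁, e₁ = e + E + 2 * cJ * (h + 1) + s := ⟨_, rfl⟩
  rw [← he₁] at hJ1
  obtain ⟨gJ, hgJ⟩ : ∃ gJ, gJ = jn 3 g g' := ⟨_, rfl⟩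
  obtain ⟨GJ, hGJ⟩ : ∃ GJ : PtT F → ℕ → MvPolynomial (Option (Fin m)) ℝ,
      GJ = fun y => jn 3 (T y) (N y) := ⟨_, rfl⟩
  obtain ⟨HJ, hHJ⟩ : ∃ HJ : LnT F → ℕ → MvPolynomial (Option (Fin m)) ℝ,
      HJ = fun s => jn 3 (TH s) (cwn w a NH s) := ⟨_, rfl⟩
  rw [← hgJ, ← hGJ, ← hHJ] at hJ1
  have gl : ∀ l < 3, gJ l = g l := fun l hl => by rw [hgJ]; exact jn_lt hl
  have g3 : gJ 3 = g' 3 := by rw [hgJ]; exact jn_self
  have Gl : ∀ y, ∀ l < 3, GJ y l = T y l := fun y l hl => by rw [hGJ]; exact jn_lt hl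
  have H3 : ∀ ω, HJ (slam F a ω) 3 = NH (slam F w ω) 3 := fun ω => by
    rw [hHJ]
    show jn 3 (TH (slam F a ω)) (cwn w a NH (slam F a ω)) 3 = _
    rw [jn_self, cwn_slam hwa haJ]
  have nbJ : ∀ (y : PtT F) (t : ℝ) (i : ℕ) (b : Option (Fin m) → ℝ), i ≤ 3 →
      (NBx c (GJ y) gJ a t i b ↔ NBx c (T y) g a t i b) := by
    intro y t i b hi
    rw [hgJ, hGJ]
    exact nbx_jn hi
  have hB1 : Sub B₁ B₀ := fun ω h => hB ω (b1 ω h)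
  have hRJ : RelvH F c 3 a a gJ Y D h κ B₀ GJ := by
    rw [hgJ, hGJ]
    exact relvH_jn hRH
  have hshJ : ∀ ω, B ω → Shr F c 1 a gJ GJ v s 2 ω := by
    intro ω hω b hb sv hsv
    have h1 := hshr ω hω b ((nbJ _ _ 2 b (by norm_num)).1 hb) sv (by
      rwa [gl 1 (by norm_num)] at hsv)
    rw [Gl _ 2 (by norm_num), gl 2 (by norm_num)]
    exact h1
  have room1 : ∀ l < 4, e₁ + gJ l + (h + cB) + cB + cP * T₀ ≤ J := by
    intro l hl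
    have a1 : 2 * cJ * (h + 1) ≤ 2 * (cJ * T₀) := by
      rw [Nat.mul_assoc]
      exact Nat.mul_le_mul_left _ hcJh
    have a2 : cB + cB ≤ 2 * (u * T₀) := by
      have : cB + cB ≤ u := by rw [hu]; omega
      exact this.trans ((mT u).trans (by omega))
    rcases Nat.lt_or_ge l 3 with h3 | h3
    · have := hrg l h3
      rw [gl l h3, he₁]
      omega
    · have : l = 3 := by omega
      subst this
      have := hrN 3 (by norm_num)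
      rw [g3, he₁]
      omega
  obtain ⟨V₁, hV₁⟩ : ∃ V₁ : ℝ, V₁ = 2 ^ lam₁ / 2 ^ gN 3 := ⟨_, rfl⟩
  obtain ⟨V₂, hV₂⟩ : ∃ V₂ : ℝ, V₂ = 2 ^ lam₂ / 2 ^ gN 3 := ⟨_, rfl⟩
  have hV10 : 0 ≤ V₁ := by rw [hV₁]; positivity
  have hV20 : 0 ≤ V₂ := by rw [hV₂]; positivity
  obtain ⟨B₂, al₁, b2, p2, hal1⟩ := hbox (l := 1) (i := 3) (a := a) (w := a) (σ := h + cB)
    (y := s) (V := V₁) (v := v) (v' := v') (by norm_num) (by norm_num) hc hRJ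
    hB1 hκ0 ((mul_le_mul_of_nonneg_right (by
      have : (1 : ℝ) ≤ 2 ^ 1 := by norm_num
      nlinarith) (Pe_nonneg F.isLaw B₀)).trans (shj 3 1 B₁ (by omega) p1)) hJ1 hV10
    (fun ω ω' h1 h2 h3 => by
      rw [H3]
      refine (vary_v (K₀ := 2 ^ (a + lam₁) / 2 ^ gN 3) haJ hcc3 h3 (hN.depH (slam F w ω) 3)
        (hv01 ω (b1 ω h1)).1 (fun t t1 t2 => by
          rw [(hv01 ω (b1 ω h1)).2, mul_one]
          exact hup1 ω (b1 ω h1) t t1 t2)).trans (le_of_eq ?_)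
      rw [hV₁, pow_add]
      field_simp) hYJ (fun j hj => by have := room1 j hj; omega) le_rfl
    (fun ω hω => hvv ω (b1 ω hω))
    (fun ω hω => ⟨(hv01 ω (b1 ω hω)).2, fun j hj => by
      have : j = 0 := by omega
      subst this
      exact (hv01 ω (b1 ω hω)).1⟩) (fun ω hω j hj hlj => by
      have : j = 2 := by omega
      subst this
      exact hshJ ω (b1 ω hω))
  have q2 := half 3 B₁ B₂ p1 p2
  have sb2 : Sub B₂ B := fun ω h => b1 ω (b2 ω h)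
  obtain ⟨B₃, al₂, b3, p3, hal2⟩ := hbox (l := 2) (i := 3) (a := a) (w := a) (σ := h + cB)
    (y := 0) (V := V₂) (v := fun _ => ek (c 2)) (v' := fun _ => ek (c 2)) (by norm_num)
    (by norm_num) hc hRJ (fun ω h => hB ω (sb2 ω h)) hκ0 ((mul_le_mul_of_nonneg_right (by
      have : (1 : ℝ) ≤ 2 ^ 1 := by norm_num
      nlinarith) (Pe_nonneg F.isLaw B₀)).trans (shj 4 1 B₂ (by omega) q2)) (hJ1.sub b2) hV20
    (fun ω ω' h1 h2 h3 => by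
      rw [H3]
      refine (vary_v (K₀ := 2 ^ (a + lam₂) / 2 ^ gN 3) haJ hcc3 h3 (hN.depH (slam F w ω) 3)
        (ek_ne (c_ne hcc3 (by norm_num) (by norm_num) (by norm_num))) (fun t t1 t2 => by
          rw [ek_ne (c_ne hcc3 (by norm_num) (by norm_num) (by norm_num)), ek_self, mul_zero,
            zero_add, one_mul]
          exact hup2 ω (sb2 ω h1) t t1 t2)).trans (le_of_eq ?_)
      rw [hV₂, pow_add]
      field_simp) hYJ (fun j hj => by have := room1 j hj; omega) le_rfl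
    (fun _ _ => rfl)
    (fun ω hω => ⟨ek_self _, fun j hj => ek_ne (c_ne hcc3 (by omega) (by norm_num) (by omega))⟩)
    (fun ω hω j hj hlj => by omega)
  have q3 := half 4 B₂ B₃ q2 p3
  have sb3 : Sub B₃ B := fun ω h => sb2 ω (b3 ω h)
  -- the near labels in the ball `a₂`
  have hTa2 : ChOK F c 3 (fun _ => D) a₂ a₂ e g B₃ T (cwn a a₂ TH) :=
    chOK_win ((hT.mono le_rfl (fun _ => le_rfl) ha2 le_rfl).sub fun ω h => hB ω (sb3 ω h)) ha2 ha2J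
  obtain ⟨B₄, b4, p4, hnr⟩ := hnear (n := 3) (κ' := κ * 2 ^ 4) le_rfl hcc3 hR2 hT2.depG
    (fun ω h => hB ω (sb3 ω h)) (shj 5 4 B₃ (by omega) q3) (le_of_eq (by norm_num)) hTa2
  have q4 := hfr 5 3 B₃ B₄ q3 p4
  have sb4 : Sub B₄ B := fun ω h => sb3 ω (b4 ω h)
  -- the paths
  have hlog : 0 ≤ Real.log 2 := Real.log_nonneg (by norm_num)
  have hJ2 : ((J : ℝ) - a₃) * Real.log 2 ≤ ((J : ℝ) - a₂) * Real.log 2 := by
    refine mul_le_mul_of_nonneg_right ?_ hlog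
    have : (a₂ : ℝ) ≤ a₃ := by exact_mod_cast ha3
    linarith
  have hJa : ((J : ℝ) - a₃) * Real.log 2 ≤ ((J : ℝ) - a) * Real.log 2 := by
    refine mul_le_mul_of_nonneg_right ?_ hlog
    have : (a : ℝ) ≤ a₃ := by exact_mod_cast ha2.trans ha3
    linarith
  have hr0 : 0 ≤ θ + 1 := by linarith
  have hrP' : rP * (θ + 1) ≤ C₁ * (θ + 1) := mul_le_mul_of_nonneg_right (by rw [hC₁]; linarith) hr0
  have hrQ' : rQ * (θ + 1) ≤ C₁ * (θ + 1) := mul_le_mul_of_nonneg_right (by rw [hC₁]; linarith) hr0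
  have hrR' : rR * (θ + 1) ≤ C₁ * (θ + 1) := mul_le_mul_of_nonneg_right (by rw [hC₁]; linarith) hr0
  have s4 := shr 8 B₄ (by omega) q4
  obtain ⟨B₅, b5, p5, hP5⟩ := hpth4 (x := s) (a := a) (e := e₁) (g := gJ) s4.1 hc haJ
    (hJ1.sub fun ω h => b2 ω (b3 ω (b4 ω h))) (fun l hl => by
      have := room1 l hl
      rw [← hT₀]
      omega) (hTm B₄ s4.1 sb4 s4.2) hθ ((hrP'.trans hθJ).trans hJa) (hrP'.trans hθs)
  have q5 := half 8 B₄ B₅ q4 p5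
  have s5 := shr 9 B₅ (by omega) q5
  have sb5 : Sub B₅ B := fun ω h => sb4 ω (b5 ω h)
  obtain ⟨B₆, b6, p6, hP6⟩ := hpth3 (x := s) (a := a₂) (e := e) (g := g₂) s5.1 hcc3 ha2J
    (hT2.sub fun ω h => hB ω (sb5 ω h)) (fun l hl => by
      have := hr2 l hl
      rw [← hT₀]
      omega) (hTm B₅ s5.1 sb5 s5.2) hθ ((hrQ'.trans hθJ).trans hJ2) (hrQ'.trans hθs)
  have q6 := half 9 B₅ B₆ q5 p6
  have s6 := shr 10 B₆ (by omega) q6
  have sb6 : Sub B₆ B := fun ω h => sb5 ω (b6 ω h)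
  obtain ⟨B₇, b7, p7, hP7⟩ := hpth2 (x := s) (a := a₃) (e := e) (g := g₃) s6.1 hcc2 ha3J
    (hT3.sub fun ω h => hB ω (sb6 ω h)) (fun l hl => by
      have := hr3 l hl
      rw [← hT₀]
      omega) (hTm B₆ s6.1 sb6 s6.2) hθ (hrR'.trans hθJ) (hrR'.trans hθs)
  have q7 := half 10 B₆ B₇ q6 p7
  have s7 := shr 11 B₇ (by omega) q7
  have sb7 : Sub B₇ B := fun ω h => sb6 ω (b7 ω h)
  have hT4a : ChOK F c 3 (fun _ => D) a a e g₄ B₇ T₄ (cwn w₂ a T₄H) :=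
    chOK_win (hT4.sub fun ω h => hB ω (sb7 ω h)) hw2a haJ
  obtain ⟨B₈, b8, p8, hP8⟩ := hpth3 (x := s) (a := a) (e := e) (g := g₄) s7.1 hcc3 haJ hT4a
    (fun l hl => by
      have := hr4 l hl
      rw [← hT₀]
      omega) (hTm B₇ s7.1 sb7 s7.2) hθ ((hrQ'.trans hθJ).trans hJa) (hrQ'.trans hθs)
  have q8 := half 11 B₇ B₈ q7 p8
  have s8 := shr 12 B₈ (by omega) q8
  have sb8 : Sub B₈ B := fun ω h => sb7 ω (b8 ω h)
  -- the separated lines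
  have hshare : κ * (2 * (D + 1 : ℕ)) < Pe F.p B₈ / Pe F.p B₀ := by
    rw [lt_div_iff₀ hP0]
    rcases hκ0.eq_or_lt with h0 | h0
    · rw [← h0, zero_mul, zero_mul]
      exact s8.1
    · refine lt_of_lt_of_le ?_ (shk 12 B₈ (by omega) q8)
      have h1 : (2 * (D + 1 : ℕ) : ℝ) < 2 ^ (C - 12) := by
        have h2 : D + 1 < 2 ^ (D + 1) := Nat.lt_two_pow_self
        have h3 : ((D + 1 : ℕ) : ℝ) < 2 ^ (D + 1) := by exact_mod_cast h2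
        calc (2 * (D + 1 : ℕ) : ℝ) < 2 * 2 ^ (D + 1) := by linarith
          _ = 2 ^ (D + 2) := by ring
          _ ≤ _ := pw (by omega)
      exact mul_lt_mul_of_pos_right (mul_lt_mul_of_pos_left h1 h0) hP0
  obtain ⟨B₉, b9, p9, hsep⟩ := sep_fam (F := F) (c := c) (D := D) (a := a) (w := a) (e := e)
    (h := h) (N := D + 1) (g := g) (κ := κ) (κ' := Pe F.p B₈ / Pe F.p B₀) (B₀ := B₀) (B := B₈)
    hD (by omega) (relvF_low hRF (by norm_num) hcc3 hT.depG)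
    (hT.mono (by norm_num) (fun _ => le_rfl) le_rfl le_rfl)
    (fun ω h => hB ω (sb8 ω h)) hκ0 (by rw [div_mul_cancel₀ _ hP0.ne']) hshare hP0 (by
      have := hrg 0 (by norm_num)
      have := mT 30
      omega)
  have q9 := half 12 B₈ B₉ q8 p9
  have sb9 : Sub B₉ B := fun ω h => sb8 ω (b9 ω h)
  have s84 : Sub B₈ B₄ := fun ω h => b5 ω (b6 ω (b7 ω (b8 ω h)))
  rw [← hT₀] at hP5 hP6 hP7 hP8
  have hPJ : Pth F c 4 a (cP * T₀) gJ B₈ GJ := hP5.sub fun ω h => b6 ω (b7 ω (b8 ω h))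
  have hP2 : Pth F c 3 a₂ (cQ * T₀) g₂ B₈ T₂ := hP6.sub fun ω h => b7 ω (b8 ω h)
  have hP3 : Pth F c 2 a₃ (cR * T₀) g₃ B₈ T₃ := hP7.sub fun ω h => b8 ω h
  -- the numbers of the constants
  obtain ⟨n', hn'⟩ : ∃ n', n' = cA * (cP * T₀ + h + (cM + s) + 1) := ⟨_, rfl⟩
  have hn'q : n' ≤ q * T₀ := by
    rw [hn', hq, Nat.mul_assoc]
    refine Nat.mul_le_mul_left _ ?_
    have e1 : (cP + cM + 3) * T₀ = cP * T₀ + cM * T₀ + 3 * T₀ := by ring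
    have := mT cM
    rw [e1]
    omega
  have huT : u * T₀ = cS * T₀ + q * T₀ + cS * (q + 1) * T₀ + cJ * T₀ + 3 * (cB * T₀) + cU * T₀ +
      cU * (q + 1) * T₀ + cM * T₀ + cK * T₀ + cK * (cL + 1) * T₀ + q * T₀ + 9 * T₀ := by
    rw [hu]; ring
  have hzT : zz * T₀ = q * T₀ + cQ * T₀ + cW * T₀ + cR * T₀ + cV * T₀ + cK * (cL + 1) * T₀ +
      cM * T₀ + 9 * T₀ := by rw [hzz]; ring
  have hKL : cK * (cL * (h + 1) + 0 + 1) ≤ cK * (cL + 1) * T₀ := by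
    rw [Nat.mul_assoc]
    refine Nat.mul_le_mul_left _ ?_
    have e1 : cL * (h + 1) ≤ cL * T₀ := Nat.mul_le_mul_left _ (by omega)
    rw [Nat.add_mul]
    omega
  have mV := mT cV
  have mW := mT cW
  have mM := mT cM
  have mS := mT cS
  have mU := mT cU
  have mK := mT cK
  -- the deep velocities
  obtain ⟨ζd, hζd⟩ : ∃ ζ : ℝ, ζ = 2 ^ (a₃ + cR * T₀ + cV) / 2 ^ g₃ 1 := ⟨_, rfl⟩
  have hζd0 : 0 ≤ ζd := by rw [hζd]; positivity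
  have hdeep0 := hdv hT3.degG hT3.depG hP3
  rw [← hζd] at hdeep0
  obtain ⟨ζ₁, hζ₁⟩ : ∃ ζ : ℝ, ζ = 2 ^ a / 2 ^ (g 1 + p + q * T₀) := ⟨_, rfl⟩
  obtain ⟨ζ₂, hζ₂⟩ : ∃ ζ : ℝ, ζ = 2 ^ a / 2 ^ (g 2 + p + q * T₀) := ⟨_, rfl⟩
  have hζd1 : ζd ≤ ζ₁ := by
    rw [hζd, hζ₁, div_le_div_iff₀ (by positivity) (by positivity), ← pow_add, ← pow_add]
    exact pw (by omega)
  have hdeep1 : ∀ ω, B₈ ω → ∃ p' q' : ℝ, ∀ ν, B₈ ν → ptr F J ν = ptr F J ω →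
      |bd F ν (some (c 1)) - (p' + q' * bd F ν (some (c 0)))| ≤ ζ₁ := by
    intro ω hω
    obtain ⟨p', q', h1⟩ := hdeep0 ω hω
    exact ⟨p', q', fun ν h2 h3 => (h1 ν h2 h3).trans hζd1⟩
  have hderT : ∀ ω, B ω → ∀ b, NBx c (T (ptr F J ω)) g a (F.t ω) 2 b →
      |eval b (dir (v (ptr F J ω)) (T (ptr F J ω) 2)) - v (ptr F J ω) (c 2)| ≤
        2 ^ (cM + s) * 2 ^ g 1 / 2 ^ g 2 := fun ω hω b hb =>
    hder hT.degG (hv01 ω hω).2 (hshr ω hω) b hb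
  obtain ⟨Ed, hEd⟩ : ∃ Ed : ℝ, Ed = 2 ^ (cM + s) * 2 ^ g 1 / 2 ^ g 2 +
      2 ^ (cK * (cL * (h + 1) + 0 + 1)) * 2 ^ g₂ 1 / 2 ^ g 2 := ⟨_, rfl⟩
  have hEdb : ∀ ω, B₈ ω → |eval (bt F ω) (dir (v (ptr F J ω)) (T₂ (ptr F J ω) 2)) -
      v (ptr F J ω) (c 2)| ≤ Ed := by
    intro ω hω
    have h1 := hderT ω (sb8 ω hω) (bt F ω) (hT.self (hB ω (sb8 ω hω)) (by norm_num))
    have h2 := hcmp (c := c) (l := 1) (i := 2) (a := a₂) (k := cL * (h + 1)) (y := 0) (p := g 2)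
      (g := g₂) (G := T₂) (v := v) (P := T₂ (ptr F J ω) 2 - T (ptr F J ω) 2) (ω := ω)
      (b := bt F ω) (by norm_num) hcc2 hT2.degG hT2.depG
      (fun b b' hn hb => by
        rw [map_sub, map_sub, hT2.depG _ 2 b b' hn hb, hT.depG _ 2 b b' hn hb])
      ((totalDegree_sub _ _).trans (max_le (hT2.degG _ 2) (hT.degG _ 2)))
      (hv01 ω (sb8 ω hω)).2 (fun j hj => by
        have : j = 0 := by omega
        subst this
        exact (hv01 ω (sb8 ω hω)).1) (fun j hj hlj => by omega)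
      (hT2.self (hB ω (sb8 ω hω)) (by norm_num)) (fun b hb => by
        rw [map_sub]
        exact hnr ω (s84 ω hω) 2 (by norm_num) b hb)
    rw [Pool.SHR.dir_sub, map_sub] at h2
    have e1 : eval (bt F ω) (dir (v (ptr F J ω)) (T₂ (ptr F J ω) 2)) - v (ptr F J ω) (c 2) =
        (eval (bt F ω) (dir (v (ptr F J ω)) (T (ptr F J ω) 2)) - v (ptr F J ω) (c 2)) +
        (eval (bt F ω) (dir (v (ptr F J ω)) (T₂ (ptr F J ω) 2)) -
          eval (bt F ω) (dir (v (ptr F J ω)) (T (ptr F J ω) 2))) := by ring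
    rw [e1, hEd]
    exact (abs_add_le _ _).trans (add_le_add h1 h2)
  have hdeep2' := hdw hcc2 hT2.degG hT2.depG hP2 (fun ω hω => hv01 ω (sb8 ω hω)) hdeep0 hEdb
  have hζ2le : 2 ^ (a₂ + cQ * T₀ + cW) / 2 ^ g₂ 2 + Ed * ζd ≤ ζ₂ := by
    obtain ⟨z, hz⟩ : ∃ z : ℝ, z = 2 ^ a / 2 ^ (g 2 + p + q * T₀ + 2) := ⟨_, rfl⟩
    have e0 : ζ₂ = 4 * z := by
      rw [hζ₂, hz, pow_add 2 (g 2 + p + q * T₀) 2]
      field_simp
      norm_num
    have e1 : (2 : ℝ) ^ (a₂ + cQ * T₀ + cW) / 2 ^ g₂ 2 ≤ z := by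
      rw [hz, div_le_div_iff₀ (by positivity) (by positivity), ← pow_add, ← pow_add]
      exact pw (by omega)
    have e2 : 2 ^ (cM + s) * 2 ^ g 1 / 2 ^ g 2 * ζd ≤ z := by
      rw [hz, hζd, ← pow_add, div_mul_div_comm, ← pow_add, ← pow_add,
        div_le_div_iff₀ (by positivity) (by positivity), ← pow_add, ← pow_add]
      exact pw (by omega)
    have e3 : 2 ^ (cK * (cL * (h + 1) + 0 + 1)) * 2 ^ g₂ 1 / 2 ^ g 2 * ζd ≤ z := by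
      rw [hz, hζd, ← pow_add, div_mul_div_comm, ← pow_add, ← pow_add,
        div_le_div_iff₀ (by positivity) (by positivity), ← pow_add, ← pow_add]
      exact pw (by omega)
    have hz0 : 0 ≤ z := by rw [hz]; positivity
    rw [hEd, add_mul, e0]
    linarith
  have hdeep2 : ∀ ω, B₈ ω → ∃ p' q' : ℝ, ∀ ν, B₈ ν → ptr F J ν = ptr F J ω →
      |(bd F ν (some (c 2)) - v (ptr F J ω) (c 2) * bd F ν (some (c 1))) -
        (p' + q' * bd F ν (some (c 0)))| ≤ ζ₂ := by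
    intro ω hω
    obtain ⟨p', q', h1⟩ := hdeep2' ω hω
    exact ⟨p', q', fun ν h2 h3 => (h1 ν h2 h3).trans hζ2le⟩
  -- the plane
  obtain ⟨E₁, hE₁⟩ : ∃ E₁ : ℝ, E₁ = 2 ^ (cB * (h + s + 1)) * (2 ^ gJ 1 / 2 ^ gJ 3 + V₁) :=
    ⟨_, rfl⟩
  obtain ⟨E₂, hE₂⟩ : ∃ E₂ : ℝ, E₂ = 2 ^ (cB * (h + 0 + 1)) * (2 ^ gJ 2 / 2 ^ gJ 3 + V₂) :=
    ⟨_, rfl⟩
  obtain ⟨X, ν₀, hX⟩ := hbal (c := c) (a := a) (n := cP * T₀) (h := h) (y := cM + s) (g := gJ)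
    (B := B₈) (G := GJ) (v := v) (al₁ := al₁) (al₂ := al₂) (ζ₁ := ζ₁) (ζ₂ := ζ₂) (E₁ := E₁)
    (E₂ := E₂) hc haJ hJ1.degG hJ1.depG hPJ (fun ω hω => hv01 ω (sb8 ω hω)) hdeep1 (by
      rw [hζ₁, gl 1 (by norm_num)]
      exact div_le_div_of_nonneg_left (by positivity) (by positivity) (pw (by omega))) hdeep2 (by
      rw [hζ₂, gl 2 (by norm_num)]
      exact div_le_div_of_nonneg_left (by positivity) (by positivity) (pw (by omega)))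
    (fun ω hω b hb => by
      rw [Gl _ 2 (by norm_num), gl 1 (by norm_num), gl 2 (by norm_num)]
      exact hderT ω (sb8 ω hω) b ((nbJ _ _ 2 b (by norm_num)).1 hb))
    (fun ω hω b hb => by
      rw [hE₁]
      exact hal1 ω (b3 ω (b4 ω (s84 ω hω))) b hb)
    (fun ω hω b hb => by
      rw [hE₂]
      exact hal2 ω (b4 ω (s84 ω hω)) b hb)
  rw [← hn'] at hX
  have hsep' : ∀ ω, B₉ ω → Sep F c B₈ (2 ^ a / 2 ^ (gJ 0 + h + 3)) (D + 1) ω := by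
    intro ω hω
    rw [gl 0 (by norm_num)]
    exact hsep ω hω
  obtain ⟨ω₀, hω₀⟩ : ∃ ω, B₈ ω := by
    by_contra hcon
    push Not at hcon
    have h1 : Pe F.p B₈ = 0 := by
      unfold Pe
      exact Finset.sum_eq_zero fun ω _ => by simp [hcon ω]
    linarith [s8.1]
  -- the slopes along the line
  have g0e : gJ 0 = g 0 := gl 0 (by norm_num)
  obtain ⟨k₁, hk₁⟩ : ∃ k₁, k₁ = cU + n' + cU * (n' + 1) + 1 := ⟨_, rfl⟩
  have hcUq : cU * (n' + 1) ≤ cU * (q + 1) * T₀ := by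
    rw [Nat.mul_assoc]
    refine Nat.mul_le_mul_left _ ?_
    rw [Nat.add_mul]
    omega
  have hst : ∀ ω, B₉ ω → ∀ i, 1 ≤ i → i ≤ 2 → ∀ α : ℝ, |α| ≤ 1 →
      |((1 / 2 ^ g 0 : ℝ) • X (ptr F J ω)) (some (c i)) - dd (TH (slam F a ω) i)
        (bt F ω + α • vl F a ω) ((1 / 2 ^ g 0 : ℝ) • X (ptr F J ω))| ≤ 2 ^ k₁ / 2 ^ g i := by
    intro ω hω i hi1 hi2 α hα
    obtain ⟨hX0, hX1, -, -, -, hpl⟩ := hX ω (b9 ω hω) (hsep' ω hω)
    have h1 := hstar1 (c := c) (G := T (ptr F J ω)) (H := TH (slam F a ω) i) (g := g) (a := a)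
      (i := i) (n := n') (t := F.t ω) (δ := 1 / 2 ^ g i) (e := 2 ^ n' / 2 ^ g i) (x := bt F ω)
      (U₀ := vl F a ω) (U₁ := (1 / 2 ^ g 0 : ℝ) • X (ptr F J ω)) hi2
      (hc.mono fun x hx => by
        rw [Set.mem_Iio] at hx ⊢
        omega)
      (fun l => hT.degG _ l) (fun l => hT.depG _ l) (hT.degH _ i) (hT.depH _ i) rfl
      (vl_none F a ω) (by rw [Pi.smul_apply, hX0, smul_zero]) (by positivity)
      (fun b hb => hT.agr ω (hB ω (sb9 ω hω)) i (by omega) b hb)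
      (fun α' β' h1 h2 => by
        obtain ⟨k1, -⟩ := hpl α' β' (by linarith) (by linarith)
        rw [g0e] at k1
        refine ⟨fun l hl => ?_, ?_⟩
        · have := k1 l (by omega)
          rwa [Gl _ l (by omega), gl l (by omega)] at this
        · have := k1 i (by omega)
          rwa [Gl _ i (by omega), gl i (by omega)] at this) α hα
    refine h1.trans ?_
    have e1 : (2 : ℝ) ^ cU * (2 ^ n' / 2 ^ g i + 2 ^ (cU * (n' + 1)) * (1 / 2 ^ g i)) =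
        (2 ^ (cU + n') + 2 ^ (cU + cU * (n' + 1))) / 2 ^ g i := by
      rw [pow_add, pow_add]
      ring
    rw [e1]
    refine div_le_div_of_nonneg_right ?_ (by positivity)
    have e2 : (2 : ℝ) ^ (cU + n') ≤ 2 ^ (cU + n' + cU * (n' + 1)) := pw (by omega)
    have e3 : (2 : ℝ) ^ (cU + cU * (n' + 1)) ≤ 2 ^ (cU + n' + cU * (n' + 1)) := pw (by omega)
    rw [hk₁, pow_succ]
    linarith
  have hX1st : ∀ ω, B₉ ω → ∀ α : ℝ, |α| ≤ 1 → |X (ptr F J ω) (some (c 1)) -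
      eval (bt F ω + α • vl F a ω) (pderiv (some (c 0)) (TH (slam F a ω) 1))| ≤
        2 ^ (g 0 + k₁) / 2 ^ g 1 := by
    intro ω hω α hα
    obtain ⟨hX0, hX1, -, -, -, -⟩ := hX ω (b9 ω hω) (hsep' ω hω)
    have h1 := hst ω hω 1 le_rfl (by norm_num) α hα
    rw [dd_smul, dd_one' (hT.depH _ 1) hX0, hX1, mul_one, Pi.smul_apply, smul_eq_mul, ← mul_sub,
      abs_mul, abs_of_pos (show (0 : ℝ) < 1 / 2 ^ g 0 by positivity), one_div_mul_eq_div,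
      div_le_iff₀ (by positivity)] at h1
    refine h1.trans (le_of_eq ?_)
    rw [pow_add]
    ring
  have hX2st : ∀ ω, B₉ ω → ∀ α : ℝ, |α| ≤ 1 → |X (ptr F J ω) (some (c 2)) -
      (eval (bt F ω + α • vl F a ω) (pderiv (some (c 0)) (TH (slam F a ω) 2)) +
      eval (bt F ω + α • vl F a ω) (pderiv (some (c 1)) (TH (slam F a ω) 2)) *
        X (ptr F J ω) (some (c 1)))| ≤ 2 ^ (g 0 + k₁) / 2 ^ g 2 := by
    intro ω hω α hα
    obtain ⟨hX0, hX1, -, -, -, -⟩ := hX ω (b9 ω hω) (hsep' ω hω)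
    have h1 := hst ω hω 2 (by norm_num) le_rfl α hα
    rw [dd_smul, dd_two hcc2 (hT.depH _ 2) hX0, hX1, mul_one, Pi.smul_apply, smul_eq_mul,
      ← mul_sub, abs_mul, abs_of_pos (show (0 : ℝ) < 1 / 2 ^ g 0 by positivity),
      one_div_mul_eq_div, div_le_iff₀ (by positivity)] at h1
    refine h1.trans (le_of_eq ?_)
    rw [pow_add]
    ring
  -- the same point of the line
  have hsame : ∀ ω ω', slam F a ω = slam F a ω' →
      bt F ω' + (2 ^ a * (F.t ω - F.t ω')) • vl F a ω' = bt F ω := by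
    intro ω ω' h
    have h1 := pt_slam F a ω (F.t ω)
    have h2 := pt_slam F a ω' (F.t ω)
    rw [← h, h1, sub_self, zero_smul, add_zero] at h2
    rw [h2]
    unfold vl
    rw [smul_smul]
    congr 2
    field_simp
  have htime : ∀ ω ω', slam F a ω = slam F a ω' → |2 ^ a * (F.t ω - F.t ω')| ≤ 1 := by
    intro ω ω' h
    have h1 := t_win haJ h
    rw [abs_mul, abs_of_pos (show (0 : ℝ) < 2 ^ a by positivity)]
    calc (2 : ℝ) ^ a * |F.t ω - F.t ω'| ≤ 2 ^ a * (1 / 2 ^ a) :=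
          mul_le_mul_of_nonneg_left h1 (by positivity)
      _ = 1 := by field_simp
  have hX1at : ∀ ω ω', B₉ ω → B₉ ω' → slam F a ω = slam F a ω' →
      |X (ptr F J ω') (some (c 1)) - eval (bt F ω) (pderiv (some (c 0)) (TH (slam F a ω) 1))| ≤
        2 ^ (g 0 + k₁) / 2 ^ g 1 := by
    intro ω ω' h1 h2 h3
    have h4 := hX1st ω' h2 _ (htime ω ω' h3)
    rwa [hsame ω ω' h3, ← h3] at h4
  have hX2at : ∀ ω ω', B₉ ω → B₉ ω' → slam F a ω = slam F a ω' →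
      |X (ptr F J ω') (some (c 2)) -
        (eval (bt F ω) (pderiv (some (c 0)) (TH (slam F a ω) 2)) +
        eval (bt F ω) (pderiv (some (c 1)) (TH (slam F a ω) 2)) *
          X (ptr F J ω') (some (c 1)))| ≤ 2 ^ (g 0 + k₁) / 2 ^ g 2 := by
    intro ω ω' h1 h2 h3
    have h4 := hX2st ω' h2 _ (htime ω ω' h3)
    rwa [hsame ω ω' h3, ← h3] at h4
  have htt1 : ∀ ω ω', B₉ ω → B₉ ω' → slam F a ω = slam F a ω' →
      |X (ptr F J ω) (some (c 1)) - X (ptr F J ω') (some (c 1))| ≤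
        2 ^ (g 0 + k₁ + 1) / 2 ^ g 1 := by
    intro ω ω' h1 h2 h3
    have h4 := hX1at ω ω h1 h1 rfl
    have h5 := hX1at ω ω' h1 h2 h3
    have e1 : X (ptr F J ω) (some (c 1)) - X (ptr F J ω') (some (c 1)) =
        (X (ptr F J ω) (some (c 1)) -
          eval (bt F ω) (pderiv (some (c 0)) (TH (slam F a ω) 1))) -
        (X (ptr F J ω') (some (c 1)) -
          eval (bt F ω) (pderiv (some (c 0)) (TH (slam F a ω) 1))) := by ring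
    rw [e1]
    refine (abs_sub _ _).trans ((add_le_add h4 h5).trans (le_of_eq ?_))
    rw [pow_succ]
    ring
  have hdT2 : ∀ ω, B ω → |eval (bt F ω) (pderiv (some (c 1)) (T (ptr F J ω) 2)) -
      v (ptr F J ω) (c 2)| ≤ 2 ^ (cM + s) * 2 ^ g 1 / 2 ^ g 2 := by
    intro ω hω
    have h1 := hderT ω hω (bt F ω) (hT.self (hB ω hω) (by norm_num))
    rwa [dir_two hcc2 (hT.depG _ 2) (hv01 ω hω).1 (hv01 ω hω).2] at h1
  have hdH2 : ∀ ω, B ω → |eval (bt F ω) (pderiv (some (c 1)) (TH (slam F a ω) 2)) -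
      v (ptr F J ω) (c 2)| ≤ 2 ^ (cM + s + cK + 1) * 2 ^ g 1 / 2 ^ g 2 := by
    intro ω hω
    have h1 := hdT2 ω hω
    have h2 := hcmp (c := c) (l := 1) (i := 2) (a := a) (k := 0) (y := 0) (p := g 2)
      (g := g) (G := T) (v := v) (P := T (ptr F J ω) 2 - TH (slam F a ω) 2) (ω := ω)
      (b := bt F ω) (by norm_num) hcc2 hT.degG hT.depG
      (fun b b' hn hb => by
        rw [map_sub, map_sub, hT.depG _ 2 b b' hn hb, hT.depH _ 2 b b' hn hb])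
      ((totalDegree_sub _ _).trans (max_le (hT.degG _ 2) (hT.degH _ 2)))
      (hv01 ω hω).2 (fun j hj => by
        have : j = 0 := by omega
        subst this
        exact (hv01 ω hω).1) (fun j hj hlj => by omega)
      (hT.self (hB ω hω) (by norm_num)) (fun b hb => by
        rw [map_sub, pow_zero]
        exact hT.agr ω (hB ω hω) 2 (by norm_num) b hb)
    rw [Pool.SHR.dir_sub, map_sub, dir_two hcc2 (hT.depG _ 2) (hv01 ω hω).1 (hv01 ω hω).2,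
      dir_two hcc2 (hT.depH _ 2) (hv01 ω hω).1 (hv01 ω hω).2] at h2
    have e1 : eval (bt F ω) (pderiv (some (c 1)) (TH (slam F a ω) 2)) - v (ptr F J ω) (c 2) =
        (eval (bt F ω) (pderiv (some (c 1)) (T (ptr F J ω) 2)) - v (ptr F J ω) (c 2)) -
        (eval (bt F ω) (pderiv (some (c 1)) (T (ptr F J ω) 2)) -
          eval (bt F ω) (pderiv (some (c 1)) (TH (slam F a ω) 2))) := by ring
    rw [e1]
    refine (abs_sub _ _).trans ((add_le_add h1 h2).trans ?_)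
    rw [← add_div, ← add_mul]
    refine div_le_div_of_nonneg_right (mul_le_mul_of_nonneg_right ?_ (by positivity))
      (by positivity)
    have e2 : (2 : ℝ) ^ (cM + s) ≤ 2 ^ (cM + s + cK) := pw (by omega)
    have e3 : (2 : ℝ) ^ (cK * (0 + 0 + 1)) ≤ 2 ^ (cM + s + cK) := pw (by omega)
    rw [pow_succ]
    linarith
  have htt2 : ∀ ω ω', B₉ ω → B₉ ω' → slam F a ω = slam F a ω' →
      |(X (ptr F J ω) (some (c 2)) - v (ptr F J ω) (c 2) * X (ptr F J ω) (some (c 1))) -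
        (X (ptr F J ω') (some (c 2)) - v (ptr F J ω') (c 2) * X (ptr F J ω') (some (c 1)))| ≤
        2 ^ (g 0 + k₁ + cM + s + cK + 4) / 2 ^ g 2 := by
    intro ω ω' h1 h2 h3
    have h4 := hX2at ω ω h1 h1 rfl
    have h5 := hX2at ω ω' h1 h2 h3
    have h6 := htt1 ω ω' h1 h2 h3
    have h7 := hdH2 ω (sb9 ω h1)
    have hvs : v (ptr F J ω') (c 2) = v (ptr F J ω) (c 2) := by
      rw [hvv ω (sb9 ω h1), hvv ω' (sb9 ω' h2), h3]
    rw [hvs]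
    obtain ⟨x₁, hx₁⟩ : ∃ x, x = X (ptr F J ω) (some (c 1)) := ⟨_, rfl⟩
    obtain ⟨x₂, hx₂⟩ : ∃ x, x = X (ptr F J ω) (some (c 2)) := ⟨_, rfl⟩
    obtain ⟨y₁, hy₁⟩ : ∃ x, x = X (ptr F J ω') (some (c 1)) := ⟨_, rfl⟩
    obtain ⟨y₂, hy₂⟩ : ∃ x, x = X (ptr F J ω') (some (c 2)) := ⟨_, rfl⟩
    obtain ⟨vv, hvv'⟩ : ∃ x, x = v (ptr F J ω) (c 2) := ⟨_, rfl⟩
    obtain ⟨d0, hd0⟩ : ∃ x, x = eval (bt F ω) (pderiv (some (c 0)) (TH (slam F a ω) 2)) :=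
      ⟨_, rfl⟩
    obtain ⟨d1, hd1⟩ : ∃ x, x = eval (bt F ω) (pderiv (some (c 1)) (TH (slam F a ω) 2)) :=
      ⟨_, rfl⟩
    rw [← hx₁, ← hx₂, ← hd0, ← hd1] at h4
    rw [← hy₁, ← hy₂, ← hd0, ← hd1] at h5
    rw [← hx₁, ← hy₁] at h6
    rw [← hd1, ← hvv'] at h7
    rw [← hx₁, ← hx₂, ← hy₁, ← hy₂, ← hvv']
    have e1 : (x₂ - vv * x₁) - (y₂ - vv * y₁) = (x₂ - (d0 + d1 * x₁)) - (y₂ - (d0 + d1 * y₁)) +
        (d1 - vv) * (x₁ - y₁) := by ring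
    rw [e1]
    have h8 : |(d1 - vv) * (x₁ - y₁)| ≤ 2 ^ (cM + s + cK + 1) * 2 ^ g 1 / 2 ^ g 2 *
        (2 ^ (g 0 + k₁ + 1) / 2 ^ g 1) := by
      rw [abs_mul]
      exact mul_le_mul h7 h6 (abs_nonneg _) (by positivity)
    have e2 : (2 : ℝ) ^ (cM + s + cK + 1) * 2 ^ g 1 / 2 ^ g 2 * (2 ^ (g 0 + k₁ + 1) / 2 ^ g 1) =
        2 ^ (g 0 + k₁ + cM + s + cK + 2) / 2 ^ g 2 := by
      rw [show g 0 + k₁ + cM + s + cK + 2 = (cM + s + cK + 1) + (g 0 + k₁ + 1) by omega,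
        pow_add 2 (cM + s + cK + 1)]
      field_simp
    rw [e2] at h8
    refine (abs_add_le _ _).trans ((add_le_add ((abs_sub _ _).trans (add_le_add h4 h5)) h8).trans ?_)
    rw [← add_div, ← add_div]
    refine div_le_div_of_nonneg_right ?_ (by positivity)
    have e3 : (2 : ℝ) ^ (g 0 + k₁) ≤ 2 ^ (g 0 + k₁ + cM + s + cK + 2) := pw (by omega)
    have e4 : (2 : ℝ) ^ (g 0 + k₁ + cM + s + cK + 4) = 4 * 2 ^ (g 0 + k₁ + cM + s + cK + 2) := by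
      rw [show g 0 + k₁ + cM + s + cK + 4 = (g 0 + k₁ + cM + s + cK + 2) + 2 by omega,
        pow_add 2 (g 0 + k₁ + cM + s + cK + 2) 2]
      ring
    have e5 : (0 : ℝ) < 2 ^ (g 0 + k₁ + cM + s + cK + 2) := by positivity
    rw [e4]
    linarith
  -- the slopes
  have hk1T : k₁ + 1 + cM + s + cK + 4 ≤ 2 * (u * T₀) := by
    have := mT 9
    omega
  have hn'T : n' ≤ u * T₀ := by omega
  have hX1s : ∀ ω, B₉ ω → |X (ptr F J ω) (some (c 1))| ≤ 2 ^ (n' + 1 + e + nlp g 0 1) := by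
    intro ω hω
    obtain ⟨hX0, hX1, -, -, hnat, -⟩ := hX ω (b9 ω hω) (hsep' ω hω)
    have h1 := hnat 1 (by norm_num)
    rw [g0e, Gl _ 1 (by norm_num), gl 1 (by norm_num), dd_smul, dd_one' (hT.depG _ 1) hX0, hX1,
      mul_one, Pi.smul_apply, smul_eq_mul, ← mul_sub, abs_mul,
      abs_of_pos (show (0 : ℝ) < 1 / 2 ^ g 0 by positivity), one_div_mul_eq_div,
      div_le_iff₀ (by positivity)] at h1
    have h2 := hT.lip ω (hB ω (sb9 ω hω)) 1 (by norm_num) (bt F ω)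
      (hT.self (hB ω (sb9 ω hω)) (by norm_num)) 0 (by norm_num)
    have h3 : (2 : ℝ) ^ n' / 2 ^ g 1 * 2 ^ g 0 ≤ 2 ^ (n' + nlp g 0 1) := by
      rw [div_mul_eq_mul_div, div_le_iff₀ (by positivity), ← pow_add, ← pow_add]
      have := nlp_ge g (l := 0) (i := 1) (j := 0) le_rfl (by norm_num)
      exact pw (by omega)
    have e2 : X (ptr F J ω) (some (c 1)) = (X (ptr F J ω) (some (c 1)) -
        eval (bt F ω) (pderiv (some (c 0)) (T (ptr F J ω) 1))) +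
        eval (bt F ω) (pderiv (some (c 0)) (T (ptr F J ω) 1)) := by ring
    rw [e2]
    refine (abs_add_le _ _).trans ((add_le_add (h1.trans h3) h2).trans ?_)
    have g3 : (2 : ℝ) ^ (n' + nlp g 0 1) ≤ 2 ^ (n' + e + nlp g 0 1) := pw (by omega)
    have g4 : (2 : ℝ) ^ (e + nlp g 0 1) ≤ 2 ^ (n' + e + nlp g 0 1) := pw (by omega)
    rw [show n' + 1 + e + nlp g 0 1 = n' + e + nlp g 0 1 + 1 by omega, pow_succ]
    linarith
  have hvs : ∀ ω, B₉ ω → |v (ptr F J ω) (c 2)| ≤ 2 ^ (cM + s + 1 + e + nlp g 1 2) := by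
    intro ω hω
    have h1 := hdT2 ω (sb9 ω hω)
    have h2 := hT.lip ω (hB ω (sb9 ω hω)) 2 (by norm_num) (bt F ω)
      (hT.self (hB ω (sb9 ω hω)) (by norm_num)) 1 (by norm_num)
    have h3 : (2 : ℝ) ^ (cM + s) * 2 ^ g 1 / 2 ^ g 2 ≤ 2 ^ (cM + s + nlp g 1 2) := by
      rw [← pow_add, div_le_iff₀ (by positivity), ← pow_add]
      have := nlp_ge g (l := 1) (i := 2) (j := 1) le_rfl (by norm_num)
      exact pw (by omega)
    have e2 : v (ptr F J ω) (c 2) = eval (bt F ω) (pderiv (some (c 1)) (T (ptr F J ω) 2)) -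
        (eval (bt F ω) (pderiv (some (c 1)) (T (ptr F J ω) 2)) - v (ptr F J ω) (c 2)) := by ring
    rw [e2]
    refine (abs_sub _ _).trans ((add_le_add h2 (h1.trans h3)).trans ?_)
    have g3 : (2 : ℝ) ^ (cM + s + nlp g 1 2) ≤ 2 ^ (cM + s + e + nlp g 1 2) := pw (by omega)
    have g4 : (2 : ℝ) ^ (e + nlp g 1 2) ≤ 2 ^ (cM + s + e + nlp g 1 2) := pw (by omega)
    rw [show cM + s + 1 + e + nlp g 1 2 = cM + s + e + nlp g 1 2 + 1 by omega, pow_succ]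
    linarith
  have hX2s : ∀ ω, B₉ ω → |X (ptr F J ω) (some (c 2)) -
      v (ptr F J ω) (c 2) * X (ptr F J ω) (some (c 1))| ≤
        2 ^ (n' + cM + s + 3 + e + nlp g 0 2) := by
    intro ω hω
    obtain ⟨hX0, hX1, -, -, hnat, -⟩ := hX ω (b9 ω hω) (hsep' ω hω)
    have h1 := hnat 2 (by norm_num)
    rw [g0e, Gl _ 2 (by norm_num), gl 2 (by norm_num), dd_smul, dd_two hcc2 (hT.depG _ 2) hX0,
      hX1, mul_one, Pi.smul_apply, smul_eq_mul, ← mul_sub, abs_mul,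
      abs_of_pos (show (0 : ℝ) < 1 / 2 ^ g 0 by positivity), one_div_mul_eq_div,
      div_le_iff₀ (by positivity)] at h1
    have h2 := hT.lip ω (hB ω (sb9 ω hω)) 2 (by norm_num) (bt F ω)
      (hT.self (hB ω (sb9 ω hω)) (by norm_num)) 0 (by norm_num)
    have h3 : (2 : ℝ) ^ n' / 2 ^ g 2 * 2 ^ g 0 ≤ 2 ^ (n' + nlp g 0 2) := by
      rw [div_mul_eq_mul_div, div_le_iff₀ (by positivity), ← pow_add, ← pow_add]
      have := nlp_ge g (l := 0) (i := 2) (j := 0) le_rfl (by norm_num)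
      exact pw (by omega)
    have h4 := hdT2 ω (sb9 ω hω)
    have h5 := hX1s ω hω
    have h6 : |(eval (bt F ω) (pderiv (some (c 1)) (T (ptr F J ω) 2)) - v (ptr F J ω) (c 2)) *
        X (ptr F J ω) (some (c 1))| ≤ 2 ^ (n' + cM + s + 1 + e + nlp g 0 2) := by
      rw [abs_mul]
      refine (mul_le_mul h4 h5 (abs_nonneg _) (by positivity)).trans ?_
      rw [← pow_add, div_mul_eq_mul_div, ← pow_add, div_le_iff₀ (by positivity), ← pow_add]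
      have e1 := nlp_01 g
      have e2 := nlp_ge g (l := 0) (i := 2) (j := 0) le_rfl (by norm_num)
      have e3 := nlp_ge g (l := 0) (i := 2) (j := 1) (by norm_num) (by norm_num)
      have e4 : max (g 0) (g 1) ≤ nlp g 0 2 + g 2 := max_le e2 e3
      exact pw (by omega)
    obtain ⟨x₁, hx₁⟩ : ∃ x, x = X (ptr F J ω) (some (c 1)) := ⟨_, rfl⟩
    obtain ⟨x₂, hx₂⟩ : ∃ x, x = X (ptr F J ω) (some (c 2)) := ⟨_, rfl⟩
    obtain ⟨vv, hvv'⟩ : ∃ x, x = v (ptr F J ω) (c 2) := ⟨_, rfl⟩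
    obtain ⟨d0, hd0⟩ : ∃ x, x = eval (bt F ω) (pderiv (some (c 0)) (T (ptr F J ω) 2)) :=
      ⟨_, rfl⟩
    obtain ⟨d1, hd1⟩ : ∃ x, x = eval (bt F ω) (pderiv (some (c 1)) (T (ptr F J ω) 2)) :=
      ⟨_, rfl⟩
    rw [← hx₁, ← hx₂, ← hd0, ← hd1] at h1
    rw [← hd0] at h2
    rw [← hd1, ← hvv', ← hx₁] at h6
    rw [← hx₁, ← hx₂, ← hvv']
    have e1 : x₂ - vv * x₁ = (x₂ - (d0 + d1 * x₁)) + d0 + (d1 - vv) * x₁ := by ring
    rw [e1]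
    refine (abs_add_three _ _ _).trans ((add_le_add (add_le_add (h1.trans h3) h2) h6).trans ?_)
    have g3 : (2 : ℝ) ^ (n' + nlp g 0 2) ≤ 2 ^ (n' + cM + s + 1 + e + nlp g 0 2) :=
      pw (by omega)
    have g4 : (2 : ℝ) ^ (e + nlp g 0 2) ≤ 2 ^ (n' + cM + s + 1 + e + nlp g 0 2) := pw (by omega)
    have g5 : (2 : ℝ) ^ (n' + cM + s + 3 + e + nlp g 0 2) =
        4 * 2 ^ (n' + cM + s + 1 + e + nlp g 0 2) := by
      rw [show n' + cM + s + 3 + e + nlp g 0 2 = (n' + cM + s + 1 + e + nlp g 0 2) + 2 by omega,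
        pow_add 2 (n' + cM + s + 1 + e + nlp g 0 2) 2]
      ring
    have g6 : (0 : ℝ) < 2 ^ (n' + cM + s + 1 + e + nlp g 0 2) := by positivity
    rw [g5]
    linarith
  -- the relation
  have hg3e : (1 : ℝ) / 2 ^ gJ 3 = 2 ^ (cJ * (h + 1)) / 2 ^ gN 3 := by
    rw [g3, ← hg'3, pow_add]
    field_simp
  obtain ⟨er_t, her_t⟩ : ∃ er_t : ℝ, er_t = 2 ^ n' *
      (1 / 2 ^ gJ 3 + ζ₁ / 2 ^ a * E₁ + ζ₂ / 2 ^ a * E₂) := ⟨_, rfl⟩
  have hrel : ∀ ω, B₉ ω → ∀ t : ℝ, |t - F.t ω| ≤ 1 / 2 ^ a →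
      |(hcl (c 0) (NH (slam F w ω) 3) (slam F w ω)).eval t +
      ((hcl (c 1) (NH (slam F w ω) 3) (slam F w ω)).eval t +
        v (ptr F J ω) (c 2) * (hcl (c 2) (NH (slam F w ω) 3) (slam F w ω)).eval t) *
        X (ptr F J ω) (some (c 1)) +
      (hcl (c 2) (NH (slam F w ω) 3) (slam F w ω)).eval t *
        (X (ptr F J ω) (some (c 2)) - v (ptr F J ω) (c 2) * X (ptr F J ω) (some (c 1)))| ≤
      2 ^ a * 2 ^ g 0 * (2 ^ cS * (er_t + 2 ^ (cS * (n' + 1)) * (1 / 2 ^ gJ 3))) ∧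
      |hs (NH (slam F w ω) 3) (bt F ω + (t - F.t ω) • bd F ω) (X (ptr F J ω))
        (X (ptr F J ω))| ≤
      2 ^ g 0 * 2 ^ g 0 * (2 ^ cS * (er_t + 2 ^ (cS * (n' + 1)) * (1 / 2 ^ gJ 3))) := by
    intro ω hω t ht
    obtain ⟨hX0, hX1, -, -, -, hpl⟩ := hX ω (b9 ω hω) (hsep' ω hω)
    obtain ⟨α, hα⟩ : ∃ α : ℝ, α = 2 ^ a * (t - F.t ω) := ⟨_, rfl⟩
    have hα1 : |α| ≤ 1 := by
      rw [hα, abs_mul, abs_of_pos (show (0 : ℝ) < 2 ^ a by positivity)]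
      calc (2 : ℝ) ^ a * |t - F.t ω| ≤ 2 ^ a * (1 / 2 ^ a) :=
            mul_le_mul_of_nonneg_left ht (by positivity)
        _ = 1 := by field_simp
    have hst := (hstar (c := c) (G := GJ (ptr F J ω)) (H := NH (slam F w ω) 3) (g := gJ) (a := a)
      (i := 3) (n := n') (t := F.t ω) (δ := 1 / 2 ^ gJ 3) (e := er_t) (x := bt F ω)
      (U₀ := vl F a ω) (U₁ := (1 / 2 ^ gJ 0 : ℝ) • X (ptr F J ω)) le_rfl hcc3
      (fun l => hJ1.degG _ l) (fun l => hJ1.depG _ l) (hN.degH _ 3) (hN.depH _ 3) rfl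
      (vl_none F a ω) (by rw [Pi.smul_apply, hX0, smul_zero]) (by positivity)
      (fun b hb => by
        have := hJ1.agr ω (b2 ω (b3 ω (b4 ω (s84 ω (b9 ω hω))))) 3 (by norm_num) b hb
        rwa [H3] at this)
      (fun α' β' h1 h2 => by
        obtain ⟨k1, k2⟩ := hpl α' β' (by linarith) (by linarith)
        exact ⟨k1, by rw [her_t]; exact k2⟩) α hα1)
    obtain ⟨hst, hst2⟩ := hst
    have e1 : bt F ω + α • vl F a ω = bt F ω + (t - F.t ω) • bd F ω := by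
      rw [hα]
      unfold vl
      rw [smul_smul]
      congr 2
      field_simp
    rw [e1, g0e, hs_smul_left, hs_smul_right] at hst2
    have e2 : hs (NH (slam F w ω) 3) (bt F ω + α • vl F a ω) (vl F a ω)
        ((1 / 2 ^ gJ 0 : ℝ) • X (ptr F J ω)) = 1 / 2 ^ a * (1 / 2 ^ g 0) *
        ((hcl (c 0) (NH (slam F w ω) 3) (slam F w ω)).eval t +
      ((hcl (c 1) (NH (slam F w ω) 3) (slam F w ω)).eval t +
        v (ptr F J ω) (c 2) * (hcl (c 2) (NH (slam F w ω) 3) (slam F w ω)).eval t) *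
        X (ptr F J ω) (some (c 1)) +
      (hcl (c 2) (NH (slam F w ω) 3) (slam F w ω)).eval t *
        (X (ptr F J ω) (some (c 2)) -
          v (ptr F J ω) (c 2) * X (ptr F J ω) (some (c 1)))) := by
      rw [e1, g0e]
      unfold vl
      rw [hs_smul_left, hs_smul_right, hs_three hcc3 (hN.depH _ 3) hX0, hX1]
      simp only [hcl_eval]
      ring
    rw [e2, abs_mul, abs_of_pos (show (0 : ℝ) < 1 / 2 ^ a * (1 / 2 ^ g 0) by positivity)] at hst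
    obtain ⟨Q, hQ⟩ : ∃ Q, Q = (hcl (c 0) (NH (slam F w ω) 3) (slam F w ω)).eval t +
      ((hcl (c 1) (NH (slam F w ω) 3) (slam F w ω)).eval t +
        v (ptr F J ω) (c 2) * (hcl (c 2) (NH (slam F w ω) 3) (slam F w ω)).eval t) *
        X (ptr F J ω) (some (c 1)) +
      (hcl (c 2) (NH (slam F w ω) 3) (slam F w ω)).eval t *
        (X (ptr F J ω) (some (c 2)) -
          v (ptr F J ω) (c 2) * X (ptr F J ω) (some (c 1))) := ⟨_, rfl⟩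
    rw [← hQ] at hst ⊢
    obtain ⟨Q', hQ'⟩ : ∃ Q', Q' = hs (NH (slam F w ω) 3) (bt F ω + (t - F.t ω) • bd F ω)
      (X (ptr F J ω)) (X (ptr F J ω)) := ⟨_, rfl⟩
    rw [← hQ', abs_mul, abs_mul, abs_of_pos (show (0 : ℝ) < 1 / 2 ^ g 0 by positivity)] at hst2
    rw [← hQ']
    refine ⟨?_, ?_⟩
    · calc |Q| = 2 ^ a * 2 ^ g 0 * (1 / 2 ^ a * (1 / 2 ^ g 0) * |Q|) := by field_simp
        _ ≤ _ := mul_le_mul_of_nonneg_left hst (by positivity)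
    · calc |Q'| = 2 ^ g 0 * 2 ^ g 0 * (1 / 2 ^ g 0 * (1 / 2 ^ g 0 * |Q'|)) := by field_simp
        _ ≤ _ := mul_le_mul_of_nonneg_left hst2 (by positivity)
  have hnum : ∀ a' : ℕ, (2 : ℝ) ^ a' * 2 ^ g 0 *
      (2 ^ cS * (er_t + 2 ^ (cS * (n' + 1)) * (1 / 2 ^ gJ 3))) ≤
      2 ^ (a' + g 0 + C * T₀) / 2 ^ gN 3 *
        (1 + 2 ^ lam₁ / 2 ^ (g 1 + p) + 2 ^ lam₂ / 2 ^ (g 2 + p)) := by
    intro a'
    have hZ : ∀ x : ℕ, (2 : ℝ) ^ a / 2 ^ (x + p + q * T₀) / 2 ^ a ≤ 1 / 2 ^ (x + p) := by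
      intro x
      rw [div_div, ← pow_add, div_le_div_iff₀ (by positivity) (by positivity), one_mul, ← pow_add]
      exact pw (by omega)
    have h1 := rl3_num (A := 2 ^ a') (G0 := 2 ^ g 0) (G := 2 ^ gN 3) (P₁ := 2 ^ (g 1 + p))
      (P₂ := 2 ^ (g 2 + p)) (L₁ := 2 ^ lam₁) (L₂ := 2 ^ lam₂) (x₁ := 2 ^ gJ 1) (x₂ := 2 ^ gJ 2)
      (cs := 2 ^ cS) (N' := 2 ^ n') (K := 2 ^ (cJ * (h + 1))) (Kb := 2 ^ (cB * (h + s + 1)))
      (M := 2 ^ (cS * (n' + 1))) (J3 := 1 / 2 ^ gJ 3) (Z₁ := ζ₁ / 2 ^ a) (Z₂ := ζ₂ / 2 ^ a)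
      (E₁ := E₁) (E₂ := E₂) (by positivity) (by positivity) (by positivity) (by positivity)
      (by positivity) (by positivity) (by positivity) (by positivity)
      (by rw [gl 1 (by norm_num)]; exact pw (by omega)) (by positivity)
      (by rw [gl 2 (by norm_num)]; exact pw (by omega)) (one_le_pow₀ (by norm_num))
      (one_le_pow₀ (by norm_num)) (one_le_pow₀ (by norm_num)) (one_le_pow₀ (by norm_num))
      (one_le_pow₀ (by norm_num)) hg3e (by rw [hζ₁]; positivity)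
      (by rw [hζ₁]; exact hZ (g 1)) (by rw [hζ₂]; positivity)
      (by rw [hζ₂]; exact hZ (g 2))
      (by
        rw [hE₁, hV₁, mul_one_div])
      (by
        rw [hE₂, hV₂, mul_one_div]
        refine mul_le_mul_of_nonneg_right (pw ?_) (by positivity)
        refine Nat.mul_le_mul_left _ ?_
        omega)
    rw [her_t]
    refine h1.trans ?_
    refine mul_le_mul_of_nonneg_right ?_ (by positivity)
    refine div_le_div_of_nonneg_right ?_ (by positivity)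
    have e4 : (4 : ℝ) = 2 ^ 2 := by norm_num
    rw [e4, ← pow_add, ← pow_add, ← pow_add, ← pow_add, ← pow_add, ← pow_add, ← pow_add]
    refine pw ?_
    have e5 : cB * (h + s + 1) ≤ 2 * (cB * T₀) := by
      have : cB * (h + s + 1) ≤ cB * (2 * T₀) := Nat.mul_le_mul_left _ (by omega)
      calc _ ≤ _ := this
        _ = _ := by ring
    have e6 : cS * (n' + 1) ≤ cS * (q + 1) * T₀ := by
      rw [Nat.mul_assoc]
      refine Nat.mul_le_mul_left _ ?_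
      rw [Nat.add_mul]
      omega
    omega
  have hCT : ∀ {x : ℕ} {y z : ℕ}, x ≤ C * T₀ → (2 : ℝ) ^ (y + x + z) ≤ 2 ^ (y + C * T₀ + z) :=
    fun h => pw (by omega)
  refine ⟨B₈, B₉, X, fun y => ν₀ y ω₀, sb8, b9, ?_, ?_⟩
  · refine le_trans ?_ q9
    exact div_le_div_of_nonneg_left hPB.le (by positivity) (pw (by omega))
  refine ⟨fun ω hω => (hX ω (b9 ω hω) (hsep' ω hω)).1,
    fun ω hω => (hX ω (b9 ω hω) (hsep' ω hω)).2.1, fun ω hω => ?_,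
    fun ω hω => (hX1s ω hω).trans (pw (by omega)), fun ω hω => (hvs ω hω).trans (pw (by omega)),
    fun ω hω => (hX2s ω hω).trans (pw (by omega)), fun ω hω => ?_, fun ω hω => ?_,
    fun ω ω' h1 h2 h3 => (htt1 ω ω' h1 h2 h3).trans
      (div_le_div_of_nonneg_right (pw (by omega)) (by positivity)),
    fun ω ω' h1 h2 h3 => (htt2 ω ω' h1 h2 h3).trans
      (div_le_div_of_nonneg_right (pw (by omega)) (by positivity)), fun ω hω α β hα hβ l hl => ?_,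
    fun ω hω => hsep ω hω, fun ω hω => ?_, ?_, hP8.mono le_rfl (by omega), fun ω hω => ?_,
    fun ω hω t ht => (hrel ω hω t ht).1.trans (hnum a),
    fun ω hω t ht => (hrel ω hω t ht).2.trans (hnum (g 0))⟩
  · obtain ⟨-, -, -, ⟨ν₁, hA₁, hp₁, hν₁, -⟩, -⟩ := hX ω (b9 ω hω) (hsep' ω hω)
    rw [hν₁ ω₀]
    exact hp₁
  · obtain ⟨-, -, -, ⟨ν₁, hA₁, hp₁, hν₁, -, hv1, -⟩, -⟩ := hX ω (b9 ω hω) (hsep' ω hω)
    rw [hν₁ ω₀]
    refine hv1.trans ?_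
    rw [hζ₁, ← mul_div_assoc, ← pow_add, div_le_div_iff₀ (by positivity) (by positivity),
      ← pow_add, ← pow_add]
    exact pw (by omega)
  · obtain ⟨-, -, -, ⟨ν₁, hA₁, hp₁, hν₁, -, -, hv2⟩, -⟩ := hX ω (b9 ω hω) (hsep' ω hω)
    rw [hν₁ ω₀]
    refine hv2.trans ?_
    rw [hζ₂, ← mul_div_assoc, ← pow_add, div_le_div_iff₀ (by positivity) (by positivity),
      ← pow_add, ← pow_add]
    exact pw (by omega)
  · obtain ⟨-, -, -, -, -, hpl⟩ := hX ω (b9 ω hω) (hsep' ω hω)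
    have h1 := (hpl α β hα hβ).1 l hl
    rw [g0e, Gl _ l hl, gl l hl] at h1
    exact h1.trans (div_le_div_of_nonneg_right (pw (by omega)) (by positivity))
  · obtain ⟨-, -, -, ⟨ν₁, hA₁, hp₁, hν₁, ⟨ν₂, δ, hA₂, hp₂, hδ, hXd⟩, -, -⟩, -⟩ :=
      hX ω (b9 ω hω) (hsep' ω hω)
    rw [g0e] at hXd
    exact ⟨ν₁, ν₂, δ, hA₁, hp₁, hA₂, hp₂, hδ, hXd⟩
  · intro ω ν h1 h2 h3 sv h4 h5 l hl
    have h6 := hPJ ω ν h1 h2 h3 sv h4 h5 l (by omega)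
    rw [Gl _ l hl, gl l hl] at h6
    exact h6.trans (div_le_div_of_nonneg_right (pw (by omega)) (by positivity))
  · obtain ⟨p', q', h1⟩ := hdeep1 ω hω
    refine ⟨p', q', fun ν h2 h3 => (h1 ν h2 h3).trans ?_⟩
    rw [hζ₁]
    exact div_le_div_of_nonneg_left (by positivity) (by positivity) (pw (by omega))

end Pool.NVX
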