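import Pool.Agent.H80.NV.Rl3
import Pool.Agent.H80.NV.Flat2

/-!
# The parts of the relation of the slopes at a node `(a, w₁)`

`rl3_numw`, `star_sl`, `tt_sl`, `sl_bd`, `rel_bd`.
-/

set_option autoImplicit false

namespace Pool.NVX

open Finset Real MvPolynomial
open Pool.Agent.H49.Ent Pool.Agent.H32.Dense Pool.STK Pool.KA Pool.KSAT Pool.K2S Pool.PB Pool.S6C
open Pool.GEN Pool.CHT
open Pool.D2R (dd hs dd_add dd_smul dd_congr hs_add_right hs_smul_right hs_smul_left)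
open Pool.F5 (eo bdS bdS_slam)
open Pool.SHR (dir mvp RelvH Shr ShrY relvF_low lab_near slp_cmp)
open Pool.PB.Trl (rt rt_mem t_rt)
open Pool.FLF (Fam.sub)
open Pool.Z3 (jn jn_lt jn_self nbx_jn join_top)
open Pool.ISO (cwn cwn_slam chOK_win)

variable {m J : ℕ}

/-- The numbers of the error of the relation, with the second part of the first error. -/
theorem rl3_numw {A G0 G P₁ P₂ L₁ L₂ x₁ x₂ cs N' K Kb M J3 Z₁ Z₂ E₁ E₂ r : ℝ} (hA : 0 < A)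
    (hG0 : 0 < G0) (hG : 0 < G) (hP1 : 0 < P₁) (hP2 : 0 < P₂) (hL1 : 0 ≤ L₁) (hL2 : 0 ≤ L₂)
    (hx1 : 0 ≤ x₁) (hx1P : x₁ ≤ P₁) (hx2 : 0 ≤ x₂) (hx2P : x₂ ≤ P₂) (hcs : 1 ≤ cs) (hN' : 1 ≤ N')
    (hK : 1 ≤ K) (hKb : 1 ≤ Kb) (hM : 1 ≤ M) (hJ3 : J3 = K / G) (hZ1 : 0 ≤ Z₁)
    (hZ1' : Z₁ ≤ 1 / P₁) (hZ2 : 0 ≤ Z₂) (hZ2' : Z₂ ≤ 1 / P₂) (hZr : Z₁ * r ≤ 1 / P₂)
    (hE1 : E₁ ≤ Kb * (x₁ * J3 + L₁ / G + r * (L₂ / G)))
    (hE2 : E₂ ≤ Kb * (x₂ * J3 + L₂ / G)) :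
    A * G0 * (cs * (N' * (J3 + Z₁ * E₁ + Z₂ * E₂) + M * J3)) ≤
      A * G0 * (8 * cs * N' * Kb * K * M) / G * (1 + L₁ / P₁ + L₂ / P₂) := by
  have h1 := rl3_num (E₁ := Kb * (x₁ * J3 + L₁ / G)) hA hG0 hG hP1 hP2 hL1 hL2 hx1 hx1P hx2 hx2P
    hcs hN' hK hKb hM hJ3 hZ1 hZ1' hZ2 hZ2' le_rfl hE2
  have h2 : Z₁ * E₁ ≤ Z₁ * (Kb * (x₁ * J3 + L₁ / G)) + Kb * (L₂ / P₂ / G) := by
    have h3 : Z₁ * E₁ ≤ Z₁ * (Kb * (x₁ * J3 + L₁ / G + r * (L₂ / G))) :=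
      mul_le_mul_of_nonneg_left hE1 hZ1
    have h4 : Z₁ * r * (L₂ / G) ≤ 1 / P₂ * (L₂ / G) :=
      mul_le_mul_of_nonneg_right hZr (by positivity)
    have e1 : Z₁ * (Kb * (x₁ * J3 + L₁ / G + r * (L₂ / G))) =
        Z₁ * (Kb * (x₁ * J3 + L₁ / G)) + Kb * (Z₁ * r * (L₂ / G)) := by ring
    have e2 : L₂ / P₂ / G = 1 / P₂ * (L₂ / G) := by field_simp
    rw [e2]
    have h5 := mul_le_mul_of_nonneg_left h4 (show 0 ≤ Kb by linarith)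
    linarith
  obtain ⟨R, hR⟩ : ∃ R : ℝ, R = 1 + L₁ / P₁ + L₂ / P₂ := ⟨_, rfl⟩
  have hR1 : L₂ / P₂ ≤ R := by
    rw [hR]
    have : 0 ≤ L₁ / P₁ := by positivity
    linarith
  rw [← hR] at h1 ⊢
  have hR0 : 0 ≤ R := le_trans (by positivity) hR1
  have h3 : A * G0 * (cs * (N' * (Kb * (L₂ / P₂ / G)))) ≤
      A * G0 * (4 * cs * N' * Kb * K * M) / G * R := by
    have h4 : L₂ / P₂ / G ≤ R / G := div_le_div_of_nonneg_right hR1 hG.le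
    have hKM : 1 ≤ K * M := one_le_mul_of_one_le_of_one_le hK hM
    calc A * G0 * (cs * (N' * (Kb * (L₂ / P₂ / G)))) = A * G0 * cs * N' * Kb * (L₂ / P₂ / G) := by
          ring
      _ ≤ A * G0 * cs * N' * Kb * (R / G) := mul_le_mul_of_nonneg_left h4 (by positivity)
      _ = A * G0 * cs * N' * Kb * (R / G) * 1 := by ring
      _ ≤ A * G0 * cs * N' * Kb * (R / G) * (4 * (K * M)) :=
          mul_le_mul_of_nonneg_left (by linarith) (by positivity)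
      _ = _ := by ring
  have h4 : A * G0 * (cs * (N' * (J3 + Z₁ * E₁ + Z₂ * E₂) + M * J3)) ≤
      A * G0 * (cs * (N' * (J3 + Z₁ * (Kb * (x₁ * J3 + L₁ / G)) + Z₂ * E₂) + M * J3)) +
      A * G0 * (cs * (N' * (Kb * (L₂ / P₂ / G)))) := by
    rw [← mul_add, ← mul_add]
    refine mul_le_mul_of_nonneg_left ?_ (by positivity)
    refine mul_le_mul_of_nonneg_left ?_ (by linarith)
    have h5 := mul_le_mul_of_nonneg_left h2 (show 0 ≤ N' by linarith)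
    have e1 : N' * (J3 + Z₁ * E₁ + Z₂ * E₂) = N' * (Z₁ * E₁) + N' * (J3 + Z₂ * E₂) := by ring
    have e2 : N' * (J3 + Z₁ * (Kb * (x₁ * J3 + L₁ / G)) + Z₂ * E₂) =
        N' * (Z₁ * (Kb * (x₁ * J3 + L₁ / G))) + N' * (J3 + Z₂ * E₂) := by ring
    rw [e1, e2]
    rw [mul_add] at h5
    linarith
  refine h4.trans ((add_le_add h1 h3).trans (le_of_eq ?_))
  ring

/-- **The slopes of the plane along the line**, closed labels of the node. -/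
theorem star_sl (D : ℕ) : ∃ C : ℕ, ∀ {m J : ℕ} {F : Fam m J} {c : ℕ → Fin m}
    {a w₁ e n' : ℕ} {g : ℕ → ℕ} {A : F.Ω → Prop}
    {T : PtT F → ℕ → MvPolynomial (Option (Fin m)) ℝ}
    {TH : LnT F → ℕ → MvPolynomial (Option (Fin m)) ℝ} {X₀ : Option (Fin m) → ℝ} {ω : F.Ω},
    Set.InjOn c (Set.Iio 3) → ChOK F c 3 (fun _ => D) a w₁ e g A T TH → A ω → X₀ none = 0 →
    X₀ (some (c 0)) = 1 → (∀ α β : ℝ, |α| ≤ 1 → |β| ≤ 1 → ∀ l < 3,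
      |(bt F ω + α • vl F a ω + β • ((1 / 2 ^ g 0 : ℝ) • X₀)) (some (c l)) -
        eval (bt F ω + α • vl F a ω + β • ((1 / 2 ^ g 0 : ℝ) • X₀)) (T (ptr F J ω) l)| ≤
          2 ^ n' / 2 ^ g l) → ∀ α : ℝ, |α| ≤ 1 →
      |X₀ (some (c 1)) - eval (bt F ω + α • vl F a ω)
        (pderiv (some (c 0)) (TH (slam F w₁ ω) 1))| ≤ 2 ^ (g 0 + C * (n' + 1)) / 2 ^ g 1 ∧
      |X₀ (some (c 2)) - (eval (bt F ω + α • vl F a ω)
          (pderiv (some (c 0)) (TH (slam F w₁ ω) 2)) +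
        eval (bt F ω + α • vl F a ω) (pderiv (some (c 1)) (TH (slam F w₁ ω) 2)) *
          X₀ (some (c 1)))| ≤ 2 ^ (g 0 + C * (n' + 1)) / 2 ^ g 2 := by
  obtain ⟨cU, hstar1⟩ := star_one D 2
  have pw : ∀ {x y : ℕ}, x ≤ y → (2 : ℝ) ^ x ≤ 2 ^ y := fun h => pow_le_pow_right₀ (by norm_num) h
  refine ⟨2 * cU + 2, ?_⟩
  intro m J F c a w₁ e n' g A T TH X₀ ω hcc3 hT hω hX0 hX1 hpl α hα
  have hcc2 : Set.InjOn c (Set.Iio 2) := hcc3.mono fun x hx => by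
    rw [Set.mem_Iio] at hx ⊢
    omega
  have hst : ∀ i, 1 ≤ i → i ≤ 2 →
      |((1 / 2 ^ g 0 : ℝ) • X₀) (some (c i)) - dd (TH (slam F w₁ ω) i)
        (bt F ω + α • vl F a ω) ((1 / 2 ^ g 0 : ℝ) • X₀)| ≤
          2 ^ ((2 * cU + 2) * (n' + 1)) / 2 ^ g i := by
    intro i hi1 hi2
    have h1 := hstar1 (c := c) (G := T (ptr F J ω)) (H := TH (slam F w₁ ω) i) (g := g) (a := a)
      (i := i) (n := n') (t := F.t ω) (δ := 1 / 2 ^ g i) (e := 2 ^ n' / 2 ^ g i) (x := bt F ω)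
      (U₀ := vl F a ω) (U₁ := (1 / 2 ^ g 0 : ℝ) • X₀) hi2
      (hcc3.mono fun x hx => by
        rw [Set.mem_Iio] at hx ⊢
        omega)
      (fun l => hT.degG _ l) (fun l => hT.depG _ l) (hT.degH _ i) (hT.depH _ i) rfl
      (vl_none F a ω) (by rw [Pi.smul_apply, hX0, smul_zero]) (by positivity)
      (fun b hb => hT.agr ω hω i (by omega) b hb)
      (fun α' β' h1 h2 => ⟨fun l hl => hpl α' β' h1 h2 l (by omega),
        hpl α' β' h1 h2 i (by omega)⟩) α hα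
    refine h1.trans ?_
    have e1 : (2 : ℝ) ^ cU * (2 ^ n' / 2 ^ g i + 2 ^ (cU * (n' + 1)) * (1 / 2 ^ g i)) =
        (2 ^ (cU + n') + 2 ^ (cU + cU * (n' + 1))) / 2 ^ g i := by
      rw [pow_add, pow_add]
      ring
    rw [e1]
    refine div_le_div_of_nonneg_right ?_ (by positivity)
    have hk : cU + n' + cU * (n' + 1) + 1 ≤ (2 * cU + 2) * (n' + 1) := by
      have : (2 * cU + 2) * (n' + 1) = cU * (n' + 1) + cU * (n' + 1) + 2 * (n' + 1) := by ring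
      have h3 : cU ≤ cU * (n' + 1) := Nat.le_mul_of_pos_right _ (by omega)
      omega
    have e2 : (2 : ℝ) ^ (cU + n') ≤ 2 ^ (cU + n' + cU * (n' + 1)) := pw (by omega)
    have e3 : (2 : ℝ) ^ (cU + cU * (n' + 1)) ≤ 2 ^ (cU + n' + cU * (n' + 1)) := pw (by omega)
    refine le_trans ?_ (pw hk)
    rw [pow_succ]
    linarith
  constructor
  · have h1 := hst 1 le_rfl (by norm_num)
    rw [dd_smul, dd_one' (hT.depH _ 1) hX0, hX1, mul_one, Pi.smul_apply, smul_eq_mul, ← mul_sub,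
      abs_mul, abs_of_pos (show (0 : ℝ) < 1 / 2 ^ g 0 by positivity), one_div_mul_eq_div,
      div_le_iff₀ (by positivity)] at h1
    refine h1.trans (le_of_eq ?_)
    rw [pow_add]
    ring
  · have h1 := hst 2 (by norm_num) le_rfl
    rw [dd_smul, dd_two hcc2 (hT.depH _ 2) hX0, hX1, mul_one, Pi.smul_apply, smul_eq_mul,
      ← mul_sub, abs_mul, abs_of_pos (show (0 : ℝ) < 1 / 2 ^ g 0 by positivity),
      one_div_mul_eq_div, div_le_iff₀ (by positivity)] at h1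
    refine h1.trans (le_of_eq ?_)
    rw [pow_add]
    ring

/-- The same point of one line. -/
theorem same_pt (F : Fam m J) {a : ℕ} {ω ω' : F.Ω} (h : slam F a ω = slam F a ω') :
    bt F ω' + (2 ^ a * (F.t ω - F.t ω')) • vl F a ω' = bt F ω := by
  have h1 := pt_slam F a ω (F.t ω)
  have h2 := pt_slam F a ω' (F.t ω)
  rw [← h, h1, sub_self, zero_smul, add_zero] at h2
  rw [h2]
  unfold vl
  rw [smul_smul]
  congr 2
  field_simp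

/-- **The slopes of two planes of one line.** -/
theorem tt_sl {F : Fam m J} {c : ℕ → Fin m} {a w₁ N k : ℕ} {g : ℕ → ℕ}
    {TH : LnT F → ℕ → MvPolynomial (Option (Fin m)) ℝ} {x y : Option (Fin m) → ℝ} {ω ω' : F.Ω}
    {u : ℝ} (haJ : a ≤ J) (hw : w₁ ≤ a) (h : slam F a ω = slam F a ω')
    (hx : ∀ α : ℝ, |α| ≤ 1 →
      |x (some (c 1)) - eval (bt F ω + α • vl F a ω)
        (pderiv (some (c 0)) (TH (slam F w₁ ω) 1))| ≤ 2 ^ (g 0 + N) / 2 ^ g 1 ∧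
      |x (some (c 2)) - (eval (bt F ω + α • vl F a ω)
          (pderiv (some (c 0)) (TH (slam F w₁ ω) 2)) +
        eval (bt F ω + α • vl F a ω) (pderiv (some (c 1)) (TH (slam F w₁ ω) 2)) *
          x (some (c 1)))| ≤ 2 ^ (g 0 + N) / 2 ^ g 2)
    (hy : ∀ α : ℝ, |α| ≤ 1 →
      |y (some (c 1)) - eval (bt F ω' + α • vl F a ω')
        (pderiv (some (c 0)) (TH (slam F w₁ ω') 1))| ≤ 2 ^ (g 0 + N) / 2 ^ g 1 ∧
      |y (some (c 2)) - (eval (bt F ω' + α • vl F a ω')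
          (pderiv (some (c 0)) (TH (slam F w₁ ω') 2)) +
        eval (bt F ω' + α • vl F a ω') (pderiv (some (c 1)) (TH (slam F w₁ ω') 2)) *
          y (some (c 1)))| ≤ 2 ^ (g 0 + N) / 2 ^ g 2)
    (hu : |eval (bt F ω) (pderiv (some (c 1)) (TH (slam F w₁ ω) 2)) - u| ≤
      2 ^ k * 2 ^ g 1 / 2 ^ g 2) :
    |x (some (c 1)) - y (some (c 1))| ≤ 2 ^ (g 0 + N + 1) / 2 ^ g 1 ∧
    |(x (some (c 2)) - u * x (some (c 1))) - (y (some (c 2)) - u * y (some (c 1)))| ≤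
      2 ^ (g 0 + N + k + 3) / 2 ^ g 2 := by
  have pw : ∀ {x y : ℕ}, x ≤ y → (2 : ℝ) ^ x ≤ 2 ^ y := fun h => pow_le_pow_right₀ (by norm_num) h
  have hs : slam F w₁ ω' = slam F w₁ ω := by
    rw [slam_coarse F hw haJ ω, slam_coarse F hw haJ ω', h]
  have ht : |2 ^ a * (F.t ω - F.t ω')| ≤ 1 := by
    have h1 := t_win haJ h
    rw [abs_mul, abs_of_pos (show (0 : ℝ) < 2 ^ a by positivity)]
    calc (2 : ℝ) ^ a * |F.t ω - F.t ω'| ≤ 2 ^ a * (1 / 2 ^ a) :=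
          mul_le_mul_of_nonneg_left h1 (by positivity)
      _ = 1 := by field_simp
  obtain ⟨h1, h2⟩ := hx 0 (by rw [abs_zero]; norm_num)
  obtain ⟨h3, h4⟩ := hy _ ht
  rw [same_pt F h, hs] at h3 h4
  rw [zero_smul, add_zero] at h1 h2
  obtain ⟨x₁, hx₁⟩ : ∃ z, z = x (some (c 1)) := ⟨_, rfl⟩
  obtain ⟨x₂, hx₂⟩ : ∃ z, z = x (some (c 2)) := ⟨_, rfl⟩
  obtain ⟨y₁, hy₁⟩ : ∃ z, z = y (some (c 1)) := ⟨_, rfl⟩
  obtain ⟨y₂, hy₂⟩ : ∃ z, z = y (some (c 2)) := ⟨_, rfl⟩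
  obtain ⟨d, hd⟩ : ∃ z, z = eval (bt F ω) (pderiv (some (c 0)) (TH (slam F w₁ ω) 1)) := ⟨_, rfl⟩
  obtain ⟨d0, hd0⟩ : ∃ z, z = eval (bt F ω) (pderiv (some (c 0)) (TH (slam F w₁ ω) 2)) :=
    ⟨_, rfl⟩
  obtain ⟨d1, hd1⟩ : ∃ z, z = eval (bt F ω) (pderiv (some (c 1)) (TH (slam F w₁ ω) 2)) :=
    ⟨_, rfl⟩
  rw [← hx₁, ← hd] at h1
  rw [← hx₁, ← hx₂, ← hd0, ← hd1] at h2
  rw [← hy₁, ← hd] at h3
  rw [← hy₁, ← hy₂, ← hd0, ← hd1] at h4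
  rw [← hd1] at hu
  rw [← hx₁, ← hx₂, ← hy₁, ← hy₂]
  have h5 : |x₁ - y₁| ≤ 2 ^ (g 0 + N + 1) / 2 ^ g 1 := by
    have e1 : x₁ - y₁ = (x₁ - d) - (y₁ - d) := by ring
    rw [e1]
    refine (abs_sub _ _).trans ((add_le_add h1 h3).trans (le_of_eq ?_))
    rw [pow_succ]
    ring
  refine ⟨h5, ?_⟩
  have e1 : (x₂ - u * x₁) - (y₂ - u * y₁) = (x₂ - (d0 + d1 * x₁)) - (y₂ - (d0 + d1 * y₁)) +
      (d1 - u) * (x₁ - y₁) := by ring
  rw [e1]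
  have h8 : |(d1 - u) * (x₁ - y₁)| ≤ 2 ^ k * 2 ^ g 1 / 2 ^ g 2 *
      (2 ^ (g 0 + N + 1) / 2 ^ g 1) := by
    rw [abs_mul]
    exact mul_le_mul hu h5 (abs_nonneg _) (by positivity)
  have e2 : (2 : ℝ) ^ k * 2 ^ g 1 / 2 ^ g 2 * (2 ^ (g 0 + N + 1) / 2 ^ g 1) =
      2 ^ (g 0 + N + k + 1) / 2 ^ g 2 := by
    rw [show g 0 + N + k + 1 = k + (g 0 + N + 1) by omega, pow_add 2 k]
    field_simp
  rw [e2] at h8
  refine (abs_add_le _ _).trans ((add_le_add ((abs_sub _ _).trans (add_le_add h2 h4)) h8).trans ?_)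
  rw [← add_div, ← add_div]
  refine div_le_div_of_nonneg_right ?_ (by positivity)
  have e3 : (2 : ℝ) ^ (g 0 + N) ≤ 2 ^ (g 0 + N + k + 1) := pw (by omega)
  have e4 : (2 : ℝ) ^ (g 0 + N + k + 3) = 4 * 2 ^ (g 0 + N + k + 1) := by
    rw [show g 0 + N + k + 3 = (g 0 + N + k + 1) + 2 by omega, pow_add 2 (g 0 + N + k + 1) 2]
    ring
  have e5 : (0 : ℝ) < 2 ^ (g 0 + N + k + 1) := by positivity
  rw [e4]
  linarith

/-- **The sizes of the slopes.** -/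
theorem sl_bd {F : Fam m J} {c : ℕ → Fin m} {a w₁ e n' k D : ℕ} {g : ℕ → ℕ} {A : F.Ω → Prop}
    {T : PtT F → ℕ → MvPolynomial (Option (Fin m)) ℝ}
    {TH : LnT F → ℕ → MvPolynomial (Option (Fin m)) ℝ} {X₀ : Option (Fin m) → ℝ} {ω : F.Ω}
    {u : ℝ} (hcc3 : Set.InjOn c (Set.Iio 3)) (hT : ChOK F c 3 (fun _ => D) a w₁ e g A T TH)
    (hω : A ω) (hX0 : X₀ none = 0) (hX1 : X₀ (some (c 0)) = 1)
    (hnat : ∀ l < 3, |((1 / 2 ^ g 0 : ℝ) • X₀) (some (c l)) -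
      dd (T (ptr F J ω) l) (bt F ω) ((1 / 2 ^ g 0 : ℝ) • X₀)| ≤ 2 ^ n' / 2 ^ g l)
    (hu : |eval (bt F ω) (pderiv (some (c 1)) (T (ptr F J ω) 2)) - u| ≤
      2 ^ k * 2 ^ g 1 / 2 ^ g 2) :
    |X₀ (some (c 1))| ≤ 2 ^ (n' + 1 + e + nlp g 0 1) ∧ |u| ≤ 2 ^ (k + 1 + e + nlp g 1 2) ∧
    |X₀ (some (c 2)) - u * X₀ (some (c 1))| ≤ 2 ^ (n' + k + 3 + e + nlp g 0 2) := by
  have pw : ∀ {x y : ℕ}, x ≤ y → (2 : ℝ) ^ x ≤ 2 ^ y := fun h => pow_le_pow_right₀ (by norm_num) h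
  have hcc2 : Set.InjOn c (Set.Iio 2) := hcc3.mono fun x hx => by
    rw [Set.mem_Iio] at hx ⊢
    omega
  have hself := fun i (hi : i ≤ 3) => hT.self hω hi
  have hX1s : |X₀ (some (c 1))| ≤ 2 ^ (n' + 1 + e + nlp g 0 1) := by
    have h1 := hnat 1 (by norm_num)
    rw [dd_smul, dd_one' (hT.depG _ 1) hX0, hX1,
      mul_one, Pi.smul_apply, smul_eq_mul, ← mul_sub, abs_mul,
      abs_of_pos (show (0 : ℝ) < 1 / 2 ^ g 0 by positivity), one_div_mul_eq_div,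
      div_le_iff₀ (by positivity)] at h1
    have h2 := hT.lip ω hω 1 (by norm_num) (bt F ω) (hself 1 (by norm_num)) 0 (by norm_num)
    have h3 : (2 : ℝ) ^ n' / 2 ^ g 1 * 2 ^ g 0 ≤ 2 ^ (n' + nlp g 0 1) := by
      rw [div_mul_eq_mul_div, div_le_iff₀ (by positivity), ← pow_add, ← pow_add]
      have := nlp_ge g (l := 0) (i := 1) (j := 0) le_rfl (by norm_num)
      exact pw (by omega)
    have e2 : X₀ (some (c 1)) = (X₀ (some (c 1)) -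
        eval (bt F ω) (pderiv (some (c 0)) (T (ptr F J ω) 1))) +
        eval (bt F ω) (pderiv (some (c 0)) (T (ptr F J ω) 1)) := by ring
    rw [e2]
    refine (abs_add_le _ _).trans ((add_le_add (h1.trans h3) h2).trans ?_)
    have g3 : (2 : ℝ) ^ (n' + nlp g 0 1) ≤ 2 ^ (n' + e + nlp g 0 1) := pw (by omega)
    have g4 : (2 : ℝ) ^ (e + nlp g 0 1) ≤ 2 ^ (n' + e + nlp g 0 1) := pw (by omega)
    rw [show n' + 1 + e + nlp g 0 1 = n' + e + nlp g 0 1 + 1 by omega, pow_succ]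
    linarith
  refine ⟨hX1s, ?_, ?_⟩
  · have h2 := hT.lip ω hω 2 (by norm_num) (bt F ω) (hself 2 (by norm_num)) 1 (by norm_num)
    have h3 : (2 : ℝ) ^ k * 2 ^ g 1 / 2 ^ g 2 ≤ 2 ^ (k + nlp g 1 2) := by
      rw [← pow_add, div_le_iff₀ (by positivity), ← pow_add]
      have := nlp_ge g (l := 1) (i := 2) (j := 1) le_rfl (by norm_num)
      exact pw (by omega)
    have e2 : u = eval (bt F ω) (pderiv (some (c 1)) (T (ptr F J ω) 2)) -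
        (eval (bt F ω) (pderiv (some (c 1)) (T (ptr F J ω) 2)) - u) := by ring
    rw [e2]
    refine (abs_sub _ _).trans ((add_le_add h2 (hu.trans h3)).trans ?_)
    have g3 : (2 : ℝ) ^ (k + nlp g 1 2) ≤ 2 ^ (k + e + nlp g 1 2) := pw (by omega)
    have g4 : (2 : ℝ) ^ (e + nlp g 1 2) ≤ 2 ^ (k + e + nlp g 1 2) := pw (by omega)
    rw [show k + 1 + e + nlp g 1 2 = k + e + nlp g 1 2 + 1 by omega, pow_succ]
    linarith
  · have h1 := hnat 2 (by norm_num)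
    rw [dd_smul, dd_two hcc2 (hT.depG _ 2) hX0,
      hX1, mul_one, Pi.smul_apply, smul_eq_mul, ← mul_sub, abs_mul,
      abs_of_pos (show (0 : ℝ) < 1 / 2 ^ g 0 by positivity), one_div_mul_eq_div,
      div_le_iff₀ (by positivity)] at h1
    have h2 := hT.lip ω hω 2 (by norm_num) (bt F ω) (hself 2 (by norm_num)) 0 (by norm_num)
    have h3 : (2 : ℝ) ^ n' / 2 ^ g 2 * 2 ^ g 0 ≤ 2 ^ (n' + nlp g 0 2) := by
      rw [div_mul_eq_mul_div, div_le_iff₀ (by positivity), ← pow_add, ← pow_add]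
      have := nlp_ge g (l := 0) (i := 2) (j := 0) le_rfl (by norm_num)
      exact pw (by omega)
    have h6 : |(eval (bt F ω) (pderiv (some (c 1)) (T (ptr F J ω) 2)) - u) *
        X₀ (some (c 1))| ≤ 2 ^ (n' + k + 1 + e + nlp g 0 2) := by
      rw [abs_mul]
      refine (mul_le_mul hu hX1s (abs_nonneg _) (by positivity)).trans ?_
      rw [← pow_add, div_mul_eq_mul_div, ← pow_add, div_le_iff₀ (by positivity), ← pow_add]
      have e1 := nlp_01 g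
      have e2 := nlp_ge g (l := 0) (i := 2) (j := 0) le_rfl (by norm_num)
      have e3 := nlp_ge g (l := 0) (i := 2) (j := 1) (by norm_num) (by norm_num)
      have e4 : max (g 0) (g 1) ≤ nlp g 0 2 + g 2 := max_le e2 e3
      exact pw (by omega)
    obtain ⟨x₁, hx₁⟩ : ∃ x, x = X₀ (some (c 1)) := ⟨_, rfl⟩
    obtain ⟨x₂, hx₂⟩ : ∃ x, x = X₀ (some (c 2)) := ⟨_, rfl⟩
    obtain ⟨d0, hd0⟩ : ∃ x, x = eval (bt F ω) (pderiv (some (c 0)) (T (ptr F J ω) 2)) :=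
      ⟨_, rfl⟩
    obtain ⟨d1, hd1⟩ : ∃ x, x = eval (bt F ω) (pderiv (some (c 1)) (T (ptr F J ω) 2)) :=
      ⟨_, rfl⟩
    rw [← hx₁, ← hx₂, ← hd0, ← hd1] at h1
    rw [← hd0] at h2
    rw [← hd1, ← hx₁] at h6
    rw [← hx₁, ← hx₂]
    have e1 : x₂ - u * x₁ = (x₂ - (d0 + d1 * x₁)) + d0 + (d1 - u) * x₁ := by ring
    rw [e1]
    refine (abs_add_three _ _ _).trans ((add_le_add (add_le_add (h1.trans h3) h2) h6).trans ?_)
    have g3 : (2 : ℝ) ^ (n' + nlp g 0 2) ≤ 2 ^ (n' + k + 1 + e + nlp g 0 2) := pw (by omega)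
    have g4 : (2 : ℝ) ^ (e + nlp g 0 2) ≤ 2 ^ (n' + k + 1 + e + nlp g 0 2) := pw (by omega)
    have g5 : (2 : ℝ) ^ (n' + k + 3 + e + nlp g 0 2) =
        4 * 2 ^ (n' + k + 1 + e + nlp g 0 2) := by
      rw [show n' + k + 3 + e + nlp g 0 2 = (n' + k + 1 + e + nlp g 0 2) + 2 by omega,
        pow_add 2 (n' + k + 1 + e + nlp g 0 2) 2]
      ring
    have g6 : (0 : ℝ) < 2 ^ (n' + k + 1 + e + nlp g 0 2) := by positivity
    rw [g5]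
    linarith

/-- **The relation from the plane.** -/
theorem rel_bd (D : ℕ) : ∃ C : ℕ, ∀ {m J : ℕ} {F : Fam m J} {c : ℕ → Fin m} {a w n' : ℕ}
    {g : ℕ → ℕ} {G : ℕ → MvPolynomial (Option (Fin m)) ℝ} {R : MvPolynomial (Option (Fin m)) ℝ}
    {X₀ : Option (Fin m) → ℝ} {u er_t δ : ℝ} {ω : F.Ω}, Set.InjOn c (Set.Iio 3) →
    (∀ l, (G l).totalDegree ≤ D) → (∀ l, DepC c l (G l)) → R.totalDegree ≤ D → DepC c 3 R →
    X₀ none = 0 → X₀ (some (c 0)) = 1 → 0 ≤ δ →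
    (∀ b, NBx c G g a (F.t ω) 3 b → |eval b (G 3) - eval b R| ≤ δ) →
    (∀ α β : ℝ, |α| ≤ 1 → |β| ≤ 1 → (∀ l < 3,
      |(bt F ω + α • vl F a ω + β • ((1 / 2 ^ g 0 : ℝ) • X₀)) (some (c l)) -
        eval (bt F ω + α • vl F a ω + β • ((1 / 2 ^ g 0 : ℝ) • X₀)) (G l)| ≤ 2 ^ n' / 2 ^ g l) ∧
      |(bt F ω + α • vl F a ω + β • ((1 / 2 ^ g 0 : ℝ) • X₀)) (some (c 3)) -
        eval (bt F ω + α • vl F a ω + β • ((1 / 2 ^ g 0 : ℝ) • X₀)) (G 3)| ≤ er_t) →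
    ∀ t : ℝ, |t - F.t ω| ≤ 1 / 2 ^ a →
      |(hcl (c 0) R (slam F w ω)).eval t +
      ((hcl (c 1) R (slam F w ω)).eval t + u * (hcl (c 2) R (slam F w ω)).eval t) *
        X₀ (some (c 1)) +
      (hcl (c 2) R (slam F w ω)).eval t * (X₀ (some (c 2)) - u * X₀ (some (c 1)))| ≤
      2 ^ a * 2 ^ g 0 * (2 ^ C * (er_t + 2 ^ (C * (n' + 1)) * δ)) ∧
      |hs R (bt F ω + (t - F.t ω) • bd F ω) X₀ X₀| ≤
      2 ^ g 0 * 2 ^ g 0 * (2 ^ C * (er_t + 2 ^ (C * (n' + 1)) * δ)) := by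
  obtain ⟨cS, hstar⟩ := star D 3
  refine ⟨cS, ?_⟩
  intro m J F c a w n' g G R X₀ u er_t δ ω hcc3 hG hGd hR hRd hX0 hX1 hδ hagr hpl t ht
  obtain ⟨α, hα⟩ : ∃ α : ℝ, α = 2 ^ a * (t - F.t ω) := ⟨_, rfl⟩
  have hα1 : |α| ≤ 1 := by
    rw [hα, abs_mul, abs_of_pos (show (0 : ℝ) < 2 ^ a by positivity)]
    calc (2 : ℝ) ^ a * |t - F.t ω| ≤ 2 ^ a * (1 / 2 ^ a) :=
          mul_le_mul_of_nonneg_left ht (by positivity)
      _ = 1 := by field_simp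
  obtain ⟨hst, hst2⟩ := (hstar (c := c) (G := G) (H := R) (g := g) (a := a)
    (i := 3) (n := n') (t := F.t ω) (δ := δ) (e := er_t) (x := bt F ω)
    (U₀ := vl F a ω) (U₁ := (1 / 2 ^ g 0 : ℝ) • X₀) le_rfl hcc3
    hG hGd hR hRd rfl (vl_none F a ω) (by rw [Pi.smul_apply, hX0, smul_zero]) hδ hagr
    (fun α' β' h1 h2 => hpl α' β' h1 h2) α hα1)
  have e1 : bt F ω + α • vl F a ω = bt F ω + (t - F.t ω) • bd F ω := by
    rw [hα]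
    unfold vl
    rw [smul_smul]
    congr 2
    field_simp
  rw [e1, hs_smul_left, hs_smul_right] at hst2
  have e2 : hs R (bt F ω + α • vl F a ω) (vl F a ω) ((1 / 2 ^ g 0 : ℝ) • X₀) =
      1 / 2 ^ a * (1 / 2 ^ g 0) *
      ((hcl (c 0) R (slam F w ω)).eval t +
      ((hcl (c 1) R (slam F w ω)).eval t + u * (hcl (c 2) R (slam F w ω)).eval t) *
        X₀ (some (c 1)) +
      (hcl (c 2) R (slam F w ω)).eval t * (X₀ (some (c 2)) - u * X₀ (some (c 1)))) := by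
    rw [e1]
    unfold vl
    rw [hs_smul_left, hs_smul_right, hs_three hcc3 hRd hX0, hX1]
    simp only [hcl_eval]
    ring
  rw [e2, abs_mul, abs_of_pos (show (0 : ℝ) < 1 / 2 ^ a * (1 / 2 ^ g 0) by positivity)] at hst
  obtain ⟨Q, hQ⟩ : ∃ Q, Q = (hcl (c 0) R (slam F w ω)).eval t +
      ((hcl (c 1) R (slam F w ω)).eval t + u * (hcl (c 2) R (slam F w ω)).eval t) *
        X₀ (some (c 1)) +
      (hcl (c 2) R (slam F w ω)).eval t * (X₀ (some (c 2)) - u * X₀ (some (c 1))) := ⟨_, rfl⟩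
  rw [← hQ] at hst ⊢
  obtain ⟨Q', hQ'⟩ : ∃ Q', Q' = hs R (bt F ω + (t - F.t ω) • bd F ω) X₀ X₀ := ⟨_, rfl⟩
  rw [← hQ', abs_mul, abs_mul, abs_of_pos (show (0 : ℝ) < 1 / 2 ^ g 0 by positivity)] at hst2
  rw [← hQ']
  refine ⟨?_, ?_⟩
  · calc |Q| = 2 ^ a * 2 ^ g 0 * (1 / 2 ^ a * (1 / 2 ^ g 0) * |Q|) := by field_simp
      _ ≤ _ := mul_le_mul_of_nonneg_left hst (by positivity)
  · calc |Q'| = 2 ^ g 0 * 2 ^ g 0 * (1 / 2 ^ g 0 * (1 / 2 ^ g 0 * |Q'|)) := by field_simp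
      _ ≤ _ := mul_le_mul_of_nonneg_left hst2 (by positivity)

end Pool.NVX
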