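import Pool.Agent.H80.NV.Qf
import Pool.Agent.H80.NV.Wn

/-!
# The slope of the plane in the direction `c 2` and the closed label of `c 2`

`near_agr`, `st_node`: the slope of the plane is the derivative of the closed label of the node
`(a, w)`. `slp_win`: the derivative of the closed label in the direction `c 1` on the window.
-/

set_option autoImplicit false

namespace Pool.NVX

open Finset Real MvPolynomial
open Pool.Agent.H49.Ent Pool.Agent.H32.Dense Pool.STK Pool.KA Pool.KSAT Pool.K2S Pool.PB Pool.S6C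
open Pool.GEN Pool.CHT
open Pool.D2R (dd hs dd_add dd_smul dd_congr)
open Pool.F5 (lp gp der_lp dd_gp deg_gp deg_lp eo bdS bdS_slam eval_lp eval_gp)
open Pool.SHR (dir mvp RelvH Shr ShrY relvF_low lab_near slp_cmp)
open Pool.PB.Trl (rt rt_mem t_rt)
open Pool.FLF (Fam.sub)
open Pool.Z3 (jn jn_lt jn_self nbx_jn)

variable {m J : ℕ}

/-- The agreement of the label of `c 2` on the boxes of a finer node. -/
theorem near_agr (D : ℕ) : ∃ C : ℕ, ∀ {m J : ℕ} {F : Fam m J} {c : ℕ → Fin m}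
    {a w E q s : ℕ} {g gN : ℕ → ℕ} {B : F.Ω → Prop}
    {N T : PtT F → ℕ → MvPolynomial (Option (Fin m)) ℝ}
    {NH : LnT F → ℕ → MvPolynomial (Option (Fin m)) ℝ} {ω : F.Ω},
    Set.InjOn c (Set.Iio 2) → ChOK F c 3 (fun _ => D) a w E gN B N NH →
    (∀ y l, DepC c l (T y l)) → B ω → (∀ l < 2, gN l ≤ g l + s) →
    (∀ i < 2, ∀ b, NBx c (T (ptr F J ω)) g a (F.t ω) i b →
      |eval b (T (ptr F J ω) i) - eval b (N (ptr F J ω) i)| ≤ 2 ^ q / 2 ^ gN i) →
    ∀ b, NBx c (T (ptr F J ω)) g a (F.t ω) 2 b →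
      |eval b (N (ptr F J ω) 2) - eval b (NH (slam F w ω) 2)| ≤
        2 ^ (C * (q + s + 1)) / 2 ^ gN 2 := by
  obtain ⟨c₀, D₁, -, hdil⟩ := nbx_dil 3 (fun _ => D)
  refine ⟨c₀ + 2 * D₁, ?_⟩
  intro m J F c a w E q s g gN B N T NH ω hc hN hTp hω hgx hnr b hb
  have pw : ∀ {x y : ℕ}, x ≤ y → (2 : ℝ) ^ x ≤ 2 ^ y := fun h => pow_le_pow_right₀ (by norm_num) h
  have h1 := hdil (c := c) (i := 2) (G := N (ptr F J ω))
    (Q := N (ptr F J ω) 2 - NH (slam F w ω) 2) (g := gN) (a := a) (t := F.t ω)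
    (M := 1 / 2 ^ gN 2) (q + s + 1) (by norm_num) hc (hN.degG _) (hN.depG _)
    (fun b b' hn hb' => by
      rw [map_sub, map_sub, hN.depG _ 2 b b' hn hb', hN.depH _ 2 b b' hn hb'])
    ((totalDegree_sub _ _).trans (max_le (hN.degG _ 2) (hN.degH _ 2))) (by positivity)
    (fun b hb' => by
      rw [map_sub]
      exact hN.agr ω hω 2 (by norm_num) b hb') b hb.1 (fun l hl => by
      have h2 := hb.2 l hl
      have h3 := hnr l hl b (hb.mono le_rfl hl.le)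
      have e1 : b (some (c l)) - eval b (N (ptr F J ω) l) =
          (b (some (c l)) - eval b (T (ptr F J ω) l)) +
          (eval b (T (ptr F J ω) l) - eval b (N (ptr F J ω) l)) := by ring
      rw [e1]
      refine (abs_add_le _ _).trans ((add_le_add h2 h3).trans ?_)
      have h4 : (1 : ℝ) / 2 ^ g l ≤ 2 ^ s / 2 ^ gN l := by
        rw [div_le_div_iff₀ (by positivity) (by positivity), one_mul, ← pow_add]
        exact pw (by have := hgx l hl; omega)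
      refine (add_le_add h4 le_rfl).trans ?_
      rw [← add_div]
      refine div_le_div_of_nonneg_right ?_ (by positivity)
      rw [pow_succ, pow_add]
      have h5 : (1 : ℝ) ≤ 2 ^ q := one_le_pow₀ (by norm_num)
      have h6 : (1 : ℝ) ≤ 2 ^ s := one_le_pow₀ (by norm_num)
      nlinarith)
  rw [map_sub] at h1
  refine h1.trans ?_
  rw [mul_one_div]
  refine div_le_div_of_nonneg_right (pw ?_) (by positivity)
  have e1 : (c₀ + 2 * D₁) * (q + s + 1) = c₀ * (q + s + 1) + 2 * (D₁ * (q + s + 1)) := by ring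
  have e2 : (q + s + 1) * D₁ = D₁ * (q + s + 1) := Nat.mul_comm _ _
  have e3 : c₀ ≤ c₀ * (q + s + 1) := Nat.le_mul_of_pos_right _ (by omega)
  omega

/-- **The slope of the plane in the direction `c 2`** is the derivative of the closed label. -/
theorem st_node (D : ℕ) : ∃ C : ℕ, ∀ {m J : ℕ} {F : Fam m J} {c : ℕ → Fin m}
    {a w e E n p lam₁ lam₂ h q s : ℕ} {g gN g₄ : ℕ → ℕ} {A B : F.Ω → Prop}
    {N T T₄ : PtT F → ℕ → MvPolynomial (Option (Fin m)) ℝ}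
    {NH : LnT F → ℕ → MvPolynomial (Option (Fin m)) ℝ} {v : PtT F → Fin m → ℝ}
    {X : PtT F → Option (Fin m) → ℝ} {ν₀ : PtT F → F.Ω},
    Rel3 F c a w e n p lam₁ lam₂ D h g gN g₄ A B T T₄ NH v X ν₀ →
    Set.InjOn c (Set.Iio 2) → ChOK F c 3 (fun _ => D) a w E gN B N NH →
    (∀ y l, (T y l).totalDegree ≤ D) → (∀ y l, DepC c l (T y l)) →
    (∀ l < 2, gN l ≤ g l + s) → g 2 ≤ gN 2 + s →
    (∀ ω, B ω → ∀ i < 3, ∀ b, NBx c (T (ptr F J ω)) g a (F.t ω) i b →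
      |eval b (T (ptr F J ω) i) - eval b (N (ptr F J ω) i)| ≤ 2 ^ q / 2 ^ gN i) →
    ∀ ω, B ω → ∀ t : ℝ, |t - F.t ω| ≤ 1 / 2 ^ a → |X (ptr F J ω) (some (c 2)) -
      (eval (bt F ω + (t - F.t ω) • bd F ω) (pderiv (some (c 0)) (NH (slam F w ω) 2)) +
      eval (bt F ω + (t - F.t ω) • bd F ω) (pderiv (some (c 1)) (NH (slam F w ω) 2)) *
        X (ptr F J ω) (some (c 1)))| ≤ 2 ^ (g 0 + C * (n + q + s + 1)) / 2 ^ g 2 := by
  obtain ⟨cA, hag⟩ := near_agr D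
  obtain ⟨cS, hst⟩ := star_one D 2
  obtain ⟨c₀, D₁, -, hdil⟩ := nbx_dil 3 (fun _ => D)
  have pw : ∀ {x y : ℕ}, x ≤ y → (2 : ℝ) ^ x ≤ 2 ^ y := fun h => pow_le_pow_right₀ (by norm_num) h
  refine ⟨cS + (c₀ + D₁ + 3) + cS + cA + 4, ?_⟩
  intro m J F c a w e E n p lam₁ lam₂ h q s g gN g₄ A B N T T₄ NH v X ν₀ H hc hN hTd hTp hgx hg2 hnr
    ω hω t ht
  obtain ⟨T₀, hT₀⟩ : ∃ T, T = n + q + s + 1 := ⟨_, rfl⟩
  have hT1 : 1 ≤ T₀ := by omega
  obtain ⟨y, hy⟩ : ∃ y, y = ptr F J ω := ⟨_, rfl⟩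
  obtain ⟨U₁, hU₁⟩ : ∃ U₁ : Option (Fin m) → ℝ, U₁ = (1 / 2 ^ g 0 : ℝ) • X y := ⟨_, rfl⟩
  have hX0 : X y none = 0 := by rw [hy]; exact H.x0 ω hω
  have hX1 : X y (some (c 0)) = 1 := by rw [hy]; exact H.x1 ω hω
  -- the agreement
  have hδ : ∀ b, NBx c (jn 2 (T y) (N y)) (jn 2 g gN) a (F.t ω) 2 b →
      |eval b (jn 2 (T y) (N y) 2) - eval b (NH (slam F w ω) 2)| ≤
        2 ^ (cA * (q + s + 1)) / 2 ^ gN 2 := by
    intro b hb
    rw [jn_self, hy]
    rw [hy] at hb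
    exact hag hc hN hTp hω hgx (fun i hi b' hb' => hnr ω hω i (by omega) b' hb') b
      ((nbx_jn le_rfl).1 hb)
  -- the plane
  obtain ⟨e₀, he₀⟩ : ∃ e₀ : ℝ, e₀ = 2 ^ n / 2 ^ g 2 + 2 ^ (c₀ + n * D₁) * (2 ^ q / 2 ^ gN 2) :=
    ⟨_, rfl⟩
  have hpl : ∀ α β : ℝ, |α| ≤ 1 → |β| ≤ 1 →
      (∀ l < 2, |(bt F ω + α • vl F a ω + β • U₁) (some (c l)) -
        eval (bt F ω + α • vl F a ω + β • U₁) (jn 2 (T y) (N y) l)| ≤ 2 ^ n / 2 ^ jn 2 g gN l) ∧
      |(bt F ω + α • vl F a ω + β • U₁) (some (c 2)) -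
        eval (bt F ω + α • vl F a ω + β • U₁) (jn 2 (T y) (N y) 2)| ≤ e₀ := by
    intro α β hα hβ
    have h1 := H.pl ω hω α β (by linarith) (by linarith)
    rw [← hy, ← hU₁] at h1
    refine ⟨fun l hl => ?_, ?_⟩
    · rw [jn_lt hl, jn_lt hl]
      exact h1 l (by omega)
    · rw [jn_self]
      obtain ⟨x, hx⟩ : ∃ x, x = bt F ω + α • vl F a ω + β • U₁ := ⟨_, rfl⟩
      rw [← hx] at h1 ⊢
      have hn : |x none - F.t ω| ≤ 1 / 2 ^ a := by
        have e1 : x none - F.t ω = α * (1 / 2 ^ a) := by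
          rw [hx, hU₁]
          show F.t ω + α * vl F a ω none + β * (1 / 2 ^ g 0 * X y none) - F.t ω = _
          rw [hX0, vl_none]
          ring
        rw [e1, abs_mul, abs_of_pos (show (0 : ℝ) < 1 / 2 ^ a by positivity)]
        calc |α| * (1 / 2 ^ a) ≤ 1 * (1 / 2 ^ a) :=
              mul_le_mul_of_nonneg_right hα (by positivity)
          _ = 1 / 2 ^ a := one_mul _
      have h3 := hdil (c := c) (i := 2) (G := T y) (Q := T y 2 - N y 2) (g := g) (a := a)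
        (t := F.t ω) (M := 2 ^ q / 2 ^ gN 2) n (by norm_num) hc (hTd _) (hTp _)
        (fun b b' hn hb => by
          rw [map_sub, map_sub, hTp y 2 b b' hn hb, hN.depG y 2 b b' hn hb])
        ((totalDegree_sub _ _).trans (max_le (hTd _ 2) (hN.degG _ 2))) (by positivity)
        (fun b hb => by
          rw [map_sub, hy]
          rw [hy] at hb
          exact hnr ω hω 2 (by norm_num) b hb) x hn (fun l hl => h1 l (by omega))
      rw [map_sub] at h3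
      have h2 := h1 2 (by norm_num)
      have e2 : x (some (c 2)) - eval x (N y 2) = (x (some (c 2)) - eval x (T y 2)) +
          (eval x (T y 2) - eval x (N y 2)) := by ring
      rw [e2, he₀]
      exact (abs_add_le _ _).trans (add_le_add h2 h3)
  have hgx2 : gN 2 + s ≥ g 2 := hg2
  have hG : ∀ l, (jn 2 (T y) (N y) l).totalDegree ≤ D := fun l => by
    unfold jn
    split_ifs
    · exact hTd _ _
    · exact hN.degG _ _
  have hGp : ∀ l, DepC c l (jn 2 (T y) (N y) l) := fun l => by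
    unfold jn
    split_ifs
    · exact hTp _ _
    · exact hN.depG _ _
  have h1 := hst (c := c) (G := jn 2 (T y) (N y)) (H := NH (slam F w ω) 2) (g := jn 2 g gN)
    (a := a) (i := 2) (n := n) (t := F.t ω) (δ := 2 ^ (cA * (q + s + 1)) / 2 ^ gN 2) (e := e₀)
    (x := bt F ω) (U₀ := vl F a ω) (U₁ := U₁) le_rfl hc hG hGp (hN.degH _ 2) (hN.depH _ 2) rfl
    (vl_none F a ω) (by rw [hU₁]; show 1 / 2 ^ g 0 * X y none = 0; rw [hX0, mul_zero])
    (by positivity) hδ hpl (2 ^ a * (t - F.t ω)) (by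
      rw [abs_mul, abs_of_pos (show (0 : ℝ) < 2 ^ a by positivity)]
      calc 2 ^ a * |t - F.t ω| ≤ 2 ^ a * (1 / 2 ^ a) :=
            mul_le_mul_of_nonneg_left ht (by positivity)
        _ = 1 := by field_simp)
  have hx : bt F ω + (2 ^ a * (t - F.t ω)) • vl F a ω = bt F ω + (t - F.t ω) • bd F ω := by
    funext o
    rcases o with _ | k
    · show F.t ω + 2 ^ a * (t - F.t ω) * vl F a ω none = F.t ω + (t - F.t ω) * 1
      rw [vl_none]
      field_simp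
    · show F.x ω k + 2 ^ a * (t - F.t ω) * (1 / 2 ^ a * F.d ω k) =
        F.x ω k + (t - F.t ω) * F.d ω k
      field_simp
  rw [hx, dd_two hc (hN.depH _ 2) (by rw [hU₁]; show 1 / 2 ^ g 0 * X y none = 0; rw [hX0, mul_zero])]
    at h1
  have e3 : ∀ k : Fin m, U₁ (some k) = 1 / 2 ^ g 0 * X y (some k) := fun k => by
    rw [hU₁]
    rfl
  rw [e3, e3, e3, hX1] at h1
  rw [← hy]
  have e4 : X y (some (c 2)) -
      (eval (bt F ω + (t - F.t ω) • bd F ω) (pderiv (some (c 0)) (NH (slam F w ω) 2)) +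
      eval (bt F ω + (t - F.t ω) • bd F ω) (pderiv (some (c 1)) (NH (slam F w ω) 2)) *
        X y (some (c 1))) = 2 ^ g 0 * (1 / 2 ^ g 0 * X y (some (c 2)) -
      (eval (bt F ω + (t - F.t ω) • bd F ω) (pderiv (some (c 0)) (NH (slam F w ω) 2)) *
        (1 / 2 ^ g 0 * 1) +
      eval (bt F ω + (t - F.t ω) • bd F ω) (pderiv (some (c 1)) (NH (slam F w ω) 2)) *
        (1 / 2 ^ g 0 * X y (some (c 1))))) := by
    field_simp
  rw [e4, abs_mul, abs_of_pos (show (0 : ℝ) < 2 ^ g 0 by positivity)]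
  refine (mul_le_mul_of_nonneg_left h1 (by positivity)).trans ?_
  rw [pow_add 2 (g 0), mul_div_assoc]
  refine mul_le_mul_of_nonneg_left ?_ (by positivity)
  have r1 : (1 : ℝ) / 2 ^ gN 2 ≤ 2 ^ s / 2 ^ g 2 := by
    rw [div_le_div_iff₀ (by positivity) (by positivity), one_mul, ← pow_add]
    exact pw (by omega)
  obtain ⟨z, hz⟩ : ∃ z : ℝ, z = 1 / 2 ^ g 2 := ⟨_, rfl⟩
  have hz0 : 0 ≤ z := by rw [hz]; positivity
  have r1' : (1 : ℝ) / 2 ^ gN 2 ≤ 2 ^ s * z := by rw [hz, mul_one_div]; exact r1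
  have r2 : e₀ ≤ 2 ^ (n + c₀ + n * D₁ + q + s + 1) * z := by
    rw [he₀]
    have f1 : (2 : ℝ) ^ n / 2 ^ g 2 ≤ 2 ^ (n + c₀ + n * D₁ + q + s) * z := by
      rw [hz, mul_one_div]
      exact div_le_div_of_nonneg_right (pw (by omega)) (by positivity)
    have f2 : (2 : ℝ) ^ (c₀ + n * D₁) * (2 ^ q / 2 ^ gN 2) ≤
        2 ^ (n + c₀ + n * D₁ + q + s) * z := by
      calc (2 : ℝ) ^ (c₀ + n * D₁) * (2 ^ q / 2 ^ gN 2) =
          2 ^ (c₀ + n * D₁ + q) * (1 / 2 ^ gN 2) := by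
            rw [pow_add 2 (c₀ + n * D₁) q]
            ring
        _ ≤ 2 ^ (c₀ + n * D₁ + q) * (2 ^ s * z) :=
            mul_le_mul_of_nonneg_left r1' (by positivity)
        _ = 2 ^ (c₀ + n * D₁ + q + s) * z := by
            rw [pow_add 2 (c₀ + n * D₁ + q) s]
            ring
        _ ≤ _ := mul_le_mul_of_nonneg_right (pw (by omega)) hz0
    rw [pow_succ]
    linarith
  have r3 : 2 ^ (cS * (n + 1)) * (2 ^ (cA * (q + s + 1)) / 2 ^ gN 2) ≤
      2 ^ (cS * (n + 1) + cA * (q + s + 1) + s) * z := by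
    calc (2 : ℝ) ^ (cS * (n + 1)) * (2 ^ (cA * (q + s + 1)) / 2 ^ gN 2) =
        2 ^ (cS * (n + 1) + cA * (q + s + 1)) * (1 / 2 ^ gN 2) := by
          rw [pow_add 2 (cS * (n + 1))]
          ring
      _ ≤ 2 ^ (cS * (n + 1) + cA * (q + s + 1)) * (2 ^ s * z) :=
          mul_le_mul_of_nonneg_left r1' (by positivity)
      _ = _ := by
          rw [pow_add 2 (cS * (n + 1) + cA * (q + s + 1)) s]
          ring
  have e0 : ∀ x : ℝ, x / 2 ^ g 2 = x * z := fun x => by rw [hz, mul_one_div]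
  rw [e0]
  obtain ⟨Z, hZ⟩ : ∃ Z, Z = n + c₀ + n * D₁ + q + s + 1 + cS * (n + 1) + cA * (q + s + 1) :=
    ⟨_, rfl⟩
  have r4 : e₀ + 2 ^ (cS * (n + 1)) * (2 ^ (cA * (q + s + 1)) / 2 ^ gN 2) ≤ 2 ^ (Z + 1) * z := by
    have f1 : e₀ ≤ 2 ^ Z * z := r2.trans (mul_le_mul_of_nonneg_right (pw (by omega)) hz0)
    have f2 := r3.trans (mul_le_mul_of_nonneg_right (pw (show cS * (n + 1) + cA * (q + s + 1) + s ≤
      Z by omega)) hz0)
    rw [pow_succ]
    linarith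
  refine (mul_le_mul_of_nonneg_left r4 (by positivity)).trans ?_
  rw [← mul_assoc, ← pow_add]
  refine mul_le_mul_of_nonneg_right (pw ?_) hz0
  rw [← hT₀]
  have e5 : (cS + (c₀ + D₁ + 3) + cS + cA + 4) * T₀ = cS * T₀ + (c₀ * T₀ + D₁ * T₀ + 3 * T₀) +
    cS * T₀ + cA * T₀ + 4 * T₀ := by ring
  have m1 : cS ≤ cS * T₀ := Nat.le_mul_of_pos_right _ hT1
  have m2 : c₀ ≤ c₀ * T₀ := Nat.le_mul_of_pos_right _ hT1
  have m3 : n * D₁ ≤ D₁ * T₀ := by
    rw [Nat.mul_comm]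
    exact Nat.mul_le_mul_left _ (by omega)
  have m4 : cS * (n + 1) ≤ cS * T₀ := Nat.mul_le_mul_left _ (by omega)
  have m5 : cA * (q + s + 1) ≤ cA * T₀ := Nat.mul_le_mul_left _ (by omega)
  omega

/-- **The derivative of the closed label in the direction `c 1`** on the window. -/
theorem slp_win (m D : ℕ) (hD : 1 ≤ D) : ∃ (C : ℕ) (C₁ : ℝ), 1 ≤ C₁ ∧
    ∀ {J : ℕ} {F : Fam m J} {c : ℕ → Fin m} {a w E s U : ℕ} {gN : ℕ → ℕ} {θ : ℝ}
    {A : F.Ω → Prop} {N : PtT F → ℕ → MvPolynomial (Option (Fin m)) ℝ}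
    {NH : LnT F → ℕ → MvPolynomial (Option (Fin m)) ℝ}
    {v : PtT F → Fin m → ℝ} {v' : LnT F → Fin m → ℝ} (hA : 0 < Pe F.p A),
    Set.InjOn c (Set.Iio 2) → w ≤ J → ChOK F c 3 (fun _ => D) a w E gN A N NH →
    (Fam.sub F A hA).Tm θ → 0 ≤ θ → C₁ * (θ + 1) ≤ ((J : ℝ) - w) * Real.log 2 →
    C₁ * (θ + 1) ≤ s → (∀ ω, A ω → v (ptr F J ω) = v' (slam F w ω)) →
    (∀ ω, A ω → v (ptr F J ω) (c 0) = 0 ∧ v (ptr F J ω) (c 1) = 1) →
    (∀ ω, A ω → ShrY F c a U gN N v s 2 ω) → gN 1 ≤ U →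
    ∃ B : F.Ω → Prop, Sub B A ∧ Pe F.p A / 2 ≤ Pe F.p B ∧ ∀ ω, B ω → ∀ t : ℝ,
      F.t ω - rt F w ω / 2 ^ w ≤ t → t ≤ F.t ω + (1 - rt F w ω) / 2 ^ w →
      |eval (bt F ω + (t - F.t ω) • bd F ω) (pderiv (some (c 1)) (NH (slam F w ω) 2)) -
        v (ptr F J ω) (c 2)| ≤ 2 ^ (C + s + s + U) / 2 ^ gN 2 := by
  obtain ⟨cM, hder⟩ := der_shr D hD
  obtain ⟨cK, hcmp⟩ := slp_cmp D 3
  obtain ⟨C₃, hC₃, hrm⟩ := Pool.D2R.rem_fam m D 1
  have pw : ∀ {x y : ℕ}, x ≤ y → (2 : ℝ) ^ x ≤ 2 ^ y := fun h => pow_le_pow_right₀ (by norm_num) h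
  refine ⟨cM + cK + 1, 2 * C₃, by linarith, ?_⟩
  intro J F c a w E s U gN θ A N NH v v' hA hc hwJ hN hTm hθ hCJ hCs hvv hv01 hsh hU
  have hθ1 : 0 ≤ θ + 1 := by linarith
  have hCθ : 0 ≤ C₃ * (θ + 1) := mul_nonneg (by linarith) hθ1
  have hpt : ∀ ω, A ω → |eval (bt F ω) (pderiv (some (c 1)) (NH (slam F w ω) 2)) -
      v (ptr F J ω) (c 2)| ≤ 2 ^ (cM + cK + 1 + s + U) / 2 ^ gN 2 := by
    intro ω hω
    have hself := hN.self hω (i := 2) (by norm_num)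
    have h1 := hder hN.degG (hv01 ω hω).2 (hsh ω hω) _ hself
    have h2 := hcmp (l := 1) (i := 2) (a := a) (k := 0) (y := 0) (p := gN 2) (g := gN) (G := N)
      (v := v) (P := N (ptr F J ω) 2 - NH (slam F w ω) 2) (ω := ω) (by norm_num) hc hN.degG
      hN.depG (fun b b' hn hb => by
        rw [map_sub, map_sub, hN.depG _ 2 b b' hn hb, hN.depH _ 2 b b' hn hb])
      ((totalDegree_sub _ _).trans (max_le (hN.degG _ 2) (hN.degH _ 2))) (hv01 ω hω).2
      (fun j hj => by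
        have : j = 0 := by omega
        subst this
        exact (hv01 ω hω).1) (fun j hj hlj => by omega) hself (fun b hb => by
        rw [map_sub, pow_zero]
        exact hN.agr ω hω 2 (by norm_num) b hb)
    rw [dir_dd, dd_sub_left, ← dir_dd, ← dir_dd,
      dir_two hc (hN.depH _ 2) (hv01 ω hω).1 (hv01 ω hω).2] at h2
    have e1 : eval (bt F ω) (pderiv (some (c 1)) (NH (slam F w ω) 2)) - v (ptr F J ω) (c 2) =
        (eval (bt F ω) (dir (v (ptr F J ω)) (N (ptr F J ω) 2)) - v (ptr F J ω) (c 2)) -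
        (eval (bt F ω) (dir (v (ptr F J ω)) (N (ptr F J ω) 2)) -
          eval (bt F ω) (pderiv (some (c 1)) (NH (slam F w ω) 2))) := by ring
    rw [e1]
    refine (abs_sub _ _).trans ((add_le_add h1 h2).trans ?_)
    rw [← add_div]
    refine div_le_div_of_nonneg_right ?_ (by positivity)
    have f1 : (2 : ℝ) ^ (cM + s) * 2 ^ U ≤ 2 ^ (cM + cK + s + U) := by
      rw [← pow_add]
      exact pw (by omega)
    have f2 : (2 : ℝ) ^ (cK * (0 + 0 + 1)) * 2 ^ gN 1 ≤ 2 ^ (cM + cK + s + U) := by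
      rw [← pow_add]
      exact pw (by omega)
    have e2 : (2 : ℝ) ^ (cM + cK + 1 + s + U) = 2 ^ (cM + cK + s + U) * 2 := by
      rw [← pow_succ]
      congr 1
      omega
    rw [e2]
    linarith
  obtain ⟨q, hq⟩ : ∃ q : LnT F → Polynomial ℝ, q = fun s => rlt w s.2.2
    (alg (pderiv (some (c 1)) (NH s 2)) s - Polynomial.C (v' s (c 2))) := ⟨_, rfl⟩
  have hqe : ∀ ω, A ω → ∀ t : ℝ,
      (q (slam F w ω)).eval (2 ^ w * t - ((slam F w ω).2.2 : ℝ)) =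
      eval (bt F ω + (t - F.t ω) • bd F ω) (pderiv (some (c 1)) (NH (slam F w ω) 2)) -
        v (ptr F J ω) (c 2) := by
    intro ω hω t
    rw [hq, hvv ω hω]
    show (rlt w (slam F w ω).2.2 (alg (pderiv (some (c 1)) (NH (slam F w ω) 2)) (slam F w ω) -
      Polynomial.C (v' (slam F w ω) (c 2)))).eval _ = _
    rw [rlt_time, Polynomial.eval_sub, Polynomial.eval_C, alg_eval]
  obtain ⟨B, b1, b2, b3⟩ := hrm J F A hA w (fun _ => q)
    (fun _ => 2 ^ (cM + cK + 1 + s + U) / 2 ^ gN 2) θ hwJ (fun l _ s' => by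
      show (q s').natDegree ≤ D
      rw [hq]
      refine rlt_deg _ _ ((Polynomial.natDegree_sub_le _ _).trans (max_le
        (alg_deg (Pool.GEN.totalDegree_pdσ (hN.degH s' 2) (some (c 1))) s') ?_))
      rw [Polynomial.natDegree_C]
      exact Nat.zero_le _)
    (fun l _ => by positivity) hθ hTm (by linarith) (fun ω hω l hl => by
      have h1 := hqe ω hω (F.t ω)
      have e1 : 2 ^ w * F.t ω - ((slam F w ω).2.2 : ℝ) = rt F w ω := by
        have h2 := t_rt F hwJ ω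
        rw [h2]
        field_simp
        ring
      rw [e1, sub_self, zero_smul, add_zero] at h1
      show |(q (slam F w ω)).eval (rt F w ω)| ≤ _
      rw [h1]
      exact hpt ω hω)
  refine ⟨B, b1, b2, fun ω hω t t1 t2 => ?_⟩
  have hexp : Real.exp (C₃ * (θ + 1)) ≤ 2 ^ s := by
    have e1 : (2 : ℝ) ^ s = Real.exp (s * Real.log 2) := by
      rw [mul_comm, Real.exp_mul, Real.exp_log (by norm_num), Real.rpow_natCast]
    rw [e1]
    refine Real.exp_le_exp.mpr ?_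
    have h2 : (1 : ℝ) / 2 ≤ Real.log 2 := by
      have := Real.log_two_gt_d9
      linarith
    have h3 : (0 : ℝ) ≤ s := Nat.cast_nonneg s
    nlinarith
  have ht := t_rt F hwJ ω
  have hw0 : (0 : ℝ) < 2 ^ w := by positivity
  have e3 : F.t ω - rt F w ω / 2 ^ w = ((slam F w ω).2.2 : ℝ) / 2 ^ w := by
    rw [ht]
    ring
  have e4 : F.t ω + (1 - rt F w ω) / 2 ^ w = (((slam F w ω).2.2 : ℝ) + 1) / 2 ^ w := by
    rw [ht]
    ring
  rw [e3, div_le_iff₀ hw0] at t1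
  rw [e4, le_div_iff₀ hw0] at t2
  have h1 := b3 ω hω 0 (by norm_num) (2 ^ w * t - ((slam F w ω).2.2 : ℝ))
    ⟨by linarith, by linarith⟩
  rw [← hqe ω (b1 ω hω) t]
  refine h1.trans ?_
  have e5 : (2 : ℝ) ^ (cM + cK + 1 + s + s + U) / 2 ^ gN 2 =
      2 ^ s * (2 ^ (cM + cK + 1 + s + U) / 2 ^ gN 2) := by
    rw [show cM + cK + 1 + s + s + U = s + (cM + cK + 1 + s + U) by omega, pow_add 2 s]
    ring
  rw [e5]
  exact mul_le_mul_of_nonneg_right hexp (by positivity)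

end Pool.NVX
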