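import Pool.Agent.H80.NV.Axl
import Pool.Agent.H80.NV.Pln
import Pool.Agent.H80.NV.Num
import Pool.Agent.H31.NV.Pf
import Pool.Agent.H39.NV.Star
import Pool.Agent.H39.NV.Rem
import Pool.Agent.H87.NV.End
import Pool.Agent.H39.NV.BoxDir
import Pool.Agent.H82.NV.Sep
import Pool.Agent.H87.GEN.Nod
import Pool.Agent.H60.D2.Box
import Pool.Agent.H2.GEN.Iso

/-!
# No excess of the derivative of the label of `c 2` in the direction `c 1`

`nv_two`: the family theorem.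
-/

set_option autoImplicit false

namespace Pool.NVX

open Finset Real MvPolynomial
open Pool.Agent.H49.Ent Pool.Agent.H32.Dense Pool.STK Pool.KA Pool.KSAT Pool.K2S Pool.PB Pool.S6C
open Pool.GEN Pool.CHT
open Pool.D2R (dd hs dd_add dd_smul dd_congr hs_add_right hs_smul_right hs_smul_left)
open Pool.F5 (eo)
open Pool.SHR (dir RelvH relvF_low)
open Pool.PB.Trl (rt rt_mem t_rt)
open Pool.FLF (Fam.sub)
open Pool.Z3 (jn jn_lt jn_self nbx_jn join_top)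
open Pool.ISO (cwn cwn_slam chOK_win)

variable {m J : ℕ}

/-- The relation of the second derivatives, in the coordinates `c 0`, `c 1`. -/
theorem rel_hcl {c : ℕ → Fin m} {P : MvPolynomial (Option (Fin m)) ℝ} (hc : Set.InjOn c (Set.Iio 3))
    (hP : DepC c 2 P) {X₀ : Option (Fin m) → ℝ} (h0 : X₀ none = 0) (h1 : X₀ (some (c 0)) = 1)
    (x W : Option (Fin m) → ℝ) : hs P x W X₀ =
      hs P x W (eo (some (c 0))) + hs P x W (eo (some (c 1))) * X₀ (some (c 1)) := by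
  have h01 : c 0 ≠ c 1 := fun h => by
    have := hc (show (0 : ℕ) ∈ Set.Iio 3 by norm_num) (show (1 : ℕ) ∈ Set.Iio 3 by norm_num) h
    omega
  have e1 : hs P x W X₀ = hs P x W (eo (some (c 0)) + X₀ (some (c 1)) • eo (some (c 1))) := by
    refine Pool.D2Z.hs_dep hP rfl (fun _ _ => rfl) rfl (fun _ _ => rfl) ?_ fun l hl => ?_
    · rw [Pi.add_apply, Pi.smul_apply, h0]
      unfold eo
      simp
    · rw [Pi.add_apply, Pi.smul_apply]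
      have : l = 0 ∨ l = 1 := by omega
      rcases this with rfl | rfl
      · unfold eo
        simp [h1, h01]
      · unfold eo
        simp [h01.symm]
  rw [e1, hs_add_right, hs_smul_right]
  ring

/-- **The family theorem for `c 0, c 1; c 2`**: no excess of the derivative of the label of `c 2` in
the direction `c 1` along the line. -/
theorem nv_two (m D : ℕ) (hD : 1 ≤ D) : ∃ (C : ℕ) (C₁ : ℝ), 1 ≤ C₁ ∧
    ∀ {J : ℕ} {F : Fam m J} {c : ℕ → Fin m} {a w w₂ a₃ e E h s lam D₂ : ℕ}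
    {gN g g₂ g₃ Y : ℕ → ℕ} {κ θ : ℝ} {B₀ B : F.Ω → Prop}
    {N T T₂ T₃ : PtT F → ℕ → MvPolynomial (Option (Fin m)) ℝ}
    {NH TH T₂H T₃H : LnT F → ℕ → MvPolynomial (Option (Fin m)) ℝ},
    Set.InjOn c (Set.Iio 3) → w ≤ w₂ → w₂ ≤ a → a ≤ a₃ → a₃ ≤ J → 0 < Pe F.p B → Sub B B₀ →
    ChOK F c 3 (fun _ => D) a w E gN B N NH →
    ChOK F c 2 (fun _ => D) a a e g B₀ T TH → RelvH F c 2 a a g Y D₂ h κ B₀ T →
    ChOK F c 2 (fun _ => D) a₃ a₃ e g₃ B₀ T₃ T₃H →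
    ChOK F c 2 (fun _ => D) a w₂ e g₂ B₀ T₂ T₂H → RelvF F c 2 a w₂ g₂ D₂ h κ B₀ T₂ →
    D + 2 ≤ D₂ → 0 ≤ κ → κ * 2 ^ C * Pe F.p B₀ ≤ Pe F.p B → κ * 2 ^ C ≤ 1 →
    (∀ (B' : F.Ω → Prop) (hB' : 0 < Pe F.p B'), Sub B' B → Pe F.p B ≤ 2 ^ C * Pe F.p B' →
      (Fam.sub F B' hB').Tm θ) → 0 ≤ θ → C₁ * (θ + 1) ≤ ((J : ℝ) - a₃) * Real.log 2 →
    C₁ * (θ + 1) ≤ s → h ≤ s → (∀ l < 2, gN l ≤ g l + s) →
    (∀ j < 2, Y j ≤ J) → (∀ l < 3, e + E + gN l + C * (s + 1) ≤ J) →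
    (∀ l < 2, e + E + g l + C * (s + 1) ≤ J) → (∀ l < 2, e + g₃ l + C * (s + 1) ≤ J) →
    (∀ l < 2, e + g₂ l + C * (s + 1) ≤ J) → C * (s + 1) ≤ gN 2 →
    (∀ ω, B ω → ∀ t : ℝ, F.t ω - rt F w ω / 2 ^ w ≤ t →
      t ≤ F.t ω + (1 - rt F w ω) / 2 ^ w →
      |(hcl (c 1) (NH (slam F w ω) 2) (slam F w ω)).eval t| ≤ 2 ^ (a + lam) / 2 ^ gN 2) →
    (∀ ω, B ω → ∃ t : ℝ, F.t ω - rt F w ω / 2 ^ w ≤ t ∧ t ≤ F.t ω + (1 - rt F w ω) / 2 ^ w ∧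
      2 ^ (a + lam) / 2 ^ gN 2 / 2 ^ s ≤
        |(hcl (c 1) (NH (slam F w ω) 2) (slam F w ω)).eval t|) →
    g₂ 1 + C * (s + 1) ≤ lam → g₂ 1 + a₃ + C * (s + 1) ≤ g₃ 1 + a →
    g 1 + a₃ + C * (s + 1) ≤ g₃ 1 + a → w + C * (s + 1) ≤ w₂ →
    g₂ 0 ≤ g 0 + s → g 0 ≤ g₂ 0 + s → g₂ 1 ≤ g 1 + s → False := by
  classical
  obtain ⟨cJ, hjoin⟩ := join_top D 2 hD
  obtain ⟨cB, hbox⟩ := box_dir D 3
  obtain ⟨cP, rP, hrP, hpth3⟩ := pth_fam m D 3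
  obtain ⟨cQ, rQ, hrQ, hpth2⟩ := pth_fam m D 2
  obtain ⟨cV, hdv⟩ := dvel D
  obtain ⟨rL, hrL, hlow⟩ := low_rem m D
  obtain ⟨cM, hmkv⟩ := mkv_win D
  obtain ⟨cS, hstar⟩ := star D 2
  obtain ⟨cA, hbal⟩ := bal_two D hD
  obtain ⟨cO, hown⟩ := own_ext D
  obtain ⟨cL, hpln⟩ := pln_lab D hD
  have pw : ∀ {x y : ℕ}, x ≤ y → (2 : ℝ) ^ x ≤ 2 ^ y := fun h => pow_le_pow_right₀ (by norm_num) h
  obtain ⟨q, hq⟩ : ∃ q, q = cA * (cP + 1) := ⟨_, rfl⟩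
  obtain ⟨cc, hcc⟩ : ∃ cc, cc = cS + q + 2 * cJ + cB + cS * (q + 1) + cQ + cV + cO + 2 := ⟨_, rfl⟩
  obtain ⟨yu, hyu⟩ : ∃ yu, yu = cL * (2 * cQ + cO + 3) + cM + 8 := ⟨_, rfl⟩
  obtain ⟨C, hC⟩ : ∃ C, C = 4 * cc + 2 * cJ + cP + cQ + cB + yu + q + D + 30 := ⟨_, rfl⟩
  obtain ⟨C₁, hC₁⟩ : ∃ C₁, C₁ = rP + rQ + rL := ⟨_, rfl⟩
  refine ⟨C, C₁, by rw [hC₁]; linarith, ?_⟩
  intro J F c a w w₂ a₃ e E h s lam D₂ gN g g₂ g₃ Y κ θ B₀ B N T T₂ T₃ NH TH T₂H T₃H hc hw hw2 ha3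
    ha3J hPB hB hN hT hRH hT3 hT2 hR2 hDD hκ0 hκP hκ1 hTm hθ hθJ hθs hhs hgx hYJ hrN hrg hr3 hr2
    hgN2 hup hlw n1 n2 n3 n4 n5 n6 n7
  have haJ : a ≤ J := ha3.trans ha3J
  have hwa : w ≤ a := hw.trans hw2
  have hw2J : w₂ ≤ J := hw2.trans haJ
  obtain ⟨T₀, hT₀⟩ : ∃ T₀, T₀ = s + 1 := ⟨_, rfl⟩
  have hT1 : 1 ≤ T₀ := by omega
  rw [← hT₀] at hrN hrg hr3 hr2 hgN2 n1 n2 n3 n4
  have hCc : 4 * cc * T₀ + 2 * cJ * T₀ + cP * T₀ + cQ * T₀ + cB * T₀ + yu * T₀ + q * T₀ + D * T₀ +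
      30 * T₀ ≤ C * T₀ := by rw [hC]; exact le_of_eq (by ring)
  have hT0s : s ≤ T₀ := by omega
  have mT : ∀ x : ℕ, x ≤ x * T₀ := fun x => Nat.le_mul_of_pos_right _ hT1
  have hC10 : 12 ≤ C := by omega
  -- the shares
  have h2C : (0 : ℝ) < 2 ^ C := by positivity
  have shr : ∀ (k : ℕ) (B' : F.Ω → Prop), k ≤ C → Pe F.p B / 2 ^ k ≤ Pe F.p B' →
      0 < Pe F.p B' ∧ Pe F.p B ≤ 2 ^ C * Pe F.p B' := by
    intro k B' hk h1
    have h2 : (0 : ℝ) < 2 ^ k := by positivity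
    refine ⟨(div_pos hPB h2).trans_le h1, ?_⟩
    rw [div_le_iff₀ h2] at h1
    calc Pe F.p B ≤ Pe F.p B' * 2 ^ k := h1
      _ ≤ Pe F.p B' * 2 ^ C := mul_le_mul_of_nonneg_left (pw hk) (Pe_nonneg F.isLaw B')
      _ = _ := mul_comm _ _
  have shk : ∀ (k : ℕ) (B' : F.Ω → Prop), k ≤ C → Pe F.p B / 2 ^ k ≤ Pe F.p B' →
      κ * 2 ^ (C - k) * Pe F.p B₀ ≤ Pe F.p B' := by
    intro k B' hk h1
    refine le_trans ?_ h1
    rw [le_div_iff₀ (by positivity)]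
    refine le_trans (le_of_eq ?_) hκP
    have e1 : (2 : ℝ) ^ C = 2 ^ (C - k) * 2 ^ k := by rw [← pow_add, Nat.sub_add_cancel hk]
    rw [e1]
    ring
  have hP0 : 0 < Pe F.p B₀ := hPB.trans_le (Pe_mono F.isLaw hB)
  -- the joined chart
  have hN1 : ChOK F c 3 (fun _ => D) a a (e + E) gN B N (cwn w a NH) :=
    chOK_win (hN.mono le_rfl (fun _ => le_rfl) le_rfl (Nat.le_add_left _ _)) hwa haJ
  have hcc2 : Set.InjOn c (Set.Iio 2) := hc.mono fun x hx => by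
    rw [Set.mem_Iio] at hx ⊢
    omega
  have hRF : RelvF F c 2 a a g D₂ h κ B₀ T := hRH.relv
  have hRFj : RelvF F c 2 a a g D h (1 / 2 ^ C) B T :=
    (hRF.mono (by omega) le_rfl).sub hB (κ₁ := κ * 2 ^ C) hκP (by positivity)
      (le_of_eq (by field_simp))
  have hκ4 : (1 : ℝ) / 2 ^ C * 2 ^ 2 ≤ 1 := by
    rw [div_mul_eq_mul_div, one_mul, div_le_one h2C]
    exact pw (by omega)
  obtain ⟨g', hg'⟩ : ∃ g' : ℕ → ℕ, g' = fun _ => gN 2 - cJ * (h + 1) := ⟨_, rfl⟩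
  have hcJh : cJ * (h + 1) ≤ cJ * T₀ := Nat.mul_le_mul_left _ (by omega)
  have hcJN : cJ * (h + 1) ≤ gN 2 := by
    have : cJ * T₀ ≤ 2 * cJ * T₀ := Nat.mul_le_mul_right _ (by omega)
    omega
  have hg'2 : g' 2 + cJ * (h + 1) = gN 2 := by rw [hg']; exact Nat.sub_add_cancel hcJN
  obtain ⟨B₁, b1, p1, -, hJ1⟩ := hjoin (e := e) (E := e + E) (x := s) (g' := g') hc hRFj hκ4
    (hT.sub hB) hN1 hgx (Nat.le_add_right _ _) (by omega) (by omega)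
  obtain ⟨e₁, he₁⟩ : ∃ e₁, e₁ = e + E + 2 * cJ * (h + 1) + s := ⟨_, rfl⟩
  rw [← he₁] at hJ1
  obtain ⟨gJ, hgJ⟩ : ∃ gJ, gJ = jn 2 g g' := ⟨_, rfl⟩
  obtain ⟨GJ, hGJ⟩ : ∃ GJ : PtT F → ℕ → MvPolynomial (Option (Fin m)) ℝ,
      GJ = fun y => jn 2 (T y) (N y) := ⟨_, rfl⟩
  obtain ⟨HJ, hHJ⟩ : ∃ HJ : LnT F → ℕ → MvPolynomial (Option (Fin m)) ℝ,
      HJ = fun s => jn 2 (TH s) (cwn w a NH s) := ⟨_, rfl⟩
  rw [← hgJ, ← hGJ, ← hHJ] at hJ1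
  have g0 : gJ 0 = g 0 := by rw [hgJ]; exact jn_lt (by norm_num)
  have g1 : gJ 1 = g 1 := by rw [hgJ]; exact jn_lt (by norm_num)
  have g2 : gJ 2 = g' 2 := by rw [hgJ]; exact jn_self
  have G1 : ∀ y, GJ y 1 = T y 1 := fun y => by rw [hGJ]; exact jn_lt (by norm_num)
  have H2 : ∀ ω, HJ (slam F a ω) 2 = NH (slam F w ω) 2 := fun ω => by
    rw [hHJ]
    show jn 2 (TH (slam F a ω)) (cwn w a NH (slam F a ω)) 2 = _
    rw [jn_self, cwn_slam hwa haJ]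
  have hB1 : Sub B₁ B₀ := fun ω h => hB ω (b1 ω h)
  -- the box
  have hRJ : RelvH F c 2 a a gJ Y D h κ B₀ GJ := by
    rw [hgJ, hGJ]
    exact relvH_jn (relvH_mono hRH (by omega) le_rfl)
  have room1 : ∀ l < 3, e₁ + gJ l + (h + cB) + cB + cP * T₀ ≤ J := by
    intro l hl
    have a1 : 2 * cJ * (h + 1) ≤ 2 * cJ * T₀ := Nat.mul_le_mul_left _ (by omega)
    have a2 : cB ≤ cB * T₀ := mT cB
    have a3 : cB * T₀ + cB * T₀ ≤ 4 * cc * T₀ := by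
      have : cB ≤ cc := by rw [hcc]; omega
      nlinarith
    have : l = 0 ∨ l = 1 ∨ l = 2 := by omega
    rcases this with rfl | rfl | rfl
    · have := hrg 0 (by norm_num)
      rw [g0, he₁]
      omega
    · have := hrg 1 (by norm_num)
      rw [g1, he₁]
      omega
    · have := hrN 2 (by norm_num)
      rw [g2, he₁]
      omega
  obtain ⟨V₀, hV₀⟩ : ∃ V₀ : ℝ, V₀ = 2 ^ lam / 2 ^ gN 2 := ⟨_, rfl⟩
  have hV0 : 0 ≤ V₀ := by rw [hV₀]; positivity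
  obtain ⟨B₂, al, b2, p2, hal⟩ := hbox (l := 1) (i := 2) (a := a) (w := a) (σ := h + cB) (y := 0)
    (V := V₀) (v := fun _ => ek (c 1)) (v' := fun _ => ek (c 1)) (by norm_num) (by norm_num) hc hRJ
    hB1 hκ0 ((mul_le_mul_of_nonneg_right (by
      have : (1 : ℝ) ≤ 2 ^ (C - 2) := one_le_pow₀ (by norm_num)
      nlinarith) (Pe_nonneg F.isLaw B₀)).trans (shk 2 B₁ (by omega) p1)) hJ1 hV0
    (fun ω ω' h1 h2 h3 => by
      have h4 := vary hwa haJ h3 (NH (slam F w ω) 2) (c 1) (hup ω (b1 ω h1))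
      rw [dir_ek, H2]
      refine h4.trans (le_of_eq ?_)
      rw [hV₀, pow_add]
      field_simp) hYJ (fun j hj => by have := room1 j hj; omega) le_rfl (fun _ _ => rfl)
    (fun ω _ => ⟨ek_self _, fun j hj => ek_ne (by
      have : j = 0 := by omega
      subst this
      intro h
      have := hc (show (0 : ℕ) ∈ Set.Iio 3 by norm_num) (show (1 : ℕ) ∈ Set.Iio 3 by norm_num) h
      omega)⟩) (fun ω _ j hj hlj => by omega)
  -- the events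
  have half : ∀ (k : ℕ) (A A' : F.Ω → Prop), Pe F.p B / 2 ^ k ≤ Pe F.p A →
      Pe F.p A / 2 ≤ Pe F.p A' → Pe F.p B / 2 ^ (k + 1) ≤ Pe F.p A' := by
    intro k A A' h1 h2
    refine le_trans ?_ h2
    rw [pow_succ, ← div_div]
    exact div_le_div_of_nonneg_right h1 (by norm_num)
  have q2 := half 2 B₁ B₂ p1 p2
  have hlog : 0 ≤ Real.log 2 := Real.log_nonneg (by norm_num)
  have hJa : ((J : ℝ) - a₃) * Real.log 2 ≤ ((J : ℝ) - a) * Real.log 2 := by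
    refine mul_le_mul_of_nonneg_right ?_ hlog
    have : (a : ℝ) ≤ a₃ := by exact_mod_cast ha3
    linarith
  have hJw : ((J : ℝ) - a₃) * Real.log 2 ≤ ((J : ℝ) - w) * Real.log 2 := by
    refine mul_le_mul_of_nonneg_right ?_ hlog
    have : (w : ℝ) ≤ a₃ := by exact_mod_cast hwa.trans ha3
    linarith
  have hr0 : 0 ≤ θ + 1 := by linarith
  have hrP' : rP * (θ + 1) ≤ C₁ * (θ + 1) := mul_le_mul_of_nonneg_right (by rw [hC₁]; linarith) hr0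
  have hrQ' : rQ * (θ + 1) ≤ C₁ * (θ + 1) := mul_le_mul_of_nonneg_right (by rw [hC₁]; linarith) hr0
  have hrL' : rL * (θ + 1) ≤ C₁ * (θ + 1) := mul_le_mul_of_nonneg_right (by rw [hC₁]; linarith) hr0
  have s2 := shr 3 B₂ (by omega) q2
  have sb2 : Sub B₂ B := fun ω h => b1 ω (b2 ω h)
  obtain ⟨B₃, b3, p3, hP3⟩ := hpth3 (x := s) (a := a) (e := e₁) (g := gJ) s2.1 hc haJ (hJ1.sub b2)
    (fun l hl => by
      have := room1 l hl
      rw [← hT₀]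
      omega) (hTm B₂ s2.1 sb2 s2.2) hθ ((hrP'.trans hθJ).trans hJa) (hrP'.trans hθs)
  have q3 := half 3 B₂ B₃ q2 p3
  have s3 := shr 4 B₃ (by omega) q3
  have sb3 : Sub B₃ B := fun ω h => sb2 ω (b3 ω h)
  obtain ⟨B₄, b4, p4, hP4⟩ := hpth2 (x := s) (a := a₃) (e := e) (g := g₃) s3.1 hcc2 ha3J
    (hT3.sub fun ω h => hB ω (sb3 ω h)) (fun l hl => by
      have := hr3 l hl
      rw [← hT₀]
      omega) (hTm B₃ s3.1 sb3 s3.2) hθ (hrQ'.trans hθJ) (hrQ'.trans hθs)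
  have q4 := half 4 B₃ B₄ q3 p4
  have s4 := shr 5 B₄ (by omega) q4
  have sb4 : Sub B₄ B := fun ω h => sb3 ω (b4 ω h)
  have hT2a : ChOK F c 2 (fun _ => D) a a e g₂ B₄ T₂ (cwn w₂ a T₂H) :=
    chOK_win (hT2.sub fun ω h => hB ω (sb4 ω h)) hw2 haJ
  obtain ⟨B₅, b5, p5, hP5⟩ := hpth2 (x := s) (a := a) (e := e) (g := g₂) s4.1 hcc2 haJ hT2a
    (fun l hl => by
      have := hr2 l hl
      rw [← hT₀]
      omega) (hTm B₄ s4.1 sb4 s4.2) hθ ((hrQ'.trans hθJ).trans hJa) (hrQ'.trans hθs)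
  have q5 := half 5 B₄ B₅ q4 p5
  have s5 := shr 6 B₅ (by omega) q5
  have sb5 : Sub B₅ B := fun ω h => sb4 ω (b5 ω h)
  obtain ⟨k₁, hk₁⟩ : ∃ k₁ : ℝ, k₁ = 2 ^ (a + lam) / 2 ^ gN 2 / 2 ^ s := ⟨_, rfl⟩
  have hk10 : 0 < k₁ := by rw [hk₁]; positivity
  obtain ⟨P₁, hP₁⟩ : ∃ P₁ : LnT F → Polynomial ℝ, P₁ = fun s => hcl (c 1) (NH s 2) s := ⟨_, rfl⟩
  obtain ⟨P₀, hP₀⟩ : ∃ P₀ : LnT F → Polynomial ℝ, P₀ = fun s => hcl (c 0) (NH s 2) s := ⟨_, rfl⟩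
  have hd1 : ∀ s, (P₁ s).natDegree ≤ D := fun s => by rw [hP₁]; exact hcl_deg _ (hN.degH s 2) s
  have hd0 : ∀ s, (P₀ s).natDegree ≤ D := fun s => by rw [hP₀]; exact hcl_deg _ (hN.degH s 2) s
  obtain ⟨B₆, b6, p6, hP6⟩ := hlow (w := w) (s := s) s5.1 P₁ (fun _ => k₁) (hwa.trans haJ) hd1
    (hTm B₅ s5.1 sb5 s5.2) hθ ((hrL'.trans hθJ).trans hJw) (hrL'.trans hθs) (fun ω hω => by
      obtain ⟨t, t1, t2, t3⟩ := hlw ω (sb5 ω hω)
      refine ⟨hk10, t, t1, t2, ?_⟩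
      rw [hP₁, hk₁]
      exact t3)
  have q6 := half 6 B₅ B₆ q5 p6
  have s6 := shr 7 B₆ (by omega) q6
  have sb6 : Sub B₆ B := fun ω h => sb5 ω (b6 ω h)
  -- the separated lines
  have hshare : κ * (2 * (D + 1 : ℕ)) < Pe F.p B₆ / Pe F.p B₀ := by
    rw [lt_div_iff₀ hP0]
    rcases hκ0.eq_or_lt with h0 | h0
    · rw [← h0, zero_mul, zero_mul]
      exact s6.1
    · refine lt_of_lt_of_le ?_ (shk 7 B₆ (by omega) q6)
      have h1 : (2 * (D + 1 : ℕ) : ℝ) < 2 ^ (C - 7) := by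
        have h2 : D + 1 < 2 ^ (D + 1) := Nat.lt_two_pow_self
        have h3 : ((D + 1 : ℕ) : ℝ) < 2 ^ (D + 1) := by exact_mod_cast h2
        calc (2 * (D + 1 : ℕ) : ℝ) < 2 * 2 ^ (D + 1) := by linarith
          _ = 2 ^ (D + 2) := by ring
          _ ≤ _ := pw (by omega)
      exact mul_lt_mul_of_pos_right (mul_lt_mul_of_pos_left h1 h0) hP0
  obtain ⟨B₇, b7, p7, hsep⟩ := sep_fam (F := F) (c := c) (D := D) (a := a) (w := a) (e := e)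
    (h := h) (N := D + 1) (g := g) (κ := κ) (κ' := Pe F.p B₆ / Pe F.p B₀) (B₀ := B₀) (B := B₆)
    hD (by omega) (relvF_low (hRF.mono (by omega) le_rfl) (by norm_num) hcc2 hT.depG)
    (hT.mono (by norm_num) (fun _ => le_rfl) le_rfl le_rfl)
    (fun ω h => hB ω (sb6 ω h)) hκ0 (by rw [div_mul_cancel₀ _ hP0.ne']) hshare hP0 (by
      have := hrg 0 (by norm_num)
      have := mT 30
      omega)
  have q7 := half 7 B₆ B₇ q6 p7
  have s7 := shr 8 B₇ (by omega) q7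
  have s76 : Sub B₇ B₆ := b7
  have sb7 : Sub B₇ B := fun ω h => sb6 ω (b7 ω h)
  have s63 : Sub B₆ B₃ := fun ω h => b4 ω (b5 ω (b6 ω h))
  have s62 : Sub B₆ B₂ := fun ω h => b3 ω (s63 ω h)
  have s61 : Sub B₆ B₁ := fun ω h => b2 ω (s62 ω h)
  rw [← hT₀] at hP3 hP4 hP5
  have hPJ : Pth F c 3 a (cP * T₀) gJ B₆ GJ := hP3.sub s63
  have hPd : Pth F c 2 a₃ (cQ * T₀) g₃ B₆ T₃ := hP4.sub fun ω h => b5 ω (b6 ω h)
  have hPu : Pth F c 2 a (cQ * T₀) g₂ B₆ T₂ := hP5.sub fun ω h => b6 ω h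
  obtain ⟨ζ, hζ⟩ : ∃ ζ : ℝ, ζ = 2 ^ (a₃ + cQ * T₀ + cV) / 2 ^ g₃ 1 := ⟨_, rfl⟩
  have hζ0 : 0 ≤ ζ := by rw [hζ]; positivity
  have hdeep := hdv hT3.degG hT3.depG hPd
  rw [← hζ] at hdeep
  have hcQV : cQ * T₀ + cV ≤ cc * T₀ := by
    have h1 : cc * T₀ = cS * T₀ + q * T₀ + 2 * cJ * T₀ + cB * T₀ + cS * (q + 1) * T₀ + cQ * T₀ +
        cV * T₀ + cO * T₀ + 2 * T₀ := by rw [hcc]; ring
    have := mT cV
    omega
  have hccC : 4 * cc * T₀ = 4 * (cc * T₀) := by ring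
  have hζ1 : ζ ≤ 2 ^ a / 2 ^ gJ 1 := by
    rw [hζ, g1, div_le_div_iff₀ (by positivity) (by positivity), ← pow_add, ← pow_add]
    exact pw (by omega)
  obtain ⟨E_b, hE_b⟩ : ∃ E_b : ℝ, E_b = 2 ^ (cB * (h + 0 + 1)) * (2 ^ gJ 1 / 2 ^ gJ 2 + V₀) :=
    ⟨_, rfl⟩
  have hE0 : 0 ≤ E_b := by rw [hE_b]; positivity
  obtain ⟨X, ν₀, hX⟩ := hbal (c := c) (a := a) (n := cP * T₀) (h := h) (g := gJ) (B := B₆)
    (G := GJ) (al := al) (ζ := ζ) (E := E_b) hc haJ hJ1.degG hJ1.depG hPJ hdeep hζ1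
    (fun ω hω b hb => by rw [hE_b]; exact hal ω (s62 ω hω) b hb)
  have hsep' : ∀ ω, B₇ ω → Sep F c B₆ (2 ^ a / 2 ^ (gJ 0 + h + 3)) (D + 1) ω := by
    intro ω hω
    rw [g0]
    exact hsep ω hω
  obtain ⟨n', hn'⟩ : ∃ n', n' = cA * (cP * T₀ + h + 1) := ⟨_, rfl⟩
  rw [← hn'] at hX
  have hn'q : n' ≤ q * T₀ := by
    rw [hn', hq, Nat.mul_assoc]
    refine Nat.mul_le_mul_left _ ?_
    rw [Nat.add_mul]
    omega
  obtain ⟨ω₀, hω₀⟩ : ∃ ω, B₇ ω := by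
    by_contra hcon
    push Not at hcon
    have h1 : Pe F.p B₇ = 0 := by
      unfold Pe
      exact Finset.sum_eq_zero fun ω _ => by simp [hcon ω]
    linarith [s7.1]
  obtain ⟨M, hM⟩ : ∃ M : ℝ, M = 1 / 2 ^ (g₂ 1 + h + 2) := ⟨_, rfl⟩
  have hM0 : 0 < M := by rw [hM]; positivity
  obtain ⟨σ, hσ⟩ : ∃ σ : ℝ, σ = 2 ^ T₀ := ⟨_, rfl⟩
  have hσ2 : 2 ≤ σ := by
    rw [hσ]
    calc (2 : ℝ) = 2 ^ 1 := (pow_one 2).symm
      _ ≤ _ := pw hT1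
  have hσk : ∀ k : ℕ, σ ^ k = 2 ^ (k * T₀) := fun k => by rw [hσ, ← pow_mul, mul_comm]
  obtain ⟨er_t, her_t⟩ : ∃ er_t : ℝ, er_t = 2 ^ n' * (1 / 2 ^ gJ 2 + ζ / 2 ^ a * E_b) := ⟨_, rfl⟩
  obtain ⟨er, her⟩ : ∃ er : ℝ, er = 2 ^ a * 2 ^ g 0 *
      (2 ^ cS * (er_t + 2 ^ (cS * (n' + 1)) * (1 / 2 ^ gJ 2))) := ⟨_, rfl⟩
  -- the relation
  have hrel : ∀ ω, B₇ ω → ∀ t : ℝ, |t - F.t ω| ≤ 1 / 2 ^ a →
      |(P₀ (slam F w ω)).eval t + (P₁ (slam F w ω)).eval t * X (ptr F J ω) (some (c 1))| ≤ er := by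
    intro ω hω t ht
    obtain ⟨hX0, hX1, -, -, -, hpl⟩ := hX ω (s76 ω hω) (hsep' ω hω)
    obtain ⟨α, hα⟩ : ∃ α : ℝ, α = 2 ^ a * (t - F.t ω) := ⟨_, rfl⟩
    have hα1 : |α| ≤ 1 := by
      rw [hα, abs_mul, abs_of_pos (show (0 : ℝ) < 2 ^ a by positivity)]
      calc (2 : ℝ) ^ a * |t - F.t ω| ≤ 2 ^ a * (1 / 2 ^ a) :=
            mul_le_mul_of_nonneg_left ht (by positivity)
        _ = 1 := by field_simp
    have hst := (hstar (c := c) (G := GJ (ptr F J ω)) (H := NH (slam F w ω) 2) (g := gJ) (a := a)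
      (i := 2) (n := n') (t := F.t ω) (δ := 1 / 2 ^ gJ 2) (e := er_t) (x := bt F ω)
      (U₀ := vl F a ω) (U₁ := (1 / 2 ^ gJ 0 : ℝ) • X (ptr F J ω)) le_rfl hcc2
      (fun l => hJ1.degG _ l) (fun l => hJ1.depG _ l) (hN.degH _ 2) (hN.depH _ 2) rfl
      (vl_none F a ω) (by rw [Pi.smul_apply, hX0, smul_zero]) (by positivity)
      (fun b hb => by
        have := hJ1.agr ω (s61 ω (s76 ω hω)) 2 (by norm_num) b hb
        rwa [H2] at this)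
      (fun α' β' h1 h2 => by
        obtain ⟨k1, k2⟩ := hpl α' β' (by linarith) (by linarith)
        exact ⟨k1, by rw [her_t]; exact k2⟩) α hα1).1
    have e1 : bt F ω + α • vl F a ω = bt F ω + (t - F.t ω) • bd F ω := by
      rw [hα]
      unfold vl
      rw [smul_smul]
      congr 2
      field_simp
    have e2 : hs (NH (slam F w ω) 2) (bt F ω + α • vl F a ω) (vl F a ω)
        ((1 / 2 ^ gJ 0 : ℝ) • X (ptr F J ω)) = 1 / 2 ^ a * (1 / 2 ^ g 0) *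
        ((P₀ (slam F w ω)).eval t + (P₁ (slam F w ω)).eval t * X (ptr F J ω) (some (c 1))) := by
      rw [e1, g0]
      unfold vl
      rw [hs_smul_left, hs_smul_right, rel_hcl hc (hN.depH _ 2) hX0 hX1, hP₀, hP₁]
      simp only [hcl_eval]
      ring
    rw [e2, abs_mul, abs_of_pos (show (0 : ℝ) < 1 / 2 ^ a * (1 / 2 ^ g 0) by positivity)] at hst
    rw [her]
    calc |(P₀ (slam F w ω)).eval t + (P₁ (slam F w ω)).eval t * X (ptr F J ω) (some (c 1))| =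
        2 ^ a * 2 ^ g 0 * (1 / 2 ^ a * (1 / 2 ^ g 0) *
        |(P₀ (slam F w ω)).eval t + (P₁ (slam F w ω)).eval t * X (ptr F J ω) (some (c 1))|) := by
          field_simp
      _ ≤ _ := mul_le_mul_of_nonneg_left hst (by positivity)
  -- the slope
  obtain ⟨R, hR⟩ : ∃ R : ℝ, R = 2 ^ (n' + e + nlp g 0 1 + 1) := ⟨_, rfl⟩
  have hnlp : nlp g 0 1 + g 1 = max (g 0) (g 1) := by
    unfold nlp
    have h1 : (Finset.Icc 0 1).sup g = max (g 0) (g 1) := by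
      have h2 : Finset.Icc 0 1 = {0, 1} := by decide
      rw [h2, Finset.sup_insert, Finset.sup_singleton]
    rw [h1]
    omega
  have hXR : ∀ ω, B₇ ω → |X (ptr F J ω) (some (c 1))| ≤ R := by
    intro ω hω
    obtain ⟨hX0, hX1, -, -, hnat, -⟩ := hX ω (s76 ω hω) (hsep' ω hω)
    have h1 := hnat 1 (by norm_num)
    have e1 : dd (GJ (ptr F J ω) 1) (bt F ω) ((1 / 2 ^ gJ 0 : ℝ) • X (ptr F J ω)) =
        1 / 2 ^ g 0 * eval (bt F ω) (pderiv (some (c 0)) (T (ptr F J ω) 1)) := by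
      rw [G1, g0, dd_smul]
      congr 1
      rw [← dd_eo]
      refine dd_congr (hT.depG _ 1) _ ?_ fun l hl => ?_
      · rw [hX0]
        unfold eo
        simp
      · have : l = 0 := by omega
        subst this
        rw [hX1]
        unfold eo
        simp
    rw [e1, g0, g1, Pi.smul_apply, smul_eq_mul, ← mul_sub, abs_mul,
      abs_of_pos (show (0 : ℝ) < 1 / 2 ^ g 0 by positivity)] at h1
    have h2 := hT.lip ω (hB ω (sb7 ω hω)) 1 (by norm_num) (bt F ω)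
      (hT.self (hB ω (sb7 ω hω)) (by norm_num)) 0 (by norm_num)
    have h3 : |X (ptr F J ω) (some (c 1)) -
        eval (bt F ω) (pderiv (some (c 0)) (T (ptr F J ω) 1))| ≤ 2 ^ (n' + nlp g 0 1) := by
      have h4 : (2 : ℝ) ^ g 0 * (2 ^ n' / 2 ^ g 1) ≤ 2 ^ (n' + nlp g 0 1) := by
        rw [← mul_div_assoc, div_le_iff₀ (by positivity), ← pow_add, ← pow_add]
        exact pw (by omega)
      refine le_trans ?_ h4
      calc |X (ptr F J ω) (some (c 1)) -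
          eval (bt F ω) (pderiv (some (c 0)) (T (ptr F J ω) 1))| =
          2 ^ g 0 * (1 / 2 ^ g 0 * |X (ptr F J ω) (some (c 1)) -
            eval (bt F ω) (pderiv (some (c 0)) (T (ptr F J ω) 1))|) := by field_simp
        _ ≤ _ := mul_le_mul_of_nonneg_left h1 (by positivity)
    have h5 : |X (ptr F J ω) (some (c 1))| ≤ 2 ^ (n' + nlp g 0 1) + 2 ^ (e + nlp g 0 1) := by
      have e2 : X (ptr F J ω) (some (c 1)) = (X (ptr F J ω) (some (c 1)) -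
          eval (bt F ω) (pderiv (some (c 0)) (T (ptr F J ω) 1))) +
          eval (bt F ω) (pderiv (some (c 0)) (T (ptr F J ω) 1)) := by ring
      rw [e2]
      exact (abs_add_le _ _).trans (add_le_add h3 h2)
    refine h5.trans ?_
    have g3 : (2 : ℝ) ^ (n' + nlp g 0 1) ≤ 2 ^ (n' + e + nlp g 0 1) := pw (by omega)
    have g4 : (2 : ℝ) ^ (e + nlp g 0 1) ≤ 2 ^ (n' + e + nlp g 0 1) := pw (by omega)
    rw [hR, pow_succ]
    linarith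
  -- the boxes of the node `(a, w₂)`
  obtain ⟨Y₀, hY₀⟩ : ∃ Y₀ : ℝ, Y₀ = σ ^ cc / 2 ^ g₂ 0 := ⟨_, rfl⟩
  have hcOQ : cO + cQ * T₀ ≤ cc * T₀ := by
    have h1 : cc * T₀ = cS * T₀ + q * T₀ + 2 * cJ * T₀ + cB * T₀ + cS * (q + 1) * T₀ + cQ * T₀ +
        cV * T₀ + cO * T₀ + 2 * T₀ := by rw [hcc]; ring
    have := mT cO
    omega
  have hown' : ∀ ω, B₇ ω → ∀ b, NBx c (T₂ (ptr F J ω)) g₂ a (F.t ω) 1 b →
      |b (some (c 0)) - (F.x ω (c 0) + (b none - F.t ω) * bd F ω (some (c 0)))| ≤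
        2 ^ (cO + cQ * T₀) / 2 ^ g₂ 0 := fun ω hω b hb =>
    hown haJ hT2.degG hT2.depG (hPu.mono (by norm_num) le_rfl) ω (s76 ω hω) b hb
  have hbox1 : ∀ ω, B₇ ω → ∀ b, NBx c (T₂ (ptr F J ω)) g₂ a (F.t ω) 1 b →
      |b (some (c 0)) - (F.x ω (c 0) + (b none - F.t ω) * bd F ω (some (c 0)))| ≤ Y₀ := by
    intro ω hω b hb
    refine (hown' ω hω b hb).trans ?_
    rw [hY₀, hσk]
    exact div_le_div_of_nonneg_right (pw hcOQ) (by positivity)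
  obtain ⟨k₂, hk₂⟩ : ∃ k₂, k₂ = cO + cQ * T₀ + s := ⟨_, rfl⟩
  obtain ⟨Yu, hYu⟩ : ∃ Yu : ℝ, Yu = 2 ^ (cL * (cQ * T₀ + h + k₂ + 1) + 1) / 2 ^ g₂ 1 := ⟨_, rfl⟩
  have hYu0 : 0 ≤ Yu := by rw [hYu]; positivity
  have hbox2 : ∀ ω, B₇ ω → ∀ b, NBx c (T₂ (ptr F J ω)) g₂ a (F.t ω) 2 b →
      |(b (some (c 1)) - (F.x ω (c 1) + (b none - F.t ω) * bd F ω (some (c 1)))) -
        X (ptr F J ω) (some (c 1)) *
        (b (some (c 0)) - (F.x ω (c 0) + (b none - F.t ω) * bd F ω (some (c 0))))| ≤ Yu := by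
    intro ω hω b hb
    obtain ⟨hX0, hX1, -, ⟨ν₁, hB₁, hp₁, -, ⟨ν₂, δ, hB₂, hp₂, hδ, hXd⟩, -⟩, -, -⟩ :=
      hX ω (s76 ω hω) (hsep' ω hω)
    obtain ⟨α, hα⟩ : ∃ α : ℝ, α = 2 ^ a * (b none - F.t ω) := ⟨_, rfl⟩
    obtain ⟨β, hβ⟩ : ∃ β : ℝ, β = 2 ^ g 0 * (b (some (c 0)) -
        (F.x ω (c 0) + (b none - F.t ω) * bd F ω (some (c 0)))) := ⟨_, rfl⟩
    have hα1 : |α| ≤ 2 ^ k₂ := by
      rw [hα, abs_mul, abs_of_pos (show (0 : ℝ) < 2 ^ a by positivity)]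
      calc (2 : ℝ) ^ a * |b none - F.t ω| ≤ 2 ^ a * (1 / 2 ^ a) :=
            mul_le_mul_of_nonneg_left hb.1 (by positivity)
        _ = 1 := by field_simp
        _ ≤ _ := one_le_pow₀ (by norm_num)
    have hβ1 : |β| ≤ 2 ^ k₂ := by
      rw [hβ, abs_mul, abs_of_pos (show (0 : ℝ) < 2 ^ g 0 by positivity)]
      have h1 := hown' ω hω b (hb.mono le_rfl (by norm_num))
      have h2 : (2 : ℝ) ^ g 0 ≤ 2 ^ g₂ 0 * 2 ^ s := by rw [← pow_add]; exact pw n6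
      calc (2 : ℝ) ^ g 0 * |b (some (c 0)) -
          (F.x ω (c 0) + (b none - F.t ω) * bd F ω (some (c 0)))| ≤
          2 ^ g₂ 0 * 2 ^ s * (2 ^ (cO + cQ * T₀) / 2 ^ g₂ 0) :=
            mul_le_mul h2 h1 (abs_nonneg _) (by positivity)
        _ = 2 ^ k₂ := by
            rw [hk₂, pow_add 2 (cO + cQ * T₀) s]
            field_simp
    have h3 := hpln (k := k₂) (h := h) (g₀ := gJ 0) (g := g₂) (a := a) (n := cQ * T₀)
      (X₀ := X (ptr F J ω)) hT2.degG hT2.depG hPu (s76 ω hω) (hsep' ω hω) hX0 hX1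
      ⟨ν₁, ν₂, δ, hB₁, hp₁, hB₂, hp₂, hδ, hXd⟩ (by rw [g0, hk₂]; omega) α β hα1 hβ1
    obtain ⟨y, hy⟩ : ∃ y, y = bt F ω + α • vl F a ω +
        β • ((1 / 2 ^ gJ 0 : ℝ) • X (ptr F J ω)) := ⟨_, rfl⟩
    rw [← hy] at h3
    have y0 : y none = b none := by
      rw [hy]
      simp only [Pi.add_apply, Pi.smul_apply, smul_eq_mul]
      rw [hX0, vl_none, hα]
      show F.t ω + 2 ^ a * (b none - F.t ω) * (1 / 2 ^ a) + β * (1 / 2 ^ gJ 0 * 0) = b none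
      field_simp
      ring
    have y1 : y (some (c 0)) = b (some (c 0)) := by
      rw [hy]
      simp only [Pi.add_apply, Pi.smul_apply, smul_eq_mul]
      rw [hX1, hα, hβ, g0]
      show F.x ω (c 0) + 2 ^ a * (b none - F.t ω) * (1 / 2 ^ a * F.d ω (c 0)) +
        2 ^ g 0 * (b (some (c 0)) - (F.x ω (c 0) + (b none - F.t ω) * F.d ω (c 0))) *
          (1 / 2 ^ g 0 * 1) = b (some (c 0))
      field_simp
      ring
    have y2 : y (some (c 1)) = F.x ω (c 1) + (b none - F.t ω) * bd F ω (some (c 1)) +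
        X (ptr F J ω) (some (c 1)) *
        (b (some (c 0)) - (F.x ω (c 0) + (b none - F.t ω) * bd F ω (some (c 0)))) := by
      rw [hy]
      simp only [Pi.add_apply, Pi.smul_apply, smul_eq_mul]
      rw [hα, hβ, g0]
      show F.x ω (c 1) + 2 ^ a * (b none - F.t ω) * (1 / 2 ^ a * F.d ω (c 1)) +
        2 ^ g 0 * (b (some (c 0)) - (F.x ω (c 0) + (b none - F.t ω) * F.d ω (c 0))) *
          (1 / 2 ^ g 0 * X (ptr F J ω) (some (c 1))) =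
        F.x ω (c 1) + (b none - F.t ω) * F.d ω (c 1) + X (ptr F J ω) (some (c 1)) *
          (b (some (c 0)) - (F.x ω (c 0) + (b none - F.t ω) * F.d ω (c 0)))
      field_simp
    have e3 : eval y (T₂ (ptr F J ω) 1) = eval b (T₂ (ptr F J ω) 1) :=
      hT2.depG _ 1 _ _ y0 fun l hl => by
        have : l = 0 := by omega
        subst this
        exact y1
    rw [e3] at h3
    have h4 := hb.2 1 (by norm_num)
    have e4 : (b (some (c 1)) - (F.x ω (c 1) + (b none - F.t ω) * bd F ω (some (c 1)))) -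
        X (ptr F J ω) (some (c 1)) *
        (b (some (c 0)) - (F.x ω (c 0) + (b none - F.t ω) * bd F ω (some (c 0)))) =
        (b (some (c 1)) - eval b (T₂ (ptr F J ω) 1)) -
          (y (some (c 1)) - eval b (T₂ (ptr F J ω) 1)) := by rw [y2]; ring
    rw [e4]
    refine (abs_sub _ _).trans ((add_le_add h4 h3).trans ?_)
    rw [hYu, ← add_div, pow_succ]
    refine div_le_div_of_nonneg_right ?_ (by positivity)
    have g3 : (1 : ℝ) ≤ 2 ^ (cL * (cQ * T₀ + h + k₂ + 1)) := one_le_pow₀ (by norm_num)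
    linarith
  -- the numbers
  have hhT : (cJ + cB) * (h + 1) ≤ (cJ + cB) * T₀ := Nat.mul_le_mul_left _ (by omega)
  have hccT : cc * T₀ = cS * T₀ + q * T₀ + 2 * (cJ * T₀) + cB * T₀ + cS * (q + 1) * T₀ + cQ * T₀ +
      cV * T₀ + cO * T₀ + 2 * T₀ := by rw [hcc]; ring
  have hg2e : (1 : ℝ) / 2 ^ gJ 2 = 2 ^ (cJ * (h + 1)) / 2 ^ gN 2 := by
    rw [g2, ← hg'2, pow_add]
    field_simp
  obtain ⟨k₀, hk₀⟩ : ∃ k₀ : ℝ, k₀ = 2 ^ a * 2 ^ lam / 2 ^ gN 2 / σ / σ := ⟨_, rfl⟩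
  have hσ0 : 0 < σ := by linarith
  have hk00 : 0 < k₀ := by rw [hk₀]; positivity
  have hsσ : (2 : ℝ) ^ s ≤ σ := by rw [hσ]; exact pw hT0s
  have hlow' : ∀ ω, B₇ ω → k₀ ≤ |(P₁ (slam F w ω)).eval (F.t ω)| := by
    intro ω hω
    refine le_trans ?_ (hP6 ω (s76 ω hω))
    rw [hk₀, hk₁, ← pow_add]
    exact div_le_div₀ (by positivity)
      (div_le_div_of_nonneg_left (by positivity) (by positivity) hsσ) (by positivity) hsσ
  obtain ⟨δ, hδ⟩ : ∃ δ : ℝ, δ = 2 ^ cM * 2 ^ w / 2 ^ w₂ * (σ * σ) := ⟨_, rfl⟩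
  have hδ0 : 0 ≤ δ := by rw [hδ]; positivity
  have hvar : ∀ ω, B₇ ω → ∀ t : ℝ, |t - F.t ω| ≤ 2 / 2 ^ w₂ →
      |(P₁ (slam F w ω)).eval t - (P₁ (slam F w ω)).eval (F.t ω)| ≤ δ * k₀ := by
    intro ω hω t ht
    refine (hmkv (K := 2 ^ (a + lam) / 2 ^ gN 2) hw hw2J (hd1 _) (fun t h1 h2 => by
      rw [hP₁]
      exact hup ω (sb7 ω hω) t h1 h2) t ht).trans (le_of_eq ?_)
    rw [hδ, hk₀, pow_add]
    field_simp
  have hmain : 4 * er / k₀ * Y₀ ≤ 12 * σ ^ (4 * cc + 3) / (2 ^ g₂ 1 * 2 ^ (C * T₀)) := by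
    refine two_er (A := 2 ^ a) (L := 2 ^ lam) (GN := 2 ^ gN 2) (G0 := 2 ^ g 0) (G1 := 2 ^ g 1)
      (Q0 := 2 ^ g₂ 0) (Q1 := 2 ^ g₂ 1) (Z := ζ / 2 ^ a) (E := E_b) (c := cc) hσ2 (by positivity)
      (by positivity) (by positivity) (by positivity) (by positivity) (by positivity)
      (by positivity) (one_le_pow₀ (by norm_num)) (by positivity) ?_ hE0 ?_ hk₀ hY₀ ?_ ?_ ?_ ?_
    · -- the box
      rw [hE_b, hσk, div_eq_mul_one_div (2 ^ gJ 1 : ℝ) (2 ^ gJ 2), hg2e, g1, hV₀]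
      have h1 : (2 : ℝ) ^ (cB * (h + 0 + 1)) * (2 ^ g 1 * (2 ^ (cJ * (h + 1)) / 2 ^ gN 2) +
          2 ^ lam / 2 ^ gN 2) ≤ 2 ^ (cB * (h + 0 + 1)) * (2 ^ (cJ * (h + 1)) *
            ((2 ^ g 1 + 2 ^ lam) / 2 ^ gN 2)) := by
        refine mul_le_mul_of_nonneg_left ?_ (by positivity)
        have h2 : (1 : ℝ) ≤ 2 ^ (cJ * (h + 1)) := one_le_pow₀ (by norm_num)
        have h3 : (2 : ℝ) ^ lam / 2 ^ gN 2 ≤ 2 ^ (cJ * (h + 1)) * (2 ^ lam / 2 ^ gN 2) := by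
          have : (0 : ℝ) ≤ 2 ^ lam / 2 ^ gN 2 := by positivity
          nlinarith
        calc (2 : ℝ) ^ g 1 * (2 ^ (cJ * (h + 1)) / 2 ^ gN 2) + 2 ^ lam / 2 ^ gN 2 ≤
            2 ^ g 1 * (2 ^ (cJ * (h + 1)) / 2 ^ gN 2) +
              2 ^ (cJ * (h + 1)) * (2 ^ lam / 2 ^ gN 2) := add_le_add le_rfl h3
          _ = _ := by ring
      refine h1.trans ?_
      rw [← mul_assoc, ← pow_add]
      refine mul_le_mul_of_nonneg_right (pw ?_) (by positivity)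
      have : cB * (h + 0 + 1) + cJ * (h + 1) = (cJ + cB) * (h + 1) := by ring
      have h4 : (cJ + cB) * T₀ = cJ * T₀ + cB * T₀ := by ring
      omega
    · -- the error
      rw [her, her_t, hg2e, hσk]
      have hEZ : 0 ≤ ζ / 2 ^ a * E_b := by positivity
      obtain ⟨z, hz⟩ : ∃ z : ℝ, z = ζ / 2 ^ a * E_b := ⟨_, rfl⟩
      rw [← hz] at hEZ ⊢
      obtain ⟨u, hu⟩ : ∃ u, u = cS + n' + cS * (n' + 1) + cJ * (h + 1) := ⟨_, rfl⟩
      refine mul_le_mul_of_nonneg_left ?_ (by positivity)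
      have hGN : (0 : ℝ) < 2 ^ gN 2 := by positivity
      have h1 : (2 : ℝ) ^ cS * (2 ^ n' * (2 ^ (cJ * (h + 1)) / 2 ^ gN 2 + z) +
          2 ^ (cS * (n' + 1)) * (2 ^ (cJ * (h + 1)) / 2 ^ gN 2)) ≤
          2 ^ (u + 1) * (1 / 2 ^ gN 2 + z) := by
        have a1 : (2 : ℝ) ^ cS * (2 ^ n' * (2 ^ (cJ * (h + 1)) / 2 ^ gN 2)) ≤
            2 ^ u * (1 / 2 ^ gN 2) := by
          calc (2 : ℝ) ^ cS * (2 ^ n' * (2 ^ (cJ * (h + 1)) / 2 ^ gN 2)) =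
              2 ^ (cS + n' + cJ * (h + 1)) * (1 / 2 ^ gN 2) := by
                rw [pow_add, pow_add]
                ring
            _ ≤ _ := mul_le_mul_of_nonneg_right (pw (by omega)) (by positivity)
        have a2 : (2 : ℝ) ^ cS * (2 ^ n' * z) ≤ 2 ^ u * z := by
          calc (2 : ℝ) ^ cS * (2 ^ n' * z) = 2 ^ (cS + n') * z := by
                rw [pow_add]
                ring
            _ ≤ _ := mul_le_mul_of_nonneg_right (pw (by omega)) hEZ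
        have a3 : (2 : ℝ) ^ cS * (2 ^ (cS * (n' + 1)) * (2 ^ (cJ * (h + 1)) / 2 ^ gN 2)) ≤
            2 ^ u * (1 / 2 ^ gN 2) := by
          calc (2 : ℝ) ^ cS * (2 ^ (cS * (n' + 1)) * (2 ^ (cJ * (h + 1)) / 2 ^ gN 2)) =
              2 ^ (cS + cS * (n' + 1) + cJ * (h + 1)) * (1 / 2 ^ gN 2) := by
                rw [pow_add, pow_add]
                ring
            _ ≤ _ := mul_le_mul_of_nonneg_right (pw (by omega)) (by positivity)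
        have a4 : (0 : ℝ) ≤ 2 ^ u * z := by positivity
        calc (2 : ℝ) ^ cS * (2 ^ n' * (2 ^ (cJ * (h + 1)) / 2 ^ gN 2 + z) +
            2 ^ (cS * (n' + 1)) * (2 ^ (cJ * (h + 1)) / 2 ^ gN 2)) =
            2 ^ cS * (2 ^ n' * (2 ^ (cJ * (h + 1)) / 2 ^ gN 2)) + 2 ^ cS * (2 ^ n' * z) +
            2 ^ cS * (2 ^ (cS * (n' + 1)) * (2 ^ (cJ * (h + 1)) / 2 ^ gN 2)) := by ring
          _ ≤ 2 ^ u * (1 / 2 ^ gN 2) + 2 ^ u * z + 2 ^ u * (1 / 2 ^ gN 2) := by linarith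
          _ ≤ 2 ^ (u + 1) * (1 / 2 ^ gN 2 + z) := by
              rw [pow_succ]
              linarith
      refine h1.trans (mul_le_mul_of_nonneg_right (pw ?_) (by positivity))
      have a5 : cS * (n' + 1) ≤ cS * (q + 1) * T₀ := by
        rw [Nat.mul_assoc]
        refine Nat.mul_le_mul_left _ ?_
        rw [Nat.add_mul]
        omega
      have a6 := mT cS
      have a7 : (cJ + cB) * T₀ = cJ * T₀ + cB * T₀ := by ring
      omega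
    · -- the deviation of the lines
      rw [hζ, hσk, ← pow_add, div_div, ← pow_add,
        div_le_div_iff₀ (by positivity) (by positivity), ← pow_add, ← pow_add]
      exact pw (by omega)
    · rw [hζ, hσk, ← pow_add, div_div, ← pow_add,
        div_le_div_iff₀ (by positivity) (by positivity), ← pow_add, ← pow_add]
      exact pw (by omega)
    · rw [← pow_add]
      exact pw n1
    · rw [hσ, ← pow_add]
      exact pw (by omega)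
  have hnum : 4 * er / k₀ * Y₀ + 4 * δ * Yu ≤ M := by
    have a1 : 4 * er / k₀ * Y₀ ≤ 1 / 2 ^ (g₂ 1 + h + 3) := by
      refine hmain.trans ?_
      rw [hσk, ← pow_add, div_le_div_iff₀ (by positivity) (by positivity), one_mul]
      calc (12 : ℝ) * 2 ^ ((4 * cc + 3) * T₀) * 2 ^ (g₂ 1 + h + 3) ≤
          2 ^ 4 * 2 ^ ((4 * cc + 3) * T₀) * 2 ^ (g₂ 1 + h + 3) := by
            refine mul_le_mul_of_nonneg_right (mul_le_mul_of_nonneg_right (by norm_num)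
              (by positivity)) (by positivity)
        _ = 2 ^ (4 + (4 * cc + 3) * T₀ + (g₂ 1 + h + 3)) := by rw [← pow_add, ← pow_add]
        _ ≤ _ := pw (by
            have : (4 * cc + 3) * T₀ = 4 * cc * T₀ + 3 * T₀ := by ring
            omega)
    have a2 : 4 * δ * Yu ≤ 1 / 2 ^ (g₂ 1 + h + 3) := by
      rw [hδ, hYu, hσ]
      have e1 : (4 : ℝ) * (2 ^ cM * 2 ^ w / 2 ^ w₂ * (2 ^ T₀ * 2 ^ T₀)) *
          (2 ^ (cL * (cQ * T₀ + h + k₂ + 1) + 1) / 2 ^ g₂ 1) =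
          2 ^ (2 + cM + w + T₀ + T₀ + (cL * (cQ * T₀ + h + k₂ + 1) + 1)) /
            2 ^ (w₂ + g₂ 1) := by
        rw [pow_add _ (2 + cM + w + T₀ + T₀), pow_add _ (2 + cM + w + T₀), pow_add _ (2 + cM + w),
          pow_add _ (2 + cM), pow_add _ 2, pow_add _ w₂]
        have : (2 : ℝ) ^ 2 = 4 := by norm_num
        rw [this]
        field_simp
      rw [e1, div_le_div_iff₀ (by positivity) (by positivity), one_mul, ← pow_add]
      refine pw ?_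
      have a3 : cL * (cQ * T₀ + h + k₂ + 1) ≤ cL * (2 * cQ + cO + 3) * T₀ := by
        rw [Nat.mul_assoc]
        refine Nat.mul_le_mul_left _ ?_
        have a4 : (2 * cQ + cO + 3) * T₀ = 2 * (cQ * T₀) + cO * T₀ + 3 * T₀ := by ring
        have a5 := mT cO
        rw [hk₂, a4]
        omega
      have a6 : yu * T₀ = cL * (2 * cQ + cO + 3) * T₀ + cM * T₀ + 8 * T₀ := by rw [hyu]; ring
      have a7 := mT cM
      omega
    have a3 : M = 1 / 2 ^ (g₂ 1 + h + 3) + 1 / 2 ^ (g₂ 1 + h + 3) := by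
      rw [hM, show g₂ 1 + h + 3 = (g₂ 1 + h + 2) + 1 by omega, pow_succ 2 (g₂ 1 + h + 2)]
      field_simp
      ring
    rw [a3]
    exact add_le_add a1 a2
  have hJR : R + 1 ≤ M * 2 ^ J := by
    have h1 : (1 : ℝ) ≤ R := by rw [hR]; exact one_le_pow₀ (by norm_num)
    have h2 : R + 1 ≤ 2 ^ (n' + e + nlp g 0 1 + 2) := by
      rw [show n' + e + nlp g 0 1 + 2 = (n' + e + nlp g 0 1 + 1) + 1 by omega, pow_succ, ← hR]
      linarith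
    refine h2.trans ?_
    rw [hM, div_mul_eq_mul_div, one_mul, le_div_iff₀ (by positivity), ← pow_add]
    refine pw ?_
    have a1 := hrg 0 (by norm_num)
    have a2 := hrg 1 (by norm_num)
    have a3 : max (g 0) (g 1) + e + C * T₀ ≤ J := by
      rcases le_total (g 0) (g 1) with h3 | h3
      · rw [max_eq_right h3]
        omega
      · rw [max_eq_left h3]
        omega
    omega
  have hv : ∀ ω, B₇ ω → |(bd F ω (some (c 1)) - bd F (ν₀ (ptr F J ω) ω₀) (some (c 1))) -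
      X (ptr F J ω) (some (c 1)) *
        (bd F ω (some (c 0)) - bd F (ν₀ (ptr F J ω) ω₀) (some (c 0)))| ≤ M * 2 ^ a := by
    intro ω hω
    obtain ⟨-, -, -, ⟨ν₁, hB₁, hp₁, hν₁, -, hvv⟩, -, -⟩ := hX ω (s76 ω hω) (hsep' ω hω)
    rw [hν₁ ω₀]
    refine hvv.trans ?_
    rw [hζ, hM, ← mul_div_assoc, ← pow_add, div_mul_eq_mul_div, one_mul,
      div_le_div_iff₀ (by positivity) (by positivity), ← pow_add, ← pow_add]
    exact pw (by omega)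
  refine nv_end (F := F) (c := c) (D := D) (D' := D) (D₂ := D₂) (a := a) (w := w) (w₂ := w₂)
    (e := e) (h := h) (g := g₂) (κ := κ) (M := M) (R := R) (er := er) (k₀ := k₀) (δ := δ) (Y := Y₀)
    (Yu := Yu) (B₀ := B₀) (B := B₇) (G := T₂) (H := T₂H) hcc2 hR2 hT2 hDD
    (fun ω h => hB ω (sb7 ω h)) ((mul_le_mul_of_nonneg_right (by
      have : (1 : ℝ) ≤ 2 ^ (C - 8) := one_le_pow₀ (by norm_num)
      nlinarith) (Pe_nonneg F.isLaw B₀)).trans (shk 8 B₇ (by omega) q7)) s7.1 hw hw2 haJ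
    (fun y => ν₀ y ω₀) (fun y => X y (some (c 1))) P₀ P₁ hd0 hd1 (fun ω hω => ?_) hXR hM0 hv hk00
    hlow' hδ0 hvar hrel (by rw [hY₀]; positivity) hbox1 hYu0 hbox2 hnum hJR ?_
  · obtain ⟨-, -, -, ⟨ν₁, hB₁, hp₁, hν₁, -, -⟩, -, -⟩ := hX ω (s76 ω hω) (hsep' ω hω)
    rw [hν₁ ω₀]
    exact hp₁
  · rw [hM]
    have e1 : (2 : ℝ) ^ h * (3 * (1 / 2 ^ (g₂ 1 + h + 2))) = 3 / 4 * (1 / 2 ^ g₂ 1) := by
      rw [pow_add, pow_add]
      field_simp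
      norm_num
    rw [e1]
    have : (0 : ℝ) < 1 / 2 ^ g₂ 1 := by positivity
    linarith

end Pool.NVX
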